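import Mathlib

/-! Definitions for the problem on edge-disjoint Lehman-Ron path systems in the hypercube. -/

namespace MP_8b6acb_co

/-- The vertices of the directed hypercube `{0,1}^d`. -/
abbrev Vtx (d : ℕ) := Fin d → Bool

/-- The Hamming weight `‖x‖₁`. -/
def wt {d : ℕ} (x : Vtx d) : ℕ := (Finset.univ.filter (fun k => x k = true)).card

/-- The directed edge `(x, y)`: `x` and `y` differ in exactly one coordinate and
`‖y‖₁ = ‖x‖₁ + 1`. -/
def DEdge {d : ℕ} (x y : Vtx d) : Prop := (∃! k, x k ≠ y k) ∧ wt y = wt x + 1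

/-- `x ≺ y`. -/
def Prec {d : ℕ} (x y : Vtx d) : Prop := (∀ k, x k ≤ y k) ∧ x ≠ y

/-- A matched pair: there is a bijection `φ : S → T` with `s ≺ φ s` for all `s ∈ S`. -/
def Matched {d : ℕ} (S T : Finset (Vtx d)) : Prop := ∃ φ : S ≃ T, ∀ s : S, Prec s.1 (φ s).1

/-- A directed path, given by the (nonempty) list of its vertices. -/
def IsDPath {d : ℕ} (p : List (Vtx d)) : Prop := p ≠ [] ∧ p.IsChain DEdge

/-- The list of the edges of a path. -/
def edgesOf {d : ℕ} (p : List (Vtx d)) : List (Vtx d × Vtx d) := p.zip p.tail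

/-- An LR solution: a set of `|S|` pairwise vertex-disjoint directed paths, each starting at a
vertex of `S` and ending at a vertex of `T`. -/
structure IsLRSolution {d : ℕ} (S T : Finset (Vtx d)) (P : Finset (List (Vtx d))) : Prop where
  card_eq : P.card = S.card
  path : ∀ p ∈ P, IsDPath p
  start : ∀ p ∈ P, ∃ s ∈ S, p.head? = some s
  finish : ∀ p ∈ P, ∃ t ∈ T, p.getLast? = some t
  vertex_disjoint : ∀ p ∈ P, ∀ p' ∈ P, p ≠ p' → ∀ v ∈ p, v ∉ p'

/-- There are `q` LR solutions whose union is edge-disjoint: no edge lies on paths of two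
different ones. -/
def HasEdgeDisjointLR {d : ℕ} (q : ℕ) (S T : Finset (Vtx d)) : Prop :=
  ∃ P : Fin q → Finset (List (Vtx d)), (∀ c, IsLRSolution S T (P c)) ∧
    ∀ c c', c ≠ c' → ∀ p ∈ P c, ∀ p' ∈ P c', ∀ e ∈ edgesOf p, e ∉ edgesOf p'

end MP_8b6acb_co
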