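import Mathlib

/-! Integral bipartite transportation with edge capacities (from Hall's theorem) and the
decomposition of regular bipartite multigraphs into perfect matchings. -/

namespace MP_8b6acb_co

open Finset

variable {L R : Type*} [Fintype L] [Fintype R] [DecidableEq L] [DecidableEq R]

/-- Transportation theorem: if `∑_{x ∈ X} a x ≤ ∑_{y ∈ Y} b y + κ(X, Yᶜ)` for all `X, Y`, there is an
integral `f ≤ κ` with row sums `a` and column sums at most `b`. -/
theorem transport (a : L → ℕ) (b : R → ℕ) (κ : L → R → ℕ)
    (h : ∀ (X : Finset L) (Y : Finset R),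
      ∑ x ∈ X, a x ≤ ∑ y ∈ Y, b y + ∑ x ∈ X, ∑ y ∈ Yᶜ, κ x y) :
    ∃ f : L → R → ℕ, (∀ x y, f x y ≤ κ x y) ∧ (∀ x, ∑ y, f x y = a x) ∧
      ∀ y, ∑ x, f x y ≤ b y := by
  classical
  -- edge copies
  let E := (x : L) × (y : R) × Fin (κ x y)
  let Lt := ((x : L) × Fin (a x)) ⊕ E
  let Rt := ((y : R) × Fin (b y)) ⊕ E
  let t : Lt → Finset Rt := fun l => match l with
    | Sum.inl p => univ.filter (fun r => ∃ e : E, r = Sum.inr e ∧ e.1 = p.1)
    | Sum.inr e => univ.filter (fun r => r = Sum.inr e ∨ ∃ p : (y : R) × Fin (b y), r = Sum.inl p ∧ p.1 = e.2.1)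
  have hall : ∀ s : Finset Lt, s.card ≤ (s.biUnion t).card := by
    intro s
    let Xs : Finset L := univ.filter (fun x => ∃ i, Sum.inl ⟨x, i⟩ ∈ s)
    let Es : Finset E := univ.filter (fun e => Sum.inr e ∈ s)
    let Ys : Finset R := univ.filter (fun y => ∃ e ∈ Es, e.2.1 = y)
    let Eo : Finset E := univ.filter (fun e => e.1 ∈ Xs)
    have h1 : s.card ≤ ∑ x ∈ Xs, a x + Es.card := by
      have hsub : s ⊆ (Xs.sigma (fun x => (univ : Finset (Fin (a x))))).image Sum.inl ∪
          Es.image Sum.inr := by
        intro l hl
        rcases l with p | e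
        · simp only [mem_union, mem_image, mem_sigma, mem_univ, and_true]
          left
          refine ⟨p, ?_, rfl⟩
          simp only [Xs, mem_filter, mem_univ, true_and]
          exact ⟨p.2, hl⟩
        · simp only [mem_union, mem_image]
          right
          exact ⟨e, by simp only [Es, mem_filter, mem_univ, true_and]; exact hl, rfl⟩
      refine (card_le_card hsub).trans ((card_union_le _ _).trans ?_)
      refine Nat.add_le_add (card_image_le.trans ?_) card_image_le
      rw [card_sigma]
      simp
    have h2 : ∑ y ∈ Ys, b y + (Eo ∪ Es).card ≤ (s.biUnion t).card := by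
      have hsub : (Ys.sigma (fun y => (univ : Finset (Fin (b y))))).image Sum.inl ∪
          (Eo ∪ Es).image Sum.inr ⊆ s.biUnion t := by
        intro r hr
        simp only [mem_union, mem_image, mem_sigma, mem_univ, and_true] at hr
        rw [mem_biUnion]
        rcases hr with ⟨p, hp, rfl⟩ | ⟨e, he | he, rfl⟩
        · simp only [Ys, mem_filter, mem_univ, true_and] at hp
          obtain ⟨e, he, hey⟩ := hp
          simp only [Es, mem_filter, mem_univ, true_and] at he
          refine ⟨Sum.inr e, he, ?_⟩
          simp only [t, mem_filter, mem_univ, true_and]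
          right
          exact ⟨p, rfl, hey.symm⟩
        · simp only [Eo, Xs, mem_filter, mem_univ, true_and] at he
          obtain ⟨i, hi⟩ := he
          refine ⟨Sum.inl ⟨e.1, i⟩, hi, ?_⟩
          simp only [t, mem_filter, mem_univ, true_and]
          exact ⟨e, rfl, rfl⟩
        · simp only [Es, mem_filter, mem_univ, true_and] at he
          refine ⟨Sum.inr e, he, ?_⟩
          simp only [t, mem_filter, mem_univ, true_and]
          left
          trivial
      have hd : Disjoint ((Ys.sigma (fun y => (univ : Finset (Fin (b y))))).image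
          (Sum.inl : _ → Rt)) ((Eo ∪ Es).image (Sum.inr : _ → Rt)) := by
        rw [Finset.disjoint_left]
        intro r hr hr'
        simp only [mem_image] at hr hr'
        obtain ⟨p, _, rfl⟩ := hr
        obtain ⟨e, _, he⟩ := hr'
        exact absurd he (by simp)
      refine le_trans (le_of_eq ?_) (card_le_card hsub)
      rw [card_union_of_disjoint hd, card_image_of_injective _ Sum.inl_injective,
        card_image_of_injective _ Sum.inr_injective, card_sigma]
      simp
    have h3 : ∑ x ∈ Xs, ∑ y ∈ Ysᶜ, κ x y ≤ (Eo \ Es).card := by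
      have hsub : Xs.sigma (fun x => (Ysᶜ).sigma (fun y => (univ : Finset (Fin (κ x y))))) ⊆
          Eo \ Es := by
        rintro ⟨x, y, k⟩ he
        simp only [mem_sigma, mem_univ, and_true, mem_compl] at he
        rw [mem_sdiff]
        refine ⟨?_, ?_⟩
        · simp only [Eo, mem_filter, mem_univ, true_and]
          exact he.1
        · intro hes
          apply he.2
          simp only [Ys, mem_filter, mem_univ, true_and]
          exact ⟨_, hes, rfl⟩
      refine le_trans (le_of_eq ?_) (card_le_card hsub)
      rw [card_sigma]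
      refine sum_congr rfl (fun x _ => ?_)
      rw [card_sigma]
      simp
    have h4 := h Xs Ys
    have h5 : (Eo ∪ Es).card = (Eo \ Es).card + Es.card := by
      rw [card_sdiff_add_card]
    omega
  obtain ⟨F, hF, hFt⟩ := (Finset.all_card_le_biUnion_card_iff_exists_injective t).1 hall
  -- matched edge copies
  let U : Finset E := univ.filter (fun e => ∃ p : (x : L) × Fin (a x), F (Sum.inl p) = Sum.inr e)
  have hinl : ∀ p : (x : L) × Fin (a x), ∃ e : E, F (Sum.inl p) = Sum.inr e ∧ e.1 = p.1 := by
    intro p
    have := hFt (Sum.inl p)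
    simp only [t, mem_filter, mem_univ, true_and] at this
    exact this
  have hinr : ∀ e ∈ U, ∃ p : (y : R) × Fin (b y), F (Sum.inr e) = Sum.inl p ∧ p.1 = e.2.1 := by
    intro e he
    have := hFt (Sum.inr e)
    simp only [t, mem_filter, mem_univ, true_and] at this
    rcases this with h1 | h1
    · simp only [U, mem_filter, mem_univ, true_and] at he
      obtain ⟨p, hp⟩ := he
      have := hF (hp.trans h1.symm)
      exact absurd this (by simp)
    · exact h1
  have hU : ∀ e, e ∈ U ↔ ∃ p : (x : L) × Fin (a x), F (Sum.inl p) = Sum.inr e := by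
    intro e
    simp only [U, mem_filter, mem_univ, true_and]
  clear_value U
  refine ⟨fun x y => (U.filter (fun e => e.1 = x ∧ e.2.1 = y)).card, ?_, ?_, ?_⟩
  · intro x y
    have hinj : (U.filter (fun e => e.1 = x ∧ e.2.1 = y)).card ≤
        ((univ : Finset (Fin (κ x y))).image (fun k => (⟨x, y, k⟩ : E))).card := by
      apply card_le_card
      rintro ⟨x', y', k⟩ he
      simp only [mem_filter] at he
      obtain ⟨_, rfl, rfl⟩ := he
      exact mem_image_of_mem _ (mem_univ _)
    exact hinj.trans (card_image_le.trans (by simp))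
  · intro x
    have h1 : ∑ y, (U.filter (fun e => e.1 = x ∧ e.2.1 = y)).card =
        (U.filter (fun e => e.1 = x)).card := by
      rw [card_eq_sum_card_fiberwise (f := fun e : E => e.2.1) (t := univ) (fun _ _ => mem_coe.2 (mem_univ _))]
      refine sum_congr rfl (fun y _ => ?_)
      rw [filter_filter]
    rw [h1]
    choose g hg hg1 using hinl
    have h2 : U.filter (fun e => e.1 = x) = (univ : Finset (Fin (a x))).image (fun i => g ⟨x, i⟩) := by
      ext e
      simp only [mem_filter, hU, mem_univ, true_and, mem_image]
      constructor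
      · rintro ⟨⟨p, hp⟩, rfl⟩
        have h3 : g p = e := by
          have := (hg p).symm.trans hp
          exact Sum.inr_injective this
        subst h3
        obtain ⟨x', i⟩ := p
        have h4 : (g ⟨x', i⟩).1 = x' := hg1 ⟨x', i⟩
        rw [h4]
        exact ⟨i, rfl⟩
      · rintro ⟨i, rfl⟩
        exact ⟨⟨_, hg _⟩, hg1 _⟩
    rw [h2, card_image_of_injective, card_univ, Fintype.card_fin]
    intro i i' hii
    have h3 : F (Sum.inl ⟨x, i⟩) = F (Sum.inl ⟨x, i'⟩) := by
      rw [hg, hg]
      exact congrArg Sum.inr hii
    have h4 := Sum.inl_injective (hF h3)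
    exact eq_of_heq (Sigma.mk.inj_iff.1 h4).2
  · intro y
    have h1 : ∑ x, (U.filter (fun e => e.1 = x ∧ e.2.1 = y)).card =
        (U.filter (fun e => e.2.1 = y)).card := by
      rw [card_eq_sum_card_fiberwise (f := fun e : E => e.1) (t := univ) (fun _ _ => mem_coe.2 (mem_univ _))]
      refine sum_congr rfl (fun x _ => ?_)
      rw [filter_filter]
      congr 1
      ext e
      simp only [mem_filter]
      tauto
    rw [h1]
    have h2 : ((U.filter (fun e => e.2.1 = y)).image (fun e => F (Sum.inr e))).card ≤
        ((univ : Finset (Fin (b y))).image (fun i => (Sum.inl ⟨y, i⟩ : Rt))).card := by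
      apply card_le_card
      intro r hr
      simp only [mem_image, mem_filter] at hr
      obtain ⟨e, ⟨he, rfl⟩, rfl⟩ := hr
      obtain ⟨⟨y', i⟩, hp, hpy⟩ := hinr e he
      simp only at hpy
      subst hpy
      rw [hp]
      exact mem_image_of_mem _ (mem_univ _)
    rw [card_image_of_injective] at h2
    · exact h2.trans (card_image_le.trans (by simp))
    · intro e e' hee
      exact Sum.inr_injective (hF hee)

omit [DecidableEq L] in
/-- A `q`-regular bipartite multigraph decomposes into `q` perfect matchings. -/
theorem decompose (q : ℕ) (hLR : Fintype.card L = Fintype.card R) (f : L → R → ℕ)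
    (hrow : ∀ x, ∑ y, f x y = q) (hcol : ∀ y, ∑ x, f x y ≤ q) :
    ∃ g : Fin q → L → R, (∀ c, Function.Bijective (g c)) ∧
      ∀ x y, (univ.filter (fun c => g c x = y)).card = f x y := by
  classical
  induction q generalizing f with
  | zero =>
    refine ⟨fun c => c.elim0, fun c => c.elim0, fun x y => ?_⟩
    have h1 := hrow x
    rw [sum_eq_zero_iff] at h1
    rw [h1 y (mem_univ _)]
    simp
  | succ q ih =>
    -- a perfect matching in the support
    have hall : ∀ s : Finset L, s.card ≤ (s.biUnion (fun x => univ.filter (fun y => f x y ≠ 0))).card := by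
      intro s
      have h1 : s.card * (q + 1) = ∑ x ∈ s, ∑ y, f x y := by
        rw [sum_congr rfl (fun x _ => hrow x)]
        simp
      have h2 : ∑ x ∈ s, ∑ y, f x y =
          ∑ x ∈ s, ∑ y ∈ s.biUnion (fun x => univ.filter (fun y => f x y ≠ 0)), f x y := by
        refine sum_congr rfl (fun x hx => ?_)
        symm
        apply sum_subset (subset_univ _)
        intro y _ hy
        by_contra hne
        apply hy
        rw [mem_biUnion]
        exact ⟨x, hx, by simp [hne]⟩
      rw [h2, sum_comm] at h1
      have h3 : ∑ y ∈ s.biUnion (fun x => univ.filter (fun y => f x y ≠ 0)), ∑ x ∈ s, f x y ≤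
          ∑ y ∈ s.biUnion (fun x => univ.filter (fun y => f x y ≠ 0)), (q + 1) := by
        refine sum_le_sum (fun y _ => le_trans ?_ (hcol y))
        exact sum_le_sum_of_subset (subset_univ _)
      rw [sum_const, smul_eq_mul] at h3
      rw [← h1] at h3
      exact Nat.le_of_mul_le_mul_right h3 (Nat.succ_pos q)
    obtain ⟨p, hp, hpt⟩ := (Finset.all_card_le_biUnion_card_iff_exists_injective _).1 hall
    have hpb : Function.Bijective p := (Fintype.bijective_iff_injective_and_card p).2 ⟨hp, hLR⟩
    have hp1 : ∀ x, 1 ≤ f x (p x) := by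
      intro x
      have := hpt x
      simp only [mem_filter, mem_univ, true_and] at this
      omega
    let f' : L → R → ℕ := fun x y => if p x = y then f x y - 1 else f x y
    have hf' : ∀ x y, f' x y + (if p x = y then 1 else 0) = f x y := by
      intro x y
      simp only [f']
      split_ifs with h
      · subst h; have := hp1 x; omega
      · rfl
    have hrow' : ∀ x, ∑ y, f' x y = q := by
      intro x
      have h1 : ∑ y, f' x y + ∑ y, (if p x = y then 1 else 0) = q + 1 := by
        rw [← sum_add_distrib, ← hrow x]
        exact sum_congr rfl (fun y _ => hf' x y)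
      rw [sum_ite_eq] at h1
      simp only [mem_univ, if_true] at h1
      omega
    have hcol' : ∀ y, ∑ x, f' x y ≤ q := by
      intro y
      have h1 : ∑ x, f' x y + ∑ x, (if p x = y then 1 else 0) ≤ q + 1 := by
        rw [← sum_add_distrib]
        refine le_trans (le_of_eq ?_) (hcol y)
        exact sum_congr rfl (fun x _ => hf' x y)
      obtain ⟨x0, hx0⟩ := hpb.2 y
      have h2 : 1 ≤ ∑ x, (if p x = y then 1 else 0) := by
        refine le_trans ?_ (single_le_sum (f := fun x => if p x = y then 1 else 0)
          (fun _ _ => Nat.zero_le _) (mem_univ x0))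
        simp [hx0]
      omega
    obtain ⟨g, hg, hgf⟩ := ih f' hrow' hcol'
    refine ⟨Fin.cons p g, ?_, ?_⟩
    · intro c
      refine Fin.cases ?_ (fun c => ?_) c
      · simpa using hpb
      · simpa using hg c
    · intro x y
      rw [← hf' x y, ← hgf x y]
      rw [card_filter, card_filter, Fin.sum_univ_succ]
      simp only [Fin.cons_zero, Fin.cons_succ]
      rw [add_comm]

end MP_8b6acb_co
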