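import Mathlib

/-! The square-counting inequality for a cut of the directed hypercube saturated by a flow. -/

namespace MP_8b6acb_co

open Finset

variable {α : Type*} [Fintype α] [DecidableEq α]

/-- Indicator of a family of sets. -/
def ind (A : Finset (Finset α)) (u : Finset α) : ℤ := if u ∈ A then 1 else 0

/-- Outflow at `u`. -/
def fout (M : Finset α → α → ℤ) (u : Finset α) : ℤ := ∑ a, M u a

/-- Inflow at `v`. -/
def fin (M : Finset α → α → ℤ) (v : Finset α) : ℤ := ∑ a, if a ∈ v then M (v.erase a) a else 0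

/-- Edge indicator for edges leading from `A` to `B`. -/
def kk (A B : Finset (Finset α)) (u : Finset α) (b : α) : ℤ :=
  if b ∉ u then ind A u * ind B (insert b u) else 0

/-- Sum over the squares `w, w+a, w+b, w+a+b`. -/
def sq (f : Finset α → α → α → ℤ) : ℤ :=
  ∑ w, ∑ a, ∑ b, if a ∉ w ∧ b ∉ w ∧ a ≠ b then f w a b else 0

theorem reindex (a : α) (g : Finset α → ℤ) :
    ∑ u : Finset α, (if a ∈ u then g u else 0) =
      ∑ w : Finset α, (if a ∉ w then g (insert a w) else 0) := by
  rw [← sum_filter, ← sum_filter]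
  refine sum_bij' (fun u _ => u.erase a) (fun w _ => insert a w) ?_ ?_ ?_ ?_ ?_
  · intro u _; simp
  · intro w _; simp
  · intro u hu
    simp only [mem_filter, mem_univ, true_and] at hu
    exact insert_erase hu
  · intro w hw
    simp only [mem_filter, mem_univ, true_and] at hw
    exact erase_insert hw
  · intro u hu
    simp only [mem_filter, mem_univ, true_and] at hu
    rw [insert_erase hu]

theorem sq_swap (f : Finset α → α → α → ℤ) : sq f = sq (fun w a b => f w b a) := by
  unfold sq
  refine sum_congr rfl (fun w _ => ?_)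
  rw [sum_comm]
  refine sum_congr rfl (fun a _ => sum_congr rfl (fun b _ => ?_))
  have : (b ∉ w ∧ a ∉ w ∧ b ≠ a) ↔ (a ∉ w ∧ b ∉ w ∧ a ≠ b) := by
    constructor
    · rintro ⟨h1, h2, h3⟩; exact ⟨h2, h1, h3.symm⟩
    · rintro ⟨h1, h2, h3⟩; exact ⟨h2, h1, h3.symm⟩
  by_cases h : a ∉ w ∧ b ∉ w ∧ a ≠ b
  · rw [if_pos h, if_pos (this.2 h)]
  · rw [if_neg h, if_neg (fun h' => h (this.1 h'))]

theorem sq_add (f g : Finset α → α → α → ℤ) : sq f + sq g = sq (fun w a b => f w a b + g w a b) := by
  unfold sq
  rw [← sum_add_distrib]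
  refine sum_congr rfl (fun w _ => ?_)
  rw [← sum_add_distrib]
  refine sum_congr rfl (fun a _ => ?_)
  rw [← sum_add_distrib]
  refine sum_congr rfl (fun b _ => ?_)
  split_ifs <;> simp

theorem sq_sub (f g : Finset α → α → α → ℤ) : sq f - sq g = sq (fun w a b => f w a b - g w a b) := by
  unfold sq
  rw [← sum_sub_distrib]
  refine sum_congr rfl (fun w _ => ?_)
  rw [← sum_sub_distrib]
  refine sum_congr rfl (fun a _ => ?_)
  rw [← sum_sub_distrib]
  refine sum_congr rfl (fun b _ => ?_)
  split_ifs <;> simp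

theorem sq_add' (f g : Finset α → α → α → ℤ) : sq (fun w a b => f w a b + g w a b) = sq f + sq g :=
  (sq_add f g).symm

theorem sq_sub' (f g : Finset α → α → α → ℤ) : sq (fun w a b => f w a b - g w a b) = sq f - sq g :=
  (sq_sub f g).symm

theorem sq_nonpos (f : Finset α → α → α → ℤ)
    (h : ∀ w a b, a ∉ w → b ∉ w → a ≠ b → f w a b + f w b a ≤ 0) : sq f ≤ 0 := by
  have h1 : sq f + sq f = sq (fun w a b => f w a b + f w b a) := by
    rw [← sq_add, ← sq_swap f]
  have h2 : sq (fun w a b => f w a b + f w b a) ≤ 0 := by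
    unfold sq
    refine sum_nonpos (fun w _ => sum_nonpos (fun a _ => sum_nonpos (fun b _ => ?_)))
    split_ifs with hc
    · exact h w a b hc.1 hc.2.1 hc.2.2
    · exact le_refl _
  linarith

variable (M : Finset α → α → ℤ) (g : Finset α → α → ℤ)

/-- Expansion of `∑ g(u,b) out(u)`. -/
theorem sum_out (hM : ∀ u a, a ∈ u → M u a = 0) (hg : ∀ u a, a ∈ u → g u a = 0) :
    ∑ u, ∑ b, g u b * fout M u = ∑ u, ∑ b, g u b * M u b + sq (fun w a b => g w b * M w a) := by
  unfold sq fout
  rw [← sum_add_distrib]
  refine sum_congr rfl (fun u _ => ?_)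
  have h1 : ∑ b, g u b * M u b = ∑ a, ∑ b, if a = b then g u b * M u a else 0 := by
    refine sum_congr rfl (fun a _ => ?_)
    simp
  rw [h1, ← sum_add_distrib]
  simp_rw [mul_sum]
  rw [sum_comm]
  refine sum_congr rfl (fun a _ => ?_)
  rw [← sum_add_distrib]
  refine sum_congr rfl (fun b _ => ?_)
  by_cases hab : a = b
  · subst hab; simp
  · by_cases ha : a ∈ u
    · simp [ha, hM u a ha]
    · by_cases hb : b ∈ u
      · simp [hb, hg u b hb]
      · simp [ha, hb, hab]

/-- Expansion of `∑ g(u,b) in(u)`. -/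
theorem sum_in (hg : ∀ u a, a ∈ u → g u a = 0) :
    ∑ u, ∑ b, g u b * fin M u = sq (fun w a b => g (insert a w) b * M w a) := by
  unfold sq fin
  have h1 : ∑ u, ∑ b, g u b * ∑ a, (if a ∈ u then M (u.erase a) a else 0) =
      ∑ a, ∑ b, ∑ u : Finset α, (if a ∈ u then g u b * M (u.erase a) a else 0) := by
    simp_rw [mul_sum]
    rw [sum_comm]
    have : ∀ b, ∑ u : Finset α, ∑ a, g u b * (if a ∈ u then M (u.erase a) a else 0) =
        ∑ a, ∑ u : Finset α, (if a ∈ u then g u b * M (u.erase a) a else 0) := by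
      intro b
      rw [sum_comm]
      refine sum_congr rfl (fun a _ => sum_congr rfl (fun u _ => ?_))
      rw [mul_ite, mul_zero]
    simp_rw [this]
    rw [sum_comm]
  rw [h1]
  simp_rw [reindex]
  have h2 : ∀ a b, ∑ w : Finset α, (if a ∉ w then g (insert a w) b * M ((insert a w).erase a) a else 0) =
      ∑ w : Finset α, (if a ∉ w ∧ b ∉ w ∧ a ≠ b then g (insert a w) b * M w a else 0) := by
    intro a b
    refine sum_congr rfl (fun w _ => ?_)
    by_cases ha : a ∈ w
    · simp [ha]
    · rw [erase_insert ha]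
      by_cases hab : a = b
      · subst hab
        simp [hg (insert a w) a (mem_insert_self _ _)]
      · by_cases hb : b ∈ w
        · simp [hb, hg (insert a w) b (mem_insert_of_mem hb)]
        · simp [ha, hb, hab]
  simp_rw [h2]
  have h3 : ∀ a, ∑ b, ∑ w : Finset α, (if a ∉ w ∧ b ∉ w ∧ a ≠ b then g (insert a w) b * M w a else 0)
      = ∑ w : Finset α, ∑ b, (if a ∉ w ∧ b ∉ w ∧ a ≠ b then g (insert a w) b * M w a else 0) :=
    fun a => sum_comm
  simp_rw [h3]
  rw [sum_comm]

/-- Expansion of `∑ g(u,b) out(u+b)`. -/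
theorem sum_out_head (hM : ∀ u a, a ∈ u → M u a = 0) (hg : ∀ u a, a ∈ u → g u a = 0) :
    ∑ u, ∑ b, g u b * fout M (insert b u) = sq (fun w a b => g w a * M (insert a w) b) := by
  unfold sq fout
  refine sum_congr rfl (fun u _ => sum_congr rfl (fun a _ => ?_))
  rw [mul_sum]
  refine sum_congr rfl (fun b _ => ?_)
  by_cases ha : a ∈ u
  · simp [ha, hg u a ha]
  · by_cases hab : a = b
    · subst hab
      simp [hM (insert a u) a (mem_insert_self _ _)]
    · by_cases hb : b ∈ u
      · simp [hb, hM (insert a u) b (mem_insert_of_mem hb)]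
      · simp [ha, hb, hab]

/-- Expansion of `∑ g(u,b) in(u+b)`. -/
theorem sum_in_head (hg : ∀ u a, a ∈ u → g u a = 0) :
    ∑ u, ∑ b, g u b * fin M (insert b u) =
      ∑ u, ∑ b, g u b * M u b + sq (fun w a b => g (insert b w) a * M (insert a w) b) := by
  have h1 : ∀ u b, g u b * fin M (insert b u) =
      g u b * M u b + ∑ c, (if c ∈ u then g u b * M ((insert b u).erase c) c else 0) := by
    intro u b
    by_cases hb : b ∈ u
    · simp [hg u b hb]
    · have h2 : fin M (insert b u) = M u b + ∑ c, (if c ∈ u then M ((insert b u).erase c) c else 0) := by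
        unfold fin
        have h3 : M u b = ∑ c, (if c = b then M u b else 0) := by simp
        rw [h3, ← sum_add_distrib]
        refine sum_congr rfl (fun c _ => ?_)
        by_cases hc : c = b
        · subst hc
          simp [hb]
        · simp [hc]
      rw [h2, mul_add, mul_sum]
      congr 1
      refine sum_congr rfl (fun c _ => ?_)
      rw [mul_ite, mul_zero]
  simp_rw [h1, sum_add_distrib]
  congr 1
  rw [sum_comm]
  have h4 : ∀ b, ∑ u : Finset α, ∑ c, (if c ∈ u then g u b * M ((insert b u).erase c) c else 0) =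
      ∑ c, ∑ w : Finset α, (if c ∉ w ∧ b ∉ w ∧ c ≠ b then g (insert c w) b * M (insert b w) c else 0) := by
    intro b
    rw [sum_comm]
    refine sum_congr rfl (fun c _ => ?_)
    rw [reindex]
    refine sum_congr rfl (fun w _ => ?_)
    by_cases hc : c ∈ w
    · simp [hc]
    · by_cases hbc : c = b
      · subst hbc
        simp [hg (insert c w) c (mem_insert_self _ _)]
      · by_cases hb : b ∈ w
        · simp [hb, hg (insert c w) b (mem_insert_of_mem hb)]
        · have h5 : (insert b (insert c w)).erase c = insert b w := by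
            rw [Finset.insert_comm, erase_insert]
            simp [hbc, hc]
          simp [hc, hb, hbc, h5]
  simp_rw [h4]
  rw [sq_swap]
  unfold sq
  have h6 : ∀ b, ∑ c, ∑ w : Finset α, (if c ∉ w ∧ b ∉ w ∧ c ≠ b then g (insert c w) b * M (insert b w) c else 0)
      = ∑ w : Finset α, ∑ c, (if c ∉ w ∧ b ∉ w ∧ c ≠ b then g (insert c w) b * M (insert b w) c else 0) :=
    fun b => sum_comm
  simp_rw [h6]
  rw [sum_comm]
  refine sum_congr rfl (fun w _ => ?_)
  rw [sum_comm]

/-- A cut `(A, X, B)` saturated by a flow `M`. -/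
structure CutFlow (A B X : Finset (Finset α)) (M : Finset α → α → ℤ) (q : ℤ) : Prop where
  M0 : ∀ u a, 0 ≤ M u a
  M1 : ∀ u a, M u a ≤ 1
  Mval : ∀ u a, a ∈ u → M u a = 0
  AB : Disjoint A B
  AX : Disjoint A X
  BX : Disjoint B X
  cut : ∀ u a, u ∈ A → a ∉ u → insert a u ∈ B → M u a = 1
  toA : ∀ u a, a ∉ u → insert a u ∈ A → u ∉ A → M u a = 0
  toX : ∀ u a, a ∉ u → insert a u ∈ X → u ∉ A → M u a = 0
  toB : ∀ u a, a ∉ u → (u ∈ B ∨ u ∈ X) → insert a u ∉ B → M u a = 0
  inX : ∀ x ∈ X, fin M x = q
  outX : ∀ x ∈ X, fout M x = q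
  conv : ∀ w a b, w ∈ A → a ∉ w → b ∉ w → a ≠ b → insert b (insert a w) ∈ B →
    insert a w ∈ A ∨ insert a w ∈ B ∨ insert a w ∈ X

omit [Fintype α] in
theorem kk_mem (A B : Finset (Finset α)) : ∀ u b, b ∈ u → kk A B u b = 0 := by
  intro u b hb
  simp [kk, hb]

omit [DecidableEq α] in
theorem sum_mul_sub (k F G : Finset α → α → ℤ) :
    ∑ u, ∑ b, k u b * (F u b - G u b) = ∑ u, ∑ b, k u b * F u b - ∑ u, ∑ b, k u b * G u b := by
  simp_rw [mul_sub, sum_sub_distrib]

omit [DecidableEq α] in
theorem sum_mul_const (k : Finset α → α → ℤ) (q : ℤ) :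
    ∑ u, ∑ b, k u b * q = q * ∑ u, ∑ b, k u b := by
  simp_rw [mul_sum]
  exact sum_congr rfl (fun u _ => sum_congr rfl (fun b _ => mul_comm _ _))

variable {M} {A B X : Finset (Finset α)} {q : ℤ}

theorem CutFlow.sum_cut (h : CutFlow A B X M q) :
    ∑ u, ∑ b, kk A B u b * M u b = ∑ u, ∑ b, kk A B u b := by
  refine sum_congr rfl (fun u _ => sum_congr rfl (fun b _ => ?_))
  unfold kk ind
  by_cases hb : b ∈ u
  · simp [hb]
  · by_cases hA : u ∈ A
    · by_cases hB : insert b u ∈ B
      · simp [hb, hA, hB, h.cut u b hA hb hB]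
      · simp [hB]
    · simp [hA]

theorem CutFlow.sum_AX (h : CutFlow A B X M q) :
    ∑ u, ∑ b, kk A X u b * M u b = q * X.card := by
  have h1 : ∑ u, ∑ b, kk A X u b * M u b = ∑ b, ∑ u : Finset α,
      (if b ∉ u then (ind X (insert b u) * M ((insert b u).erase b) b) else 0) := by
    rw [sum_comm]
    refine sum_congr rfl (fun b _ => sum_congr rfl (fun u _ => ?_))
    unfold kk ind
    by_cases hb : b ∈ u
    · simp [hb]
    · rw [erase_insert hb]
      by_cases hA : u ∈ A
      · simp [hb, hA]
      · by_cases hX : insert b u ∈ X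
        · simp [hb, hA, hX, h.toX u b hb hX hA]
        · simp [hX]
  rw [h1]
  have h0 : ∀ b, ∑ u : Finset α, (if b ∉ u then (ind X (insert b u) * M ((insert b u).erase b) b) else 0)
      = ∑ v : Finset α, (if b ∈ v then ind X v * M (v.erase b) b else 0) :=
    fun b => (reindex b (fun v => ind X v * M (v.erase b) b)).symm
  simp_rw [h0]
  rw [sum_comm]
  have h2 : ∀ v, ∑ b, (if b ∈ v then ind X v * M (v.erase b) b else 0) = ind X v * q := by
    intro v
    have h3 : ∑ b, (if b ∈ v then ind X v * M (v.erase b) b else 0) = ind X v * fin M v := by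
      unfold fin
      rw [mul_sum]
      refine sum_congr rfl (fun b _ => ?_)
      rw [mul_ite, mul_zero]
    rw [h3]
    unfold ind
    by_cases hX : v ∈ X
    · simp [hX, h.inX v hX]
    · simp [hX]
  simp_rw [h2]
  rw [← sum_mul]
  unfold ind
  rw [sum_boole]
  simp [mul_comm]

theorem CutFlow.sum_XB (h : CutFlow A B X M q) :
    ∑ u, ∑ b, kk X B u b * M u b = q * X.card := by
  have h2 : ∀ u, ∑ b, kk X B u b * M u b = ind X u * q := by
    intro u
    have h3 : ∑ b, kk X B u b * M u b = ind X u * fout M u := by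
      unfold fout
      rw [mul_sum]
      refine sum_congr rfl (fun b _ => ?_)
      unfold kk ind
      by_cases hb : b ∈ u
      · simp [hb, h.Mval u b hb]
      · by_cases hX : u ∈ X
        · by_cases hB : insert b u ∈ B
          · simp [hb, hX, hB]
          · simp [hB, h.toB u b hb (Or.inr hX) hB]
        · simp [hX]
    rw [h3]
    unfold ind
    by_cases hX : u ∈ X
    · simp [hX, h.outX u hX]
    · simp [hX]
  simp_rw [h2]
  rw [← sum_mul]
  unfold ind
  rw [sum_boole]
  simp [mul_comm]

theorem CutFlow.q_AX (h : CutFlow A B X M q) :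
    q * ∑ u, ∑ b, kk A X u b = ∑ u, ∑ b, kk A X u b * fout M (insert b u) := by
  rw [mul_sum]
  refine sum_congr rfl (fun u _ => ?_)
  rw [mul_sum]
  refine sum_congr rfl (fun b _ => ?_)
  unfold kk ind
  by_cases hX : insert b u ∈ X
  · rw [h.outX _ hX]; ring
  · simp [hX]

theorem CutFlow.q_XB (h : CutFlow A B X M q) :
    q * ∑ u, ∑ b, kk X B u b = ∑ u, ∑ b, kk X B u b * fin M u := by
  rw [mul_sum]
  refine sum_congr rfl (fun u _ => ?_)
  rw [mul_sum]
  refine sum_congr rfl (fun b _ => ?_)
  unfold kk ind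
  by_cases hX : u ∈ X
  · rw [h.inX _ hX]; ring
  · simp [hX]

/-- The integrand of the square inequality. -/
def theta (A B X : Finset (Finset α)) (M : Finset α → α → ℤ) (w : Finset α) (a b : α) : ℤ :=
  kk A X w a * M (insert a w) b - kk A X w b * M w a + kk X B (insert a w) b * M w a
    - kk X B (insert b w) a * M (insert a w) b - kk A B w b * M w a + kk A B (insert a w) b * M w a
    - kk A B (insert b w) a * M (insert a w) b + kk A B w a * M (insert a w) b

theorem CutFlow.theta_le (h : CutFlow A B X M q) (w : Finset α) (a b : α) (ha : a ∉ w)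
    (hb : b ∉ w) (hab : a ≠ b) : theta A B X M w a b + theta A B X M w b a ≤ 0 := by
  have hby : b ∉ insert a w := by simp [hb, Ne.symm hab]
  have hay' : a ∉ insert b w := by simp [ha, hab]
  have hz : insert a (insert b w) = insert b (insert a w) := Finset.insert_comm _ _ _
  have c1 := h.M0 w a
  have c2 := h.M0 w b
  have c3 := h.M0 (insert a w) b
  have c4 := h.M0 (insert b w) a
  have d1 := h.M1 w a
  have d2 := h.M1 w b
  have d3 := h.M1 (insert a w) b
  have d4 := h.M1 (insert b w) a
  have e1 := h.cut w a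
  have e2 := h.cut w b
  have e3 := h.cut (insert a w) b
  have e4 := h.cut (insert b w) a
  have f1 := h.toA w a ha
  have f2 := h.toA w b hb
  have f3 := h.toX w a ha
  have f4 := h.toX w b hb
  have g1 := h.toB (insert a w) b hby
  have g2 := h.toB (insert b w) a hay'
  have i1 := h.conv w a b
  have i2 := h.conv w b a
  have j1 : insert a w ∈ A → insert a w ∉ B := fun p => Finset.disjoint_left.1 h.AB p
  have j2 : insert a w ∈ A → insert a w ∉ X := fun p => Finset.disjoint_left.1 h.AX p
  have j3 : insert a w ∈ B → insert a w ∉ X := fun p => Finset.disjoint_left.1 h.BX p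
  have j4 : insert b w ∈ A → insert b w ∉ B := fun p => Finset.disjoint_left.1 h.AB p
  have j5 : insert b w ∈ A → insert b w ∉ X := fun p => Finset.disjoint_left.1 h.AX p
  have j6 : insert b w ∈ B → insert b w ∉ X := fun p => Finset.disjoint_left.1 h.BX p
  unfold theta kk ind
  rw [hz] at e4 g2 i2 ⊢
  simp only [ha, hb, hby, hay', not_false_eq_true, if_true, true_implies, hab, Ne.symm hab, ne_eq] at *
  generalize M w a = m1 at *
  generalize M w b = m2 at *
  generalize M (insert a w) b = m3 at *
  generalize M (insert b w) a = m4 at *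
  by_cases hw : w ∈ A <;> by_cases hzB : insert b (insert a w) ∈ B <;>
  by_cases y1 : insert a w ∈ A <;> by_cases y2 : insert a w ∈ B <;> by_cases y3 : insert a w ∈ X <;>
  by_cases v1 : insert b w ∈ A <;> by_cases v2 : insert b w ∈ B <;> by_cases v3 : insert b w ∈ X <;>
  simp only [hw, hzB, y1, y2, y3, v1, v2, v3, if_true, if_false, not_true_eq_false,
    not_false_eq_true, true_implies, false_implies, or_true, or_false,
    imp_false, implies_true] at * <;>
  omega

/-- The square inequality (★). -/
theorem CutFlow.star (h : CutFlow A B X M q) :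
    2 * ∑ u, ∑ b, kk A B u b + 2 * (q * X.card) + ∑ u, ∑ b, kk A X u b * (q - fout M u) +
      ∑ u, ∑ b, kk X B u b * (q - fin M (insert b u)) ≤
    ∑ u, ∑ b, kk A B u b * (fout M u - fin M u) +
      ∑ u, ∑ b, kk A B u b * (fin M (insert b u) - fout M (insert b u)) := by
  have E1 := sum_in M (kk A B) (kk_mem A B)
  have E2 := sum_out M (kk A B) h.Mval (kk_mem A B)
  have E3 := sum_out_head M (kk A B) h.Mval (kk_mem A B)
  have E4 := sum_in_head M (kk A B) (kk_mem A B)
  have E5 := sum_out M (kk A X) h.Mval (kk_mem A X)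
  have E6 := sum_in M (kk X B) (kk_mem X B)
  have E7 := sum_in_head M (kk X B) (kk_mem X B)
  have E8 := sum_out_head M (kk A X) h.Mval (kk_mem A X)
  rw [h.sum_cut] at E2 E4
  rw [h.sum_AX] at E5
  rw [h.sum_XB] at E7
  rw [← h.q_AX] at E8
  rw [← h.q_XB] at E6
  have E9 : sq (fun w a b => theta A B X M w a b) ≤ 0 :=
    sq_nonpos _ (fun w a b ha hb hab => h.theta_le w a b ha hb hab)
  simp only [theta, sq_add', sq_sub'] at E9
  have s1 := sum_mul_sub (kk A X) (fun _ _ => q) (fun u _ => fout M u)
  have s2 := sum_mul_sub (kk X B) (fun _ _ => q) (fun u b => fin M (insert b u))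
  have s3 := sum_mul_sub (kk A B) (fun u _ => fout M u) (fun u _ => fin M u)
  have s4 := sum_mul_sub (kk A B) (fun u b => fin M (insert b u)) (fun u b => fout M (insert b u))
  have s5 := sum_mul_const (kk A X) q
  have s6 := sum_mul_const (kk X B) q
  rw [s1, s2, s3, s4, s5, s6]
  generalize ∑ u, ∑ b, kk A B u b = v0 at *
  generalize ∑ u, ∑ b, kk A X u b = v1 at *
  generalize ∑ u, ∑ b, kk X B u b = v2 at *
  linarith

theorem CutFlow.dir_le (h : CutFlow A B ∅ M q) (w : Finset α) (a g : α) (ha : a ∉ w)
    (hg : g ∉ w) (hag : a ≠ g) :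
    kk A B (insert a w) g * M w a - kk A B w g * M w a + kk A B w g * M (insert g w) a
      - kk A B (insert a w) g * M (insert g w) a ≤ 0 := by
  have hby : g ∉ insert a w := by simp [hg, Ne.symm hag]
  have hay' : a ∉ insert g w := by simp [ha, hag]
  have hz : insert a (insert g w) = insert g (insert a w) := Finset.insert_comm _ _ _
  have c1 := h.M0 w a
  have c4 := h.M0 (insert g w) a
  have d1 := h.M1 w a
  have d4 := h.M1 (insert g w) a
  have e1 := h.cut w a
  have e4 := h.cut (insert g w) a
  have f1 := h.toA w a ha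
  have g2 := h.toB (insert g w) a hay'
  have i1 := h.conv w a g
  have i2 := h.conv w g a
  have j1 : insert a w ∈ A → insert a w ∉ B := fun p => Finset.disjoint_left.1 h.AB p
  have j4 : insert g w ∈ A → insert g w ∉ B := fun p => Finset.disjoint_left.1 h.AB p
  unfold kk ind
  rw [hz] at e4 g2 i2
  simp only [ha, hg, hby, hay', not_false_eq_true, if_true, true_implies, hag, Ne.symm hag, ne_eq,
    notMem_empty, or_false] at *
  generalize M w a = m1 at *
  generalize M (insert g w) a = m4 at *
  by_cases hw : w ∈ A <;> by_cases hzB : insert g (insert a w) ∈ B <;>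
  by_cases y1 : insert a w ∈ A <;> by_cases y2 : insert a w ∈ B <;>
  by_cases v1 : insert g w ∈ A <;> by_cases v2 : insert g w ∈ B <;>
  simp only [hw, hzB, y1, y2, v1, v2, if_true, if_false, not_true_eq_false,
    not_false_eq_true, true_implies, false_implies, or_true, or_false,
    imp_false, implies_true] at * <;>
  omega

/-- Edge indicator in one direction. -/
def kd (A B : Finset (Finset α)) (g : α) (u : Finset α) (b : α) : ℤ :=
  if b = g then kk A B u b else 0

/-- The square inequality in one direction, when there are no fully cut vertices. -/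
theorem CutFlow.dir (h : CutFlow A B ∅ M q) (g : α) :
    2 * ∑ u, kk A B u g ≤
    ∑ u, kk A B u g * (fout M u - fin M u) +
      ∑ u, kk A B u g * (fin M (insert g u) - fout M (insert g u)) := by
  have hk : ∀ u b, b ∈ u → kd A B g u b = 0 := by
    intro u b hb
    simp [kd, kk, hb]
  have E1 := sum_in M (kd A B g) hk
  have E2 := sum_out M (kd A B g) h.Mval hk
  have E3 := sum_out_head M (kd A B g) h.Mval hk
  have E4 := sum_in_head M (kd A B g) hk
  have r1 : ∀ F : Finset α → α → ℤ, ∑ u, ∑ b, kd A B g u b * F u b = ∑ u, kk A B u g * F u g := by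
    intro F
    refine sum_congr rfl (fun u _ => ?_)
    rw [sum_eq_single g]
    · simp [kd]
    · intro b _ hb
      simp [kd, hb]
    · intro hg
      exact absurd (mem_univ _) hg
  have r2 : ∑ u, kk A B u g * M u g = ∑ u, kk A B u g := by
    refine sum_congr rfl (fun u _ => ?_)
    unfold kk ind
    by_cases hb : g ∈ u
    · simp [hb]
    · by_cases hA : u ∈ A
      · by_cases hB : insert g u ∈ B
        · simp [hb, hA, hB, h.cut u g hA hb hB]
        · simp [hB]
      · simp [hA]
  rw [r1 (fun u _ => fin M u)] at E1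
  rw [r1 (fun u _ => fout M u), r1 M, r2] at E2
  rw [r1 (fun u b => fout M (insert b u))] at E3
  rw [r1 (fun u b => fin M (insert b u)), r1 M, r2] at E4
  have E9 : sq (fun w a b => kd A B g (insert a w) b * M w a - kd A B g w b * M w a +
      kd A B g w a * M (insert a w) b - kd A B g (insert b w) a * M (insert a w) b) ≤ 0 := by
    apply sq_nonpos
    intro w a b ha hb hab
    by_cases ag : a = g
    · have bg : b ≠ g := fun h' => hab (ag.trans h'.symm)
      subst ag
      have := h.dir_le w b a hb ha (Ne.symm hab)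
      simp only [kd, if_true, if_neg bg]
      linarith
    · by_cases bg : b = g
      · subst bg
        have := h.dir_le w a b ha hb hab
        simp only [kd, if_true, if_neg ag]
        linarith
      · simp only [kd, if_neg ag, if_neg bg]
        simp
  simp only [sq_add', sq_sub'] at E9
  have s3 : ∑ u, kk A B u g * (fout M u - fin M u) =
      ∑ u, kk A B u g * fout M u - ∑ u, kk A B u g * fin M u := by
    simp_rw [mul_sub, sum_sub_distrib]
  have s4 : ∑ u, kk A B u g * (fin M (insert g u) - fout M (insert g u)) =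
      ∑ u, kk A B u g * fin M (insert g u) - ∑ u, kk A B u g * fout M (insert g u) := by
    simp_rw [mul_sub, sum_sub_distrib]
  rw [s3, s4]
  linarith

end MP_8b6acb_co
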