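import Mathlib
import Pool.Agent.Work.MP_8b6acb_co.Flow
import Pool.Agent.Work.MP_8b6acb_co.Star

/-! Cuts of the middle layers, and flows saturating them. -/

set_option linter.unusedSectionVars false

namespace MP_8b6acb_co

open Finset

variable {α : Type*} [Fintype α] [DecidableEq α]

/-- The cost of the cut `A`. -/
def cost (q i j : ℕ) (T A : Finset (Finset α)) : ℕ :=
  ∑ v : Finset α, if (v ∈ Mid i j ∨ v ∈ T) ∧ v ∉ A then min q (dg A v) else 0

/-- Vertices outside `A` all of whose edges from `A` are cut. -/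
def Bset (q i j : ℕ) (T A : Finset (Finset α)) : Finset (Finset α) :=
  univ.filter fun v => (v ∈ Mid i j ∨ v ∈ T) ∧ v ∉ A ∧ dg A v ≤ q

/-- Vertices outside `A` which are cut. -/
def Xset (q i j : ℕ) (T A : Finset (Finset α)) : Finset (Finset α) :=
  univ.filter fun v => (v ∈ Mid i j ∨ v ∈ T) ∧ v ∉ A ∧ q < dg A v

theorem mem_B {q i j : ℕ} {T A : Finset (Finset α)} {v : Finset α} :
    v ∈ Bset q i j T A ↔ (v ∈ Mid i j ∨ v ∈ T) ∧ v ∉ A ∧ dg A v ≤ q := by simp [Bset]

theorem mem_X {q i j : ℕ} {T A : Finset (Finset α)} {v : Finset α} :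
    v ∈ Xset q i j T A ↔ (v ∈ Mid i j ∨ v ∈ T) ∧ v ∉ A ∧ q < dg A v := by simp [Xset]

/-- Inflow from `A`. -/
def Nin (A : Finset (Finset α)) (M : Finset α → α → ℕ) (v : Finset α) : ℕ :=
  ∑ x, if x ∈ v then (if v.erase x ∈ A then M (v.erase x) x else 0) else 0

/-- Inflow from outside `A`. -/
def Oin (A : Finset (Finset α)) (M : Finset α → α → ℕ) (v : Finset α) : ℕ :=
  ∑ x, if x ∈ v then (if v.erase x ∉ A then M (v.erase x) x else 0) else 0

theorem inf_eq (A : Finset (Finset α)) (M : Finset α → α → ℕ) (v : Finset α) :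
    inf M v = Nin A M v + Oin A M v := by
  unfold inf Nin Oin
  rw [← sum_add_distrib]
  refine sum_congr rfl (fun x _ => ?_)
  by_cases h1 : x ∈ v <;> by_cases h2 : v.erase x ∈ A <;> simp [h1, h2]

theorem sum_Nin (A : Finset (Finset α)) (M : Finset α → α → ℕ) (hval : ∀ u x, x ∈ u → M u x = 0) :
    ∑ v, Nin A M v = ∑ u ∈ A, ∑ x, M u x := by
  unfold Nin
  rw [sum_comm, ← sum_mem]
  have h1 : ∀ x : α, ∑ v : Finset α, (if x ∈ v then (if v.erase x ∈ A then M (v.erase x) x else 0) else 0)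
      = ∑ w : Finset α, (if w ∈ A then M w x else 0) := by
    intro x
    rw [reindexN x (fun v => if v.erase x ∈ A then M (v.erase x) x else 0)]
    refine sum_congr rfl (fun w _ => ?_)
    by_cases hx : x ∈ w
    · simp [hx, hval w x hx]
    · simp [hx, erase_insert hx]
  simp_rw [h1]
  rw [sum_comm]
  refine sum_congr rfl (fun w _ => ?_)
  by_cases hw : w ∈ A <;> simp [hw]

theorem Nin_le_dg {q i j : ℕ} {S T : Finset (Finset α)} {a b : Finset α → ℕ}
    {M : Finset α → α → ℕ} (hM : IsFlow q i j S T a b M) (A : Finset (Finset α)) (v : Finset α) :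
    Nin A M v ≤ dg A v := by
  rw [dg_eq_sum]
  unfold Nin
  refine sum_le_sum (fun x _ => ?_)
  have := hM.le_one (v.erase x) x
  by_cases h1 : x ∈ v <;> by_cases h2 : v.erase x ∈ A <;> simp [h1, h2, this]

theorem saturate {q i j : ℕ} {S T A : Finset (Finset α)} {a b : Finset α → ℕ}
    {M : Finset α → α → ℕ} (hM : IsFlow q i j S T a b M) (hS : ∀ s ∈ S, s.card = i)
    (hT : ∀ t ∈ T, t.card = j) (hij : i < j)
    (hSA : S ⊆ A) (hA : ∀ u ∈ A, u ∈ S ∨ u ∈ Mid i j) (hb : ∀ t ∈ T, b t ≤ q)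
    (hcost : cost q i j T A ≤ ∑ s ∈ S, a s) :
    (∀ v, v ∉ A → (v ∈ Mid i j ∨ v ∈ T) → Nin A M v = min q (dg A v)) ∧
      (∀ v ∈ A, Oin A M v = 0) := by
  have hinf0 : ∀ v, v ∉ Mid i j → v ∉ T → inf M v = 0 := by
    intro v h1 h2
    unfold inf
    apply sum_eq_zero
    intro x _
    by_cases hx : x ∈ v
    · rw [if_pos hx]
      by_contra hne
      have := hM.head _ _ hne
      rw [insert_erase hx] at this
      tauto
    · simp [hx]
  have hSM : ∀ s ∈ S, s ∉ Mid i j := by
    intro s hs hm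
    rw [mem_Mid, hS s hs] at hm
    omega
  have hST : ∀ s ∈ S, s ∉ T := by
    intro s hs ht
    have h1 := hS s hs
    have h2 := hT s ht
    omega
  have hle : ∀ v, v ∉ A → Nin A M v ≤
      if (v ∈ Mid i j ∨ v ∈ T) ∧ v ∉ A then min q (dg A v) else 0 := by
    intro v hv
    have h0 := inf_eq A M v
    by_cases hc : v ∈ Mid i j ∨ v ∈ T
    · rw [if_pos ⟨hc, hv⟩]
      apply le_min _ (Nin_le_dg hM A v)
      rcases hc with h | h
      · have h1 := hM.mid v h
        have h2 := hM.mid_le v h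
        omega
      · have h1 := hM.snk v h
        have h2 := hb v h
        omega
    · push Not at hc
      have := hinf0 v hc.1 hc.2
      omega
  have hout : ∑ u ∈ A, ∑ x, M u x = ∑ s ∈ S, a s + ∑ v ∈ A, inf M v := by
    rw [← sum_sdiff hSA, ← sum_sdiff hSA (f := fun v => inf M v)]
    have h1 : ∑ u ∈ A \ S, ∑ x, M u x = ∑ u ∈ A \ S, inf M u := by
      refine sum_congr rfl (fun u hu => ?_)
      rw [mem_sdiff] at hu
      exact hM.mid u ((hA u hu.1).resolve_left hu.2)
    have h2 : ∑ u ∈ S, ∑ x, M u x = ∑ s ∈ S, a s := sum_congr rfl hM.src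
    have h3 : ∑ u ∈ S, inf M u = 0 := sum_eq_zero (fun u hu => hinf0 u (hSM u hu) (hST u hu))
    rw [h1, h2, h3]
    ring
  have hN := sum_Nin A M hM.val
  rw [hout, ← sum_add_sum_compl A] at hN
  have h4 : ∑ v ∈ A, inf M v = ∑ v ∈ A, Nin A M v + ∑ v ∈ A, Oin A M v := by
    rw [← sum_add_distrib]
    exact sum_congr rfl (fun v _ => inf_eq A M v)
  have h5 : ∑ v ∈ Aᶜ, (if (v ∈ Mid i j ∨ v ∈ T) ∧ v ∉ A then min q (dg A v) else 0) = cost q i j T A := by
    unfold cost
    rw [← sum_add_sum_compl A]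
    have : ∑ v ∈ A, (if (v ∈ Mid i j ∨ v ∈ T) ∧ v ∉ A then min q (dg A v) else 0) = 0 :=
      sum_eq_zero (fun v hv => by simp [hv])
    rw [this, zero_add]
  have h6 : ∑ v ∈ Aᶜ, Nin A M v ≤
      ∑ v ∈ Aᶜ, (if (v ∈ Mid i j ∨ v ∈ T) ∧ v ∉ A then min q (dg A v) else 0) :=
    sum_le_sum (fun v hv => hle v (mem_compl.1 hv))
  have h7 : ∑ v ∈ A, Oin A M v = 0 := by omega
  have h8 : ∑ v ∈ Aᶜ, Nin A M v =
      ∑ v ∈ Aᶜ, (if (v ∈ Mid i j ∨ v ∈ T) ∧ v ∉ A then min q (dg A v) else 0) := by omega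
  constructor
  · intro v hv hc
    have := (sum_eq_sum_iff_of_le (fun v hv => hle v (mem_compl.1 hv))).1 h8 v (mem_compl.2 hv)
    rw [this, if_pos ⟨hc, hv⟩]
  · exact fun v hv => (sum_eq_zero_iff.1 h7) v hv

/-- A saturated cut gives a `CutFlow`. -/
theorem toCutFlow {q i j : ℕ} {S T A : Finset (Finset α)} {a b : Finset α → ℕ}
    {M : Finset α → α → ℕ} (hM : IsFlow q i j S T a b M) (hS : ∀ s ∈ S, s.card = i)
    (hT : ∀ t ∈ T, t.card = j) (hij : i < j)
    (hSA : S ⊆ A) (hA : ∀ u ∈ A, u ∈ S ∨ u ∈ Mid i j) (hb : ∀ t ∈ T, b t ≤ q)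
    (hTq : ∀ t ∈ T, dg A t ≤ q)
    (hcost : cost q i j T A ≤ ∑ s ∈ S, a s) :
    CutFlow A (Bset q i j T A) (Xset q i j T A) (fun u x => (M u x : ℤ)) q := by
  obtain ⟨hsat, hback⟩ := saturate hM hS hT hij hSA hA hb hcost
  have hOz : ∀ v, Oin A M v = 0 → ∀ x ∈ v, v.erase x ∉ A → M (v.erase x) x = 0 := by
    intro v h x hx hxA
    unfold Oin at h
    have := (sum_eq_zero_iff.1 h) x (mem_univ _)
    simpa [hx, hxA] using this
  have hNX : ∀ v ∈ Xset q i j T A, Nin A M v = q := by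
    intro v hv
    rw [mem_X] at hv
    rw [hsat v hv.2.1 hv.1]
    omega
  have hXM : ∀ v ∈ Xset q i j T A, v ∈ Mid i j := by
    intro v hv
    rw [mem_X] at hv
    rcases hv.1 with h | h
    · exact h
    · have := hTq v h
      omega
  have hOX : ∀ v ∈ Xset q i j T A, Oin A M v = 0 ∧ inf M v = q := by
    intro v hv
    have h1 := hNX v hv
    have h2 := hXM v hv
    have h3 := hM.mid v h2
    have h4 := hM.mid_le v h2
    have h5 := inf_eq A M v
    omega
  have htoA : ∀ u a, a ∉ u → insert a u ∈ A → u ∉ A → M u a = 0 := by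
    intro u a ha h1 h2
    have := hOz _ (hback _ h1) a (mem_insert_self _ _)
    rw [erase_insert ha] at this
    exact this h2
  have htoX : ∀ u a, a ∉ u → insert a u ∈ Xset q i j T A → u ∉ A → M u a = 0 := by
    intro u a ha h1 h2
    have := hOz _ (hOX _ h1).1 a (mem_insert_self _ _)
    rw [erase_insert ha] at this
    exact this h2
  have hAT : ∀ v ∈ A, v ∉ T := by
    intro v hv ht
    have h2 := hT v ht
    rcases hA v hv with h | h
    · have h1 := hS v h
      omega
    · rw [mem_Mid] at h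
      omega
  refine ⟨?_, ?_, ?_, ?_, ?_, ?_, ?_, ?_, ?_, ?_, ?_, ?_, ?_⟩
  · intro u a; positivity
  · intro u a; exact_mod_cast hM.le_one u a
  · intro u a h; exact_mod_cast hM.val u a h
  · rw [Finset.disjoint_left]; intro v h1 h2; rw [mem_B] at h2; exact h2.2.1 h1
  · rw [Finset.disjoint_left]; intro v h1 h2; rw [mem_X] at h2; exact h2.2.1 h1
  · rw [Finset.disjoint_left]; intro v h1 h2; rw [mem_B] at h1; rw [mem_X] at h2; omega
  · intro u a hu ha hB
    rw [mem_B] at hB
    have h1 := hsat _ hB.2.1 hB.1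
    rw [min_eq_right hB.2.2, dg_eq_sum] at h1
    unfold Nin at h1
    have h2 := (sum_eq_sum_iff_of_le (fun x _ => ?_)).1 h1 a (mem_univ _)
    · simp only [mem_insert_self, if_true, erase_insert ha, hu] at h2
      exact_mod_cast h2
    · have := hM.le_one ((insert a u).erase x) x
      by_cases h1 : x ∈ insert a u <;> by_cases h2 : (insert a u).erase x ∈ A <;> simp [h1, h2, this]
  · intro u a ha h1 h2; exact_mod_cast htoA u a ha h1 h2
  · intro u a ha h1 h2; exact_mod_cast htoX u a ha h1 h2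
  · intro u a ha h1 h2
    by_contra hne
    have hne' : M u a ≠ 0 := by exact_mod_cast hne
    have hh := hM.head u a hne'
    have huA : u ∉ A := by
      rcases h1 with h | h
      · rw [mem_B] at h; exact h.2.1
      · rw [mem_X] at h; exact h.2.1
    by_cases hiA : insert a u ∈ A
    · exact hne' (htoA u a ha hiA huA)
    · by_cases hd : dg A (insert a u) ≤ q
      · exact h2 (mem_B.2 ⟨hh, hiA, hd⟩)
      · exact hne' (htoX u a ha (mem_X.2 ⟨hh, hiA, by omega⟩) huA)
  · intro x hx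
    have h1 := (hOX x hx).2
    unfold fin
    unfold inf at h1
    rw [← h1]
    push_cast
    rfl
  · intro x hx
    have h1 := (hOX x hx).2
    have h2 := hM.mid x (hXM x hx)
    unfold fout
    rw [← h1, ← h2]
    push_cast
    rfl
  · intro w a b hw ha hb hab hz
    rw [mem_B] at hz
    have h1 : i ≤ w.card := by
      rcases hA w hw with h | h
      · rw [hS w h]
      · rw [mem_Mid] at h; omega
    have hby : b ∉ insert a w := by simp [hb, Ne.symm hab]
    have h2 : (insert b (insert a w)).card ≤ j := by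
      rcases hz.1 with h | h
      · rw [mem_Mid] at h; omega
      · rw [hT _ h]
    rw [card_insert_of_notMem hby, card_insert_of_notMem ha] at h2
    have h3 : insert a w ∈ Mid i j := by
      rw [mem_Mid, card_insert_of_notMem ha]
      omega
    by_cases h4 : insert a w ∈ A
    · exact Or.inl h4
    · by_cases hd : dg A (insert a w) ≤ q
      · exact Or.inr (Or.inl (mem_B.2 ⟨Or.inl h3, h4, hd⟩))
      · exact Or.inr (Or.inr (mem_X.2 ⟨Or.inl h3, h4, by omega⟩))

end MP_8b6acb_co
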