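import Mathlib
import Pool.Agent.Work.MP_8b6acb_co.Cut

/-! Minimal counterexamples to the cut condition. -/

set_option linter.unusedSectionVars false

namespace MP_8b6acb_co

open Finset

variable {α : Type*} [Fintype α] [DecidableEq α]

/-- A matched pair `S`, `T = S.image φ`. -/
structure Mat (i j : ℕ) (S : Finset (Finset α)) (φ : Finset α → Finset α) : Prop where
  cS : ∀ s ∈ S, s.card = i
  cT : ∀ s ∈ S, (φ s).card = j
  inj : Set.InjOn φ S
  sub : ∀ s ∈ S, s ⊆ φ s

variable (α) in
/-- The cut condition for all matched pairs between layers `i` and `j`. -/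
def PP (q i j : ℕ) : Prop :=
  ∀ (S : Finset (Finset α)) (φ : Finset α → Finset α), Mat i j S φ →
    ∀ A : Finset (Finset α), S ⊆ A → (∀ u ∈ A, u ∈ S ∨ u ∈ Mid i j) →
      q * S.card ≤ cost q i j (S.image φ) A

/-- A minimal counterexample together with a maximally violating cut. -/
structure MinCex (q i j : ℕ) (S : Finset (Finset α)) (φ : Finset α → Finset α)
    (A : Finset (Finset α)) : Prop where
  mat : Mat i j S φ
  SA : S ⊆ A
  Amem : ∀ u ∈ A, u ∈ S ∨ u ∈ Mid i j
  viol : cost q i j (S.image φ) A < q * S.card
  minS : ∀ S' ⊂ S, ∀ A' : Finset (Finset α), S' ⊆ A' → (∀ u ∈ A', u ∈ S' ∨ u ∈ Mid i j) →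
    q * S'.card ≤ cost q i j (S'.image φ) A'
  minA : ∀ A' : Finset (Finset α), S ⊆ A' → (∀ u ∈ A', u ∈ S ∨ u ∈ Mid i j) →
    cost q i j (S.image φ) A ≤ cost q i j (S.image φ) A'

theorem Mat.mono {i j : ℕ} {S S' : Finset (Finset α)} {φ : Finset α → Finset α}
    (h : Mat i j S φ) (hS : S' ⊆ S) : Mat i j S' φ :=
  ⟨fun s hs => h.cS s (hS hs), fun s hs => h.cT s (hS hs),
    h.inj.mono (by exact_mod_cast hS), fun s hs => h.sub s (hS hs)⟩

theorem exists_minCex {q i j : ℕ} (h : ¬ PP α q i j) :
    ∃ (S : Finset (Finset α)) (φ : Finset α → Finset α) (A : Finset (Finset α)),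
      MinCex q i j S φ A := by
  unfold PP at h
  push Not at h
  obtain ⟨S, φ, hm, A, hSA, hA, hv⟩ := h
  induction hn : S.card using Nat.strong_induction_on generalizing S A with
  | _ n ih =>
    by_cases hex : ∃ S' ⊂ S, ∃ A' : Finset (Finset α), S' ⊆ A' ∧
        (∀ u ∈ A', u ∈ S' ∨ u ∈ Mid i j) ∧ cost q i j (S'.image φ) A' < q * S'.card
    · obtain ⟨S', hS', A', h1, h2, h3⟩ := hex
      exact ih S'.card (by rw [← hn]; exact card_lt_card hS') S' (hm.mono hS'.1) A' h1 h2 h3 rfl
    · push Not at hex
      obtain ⟨A0, hA0, hmin⟩ := Finset.exists_min_image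
        (univ.filter (fun A' : Finset (Finset α) => S ⊆ A' ∧ (∀ u ∈ A', u ∈ S ∨ u ∈ Mid i j)))
        (fun A' => cost q i j (S.image φ) A') ⟨A, by simp only [mem_filter, mem_univ, true_and]; exact ⟨hSA, hA⟩⟩
      simp only [mem_filter, mem_univ, true_and] at hA0 hmin
      refine ⟨S, φ, A0, hm, hA0.1, hA0.2, ?_, ?_, ?_⟩
      · exact lt_of_le_of_lt (hmin A ⟨hSA, hA⟩) hv
      · intro S' hS' A' h1 h2
        exact hex S' hS' A' h1 h2
      · intro A' h1 h2
        exact hmin A' ⟨h1, h2⟩

/-- Number of upper covers of `s` in `B`. -/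
def ub (B : Finset (Finset α)) (s : Finset α) : ℕ := (univ.filter (fun b => b ∉ s ∧ insert b s ∈ B)).card

theorem ub_eq_sum (B : Finset (Finset α)) (s : Finset α) :
    ub B s = ∑ v, (if Cov s v then (if v ∈ B then 1 else 0) else 0) := by
  rw [sum_cov s (fun v => if v ∈ B then 1 else 0)]
  unfold ub
  rw [card_filter]
  refine sum_congr rfl (fun a _ => ?_)
  by_cases h1 : a ∈ s <;> by_cases h2 : insert a s ∈ B <;> simp [h1, h2]

theorem dg_erase {A : Finset (Finset α)} {s v : Finset α} (hs : s ∈ A) (hc : Cov s v) :
    dg (A.erase s) v + 1 ≤ dg A v := by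
  obtain ⟨a, ha, rfl⟩ := hc
  unfold dg
  have h1 : (insert a s).filter (fun x => (insert a s).erase x ∈ A.erase s) ⊆
      ((insert a s).filter (fun x => (insert a s).erase x ∈ A)).erase a := by
    intro x hx
    simp only [mem_filter, mem_erase] at hx ⊢
    refine ⟨?_, hx.1, hx.2.2⟩
    rintro rfl
    apply hx.2.1
    rw [erase_insert ha]
  have h2 : a ∈ (insert a s).filter (fun x => (insert a s).erase x ∈ A) := by
    simp only [mem_filter, mem_insert_self, true_and]
    rw [erase_insert ha]
    exact hs
  have h3 := card_le_card h1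
  have h4 := card_erase_add_one h2
  omega

theorem cost_eq {q i j : ℕ} {T A : Finset (Finset α)} (hT : ∀ t ∈ T, t.card = j)
    (hA : ∀ u ∈ A, u.card < j) :
    cost q i j T A = ∑ v ∈ Mid i j, (if v ∈ A then 0 else min q (dg A v)) +
      ∑ t ∈ T, min q (dg A t) := by
  unfold cost
  rw [← sum_mem (Mid i j), ← sum_mem T, ← sum_add_distrib]
  refine sum_congr rfl (fun v _ => ?_)
  by_cases h1 : v ∈ Mid i j
  · have h2 : v ∉ T := by
      intro h
      have := hT v h
      rw [mem_Mid] at h1
      omega
    by_cases h3 : v ∈ A <;> simp [h1, h2, h3]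
  · by_cases h2 : v ∈ T
    · have h3 : v ∉ A := by
        intro h
        have h4 := hA v h
        have h5 := hT v h2
        omega
      simp [h1, h2, h3]
    · simp [h1, h2]

variable {q i j : ℕ} {S A : Finset (Finset α)} {φ : Finset α → Finset α}

theorem MinCex.cardA (h : MinCex q i j S φ A) (hij : i < j) : ∀ u ∈ A, u.card < j := by
  intro u hu
  rcases h.Amem u hu with h1 | h1
  · rw [h.mat.cS u h1]; exact hij
  · rw [mem_Mid] at h1; exact h1.2

theorem MinCex.cardT (h : MinCex q i j S φ A) : ∀ t ∈ S.image φ, t.card = j := by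
  intro t ht
  rw [mem_image] at ht
  obtain ⟨s, hs, rfl⟩ := ht
  exact h.mat.cT s hs

theorem MinCex.own (h : MinCex q i j S φ A) (h2 : i + 2 ≤ j) {s : Finset α} (hs : s ∈ S) :
    ub (Bset q i j (S.image φ) A) s + min q (dg A (φ s)) + q * S.card ≤
      cost q i j (S.image φ) A + q := by
  have hss : S.erase s ⊂ S := erase_ssubset hs
  have h3 := h.minS _ hss (A.erase s) (erase_subset_erase s h.SA) (by
    intro u hu
    rw [mem_erase] at hu
    rcases h.Amem u hu.2 with h4 | h4
    · exact Or.inl (mem_erase.2 ⟨hu.1, h4⟩)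
    · exact Or.inr h4)
  rw [card_erase_of_mem hs] at h3
  have hpos : 0 < S.card := card_pos.2 ⟨s, hs⟩
  have h5 : cost q i j ((S.erase s).image φ) (A.erase s) + ub (Bset q i j (S.image φ) A) s +
      min q (dg A (φ s)) ≤ cost q i j (S.image φ) A := by
    rw [ub_eq_sum]
    have e1 : min q (dg A (φ s)) = ∑ v, (if v = φ s then min q (dg A v) else 0) := by simp
    rw [e1]
    unfold cost
    rw [← sum_add_distrib, ← sum_add_distrib]
    refine sum_le_sum (fun v _ => ?_)
    have hsc := h.mat.cS s hs
    have htc := h.mat.cT s hs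
    by_cases hv1 : v = s
    · subst hv1
      have a1 : v ∉ Mid i j := by rw [mem_Mid]; omega
      have a2 : v ∉ (S.erase v).image φ := by
        intro hm
        rw [mem_image] at hm
        obtain ⟨s', hs', he⟩ := hm
        have := h.mat.cT s' (mem_of_mem_erase hs')
        rw [he] at this
        omega
      have a3 : ¬ Cov v v := fun hc => hc.ne rfl
      have a4 : v ≠ φ v := by
        intro he
        rw [← he] at htc
        omega
      simp [a1, a2, a3, a4]
    · by_cases hv2 : v = φ s
      · have a1 : v ∉ Mid i j := by rw [mem_Mid, hv2]; omega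
        have a2 : v ∉ (S.erase s).image φ := by
          intro hm
          rw [mem_image] at hm
          obtain ⟨s', hs', he⟩ := hm
          rw [hv2] at he
          have := h.mat.inj (mem_coe.2 (mem_of_mem_erase hs')) (mem_coe.2 hs) he
          exact (mem_erase.1 hs').1 this
        have a3 : ¬ Cov s v := by
          rintro ⟨a, ha, he⟩
          have := card_insert_of_notMem ha
          rw [he, hv2] at this
          omega
        have a4 : v ∈ S.image φ := by rw [hv2]; exact mem_image_of_mem _ hs
        have a5 : v ∉ A := by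
          intro hA
          have := h.cardA (by omega) v hA
          rw [hv2] at this
          omega
        rw [if_neg (fun hh => hh.1.elim a1 a2), if_neg a3, if_pos hv2, if_pos ⟨Or.inr a4, a5⟩]
        simp
      · have b1 : v ∉ A.erase s ↔ v ∉ A := by
          rw [mem_erase]; tauto
        have b2 : v ∈ (S.erase s).image φ → v ∈ S.image φ := by
          intro hm
          exact image_subset_image (erase_subset _ _) hm
        have b3 : v ∈ S.image φ → v ∈ (S.erase s).image φ := by
          intro hm
          rw [mem_image] at hm ⊢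
          obtain ⟨s', hs', he⟩ := hm
          refine ⟨s', mem_erase.2 ⟨?_, hs'⟩, he⟩
          rintro rfl
          exact hv2 he.symm
        have b4 : v ∈ (S.erase s).image φ ↔ v ∈ S.image φ := ⟨b2, b3⟩
        simp only [b1, b4, if_neg hv2, add_zero]
        by_cases hc : (v ∈ Mid i j ∨ v ∈ S.image φ) ∧ v ∉ A
        · rw [if_pos hc, if_pos hc]
          by_cases hcov : Cov s v
          · have hd := dg_erase (h.SA hs) hcov
            rw [if_pos hcov]
            by_cases hB : v ∈ Bset q i j (S.image φ) A
            · rw [if_pos hB]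
              rw [mem_B] at hB
              omega
            · rw [if_neg hB]
              omega
          · rw [if_neg hcov, add_zero]
            apply min_le_min_left
            exact dg_mono (fun a _ ha => mem_of_mem_erase ha)
        · rw [if_neg hc, if_neg hc]
          have hB : v ∉ Bset q i j (S.image φ) A := by
            intro hB
            rw [mem_B] at hB
            exact hc ⟨hB.1, hB.2.1⟩
          simp [hB]
  have h6 : q * (S.card - 1) + q = q * S.card := by
    rw [← Nat.mul_succ]
    congr 1
    omega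
  omega

theorem MinCex.dgT (h : MinCex q i j S φ A) (h2 : i + 2 ≤ j) {s : Finset α} (hs : s ∈ S) :
    dg A (φ s) < q := by
  have h1 := h.own h2 hs
  have h3 := h.viol
  omega

theorem sum_change {q δ : ℕ} (hδ : δ ≤ q) (S' : Finset (Finset α)) (s0 : Finset α) :
    ∑ s ∈ S', (if s = s0 then q - δ else q) + (if s0 ∈ S' then δ else 0) = q * S'.card := by
  have h1 : ∀ s ∈ S', (if s = s0 then q - δ else q) + (if s = s0 then δ else 0) = q := by
    intro s _
    split_ifs <;> omega
  have h2 : ∑ s ∈ S', (if s = s0 then δ else 0) = (if s0 ∈ S' then δ else 0) := by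
    rw [sum_ite_eq' S' s0 (fun _ => δ)]
  rw [← h2, ← sum_add_distrib, sum_congr rfl h1]
  simp [mul_comm]

theorem MinCex.delta_le (h : MinCex q i j S φ A) (h2 : i + 2 ≤ j) {s : Finset α} (hs : s ∈ S) :
    q * S.card - cost q i j (S.image φ) A ≤ q := by
  have := h.own h2 hs
  omega

theorem MinCex.flow (h : MinCex q i j S φ A) (h2 : i + 2 ≤ j) {s0 : Finset α} (hs0 : s0 ∈ S) :
    ∃ M, IsFlow q i j S (S.image φ)
      (fun s => if s = s0 then q - (q * S.card - cost q i j (S.image φ) A) else q)
      (fun t => if t = φ s0 then q - (q * S.card - cost q i j (S.image φ) A) else q) M := by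
  obtain ⟨δ, hδ⟩ : ∃ δ, δ = q * S.card - cost q i j (S.image φ) A := ⟨_, rfl⟩
  have hδq : δ ≤ q := by rw [hδ]; exact h.delta_le h2 hs0
  rw [← hδ]
  have hviol := h.viol
  have ht0 : φ s0 ∈ S.image φ := mem_image_of_mem _ hs0
  apply exists_flow q i j S (S.image φ) h.mat.cS h.cardT (by omega)
  · -- total supply = total demand
    have e1 := sum_change hδq S s0
    have e2 := sum_change hδq (S.image φ) (φ s0)
    rw [card_image_of_injOn h.mat.inj] at e2
    rw [if_pos hs0] at e1
    rw [if_pos ht0] at e2
    omega
  · intro A' hA'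
    have hA'c : ∀ u ∈ A', u.card < j := by
      intro u hu
      rcases hA' u hu with h1 | h1
      · rw [h.mat.cS u h1]; omega
      · rw [mem_Mid] at h1; exact h1.2
    have hLHS : ∑ s ∈ S, (if s ∈ A' then (if s = s0 then q - δ else q) else 0) =
        ∑ s ∈ S.filter (fun s => s ∈ A'), (if s = s0 then q - δ else q) := by
      rw [sum_filter]
    rw [hLHS]
    have hmono : ∀ T' ⊆ S.image φ, ∑ t ∈ T', min q (dg A' t) ≤
        ∑ t ∈ T', min (if t = φ s0 then q - δ else q) (dg A' t) + (if φ s0 ∈ T' then δ else 0) := by
      intro T' _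
      have h3 : (if φ s0 ∈ T' then δ else 0) = ∑ t ∈ T', (if t = φ s0 then δ else 0) := by
        rw [sum_ite_eq' T' (φ s0) (fun _ => δ)]
      rw [h3, ← sum_add_distrib]
      refine sum_le_sum (fun t _ => ?_)
      split_ifs <;> omega
    by_cases hSA' : S ⊆ A'
    · have hf : S.filter (fun s => s ∈ A') = S := by
        rw [filter_eq_self]
        exact fun s hs => hSA' hs
      rw [hf]
      have e1 := sum_change hδq S s0
      rw [if_pos hs0] at e1
      have h3 := h.minA A' hSA' hA'
      rw [cost_eq h.cardT hA'c] at h3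
      have e4 : ∀ F : Finset α → ℕ, ∑ t ∈ S.image φ, F t = F (φ s0) + ∑ t ∈ (S.image φ).erase (φ s0), F t :=
        fun F => (add_sum_erase _ F ht0).symm
      have e5 : ∑ t ∈ (S.image φ).erase (φ s0), min (if t = φ s0 then q - δ else q) (dg A' t) =
          ∑ t ∈ (S.image φ).erase (φ s0), min q (dg A' t) := by
        refine sum_congr rfl (fun t ht => ?_)
        rw [if_neg (mem_erase.1 ht).1]
      rw [e4 (fun t => min (if t = φ s0 then q - δ else q) (dg A' t)), e5, if_pos rfl]
      rw [e4 (fun t => min q (dg A' t))] at h3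
      by_cases hd : dg A' (φ s0) ≤ q - δ
      · rw [min_eq_right (by omega)] at h3
        rw [min_eq_right hd]
        omega
      · rw [min_eq_left (by omega)]
        have hss : S.erase s0 ⊂ S := erase_ssubset hs0
        have h5 := h.minS _ hss (A'.erase s0) (erase_subset_erase s0 hSA') (by
          intro u hu
          rw [mem_erase] at hu
          rcases hA' u hu.2 with h4 | h4
          · exact Or.inl (mem_erase.2 ⟨hu.1, h4⟩)
          · exact Or.inr h4)
        rw [card_erase_of_mem hs0, cost_eq (by
            intro t ht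
            exact h.cardT t (image_subset_image (erase_subset _ _) ht))
          (fun u hu => hA'c u (mem_of_mem_erase hu))] at h5
        have h6 : ∑ v ∈ Mid i j, (if v ∈ A'.erase s0 then 0 else min q (dg (A'.erase s0) v)) ≤
            ∑ v ∈ Mid i j, (if v ∈ A' then 0 else min q (dg A' v)) := by
          refine sum_le_sum (fun v hv => ?_)
          have hv0 : v ≠ s0 := by
            rintro rfl
            rw [mem_Mid, h.mat.cS v hs0] at hv
            omega
          by_cases hvA : v ∈ A'
          · simp [hvA, hv0]
          · have : v ∉ A'.erase s0 := fun hh => hvA (mem_of_mem_erase hh)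
            rw [if_neg this, if_neg hvA]
            exact min_le_min_left _ (dg_mono (fun a _ ha => mem_of_mem_erase ha))
        have h7 : ∑ t ∈ (S.erase s0).image φ, min q (dg (A'.erase s0) t) ≤
            ∑ t ∈ (S.image φ).erase (φ s0), min q (dg A' t) := by
          refine le_trans (sum_le_sum (fun t _ => min_le_min_left _
            (dg_mono (fun a _ ha => mem_of_mem_erase ha)))) ?_
          apply sum_le_sum_of_subset
          intro t ht
          rw [mem_image] at ht
          obtain ⟨s, hs, rfl⟩ := ht
          rw [mem_erase] at hs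
          rw [mem_erase]
          refine ⟨?_, mem_image_of_mem _ hs.2⟩
          intro he
          exact hs.1 (h.mat.inj (mem_coe.2 hs.2) (mem_coe.2 hs0) he)
        have hpos : 0 < S.card := card_pos.2 ⟨s0, hs0⟩
        have h8 : q * (S.card - 1) + q = q * S.card := by
          rw [← Nat.mul_succ]
          congr 1
          omega
        omega
    · have hss : S.filter (fun s => s ∈ A') ⊂ S := by
        refine ⟨filter_subset _ _, fun hh => hSA' (fun s hs => (mem_filter.1 (hh hs)).2)⟩
      have h3 := h.minS _ hss A' (fun s hs => (mem_filter.1 hs).2) (by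
        intro u hu
        rcases hA' u hu with h4 | h4
        · exact Or.inl (mem_filter.2 ⟨h4, hu⟩)
        · exact Or.inr h4)
      have hsub : (S.filter (fun s => s ∈ A')).image φ ⊆ S.image φ :=
        image_subset_image (filter_subset _ _)
      rw [cost_eq (fun t ht => h.cardT t (hsub ht)) hA'c] at h3
      have h4 := hmono _ hsub
      have h5 : ∑ t ∈ (S.filter (fun s => s ∈ A')).image φ,
          min (if t = φ s0 then q - δ else q) (dg A' t) ≤
          ∑ t ∈ S.image φ, min (if t = φ s0 then q - δ else q) (dg A' t) :=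
        sum_le_sum_of_subset hsub
      have e1 := sum_change hδq (S.filter (fun s => s ∈ A')) s0
      have h6 : φ s0 ∈ (S.filter (fun s => s ∈ A')).image φ ↔ s0 ∈ S.filter (fun s => s ∈ A') := by
        constructor
        · intro hh
          rw [mem_image] at hh
          obtain ⟨s, hs, he⟩ := hh
          have := h.mat.inj (mem_coe.2 (mem_filter.1 hs).1) (mem_coe.2 hs0) he
          rw [← this]
          exact hs
        · exact fun hh => mem_image_of_mem _ hh
      by_cases h7 : s0 ∈ S.filter (fun s => s ∈ A')
      · rw [if_pos (h6.2 h7)] at h4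
        rw [if_pos h7] at e1
        omega
      · rw [if_neg (fun hh => h7 (h6.1 hh))] at h4
        rw [if_neg h7] at e1
        omega

end MP_8b6acb_co
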