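import Mathlib
import Pool.Agent.Work.MP_8b6acb_co.MinCex

/-! The square inequality for minimal counterexamples. -/

set_option linter.unusedSectionVars false

namespace MP_8b6acb_co

open Finset

variable {α : Type*} [Fintype α] [DecidableEq α]

theorem kk_row (A B : Finset (Finset α)) (u : Finset α) :
    ∑ b, kk A B u b = ind A u * (ub B u : ℤ) := by
  unfold kk ub
  rw [card_filter]
  push_cast
  rw [mul_sum]
  refine sum_congr rfl (fun b _ => ?_)
  unfold ind
  by_cases h1 : b ∈ u <;> by_cases h2 : insert b u ∈ B <;> simp [h1, h2]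

theorem kk_col (A B : Finset (Finset α)) (G : Finset α → ℤ) :
    ∑ u, ∑ b, kk A B u b * G (insert b u) = ∑ v, ind B v * (dg A v : ℤ) * G v := by
  rw [sum_comm]
  have h1 : ∀ b : α, ∑ u : Finset α, kk A B u b * G (insert b u) =
      ∑ v : Finset α, (if b ∈ v then ind A (v.erase b) * ind B v * G v else 0) := by
    intro b
    rw [reindexN b (fun v => ind A (v.erase b) * ind B v * G v)]
    refine sum_congr rfl (fun u _ => ?_)
    unfold kk
    by_cases hb : b ∈ u
    · simp [hb]
    · simp [hb, erase_insert hb]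
  simp_rw [h1]
  rw [sum_comm]
  refine sum_congr rfl (fun v _ => ?_)
  rw [dg_eq_sum]
  push_cast
  rw [mul_sum, sum_mul]
  refine sum_congr rfl (fun b _ => ?_)
  unfold ind
  by_cases h1 : b ∈ v <;> by_cases h2 : v.erase b ∈ A <;> simp [h1, h2]

variable {q i j : ℕ} {S A : Finset (Finset α)} {φ : Finset α → Finset α}

/-- The deficiency of a minimal counterexample. -/
def del (q i j : ℕ) (S : Finset (Finset α)) (φ : Finset α → Finset α) (A : Finset (Finset α)) : ℕ :=
  q * S.card - cost q i j (S.image φ) A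

theorem MinCex.del_add (h : MinCex q i j S φ A) :
    del q i j S φ A + cost q i j (S.image φ) A = q * S.card := by
  have := h.viol
  unfold del
  omega

theorem MinCex.del_pos (h : MinCex q i j S φ A) : 0 < del q i j S φ A := by
  have := h.viol
  unfold del
  omega

theorem MinCex.T_sub_B (h : MinCex q i j S φ A) (h2 : i + 2 ≤ j) :
    S.image φ ⊆ Bset q i j (S.image φ) A := by
  intro t ht
  rw [mem_B]
  refine ⟨Or.inr ht, ?_, ?_⟩
  · intro hA
    have h1 := h.cardA (by omega) t hA
    have h3 := h.cardT t ht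
    omega
  · rw [mem_image] at ht
    obtain ⟨s, hs, rfl⟩ := ht
    exact (h.dgT h2 hs).le

/-- All facts about the saturating flow. -/
theorem MinCex.cutFlow (h : MinCex q i j S φ A) (h2 : i + 2 ≤ j) {s0 : Finset α} (hs0 : s0 ∈ S) :
    ∃ M : Finset α → α → ℤ,
      CutFlow A (Bset q i j (S.image φ) A) (Xset q i j (S.image φ) A) M q ∧
      (∀ s ∈ S, fin M s = 0 ∧ fout M s = q - (if s = s0 then (del q i j S φ A : ℤ) else 0)) ∧
      (∀ t ∈ S.image φ, fout M t = 0 ∧ fin M t = q - (if t = φ s0 then (del q i j S φ A : ℤ) else 0)) ∧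
      (∀ v ∈ Mid i j, fout M v = fin M v ∧ fout M v ≤ q) ∧
      (∀ u a, M u a ≠ 0 → insert a u ∈ Mid i j ∨ insert a u ∈ S.image φ) := by
  obtain ⟨M, hM⟩ := h.flow h2 hs0
  have hδq := h.delta_le h2 hs0
  have hviol := h.viol
  have hsum : cost q i j (S.image φ) A ≤ ∑ s ∈ S,
      (if s = s0 then q - (q * S.card - cost q i j (S.image φ) A) else q) := by
    have e1 := sum_change hδq S s0
    rw [if_pos hs0] at e1
    omega
  have hT0 : ∀ t ∈ S.image φ, t ∉ Mid i j := by
    intro t ht hm
    rw [mem_Mid, h.cardT t ht] at hm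
    omega
  have hCF := toCutFlow hM h.mat.cS h.cardT (by omega) h.SA h.Amem
    (by intro t _; split_ifs <;> omega)
    (by
      intro t ht
      rw [mem_image] at ht
      obtain ⟨s, hs, rfl⟩ := ht
      exact (h.dgT h2 hs).le) hsum
  refine ⟨_, hCF, ?_, ?_, ?_, ?_⟩
  · intro s hs
    constructor
    · unfold fin
      apply sum_eq_zero
      intro x _
      by_cases hx : x ∈ s
      · rw [if_pos hx]
        by_contra hne
        have hne' : M (s.erase x) x ≠ 0 := fun h0 => hne (by simp [h0])
        have h4 := hM.head _ _ hne'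
        rw [insert_erase hx] at h4
        rcases h4 with h5 | h5
        · rw [mem_Mid, h.mat.cS s hs] at h5
          omega
        · have h6 := h.cardT s h5
          rw [h.mat.cS s hs] at h6
          omega
      · simp [hx]
    · have h4 := hM.src s hs
      unfold fout
      rw [← Nat.cast_sum, h4]
      unfold del
      split_ifs <;> omega
  · intro t ht
    constructor
    · unfold fout
      apply sum_eq_zero
      intro x _
      by_contra hne
      have hne' : M t x ≠ 0 := fun h0 => hne (by simp [h0])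
      have hxt : x ∉ t := fun hx => hne' (hM.val t x hx)
      have h4 := hM.head _ _ hne'
      rcases h4 with h5 | h5
      · rw [mem_Mid, card_insert_of_notMem hxt, h.cardT t ht] at h5
        omega
      · have h6 := h.cardT _ h5
        rw [card_insert_of_notMem hxt, h.cardT t ht] at h6
        omega
    · have h4 := hM.snk t ht
      have h5 : fin (fun u x => (M u x : ℤ)) t = (inf M t : ℤ) := by
        unfold fin inf
        push_cast
        rfl
      rw [h5, h4]
      unfold del
      split_ifs <;> omega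
  · intro v hv
    have h4 := hM.mid v hv
    have h5 := hM.mid_le v hv
    have h6 : fin (fun u x => (M u x : ℤ)) v = (inf M v : ℤ) := by
      unfold fin inf
      push_cast
      rfl
    have h7 : fout (fun u x => (M u x : ℤ)) v = ((∑ x, M v x : ℕ) : ℤ) := by
      unfold fout
      push_cast
      rfl
    rw [h6, h7]
    constructor
    · exact_mod_cast h4
    · exact_mod_cast h5
  · intro u a hne
    exact hM.head u a (by exact_mod_cast hne)

theorem cost_B (q i j : ℕ) (S A : Finset (Finset α)) (φ : Finset α → Finset α) :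
    (cost q i j (S.image φ) A : ℤ) = ∑ v, ind (Bset q i j (S.image φ) A) v * (dg A v : ℤ) +
      q * (Xset q i j (S.image φ) A).card := by
  have e1 : (q : ℤ) * (Xset q i j (S.image φ) A).card = ∑ v, ind (Xset q i j (S.image φ) A) v * q := by
    rw [← sum_mul]
    unfold ind
    rw [sum_boole]
    simp [mul_comm]
  rw [e1, ← sum_add_distrib]
  unfold cost
  push_cast
  refine sum_congr rfl (fun v _ => ?_)
  unfold ind
  by_cases hc : (v ∈ Mid i j ∨ v ∈ S.image φ) ∧ v ∉ A
  · by_cases hd : dg A v ≤ q
    · have h1 : v ∈ Bset q i j (S.image φ) A := mem_B.2 ⟨hc.1, hc.2, hd⟩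
      have h2 : v ∉ Xset q i j (S.image φ) A := fun hh => by rw [mem_X] at hh; omega
      rw [if_pos hc, if_pos h1, if_neg h2]
      have : min (q : ℤ) (dg A v) = dg A v := min_eq_right (by exact_mod_cast hd)
      rw [this]
      ring
    · have h1 : v ∉ Bset q i j (S.image φ) A := fun hh => by rw [mem_B] at hh; omega
      have h2 : v ∈ Xset q i j (S.image φ) A := mem_X.2 ⟨hc.1, hc.2, by omega⟩
      rw [if_pos hc, if_neg h1, if_pos h2]
      have : min (q : ℤ) (dg A v) = q := min_eq_left (by exact_mod_cast (by omega : q ≤ dg A v))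
      rw [this]
      ring
  · have h1 : v ∉ Bset q i j (S.image φ) A := fun hh => by rw [mem_B] at hh; exact hc ⟨hh.1, hh.2.1⟩
    have h2 : v ∉ Xset q i j (S.image φ) A := fun hh => by rw [mem_X] at hh; exact hc ⟨hh.1, hh.2.1⟩
    rw [if_neg hc, if_neg h1, if_neg h2]
    ring

/-- Direction-wise indicator at sources. -/
def σB (B : Finset (Finset α)) (g : α) (s : Finset α) : ℕ := if g ∉ s ∧ insert g s ∈ B then 1 else 0

/-- Direction-wise indicator at sinks. -/
def σA (A : Finset (Finset α)) (g : α) (t : Finset α) : ℕ := if g ∈ t ∧ t.erase g ∈ A then 1 else 0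

/-- Number of cut edges in direction `g`. -/
def Kg (A B : Finset (Finset α)) (g : α) : ℕ := (A.filter (fun u => g ∉ u ∧ insert g u ∈ B)).card

theorem ub_eq_sigma (B : Finset (Finset α)) (s : Finset α) : ub B s = ∑ g, σB B g s := by
  unfold ub σB
  rw [card_filter]

theorem dg_eq_sigma (A : Finset (Finset α)) (t : Finset α) : dg A t = ∑ g, σA A g t := by
  rw [dg_eq_sum]
  unfold σA
  refine sum_congr rfl (fun x _ => ?_)
  by_cases h1 : x ∈ t <;> by_cases h2 : t.erase x ∈ A <;> simp [h1, h2]

theorem Kg_eq (A B : Finset (Finset α)) (g : α) : ∑ u, kk A B u g = (Kg A B g : ℤ) := by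
  unfold Kg
  rw [card_filter, ← sum_mem A]
  push_cast
  refine sum_congr rfl (fun u _ => ?_)
  unfold kk ind
  by_cases h1 : u ∈ A <;> by_cases h2 : g ∈ u <;> by_cases h3 : insert g u ∈ B <;> simp [h1, h2, h3]

theorem sum_Kg {q i j : ℕ} {S A : Finset (Finset α)} {φ : Finset α → Finset α}
    (hX : Xset q i j (S.image φ) A = ∅) :
    ∑ g, Kg A (Bset q i j (S.image φ) A) g = cost q i j (S.image φ) A := by
  have h1 := cost_B q i j S A φ
  rw [hX] at h1
  have h2 := kk_col A (Bset q i j (S.image φ) A) (fun _ => 1)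
  simp only [mul_one] at h2
  rw [sum_comm] at h2
  simp_rw [Kg_eq] at h2
  zify
  rw [h1, h2]
  simp

/-- The square inequality for a minimal counterexample. -/
theorem MinCex.star (h : MinCex q i j S φ A) (h2 : i + 2 ≤ j) {s0 : Finset α} (hs0 : s0 ∈ S) :
    2 * cost q i j (S.image φ) A + del q i j S φ A * (ub (Xset q i j (S.image φ) A) s0 +
      dg (Xset q i j (S.image φ) A) (φ s0) + ub (Bset q i j (S.image φ) A) s0 + dg A (φ s0)) ≤
    q * ∑ s ∈ S, (ub (Bset q i j (S.image φ) A) s + dg A (φ s)) := by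
  obtain ⟨M, hCF, hsrc, hsnk, hmid, _⟩ := h.cutFlow h2 hs0
  have hTB := h.T_sub_B h2
  have hcost := cost_B q i j S A φ
  set B := Bset q i j (S.image φ) A with hB
  set X := Xset q i j (S.image φ) A with hX
  set δ := del q i j S φ A with hδ
  have hst := hCF.star
  have ht0 : φ s0 ∈ S.image φ := mem_image_of_mem _ hs0
  -- rewrite all the terms
  have e0 : ∑ u, ∑ b, kk A B u b = ∑ v, ind B v * (dg A v : ℤ) := by
    have := kk_col A B (fun _ => 1)
    simpa using this
  have e1 : ∑ u, ∑ b, kk A X u b * ((q : ℤ) - fout M u) = ∑ u, ind A u * (ub X u : ℤ) * (q - fout M u) := by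
    refine sum_congr rfl (fun u _ => ?_)
    rw [← sum_mul, kk_row]
  have e2 : ∑ u, ∑ b, kk X B u b * ((q : ℤ) - fin M (insert b u)) =
      ∑ v, ind B v * (dg X v : ℤ) * (q - fin M v) := kk_col X B (fun v => q - fin M v)
  have e3 : ∑ u, ∑ b, kk A B u b * (fout M u - fin M u) =
      ∑ u, ind A u * (ub B u : ℤ) * (fout M u - fin M u) := by
    refine sum_congr rfl (fun u _ => ?_)
    rw [← sum_mul, kk_row]
  have e4 : ∑ u, ∑ b, kk A B u b * (fin M (insert b u) - fout M (insert b u)) =
      ∑ v, ind B v * (dg A v : ℤ) * (fin M v - fout M v) := kk_col A B (fun v => fin M v - fout M v)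
  rw [e0, e1, e2, e3, e4] at hst
  -- bounds
  have f1 : (δ : ℤ) * ub X s0 ≤ ∑ u, ind A u * (ub X u : ℤ) * (q - fout M u) := by
    have hnn : ∀ u ∈ (univ : Finset (Finset α)), 0 ≤ ind A u * (ub X u : ℤ) * (q - fout M u) := by
      intro u _
      by_cases hu : u ∈ A
      · have : 0 ≤ (q : ℤ) - fout M u := by
          rcases h.Amem u hu with h3 | h3
          · rw [(hsrc u h3).2]
            split_ifs <;> simp [δ]
          · linarith [(hmid u h3).2]
        unfold ind
        rw [if_pos hu, one_mul]
        positivity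
      · simp [ind, hu]
    refine le_trans (le_of_eq ?_) (single_le_sum hnn (mem_univ s0))
    rw [(hsrc s0 hs0).2]
    simp only [ind, if_pos (h.SA hs0), if_true]
    ring
  have f2 : (δ : ℤ) * dg X (φ s0) ≤ ∑ v, ind B v * (dg X v : ℤ) * (q - fin M v) := by
    have hnn : ∀ v ∈ (univ : Finset (Finset α)), 0 ≤ ind B v * (dg X v : ℤ) * (q - fin M v) := by
      intro v _
      by_cases hv : v ∈ B
      · have : 0 ≤ (q : ℤ) - fin M v := by
          have hv' := hv
          rw [hB, mem_B] at hv'
          rcases hv'.1 with h3 | h3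
          · linarith [(hmid v h3).2, (hmid v h3).1]
          · rw [(hsnk v h3).2]
            split_ifs <;> simp [δ]
        unfold ind
        rw [if_pos hv, one_mul]
        positivity
      · simp [ind, hv]
    refine le_trans (le_of_eq ?_) (single_le_sum hnn (mem_univ (φ s0)))
    rw [(hsnk _ ht0).2]
    simp only [ind, if_pos (hTB ht0), if_true]
    ring
  have f3 : ∑ u, ind A u * (ub B u : ℤ) * (fout M u - fin M u) =
      q * ∑ s ∈ S, (ub B s : ℤ) - δ * ub B s0 := by
    have g1 : ∀ u, ind A u * (ub B u : ℤ) * (fout M u - fin M u) =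
        if u ∈ S then (q : ℤ) * ub B u - (if u = s0 then (δ : ℤ) * ub B u else 0) else 0 := by
      intro u
      by_cases hu : u ∈ S
      · rw [if_pos hu, (hsrc u hu).1, (hsrc u hu).2]
        simp only [ind, if_pos (h.SA hu)]
        split_ifs <;> ring
      · rw [if_neg hu]
        by_cases hA : u ∈ A
        · have h3 := (h.Amem u hA).resolve_left hu
          rw [(hmid u h3).1]
          ring
        · simp [ind, hA]
    rw [sum_congr rfl (fun u _ => g1 u), sum_mem, sum_sub_distrib, ← mul_sum]
    congr 1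
    rw [sum_ite_eq' S s0 (fun u => (δ : ℤ) * ub B u), if_pos hs0]
  have f4 : ∑ v, ind B v * (dg A v : ℤ) * (fin M v - fout M v) =
      q * ∑ s ∈ S, (dg A (φ s) : ℤ) - δ * dg A (φ s0) := by
    have g1 : ∀ v, ind B v * (dg A v : ℤ) * (fin M v - fout M v) =
        if v ∈ S.image φ then (q : ℤ) * dg A v - (if v = φ s0 then (δ : ℤ) * dg A v else 0) else 0 := by
      intro v
      by_cases hv : v ∈ S.image φ
      · rw [if_pos hv, (hsnk v hv).1, (hsnk v hv).2]
        simp only [ind, if_pos (hTB hv)]
        split_ifs <;> ring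
      · rw [if_neg hv]
        by_cases hvB : v ∈ B
        · have hv' := hvB
          rw [hB, mem_B] at hv'
          have h3 := hv'.1.resolve_right hv
          rw [(hmid v h3).1]
          ring
        · simp [ind, hvB]
    rw [sum_congr rfl (fun u _ => g1 u), sum_mem, sum_sub_distrib, ← mul_sum]
    congr 1
    · congr 1
      rw [sum_image]
      exact fun x hx y hy => h.mat.inj (mem_coe.2 hx) (mem_coe.2 hy)
    · rw [sum_ite_eq' (S.image φ) (φ s0) (fun u => (δ : ℤ) * dg A u), if_pos ht0]
  rw [f3, f4] at hst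
  zify
  rw [sum_add_distrib]
  rw [hcost]
  linarith

/-- The direction-wise inequality for a minimal counterexample without cut vertices. -/
theorem MinCex.dir (h : MinCex q i j S φ A) (h2 : i + 2 ≤ j) (hXe : Xset q i j (S.image φ) A = ∅)
    {s0 : Finset α} (hs0 : s0 ∈ S) (g : α) :
    2 * Kg A (Bset q i j (S.image φ) A) g + del q i j S φ A *
      (σB (Bset q i j (S.image φ) A) g s0 + σA A g (φ s0)) ≤
    q * ∑ s ∈ S, (σB (Bset q i j (S.image φ) A) g s + σA A g (φ s)) := by
  obtain ⟨M, hCF, hsrc, hsnk, hmid, _⟩ := h.cutFlow h2 hs0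
  have hTB := h.T_sub_B h2
  rw [hXe] at hCF
  set B := Bset q i j (S.image φ) A with hB
  set δ := del q i j S φ A with hδ
  have hst := hCF.dir g
  have ht0 : φ s0 ∈ S.image φ := mem_image_of_mem _ hs0
  rw [Kg_eq] at hst
  have f3 : ∑ u, kk A B u g * (fout M u - fin M u) =
      q * ∑ s ∈ S, (σB B g s : ℤ) - δ * σB B g s0 := by
    have g1 : ∀ u, kk A B u g * (fout M u - fin M u) =
        if u ∈ S then (q : ℤ) * σB B g u - (if u = s0 then (δ : ℤ) * σB B g u else 0) else 0 := by
      intro u
      by_cases hu : u ∈ S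
      · rw [if_pos hu, (hsrc u hu).1, (hsrc u hu).2]
        have hk : kk A B u g = (σB B g u : ℤ) := by
          unfold kk σB ind
          by_cases h1 : g ∈ u <;> by_cases h3 : insert g u ∈ B <;> simp [h1, h3, h.SA hu]
        rw [hk]
        split_ifs <;> ring
      · rw [if_neg hu]
        by_cases hA : u ∈ A
        · have h3 := (h.Amem u hA).resolve_left hu
          rw [(hmid u h3).1]
          ring
        · simp [kk, ind, hA]
    rw [sum_congr rfl (fun u _ => g1 u), sum_mem, sum_sub_distrib, ← mul_sum]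
    congr 1
    rw [sum_ite_eq' S s0 (fun u => (δ : ℤ) * σB B g u), if_pos hs0]
  have f4 : ∑ u, kk A B u g * (fin M (insert g u) - fout M (insert g u)) =
      q * ∑ s ∈ S, (σA A g (φ s) : ℤ) - δ * σA A g (φ s0) := by
    have g0 : ∑ u, kk A B u g * (fin M (insert g u) - fout M (insert g u)) =
        ∑ v, ind B v * (σA A g v : ℤ) * (fin M v - fout M v) := by
      have e1 : ∀ v, ind B v * (σA A g v : ℤ) * (fin M v - fout M v) =
          if g ∈ v then ind A (v.erase g) * ind B v * (fin M v - fout M v) else 0 := by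
        intro v
        unfold σA ind
        by_cases h1 : g ∈ v <;> by_cases h3 : v.erase g ∈ A <;> simp [h1, h3]
      rw [sum_congr rfl (fun v _ => e1 v),
        reindexN g (fun v => ind A (v.erase g) * ind B v * (fin M v - fout M v))]
      refine sum_congr rfl (fun u _ => ?_)
      unfold kk
      by_cases hb : g ∈ u
      · simp [hb]
      · simp [hb, erase_insert hb]
    rw [g0]
    have g1 : ∀ v, ind B v * (σA A g v : ℤ) * (fin M v - fout M v) =
        if v ∈ S.image φ then (q : ℤ) * σA A g v - (if v = φ s0 then (δ : ℤ) * σA A g v else 0) else 0 := by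
      intro v
      by_cases hv : v ∈ S.image φ
      · rw [if_pos hv, (hsnk v hv).1, (hsnk v hv).2]
        simp only [ind, if_pos (hTB hv)]
        split_ifs <;> ring
      · rw [if_neg hv]
        by_cases hvB : v ∈ B
        · have hv' := hvB
          rw [hB, mem_B] at hv'
          have h3 := hv'.1.resolve_right hv
          rw [(hmid v h3).1]
          ring
        · simp [ind, hvB]
    rw [sum_congr rfl (fun u _ => g1 u), sum_mem, sum_sub_distrib, ← mul_sum]
    congr 1
    · congr 1
      rw [sum_image]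
      exact fun x hx y hy => h.mat.inj (mem_coe.2 hx) (mem_coe.2 hy)
    · rw [sum_ite_eq' (S.image φ) (φ s0) (fun u => (δ : ℤ) * σA A g u), if_pos ht0]
  rw [f3, f4] at hst
  zify
  rw [sum_add_distrib]
  linarith

theorem cost_pos (hm : Mat i j S φ) (hij : i < j) (hq : 1 ≤ q) (hne : S.Nonempty) (hSA : S ⊆ A)
    (hA : ∀ u ∈ A, u ∈ S ∨ u ∈ Mid i j) : 0 < cost q i j (S.image φ) A := by
  obtain ⟨s, hs⟩ := hne
  obtain ⟨u, hu, hmax⟩ := Finset.exists_max_image (A.filter (fun u => u ⊆ φ s)) (fun u => u.card)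
    ⟨s, mem_filter.2 ⟨hSA hs, hm.sub s hs⟩⟩
  rw [mem_filter] at hu
  have hcard : i ≤ u.card ∧ u.card < j := by
    rcases hA u hu.1 with h1 | h1
    · rw [hm.cS u h1]; exact ⟨le_refl _, hij⟩
    · rw [mem_Mid] at h1; omega
  have htc := hm.cT s hs
  have hne : ¬ φ s ⊆ u := by
    intro hh
    have := card_le_card hh
    omega
  obtain ⟨a, ha, hau⟩ := Finset.not_subset.1 hne
  have hvs : insert a u ⊆ φ s := insert_subset ha hu.2
  have hvA : insert a u ∉ A := by
    intro hh
    have := hmax (insert a u) (mem_filter.2 ⟨hh, hvs⟩)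
    rw [card_insert_of_notMem hau] at this
    omega
  have hvD : insert a u ∈ Mid i j ∨ insert a u ∈ S.image φ := by
    by_cases hc : (insert a u).card < j
    · left
      rw [mem_Mid]
      rw [card_insert_of_notMem hau] at hc ⊢
      omega
    · right
      have : insert a u = φ s := eq_of_subset_of_card_le hvs (by omega)
      rw [this]
      exact mem_image_of_mem _ hs
  have hdg : 1 ≤ dg A (insert a u) := by
    unfold dg
    rw [Nat.one_le_iff_ne_zero, card_ne_zero]
    exact ⟨a, mem_filter.2 ⟨mem_insert_self _ _, by rw [erase_insert hau]; exact hu.1⟩⟩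
  unfold cost
  apply sum_pos' (fun _ _ => Nat.zero_le _)
  refine ⟨insert a u, mem_univ _, ?_⟩
  rw [if_pos ⟨hvD, hvA⟩]
  omega

theorem MinCex.nonempty (h : MinCex q i j S φ A) : S.Nonempty := by
  rw [nonempty_iff_ne_empty]
  rintro rfl
  have := h.viol
  simp at this

/-- Averaging the square inequality over the base point. -/
theorem MinCex.avg (h : MinCex q i j S φ A) (h2 : i + 2 ≤ j) (hq : 1 ≤ q) :
    2 * S.card ≤ ∑ s ∈ S, (ub (Bset q i j (S.image φ) A) s + dg A (φ s)) ∧
    (∑ s ∈ S, (ub (Bset q i j (S.image φ) A) s + dg A (φ s)) = 2 * S.card →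
      ∀ s ∈ S, ub (Xset q i j (S.image φ) A) s = 0 ∧ dg (Xset q i j (S.image φ) A) (φ s) = 0) := by
  have hC := cost_pos h.mat (by omega) hq h.nonempty h.SA h.Amem
  have hδ := h.del_pos
  have hadd := h.del_add
  set C := cost q i j (S.image φ) A with hCdef
  set B := Bset q i j (S.image φ) A with hB
  set X := Xset q i j (S.image φ) A with hX
  set δ := del q i j S φ A with hδdef
  set SG := ∑ s ∈ S, (ub B s + dg A (φ s)) with hSG
  have h3 : S.card * (2 * C) + δ * (∑ s ∈ S, (ub X s + dg X (φ s)) + SG) ≤ S.card * (q * SG) := by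
    have h4 : ∑ s ∈ S, (2 * C + δ * (ub X s + dg X (φ s) + ub B s + dg A (φ s))) ≤ ∑ s ∈ S, q * SG :=
      sum_le_sum (fun s (hs : s ∈ S) => h.star h2 hs)
    rw [sum_add_distrib, sum_const, sum_const, smul_eq_mul, smul_eq_mul, ← mul_sum] at h4
    have h5 : ∑ s ∈ S, (ub X s + dg X (φ s) + ub B s + dg A (φ s)) =
        ∑ s ∈ S, (ub X s + dg X (φ s)) + SG := by
      rw [hSG, ← sum_add_distrib]
      exact sum_congr rfl (fun s _ => by ring)
    rw [h5] at h4
    exact h4
  have h6 : S.card * (q * SG) = δ * SG + C * SG := by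
    rw [← add_mul, hadd]
    ring
  rw [h6, mul_add] at h3
  have h7 : C * (2 * S.card) + δ * (∑ s ∈ S, (ub X s + dg X (φ s))) ≤ C * SG := by
    have : S.card * (2 * C) = C * (2 * S.card) := by ring
    omega
  constructor
  · have : C * (2 * S.card) ≤ C * SG := by omega
    exact Nat.le_of_mul_le_mul_left this hC
  · intro he
    rw [he] at h7
    have h8 : δ * (∑ s ∈ S, (ub X s + dg X (φ s))) = 0 := by omega
    have h9 : ∑ s ∈ S, (ub X s + dg X (φ s)) = 0 := by
      rcases Nat.mul_eq_zero.1 h8 with h | h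
      · omega
      · exact h
    intro s hs
    have := (sum_eq_zero_iff.1 h9) s hs
    omega

theorem MinCex.own' (h : MinCex q i j S φ A) (h2 : i + 2 ≤ j) {s : Finset α} (hs : s ∈ S) :
    ub (Bset q i j (S.image φ) A) s + dg A (φ s) + del q i j S φ A ≤ q := by
  have h1 := h.own h2 hs
  have h3 := h.dgT h2 hs
  have h4 := h.del_add
  rw [min_eq_right h3.le] at h1
  omega

/-- The cut condition holds for `q ≤ 2` (Lehman-Ron and its double version). -/
theorem PP_le_two {q i j : ℕ} (hq : q ≤ 2) (h2 : i + 2 ≤ j) : PP α q i j := by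
  by_contra hc
  obtain ⟨S, φ, A, h⟩ := exists_minCex hc
  have hq1 : 1 ≤ q := by
    by_contra h0
    have h1 : q = 0 := by omega
    subst h1
    have := h.viol
    simp at this
  have h3 := (h.avg h2 hq1).1
  have h4 : ∑ s ∈ S, (ub (Bset q i j (S.image φ) A) s + dg A (φ s)) ≤ ∑ s ∈ S, 1 := by
    refine sum_le_sum (fun s hs => ?_)
    have h5 := h.own' h2 hs
    have h6 := h.del_pos
    omega
  have h5 := card_pos.2 h.nonempty
  rw [sum_const, smul_eq_mul, mul_one] at h4
  omega

end MP_8b6acb_co
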