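import Mathlib
import Pool.Agent.Work.MP_8b6acb_co.StarCex

/-! The cut condition for `q = 3`. -/

set_option linter.unusedSectionVars false

namespace MP_8b6acb_co

open Finset

variable {α : Type*} [Fintype α] [DecidableEq α]
variable {i j : ℕ} {S A : Finset (Finset α)} {φ : Finset α → Finset α}

theorem MinCex.three (h : MinCex 3 i j S φ A) (h2 : i + 2 ≤ j) :
    del 3 i j S φ A = 1 ∧
    ∀ s ∈ S, ub (Bset 3 i j (S.image φ) A) s + dg A (φ s) = 2 ∧
      ub (Xset 3 i j (S.image φ) A) s = 0 ∧ dg (Xset 3 i j (S.image φ) A) (φ s) = 0 := by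
  have h1 := h.avg h2 (by norm_num)
  have hδ := h.del_pos
  have hm := card_pos.2 h.nonempty
  have h3 : ∀ s ∈ S, ub (Bset 3 i j (S.image φ) A) s + dg A (φ s) ≤ 3 - del 3 i j S φ A := by
    intro s hs
    have := h.own' h2 hs
    omega
  have h4 : ∑ s ∈ S, (ub (Bset 3 i j (S.image φ) A) s + dg A (φ s)) ≤ S.card * (3 - del 3 i j S φ A) := by
    have := sum_le_sum h3
    rwa [sum_const, smul_eq_mul] at this
  have h5 : 2 ≤ 3 - del 3 i j S φ A := by
    have h6 : S.card * 2 ≤ S.card * (3 - del 3 i j S φ A) := by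
      have := h1.1
      omega
    exact Nat.le_of_mul_le_mul_left h6 hm
  have h6 : del 3 i j S φ A = 1 := by omega
  refine ⟨h6, ?_⟩
  rw [h6] at h3 h4
  have h7 : ∑ s ∈ S, (ub (Bset 3 i j (S.image φ) A) s + dg A (φ s)) = 2 * S.card := by
    have := h1.1
    omega
  have h8 := h1.2 h7
  have h9 : ∀ s ∈ S, ub (Bset 3 i j (S.image φ) A) s + dg A (φ s) = 2 := by
    have h10 : ∑ s ∈ S, (ub (Bset 3 i j (S.image φ) A) s + dg A (φ s)) = ∑ s ∈ S, 2 := by
      rw [h7, sum_const, smul_eq_mul]
      ring
    exact (sum_eq_sum_iff_of_le h3).1 h10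
  exact fun s hs => ⟨h9 s hs, h8 s hs⟩

theorem ub_pos_of {B : Finset (Finset α)} {s : Finset α} {a : α} (ha : a ∉ s)
    (hB : insert a s ∈ B) : 0 < ub B s := by
  unfold ub
  rw [card_pos]
  exact ⟨a, by simp [ha, hB]⟩

theorem dg_pos_of {A : Finset (Finset α)} {v : Finset α} {a : α} (ha : a ∈ v)
    (hA : v.erase a ∈ A) : 0 < dg A v := by
  unfold dg
  rw [card_pos]
  exact ⟨a, by simp [ha, hA]⟩

/-- No cut vertices when `j = i + 3`. -/
theorem MinCex.three_X (h : MinCex 3 i (i + 3) S φ A) :
    Xset 3 i (i + 3) (S.image φ) A = ∅ := by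
  obtain ⟨_, h3⟩ := h.three (by omega)
  rw [eq_empty_iff_forall_notMem]
  intro x hx
  have hx' := hx
  rw [mem_X] at hx'
  have hxM : x ∈ Mid i (i + 3) := by
    rcases hx'.1 with h4 | h4
    · exact h4
    · rw [mem_image] at h4
      obtain ⟨s, hs, rfl⟩ := h4
      have := h.dgT (by omega) hs
      omega
  rw [mem_Mid] at hxM
  by_cases hc : x.card = i + 1
  · obtain ⟨a, ha, haA⟩ := exists_of_dg_ne_zero (A := A) (v := x) (by omega)
    have hcard := card_erase_of_mem ha
    have hS : x.erase a ∈ S := by
      rcases h.Amem _ haA with h4 | h4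
      · exact h4
      · rw [mem_Mid] at h4
        omega
    have h5 := ub_pos_of (B := Xset 3 i (i + 3) (S.image φ) A) (s := x.erase a) (a := a)
      (by simp) (by rw [insert_erase ha]; exact hx)
    have h6 := (h3 _ hS).2.1
    omega
  · obtain ⟨s0, hs0⟩ := h.nonempty
    obtain ⟨M, hCF, _, _, _, hhead⟩ := h.cutFlow (by omega) hs0
    have h4 := hCF.outX x hx
    have h5 : ∃ a, M x a ≠ 0 := by
      by_contra hc
      push Not at hc
      unfold fout at h4
      rw [sum_eq_zero (fun a _ => hc a)] at h4
      norm_num at h4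
    obtain ⟨a, ha⟩ := h5
    have hax : a ∉ x := fun hh => ha (hCF.Mval x a hh)
    have h6 : insert a x ∈ S.image φ := by
      rcases hhead x a ha with h7 | h7
      · rw [mem_Mid, card_insert_of_notMem hax] at h7
        omega
      · exact h7
    have h8 := dg_pos_of (A := Xset 3 i (i + 3) (S.image φ) A) (v := insert a x) (a := a)
      (mem_insert_self _ _) (by rw [erase_insert hax]; exact hx)
    rw [mem_image] at h6
    obtain ⟨s, hs, he⟩ := h6
    rw [← he] at h8
    have := (h3 s hs).2.2
    omega

/-- Equality in every direction. -/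
theorem MinCex.three_dir (h : MinCex 3 i (i + 3) S φ A) {s0 : Finset α} (hs0 : s0 ∈ S) (g : α) :
    2 * Kg A (Bset 3 i (i + 3) (S.image φ) A) g +
      (σB (Bset 3 i (i + 3) (S.image φ) A) g s0 + σA A g (φ s0)) =
    3 * ∑ s ∈ S, (σB (Bset 3 i (i + 3) (S.image φ) A) g s + σA A g (φ s)) := by
  obtain ⟨hδ, h3⟩ := h.three (by omega)
  have hX := h.three_X
  have hadd := h.del_add
  have hle : ∀ g ∈ (univ : Finset α), 2 * Kg A (Bset 3 i (i + 3) (S.image φ) A) g +
      (σB (Bset 3 i (i + 3) (S.image φ) A) g s0 + σA A g (φ s0)) ≤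
    3 * ∑ s ∈ S, (σB (Bset 3 i (i + 3) (S.image φ) A) g s + σA A g (φ s)) := by
    intro g _
    have := h.dir (by omega) hX hs0 g
    rw [hδ, one_mul] at this
    exact this
  refine (sum_eq_sum_iff_of_le hle).1 ?_ g (mem_univ _)
  rw [sum_add_distrib, ← mul_sum, ← mul_sum, sum_Kg hX, sum_add_distrib, ← ub_eq_sigma,
    ← dg_eq_sigma, sum_comm]
  have h4 : ∑ s ∈ S, ∑ g, (σB (Bset 3 i (i + 3) (S.image φ) A) g s + σA A g (φ s)) =
      ∑ s ∈ S, 2 := by
    refine sum_congr rfl (fun s hs => ?_)
    rw [sum_add_distrib, ← ub_eq_sigma, ← dg_eq_sigma]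
    exact (h3 s hs).1
  rw [h4, (h3 s0 hs0).1, sum_const, smul_eq_mul]
  rw [hδ] at hadd
  omega

/-- Boundary edges and middle edges in direction `g`. -/
theorem MinCex.bdry {q : ℕ} (h : MinCex q i (i + 3) S φ A) (g : α) :
    ∑ s ∈ S, (σB (Bset q i (i + 3) (S.image φ) A) g s + σA A g (φ s)) +
      ((A.filter (fun u => g ∉ u ∧ insert g u ∈ Bset q i (i + 3) (S.image φ) A)).filter
        (fun u => u.card = i + 1)).card ≤ Kg A (Bset q i (i + 3) (S.image φ) A) g := by
  have hTB := h.T_sub_B (by omega)
  set B := Bset q i (i + 3) (S.image φ) A with hB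
  unfold Kg
  set K := A.filter (fun u => g ∉ u ∧ insert g u ∈ B) with hK
  have h1 : ∑ s ∈ S, σB B g s = (S.filter (fun s => g ∉ s ∧ insert g s ∈ B)).card := by
    unfold σB
    rw [card_filter]
  have h2 : ∑ s ∈ S, σA A g (φ s) =
      ((S.filter (fun s => g ∈ φ s ∧ (φ s).erase g ∈ A)).image (fun s => (φ s).erase g)).card := by
    rw [card_image_of_injOn]
    · unfold σA
      rw [card_filter]
    · intro s hs s' hs' he
      simp only [coe_filter, Set.mem_ofPred_eq] at hs hs'
      apply h.mat.inj (mem_coe.2 hs.1) (mem_coe.2 hs'.1)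
      rw [← insert_erase hs.2.1, ← insert_erase hs'.2.1]
      simp only at he
      rw [he]
  rw [sum_add_distrib, h1, h2]
  have hd1 : Disjoint (S.filter (fun s => g ∉ s ∧ insert g s ∈ B))
      ((S.filter (fun s => g ∈ φ s ∧ (φ s).erase g ∈ A)).image (fun s => (φ s).erase g)) := by
    rw [Finset.disjoint_left]
    intro u hu hu'
    rw [mem_filter] at hu
    rw [mem_image] at hu'
    obtain ⟨s, hs, rfl⟩ := hu'
    rw [mem_filter] at hs
    have h3 := h.mat.cS _ hu.1
    have h4 := h.mat.cT _ hs.1
    rw [card_erase_of_mem hs.2.1] at h3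
    omega
  rw [← card_union_of_disjoint hd1, ← card_union_of_disjoint]
  · apply card_le_card
    intro u hu
    rw [mem_union, mem_union] at hu
    rcases hu with (hu | hu) | hu
    · rw [mem_filter] at hu
      rw [hK, mem_filter]
      exact ⟨h.SA hu.1, hu.2⟩
    · rw [mem_image] at hu
      obtain ⟨s, hs, rfl⟩ := hu
      rw [mem_filter] at hs
      rw [hK, mem_filter]
      refine ⟨hs.2.2, by simp, ?_⟩
      rw [insert_erase hs.2.1]
      exact hTB (mem_image_of_mem _ hs.1)
    · exact (mem_filter.1 hu).1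
  · rw [Finset.disjoint_left]
    intro u hu hu'
    rw [mem_filter] at hu'
    rw [mem_union] at hu
    rcases hu with hu | hu
    · rw [mem_filter] at hu
      have h3 := h.mat.cS _ hu.1
      omega
    · rw [mem_image] at hu
      obtain ⟨s, hs, rfl⟩ := hu
      rw [mem_filter] at hs
      have h4 := h.mat.cT _ hs.1
      rw [card_erase_of_mem hs.2.1] at hu'
      omega

theorem Kg_zero {A B : Finset (Finset α)} {f : α} (hK : Kg A B f = 0) {u : Finset α} (hu : u ∈ A)
    (hf : f ∉ u) : insert f u ∉ B := by
  intro hB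
  unfold Kg at hK
  rw [card_eq_zero] at hK
  have : u ∈ A.filter (fun u => f ∉ u ∧ insert f u ∈ B) := mem_filter.2 ⟨hu, hf, hB⟩
  rw [hK] at this
  simp at this

theorem σB_one {B : Finset (Finset α)} {g : α} {s : Finset α} (h : σB B g s = 1) :
    g ∉ s ∧ insert g s ∈ B := by
  unfold σB at h
  by_contra hc
  rw [if_neg hc] at h
  omega

theorem σA_one {A : Finset (Finset α)} {g : α} {t : Finset α} (h : σA A g t = 1) :
    g ∈ t ∧ t.erase g ∈ A := by
  unfold σA at h
  by_contra hc
  rw [if_neg hc] at h
  omega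

theorem σB_le (B : Finset (Finset α)) (g : α) (s : Finset α) : σB B g s ≤ 1 := by
  unfold σB; split_ifs <;> omega

theorem σA_le (A : Finset (Finset α)) (g : α) (t : Finset α) : σA A g t ≤ 1 := by
  unfold σA; split_ifs <;> omega

/-- Outside `A`, everything in the middle is in `B`. -/
theorem mem_B_of {q i j : ℕ} {T A : Finset (Finset α)} (hX : Xset q i j T A = ∅) {v : Finset α}
    (hv : v ∈ Mid i j) (hvA : v ∉ A) : v ∈ Bset q i j T A := by
  rw [mem_B]
  refine ⟨Or.inl hv, hvA, ?_⟩
  by_contra hc
  have : v ∈ Xset q i j T A := mem_X.2 ⟨Or.inl hv, hvA, by omega⟩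
  rw [hX] at this
  simp at this

/-- First case: all cut edges are in one direction. -/
theorem MinCex.case_one {q : ℕ} (h : MinCex q i (i + 3) S φ A)
    (hX : Xset q i (i + 3) (S.image φ) A = ∅) (g : α)
    (hN : ∀ s ∈ S, (g ∉ s ∧ insert g s ∈ Bset q i (i + 3) (S.image φ) A) ∧ g ∈ φ s ∧ (φ s).erase g ∈ A)
    (hK : ∀ f, f ≠ g → Kg A (Bset q i (i + 3) (S.image φ) A) f = 0) :
    S.card ≤ ((A.filter (fun u => g ∉ u ∧ insert g u ∈ Bset q i (i + 3) (S.image φ) A)).filter
        (fun u => u.card = i + 1)).card := by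
  have hTB := h.T_sub_B (by omega)
  set B := Bset q i (i + 3) (S.image φ) A with hB
  -- Lehman-Ron at distance two
  have hmat : Mat i (i + 2) S (fun s => (φ s).erase g) := by
    refine ⟨h.mat.cS, ?_, ?_, ?_⟩
    · intro s hs
      rw [card_erase_of_mem (hN s hs).2.1, h.mat.cT s hs]
      omega
    · intro s hs s' hs' he
      apply h.mat.inj hs hs'
      simp only at he
      rw [← insert_erase (hN s (mem_coe.1 hs)).2.1, ← insert_erase (hN s' (mem_coe.1 hs')).2.1, he]
    · intro s hs x hx
      rw [mem_erase]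
      refine ⟨?_, h.mat.sub s hs hx⟩
      rintro rfl
      exact (hN s hs).1.1 hx
  let A1 : Finset (Finset α) := S ∪ (Mid i (i + 2)).filter (fun v => ∀ s' ∈ S, ¬ v ⊆ (φ s').erase g)
  have h1 := PP_le_two (α := α) (q := 1) (by norm_num) (le_refl (i + 2)) S _ hmat A1
    subset_union_left (by
      intro u hu
      rw [mem_union, mem_filter] at hu
      rcases hu with hu | hu
      · exact Or.inl hu
      · exact Or.inr hu.1)
  rw [one_mul] at h1
  refine h1.trans ?_
  rw [card_eq_sum_ones, ← sum_mem]
  unfold cost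
  refine sum_le_sum (fun v _ => ?_)
  by_cases hc : (v ∈ Mid i (i + 2) ∨ v ∈ S.image (fun s => (φ s).erase g)) ∧ v ∉ A1
  · rw [if_pos hc]
    by_cases hd : dg A1 v = 0
    · rw [hd]; simp
    · obtain ⟨a, ha, haA⟩ := exists_of_dg_ne_zero hd
      rw [mem_union, mem_filter] at haA
      have hca := card_erase_of_mem ha
      have hcpos : 0 < v.card := card_pos.2 ⟨a, ha⟩
      have hvM : v ∈ Mid i (i + 2) := by
        rcases hc.1 with h3 | h3
        · exact h3
        · exfalso
          rw [mem_image] at h3
          obtain ⟨s, hs, rfl⟩ := h3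
          have hcv := hmat.cT s hs
          rcases haA with h4 | h4
          · have := h.mat.cS _ h4
            omega
          · exact h4.2 s hs (erase_subset _ _)
      have hvc : v.card = i + 1 := by
        rw [mem_Mid] at hvM
        omega
      have hvs : ∃ s' ∈ S, v ⊆ (φ s').erase g := by
        by_contra hcon
        push Not at hcon
        exact hc.2 (mem_union_right _ (mem_filter.2 ⟨hvM, hcon⟩))
      obtain ⟨s', hs', hvs'⟩ := hvs
      have hgv : g ∉ v := fun hh => by simpa using hvs' hh
      have haS : v.erase a ∈ S := by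
        rcases haA with h4 | h4
        · exact h4
        · have := h4.1
          rw [mem_Mid] at this
          omega
      have hag : a ≠ g := by
        rintro rfl
        exact hgv ha
      have hvA : v ∈ A := by
        by_contra hnA
        have h5 : v ∈ B := mem_B_of hX (by rw [mem_Mid]; omega) hnA
        have h6 := Kg_zero (hK a hag) (h.SA haS) (by simp)
        rw [insert_erase ha] at h6
        exact h6 h5
      have hgB : insert g v ∈ B := by
        by_contra hnB
        have hcg : (insert g v).card = i + 2 := by rw [card_insert_of_notMem hgv, hvc]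
        have hgA : insert g v ∈ A := by
          by_contra hnA
          exact hnB (mem_B_of hX (by rw [mem_Mid]; omega) hnA)
        have hsub : insert g v ⊆ φ s' :=
          insert_subset (hN s' hs').2.1 (hvs'.trans (erase_subset _ _))
        have hct := h.mat.cT s' hs'
        have hns : ¬ φ s' ⊆ insert g v := fun hh => by
          have := card_le_card hh
          omega
        obtain ⟨b, hb, hbv⟩ := Finset.not_subset.1 hns
        have hbg : b ≠ g := by
          rintro rfl
          exact hbv (mem_insert_self _ _)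
        have h6 := Kg_zero (hK b hbg) hgA hbv
        have h7 : insert b (insert g v) = φ s' := by
          apply eq_of_subset_of_card_le (insert_subset hb hsub)
          rw [card_insert_of_notMem hbv]
          omega
        rw [h7] at h6
        exact h6 (hTB (mem_image_of_mem _ hs'))
      rw [if_pos]
      · omega
      · rw [mem_filter, mem_filter]
        exact ⟨⟨hvA, hgv, hgB⟩, hvc⟩
  · rw [if_neg hc]
    exact Nat.zero_le _

/-- Second case: all cut edges are in two directions. -/
theorem MinCex.case_two_pair {q : ℕ} (h : MinCex q i (i + 3) S φ A)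
    (hX : Xset q i (i + 3) (S.image φ) A = ∅) (g k : α) (hgk : g ≠ k)
    (hNg : ∀ s ∈ S, σB (Bset q i (i + 3) (S.image φ) A) g s + σA A g (φ s) = 1)
    (hNk : ∀ s ∈ S, σB (Bset q i (i + 3) (S.image φ) A) k s + σA A k (φ s) = 1)
    (hK : ∀ f, f ≠ g → f ≠ k → Kg A (Bset q i (i + 3) (S.image φ) A) f = 0) {s : Finset α}
    (hs : s ∈ S) :
    (g ∉ s ∧ k ∉ s ∧ g ∈ φ s ∧ k ∈ φ s) ∧
    ((((φ s).erase g).erase k ∈ A ∧ insert g (((φ s).erase g).erase k) ∈ Bset q i (i + 3) (S.image φ) A) ∨
      (insert k s ∈ A ∧ insert g (insert k s) ∈ Bset q i (i + 3) (S.image φ) A)) := by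
  have hTB := h.T_sub_B (by omega)
  set B := Bset q i (i + 3) (S.image φ) A with hB
  have hAB : ∀ v, v ∈ A → v ∉ B := fun v hv hvB => by rw [hB, mem_B] at hvB; exact hvB.2.1 hv
  have htB : φ s ∈ B := hTB (mem_image_of_mem _ hs)
  have hsA : s ∈ A := h.SA hs
  have hcs := h.mat.cS s hs
  have hct := h.mat.cT s hs
  have hst := h.mat.sub s hs
  have hNgs := hNg s hs
  have hNks := hNk s hs
  obtain ⟨t, htdef⟩ : ∃ t, t = φ s := ⟨_, rfl⟩
  rw [← htdef] at htB hct hst hNgs hNks ⊢
  -- propagation
  have prop1 : ∀ u f, u ∈ A → f ∉ u → f ≠ g → f ≠ k → insert f u ∈ Mid i (i + 3) → insert f u ∈ A := by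
    intro u f hu hf h1 h3 h4
    by_contra hn
    exact Kg_zero (hK f h1 h3) hu hf (mem_B_of hX h4 hn)
  -- three directions
  have hD : (t \ s).card = 3 := by
    rw [card_sdiff_of_subset hst]
    omega
  obtain ⟨x, hx⟩ : ∃ x ∈ t \ s, x ≠ g ∧ x ≠ k := by
    by_contra hcon
    push Not at hcon
    have hsub : t \ s ⊆ {g, k} := by
      intro x hx
      rw [mem_insert, mem_singleton]
      by_cases hxg : x = g
      · exact Or.inl hxg
      · exact Or.inr (hcon x hx hxg)
    have h3 := card_le_card hsub
    have h4 := card_le_two (a := g) (b := k)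
    omega
  obtain ⟨hxD, hxg, hxk⟩ := hx
  have hD2 : ((t \ s).erase x).card = 2 := by
    rw [card_erase_of_mem hxD, hD]
  obtain ⟨y, z, hyz, hyzD⟩ := card_eq_two.1 hD2
  have hyD : y ∈ t \ s ∧ y ≠ x := by
    have : y ∈ (t \ s).erase x := by rw [hyzD]; simp
    rw [mem_erase] at this
    exact ⟨this.2, this.1⟩
  have hzD : z ∈ t \ s ∧ z ≠ x := by
    have : z ∈ (t \ s).erase x := by rw [hyzD]; simp
    rw [mem_erase] at this
    exact ⟨this.2, this.1⟩
  rw [mem_sdiff] at hxD hyD hzD
  have ht : t = insert z (insert y (insert x s)) := by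
    symm
    apply eq_of_subset_of_card_le
    · exact insert_subset hzD.1.1 (insert_subset hyD.1.1 (insert_subset hxD.1 hst))
    · rw [card_insert_of_notMem, card_insert_of_notMem, card_insert_of_notMem hxD.2]
      · omega
      · simp [hyD.1.2, hyD.2]
      · simp [hzD.1.2, hzD.2, Ne.symm hyz]
  have hxs : insert x s ∈ A := by
    apply prop1 s x hsA hxD.2 hxg hxk
    rw [mem_Mid, card_insert_of_notMem hxD.2]
    omega
  -- the other two directions are g, k
  have key : ∀ y z : α, y ≠ z → y ∉ s → z ∉ s → y ≠ x → z ≠ x →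
      t = insert z (insert y (insert x s)) → y ≠ g → y ≠ k → False := by
    intro y z hyz hy hz hyx hzx ht hyg hyk
    have hyx' : y ∉ insert x s := by simp [hy, hyx]
    have hzyx' : z ∉ insert y (insert x s) := by simp [hz, hzx, Ne.symm hyz]
    have h1 : insert y (insert x s) ∈ A := by
      apply prop1 _ y hxs hyx' hyg hyk
      rw [mem_Mid, card_insert_of_notMem hyx', card_insert_of_notMem hxD.2]
      omega
    have hzgk : z = g ∨ z = k := by
      by_contra hcon
      push Not at hcon
      have := Kg_zero (hK z hcon.1 hcon.2) h1 hzyx'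
      rw [← ht] at this
      exact this htB
    have hAz : σA A z t = 1 := by
      unfold σA
      rw [if_pos]
      rw [ht, erase_insert hzyx']
      exact ⟨mem_insert_self _ _, h1⟩
    have hBz : σB B z s = 0 := by
      rcases hzgk with rfl | rfl <;> omega
    have hzs : insert z s ∈ A := by
      by_contra hn
      have h4 : insert z s ∈ B := mem_B_of hX (by
        rw [mem_Mid, card_insert_of_notMem hz]; omega) hn
      unfold σB at hBz
      rw [if_pos ⟨hz, h4⟩] at hBz
      omega
    have hxz : x ∉ insert z s := by simp [hxD.2, Ne.symm hzx]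
    have h5 : insert x (insert z s) ∈ A := by
      apply prop1 _ x hzs hxz hxg hxk
      rw [mem_Mid, card_insert_of_notMem hxz, card_insert_of_notMem hz]
      omega
    have hy' : y ∉ insert x (insert z s) := by simp [hy, hyx, hyz]
    have h6 := Kg_zero (hK y hyg hyk) h5 hy'
    apply h6
    have : insert y (insert x (insert z s)) = t := by
      rw [ht]
      ext w
      simp only [mem_insert]
      tauto
    rw [this]
    exact htB
  have hy2 : y = g ∨ y = k := by
    by_contra hcon
    push Not at hcon
    exact key y z hyz hyD.1.2 hzD.1.2 hyD.2 hzD.2 ht hcon.1 hcon.2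
  have hz2 : z = g ∨ z = k := by
    by_contra hcon
    push Not at hcon
    exact key z y (Ne.symm hyz) hzD.1.2 hyD.1.2 hzD.2 hyD.2
      (by rw [ht]; exact Finset.insert_comm _ _ _) hcon.1 hcon.2
  have hgs : g ∉ s := by
    rcases hy2 with h1 | h1
    · rw [← h1]; exact hyD.1.2
    · rcases hz2 with h3 | h3
      · rw [← h3]; exact hzD.1.2
      · exact absurd (h1.trans h3.symm) hyz
  have hks : k ∉ s := by
    rcases hy2 with h1 | h1
    · rcases hz2 with h3 | h3
      · exact absurd (h1.trans h3.symm) hyz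
      · rw [← h3]; exact hzD.1.2
    · rw [← h1]; exact hyD.1.2
  have ht' : t = insert g (insert k (insert x s)) := by
    rcases hy2 with h1 | h1
    · rcases hz2 with h3 | h3
      · exact absurd (h1.trans h3.symm) hyz
      · rw [ht, h1, h3]; exact Finset.insert_comm _ _ _
    · rcases hz2 with h3 | h3
      · rw [ht, h1, h3]
      · exact absurd (h1.trans h3.symm) hyz
  have hkx : k ∉ insert x s := by simp [hks, Ne.symm hxk]
  have hgx : g ∉ insert x s := by simp [hgs, Ne.symm hxg]
  have hgkx : g ∉ insert k (insert x s) := by simp [hgs, Ne.symm hxg, hgk]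
  have hkgx : k ∉ insert g (insert x s) := by simp [hks, Ne.symm hxk, Ne.symm hgk]
  have ht'' : t = insert k (insert g (insert x s)) := by
    rw [ht']; exact Finset.insert_comm _ _ _
  have e1 : t.erase g = insert k (insert x s) := by rw [ht', erase_insert hgkx]
  have e2 : t.erase k = insert g (insert x s) := by rw [ht'', erase_insert hkgx]
  have e3 : (t.erase g).erase k = insert x s := by rw [e1, erase_insert hkx]
  refine ⟨⟨hgs, hks, by rw [ht']; simp, by rw [ht']; simp⟩, ?_⟩
  have hgt : g ∈ t := by rw [ht']; simp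
  have hkt : k ∈ t := by rw [ht']; simp
  by_cases hg : insert g s ∈ B
  · -- first type
    left
    rw [e3]
    refine ⟨hxs, ?_⟩
    have hBg : σB B g s = 1 := by unfold σB; rw [if_pos ⟨hgs, hg⟩]
    have hAg : σA A g t = 0 := by omega
    have h1 : t.erase g ∉ A := by
      intro hh
      unfold σA at hAg
      rw [if_pos ⟨hgt, hh⟩] at hAg
      omega
    have h3 : insert k s ∉ A := by
      intro hh
      apply h1
      rw [e1]
      have : insert k (insert x s) = insert x (insert k s) := Finset.insert_comm _ _ _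
      rw [this]
      have hxk' : x ∉ insert k s := by simp [hxD.2, hxk]
      apply prop1 _ x hh hxk' hxg hxk
      rw [mem_Mid, card_insert_of_notMem hxk', card_insert_of_notMem hks]
      omega
    have h4 : insert k s ∈ B := mem_B_of hX (by
      rw [mem_Mid, card_insert_of_notMem hks]; omega) h3
    have hBk : σB B k s = 1 := by unfold σB; rw [if_pos ⟨hks, h4⟩]
    have hAk : σA A k t = 0 := by omega
    have h5 : t.erase k ∉ A := by
      intro hh
      unfold σA at hAk
      rw [if_pos ⟨hkt, hh⟩] at hAk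
      omega
    rw [e2] at h5
    exact mem_B_of hX (by
      rw [mem_Mid, card_insert_of_notMem hgx, card_insert_of_notMem hxD.2]; omega) h5
  · -- second type
    right
    have hgA : insert g s ∈ A := by
      by_contra hn
      exact hg (mem_B_of hX (by rw [mem_Mid, card_insert_of_notMem hgs]; omega) hn)
    have h1 : t.erase k ∈ A := by
      rw [e2]
      have : insert g (insert x s) = insert x (insert g s) := Finset.insert_comm _ _ _
      rw [this]
      have hxk' : x ∉ insert g s := by simp [hxD.2, hxg]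
      apply prop1 _ x hgA hxk' hxg hxk
      rw [mem_Mid, card_insert_of_notMem hxk', card_insert_of_notMem hgs]
      omega
    have hAk : σA A k t = 1 := by unfold σA; rw [if_pos ⟨hkt, h1⟩]
    have hBk : σB B k s = 0 := by omega
    have hkA : insert k s ∈ A := by
      by_contra hn
      have h4 : insert k s ∈ B := mem_B_of hX (by
        rw [mem_Mid, card_insert_of_notMem hks]; omega) hn
      unfold σB at hBk
      rw [if_pos ⟨hks, h4⟩] at hBk
      omega
    refine ⟨hkA, ?_⟩
    have hgk' : g ∉ insert k s := by simp [hgs, hgk]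
    apply mem_B_of hX
    · rw [mem_Mid, card_insert_of_notMem hgk', card_insert_of_notMem hks]
      omega
    · intro hh
      have hx' : x ∉ insert g (insert k s) := by simp [hxD.2, hxg, hxk]
      have h6 := Kg_zero (hK x hxg hxk) hh hx'
      apply h6
      have : insert x (insert g (insert k s)) = t := by
        rw [ht']
        ext w
        simp only [mem_insert]
        tauto
      rw [this]
      exact htB

end MP_8b6acb_co
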