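import Mathlib
import Pool.Agent.Work.MP_8b6acb_co.Three

/-! The cut condition for `q = 3` and `j = i + 3`. -/

set_option linter.unusedSectionVars false

namespace MP_8b6acb_co

open Finset

variable {α : Type*} [Fintype α] [DecidableEq α]
variable {i j : ℕ} {S A : Finset (Finset α)} {φ : Finset α → Finset α}

theorem MinCex.case_two {q : ℕ} (h : MinCex q i (i + 3) S φ A)
    (hX : Xset q i (i + 3) (S.image φ) A = ∅) (g k : α) (hgk : g ≠ k)
    (hNg : ∀ s ∈ S, σB (Bset q i (i + 3) (S.image φ) A) g s + σA A g (φ s) = 1)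
    (hNk : ∀ s ∈ S, σB (Bset q i (i + 3) (S.image φ) A) k s + σA A k (φ s) = 1)
    (hK : ∀ f, f ≠ g → f ≠ k → Kg A (Bset q i (i + 3) (S.image φ) A) f = 0) :
    S.card ≤ ((A.filter (fun u => g ∉ u ∧ insert g u ∈ Bset q i (i + 3) (S.image φ) A)).filter
        (fun u => u.card = i + 1)).card := by
  have hp := fun s (hs : s ∈ S) => h.case_two_pair hX g k hgk hNg hNk hK hs
  set B := Bset q i (i + 3) (S.image φ) A with hB
  let ψ : Finset α → Finset α := fun s =>
    if ((φ s).erase g).erase k ∈ A ∧ insert g (((φ s).erase g).erase k) ∈ B then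
      ((φ s).erase g).erase k else insert k s
  have hψ : ∀ s ∈ S, ψ s ∈ (A.filter (fun u => g ∉ u ∧ insert g u ∈ B)).filter
      (fun u => u.card = i + 1) := by
    intro s hs
    obtain ⟨⟨h1, h2, h3, h4⟩, h5⟩ := hp s hs
    simp only [ψ]
    split_ifs with hc
    · rw [mem_filter, mem_filter]
      refine ⟨⟨hc.1, by simp, hc.2⟩, ?_⟩
      rw [card_erase_of_mem, card_erase_of_mem h3, h.mat.cT s hs]
      · omega
      · rw [mem_erase]; exact ⟨Ne.symm hgk, h4⟩
    · have h6 := h5.resolve_left hc
      rw [mem_filter, mem_filter]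
      refine ⟨⟨h6.1, by simp [h1, hgk], h6.2⟩, ?_⟩
      rw [card_insert_of_notMem h2, h.mat.cS s hs]
  apply card_le_card_of_injOn ψ hψ
  intro s hs s' hs' he
  have hs := mem_coe.1 hs
  have hs' := mem_coe.1 hs'
  obtain ⟨⟨h1, h2, h3, h4⟩, _⟩ := hp s hs
  obtain ⟨⟨h1', h2', h3', h4'⟩, _⟩ := hp s' hs'
  simp only [ψ] at he
  split_ifs at he with hc hc' hc'
  · apply h.mat.inj (mem_coe.2 hs) (mem_coe.2 hs')
    have e1 : (φ s).erase g = (φ s').erase g := by
      rw [← insert_erase (show k ∈ (φ s).erase g from mem_erase.2 ⟨Ne.symm hgk, h4⟩),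
        ← insert_erase (show k ∈ (φ s').erase g from mem_erase.2 ⟨Ne.symm hgk, h4'⟩), he]
    rw [← insert_erase h3, ← insert_erase h3', e1]
  · exfalso
    have : k ∈ ((φ s).erase g).erase k := by rw [he]; exact mem_insert_self _ _
    simp at this
  · exfalso
    have : k ∈ ((φ s').erase g).erase k := by rw [← he]; exact mem_insert_self _ _
    simp at this
  · rw [← erase_insert h2, ← erase_insert h2', he]

/-- The cut condition for `q = 3`, `j = i + 3`. -/
theorem PP_three_base (i : ℕ) : PP α 3 i (i + 3) := by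
  by_contra hc
  obtain ⟨S, φ, A, h⟩ := exists_minCex hc
  obtain ⟨hδ, h3⟩ := h.three (by omega)
  have hX := h.three_X
  obtain ⟨s1, hs1⟩ := h.nonempty
  have hm := card_pos.2 h.nonempty
  have hdir := fun s (hs : s ∈ S) g => h.three_dir hs g
  set B := Bset 3 i (i + 3) (S.image φ) A with hB
  obtain ⟨N, hN⟩ : ∃ N : α → ℕ, N = fun g => σB B g s1 + σA A g (φ s1) := ⟨_, rfl⟩
  have hNs : ∀ s ∈ S, ∀ g, σB B g s + σA A g (φ s) = N g := by
    intro s hs g
    have e1 := hdir s hs g
    have e2 := hdir s1 hs1 g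
    rw [hN]
    simp only
    omega
  have hsum : ∀ g, ∑ s ∈ S, (σB B g s + σA A g (φ s)) = S.card * N g := by
    intro g
    rw [sum_congr rfl (fun s hs => hNs s hs g), sum_const, smul_eq_mul]
  have hKN : ∀ g, 2 * Kg A B g + N g = 3 * (S.card * N g) := by
    intro g
    have e1 := hdir s1 hs1 g
    rw [hsum g, hNs s1 hs1 g] at e1
    exact e1
  have hK0 : ∀ g, N g = 0 → Kg A B g = 0 := by
    intro g hg
    have := hKN g
    rw [hg] at this
    omega
  have hN2 : ∑ g, N g = 2 := by
    have := (h3 s1 hs1).1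
    rw [ub_eq_sigma, dg_eq_sigma, ← sum_add_distrib] at this
    rw [hN]
    exact this
  -- contradiction as soon as there are enough middle edges
  have hfin : ∀ g, 1 ≤ N g → N g ≤ 2 → S.card ≤ ((A.filter (fun u => g ∉ u ∧ insert g u ∈ B)).filter
        (fun u => u.card = i + 1)).card → False := by
    intro g h1 h2 hmid
    have hb := h.bdry g
    rw [← hB, hsum g] at hb
    have hk := hKN g
    have h12 : N g = 1 ∨ N g = 2 := by omega
    rcases h12 with hn | hn <;> rw [hn] at hb hk <;> omega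
  have hex : ∃ g, N g ≠ 0 := by
    by_contra hcon
    push Not at hcon
    rw [sum_eq_zero (fun g _ => hcon g)] at hN2
    omega
  obtain ⟨g, hg⟩ := hex
  have hle2 : ∀ g, N g ≤ 2 := by
    intro g
    rw [← hN2]
    exact single_le_sum (fun _ _ => Nat.zero_le _) (mem_univ g)
  have hsplit : N g + ∑ f ∈ univ.erase g, N f = 2 := by
    rw [add_sum_erase _ _ (mem_univ g)]
    exact hN2
  by_cases hg2 : N g = 2
  · apply hfin g (by omega) (hle2 g)
    apply h.case_one hX g
    · intro s hs
      have e1 := hNs s hs g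
      have e2 := σB_le B g s
      have e3 := σA_le A g (φ s)
      have e4 : σB B g s = 1 := by omega
      have e5 : σA A g (φ s) = 1 := by omega
      exact ⟨σB_one e4, σA_one e5⟩
    · intro f hf
      apply hK0
      have : ∑ f ∈ univ.erase g, N f = 0 := by omega
      exact (sum_eq_zero_iff.1 this) f (mem_erase.2 ⟨hf, mem_univ _⟩)
  · have hg1 : N g = 1 := by
      have := hle2 g
      omega
    have hrest : ∑ f ∈ univ.erase g, N f = 1 := by omega
    have hex2 : ∃ k ∈ univ.erase g, N k ≠ 0 := by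
      by_contra hcon
      push Not at hcon
      rw [sum_eq_zero hcon] at hrest
      omega
    obtain ⟨k, hk, hk0⟩ := hex2
    have hsplit2 : N k + ∑ f ∈ (univ.erase g).erase k, N f = 1 := by
      rw [add_sum_erase _ _ hk]
      exact hrest
    have hk1 : N k = 1 := by omega
    have hkg : k ≠ g := (mem_erase.1 hk).1
    apply hfin g (by omega) (hle2 g)
    apply h.case_two hX g k (Ne.symm hkg)
    · intro s hs
      rw [← hg1]
      exact hNs s hs g
    · intro s hs
      rw [← hk1]
      exact hNs s hs k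
    · intro f hfg hfk
      apply hK0
      have : ∑ f ∈ (univ.erase g).erase k, N f = 0 := by omega
      exact (sum_eq_zero_iff.1 this) f (mem_erase.2 ⟨hfk, mem_erase.2 ⟨hfg, mem_univ _⟩⟩)

end MP_8b6acb_co
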