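import Mathlib
import Pool.Agent.Work.MP_8b6acb_co.Base

/-! Induction on the distance of the two layers. -/

set_option linter.unusedSectionVars false

namespace MP_8b6acb_co

open Finset

theorem hall_on {β γ : Type*} [DecidableEq β] [DecidableEq γ] [Nonempty γ] (T1 : Finset β)
    (nb : β → Finset γ) (h : ∀ T' ⊆ T1, T'.card ≤ (T'.biUnion nb).card) :
    ∃ F : β → γ, Set.InjOn F T1 ∧ ∀ t ∈ T1, F t ∈ nb t := by
  classical
  have h1 : ∀ s : Finset {t // t ∈ T1}, s.card ≤ (s.biUnion (fun t => nb t.1)).card := by
    intro s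
    have h2 := h (s.image Subtype.val) (by
      intro t ht
      rw [mem_image] at ht
      obtain ⟨t', _, rfl⟩ := ht
      exact t'.2)
    rw [card_image_of_injective _ Subtype.val_injective] at h2
    refine h2.trans (le_of_eq ?_)
    congr 1
    ext x
    simp
  obtain ⟨f, hf, hft⟩ := (Finset.all_card_le_biUnion_card_iff_exists_injective _).1 h1
  refine ⟨fun t => if ht : t ∈ T1 then f ⟨t, ht⟩ else Classical.arbitrary γ, ?_, ?_⟩
  · intro t ht t' ht' he
    have ht := mem_coe.1 ht
    have ht' := mem_coe.1 ht'
    simp only [ht, ht', dif_pos] at he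
    exact congrArg Subtype.val (hf he)
  · intro t ht
    simp only [ht, dif_pos]
    exact hft ⟨t, ht⟩

variable {α : Type*} [Fintype α] [DecidableEq α]
variable {q i j : ℕ} {S A : Finset (Finset α)} {φ : Finset α → Finset α}

/-- The first layer cut. -/
def cutOne (i j : ℕ) (S : Finset (Finset α)) (φ : Finset α → Finset α) : Finset (Finset α) :=
  S ∪ (Mid i j).filter (fun v => ∀ s ∈ S, ¬ v ⊆ φ s)

theorem MinCex.first (h : MinCex q i j S φ A) (h2 : i + 2 ≤ j) (hP : PP α q (i + 1) j) :
    MinCex q i j S φ (cutOne i j S φ) := by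
  classical
  obtain ⟨W, hW⟩ : ∃ W, W = A.filter (fun w => w.card = i + 1) := ⟨_, rfl⟩
  obtain ⟨T, hT⟩ : ∃ T, T = S.image φ := ⟨_, rfl⟩
  let nb : Finset (Finset α) → Finset (Finset α) := fun T0 => W.filter (fun w => ∃ t ∈ T0, w ⊆ t)
  obtain ⟨T0, hT0, hmin⟩ := Finset.exists_min_image T.powerset
    (fun T0 => (nb T0).card + (T \ T0).card) ⟨∅, by simp⟩
  rw [mem_powerset] at hT0
  have hmin' : ∀ T' ⊆ T, (nb T0).card + (T \ T0).card ≤ (nb T').card + (T \ T').card :=
    fun T' hT' => hmin T' (mem_powerset.2 hT')
  have hTc : ∀ t ∈ T, t.card = j := by rw [hT]; exact h.cardT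
  have hAc := h.cardA (by omega)
  have hAT : ∀ v ∈ A, v ∉ T := by
    intro v hv hvT
    have h3 := hAc v hv
    have h4 := hTc v hvT
    omega
  have hWc : ∀ w ∈ W, w ∈ A ∧ w.card = i + 1 := by
    intro w hw
    rw [hW, mem_filter] at hw
    exact hw
  have hlow : ∀ v ∈ A, i ≤ v.card := by
    intro v hv
    rcases h.Amem v hv with h3 | h3
    · rw [h.mat.cS v h3]
    · rw [mem_Mid] at h3; omega
  -- every element of `T` is a `φ s`
  by_cases hT1 : T \ T0 = ∅
  · -- first-layer cut is as good
    have hTT : T0 = T := subset_antisymm hT0 (sdiff_eq_empty_iff_subset.1 hT1)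
    subst hTT
    have hall : ∀ N' ⊆ nb T0, N'.card ≤ (N'.biUnion (fun w => T0.filter (fun t => w ⊆ t))).card := by
      intro N' hN'
      have h3 := hmin' (T0 \ N'.biUnion (fun w => T0.filter (fun t => w ⊆ t))) sdiff_subset
      have h4 : nb (T0 \ N'.biUnion (fun w => T0.filter (fun t => w ⊆ t))) ⊆ nb T0 \ N' := by
        intro w hw
        simp only [nb, mem_filter, mem_sdiff, mem_biUnion, not_exists, not_and] at hw ⊢
        obtain ⟨hwW, t, ⟨ht, htn⟩, hwt⟩ := hw
        refine ⟨⟨hwW, t, ht, hwt⟩, ?_⟩
        intro hwN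
        exact htn w hwN ht hwt
      have h5 := card_le_card h4
      rw [card_sdiff_of_subset hN'] at h5
      have h6 : (T0 \ (T0 \ N'.biUnion (fun w => T0.filter (fun t => w ⊆ t)))) ⊆
          N'.biUnion (fun w => T0.filter (fun t => w ⊆ t)) := by
        intro t ht
        rw [mem_sdiff, mem_sdiff] at ht
        by_contra hc
        exact ht.2 ⟨ht.1, hc⟩
      have h7 := card_le_card h6
      have h8 := card_le_card hN'
      simp only [sdiff_self] at h3
      omega
    obtain ⟨g, hg, hgn⟩ := hall_on (nb T0) (fun w => T0.filter (fun t => w ⊆ t)) hall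
    have hgn' : ∀ w ∈ nb T0, g w ∈ T0 ∧ w ⊆ g w := fun w hw => mem_filter.1 (hgn w hw)
    have hmat2 : Mat (i + 1) j (nb T0) g := by
      refine ⟨?_, ?_, hg, ?_⟩
      · intro w hw
        exact (hWc w (mem_filter.1 hw).1).2
      · intro w hw
        exact hTc _ (hgn' w hw).1
      · intro w hw
        exact (hgn' w hw).2
    have h3 := hP (nb T0) g hmat2 (A.filter (fun v => ∃ w ∈ nb T0, w ⊆ v))
      (by
        intro w hw
        rw [mem_filter]
        exact ⟨(hWc w (mem_filter.1 hw).1).1, w, hw, Subset.refl _⟩)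
      (by
        intro v hv
        rw [mem_filter] at hv
        obtain ⟨hvA, w, hw, hwv⟩ := hv
        have h4 := card_le_card hwv
        have h5 := (hWc w (mem_filter.1 hw).1).2
        by_cases h6 : v.card = i + 1
        · left
          have : w = v := eq_of_subset_of_card_le hwv (by omega)
          rw [← this]; exact hw
        · right
          rw [mem_Mid]
          have := hAc v hvA
          omega)
    have hkey : cost q i j (S.image φ) (cutOne i j S φ) +
        cost q (i + 1) j ((nb T0).image g) (A.filter (fun v => ∃ w ∈ nb T0, w ⊆ v)) ≤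
        cost q i j (S.image φ) A + q * (nb T0).card := by
      have e1 : q * (nb T0).card = ∑ v, (if v ∈ nb T0 then q else 0) := by
        rw [sum_mem, sum_const, smul_eq_mul, mul_comm]
      rw [e1]
      unfold cost
      rw [← sum_add_distrib, ← sum_add_distrib]
      refine sum_le_sum (fun v _ => ?_)
      rw [← hT]
      by_cases hc1 : ((v ∈ Mid i j ∨ v ∈ T0) ∧ v ∉ cutOne i j S φ) ∧ dg (cutOne i j S φ) v ≠ 0
      · -- a first layer vertex below `T`
        obtain ⟨hc1, hd⟩ := hc1
        rw [if_pos hc1]
        obtain ⟨a, ha, haA⟩ := exists_of_dg_ne_zero hd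
        have hca := card_erase_of_mem ha
        have hcpos : 0 < v.card := card_pos.2 ⟨a, ha⟩
        have hvT : ∃ s ∈ S, v ⊆ φ s := by
          rcases hc1.1 with h4 | h4
          · by_contra hcon
            push Not at hcon
            exact hc1.2 (mem_union_right _ (mem_filter.2 ⟨h4, hcon⟩))
          · rw [hT, mem_image] at h4
            obtain ⟨s, hs, rfl⟩ := h4
            exact ⟨s, hs, Subset.refl _⟩
        obtain ⟨s', hs', hvs'⟩ := hvT
        have hlc : ∀ b ∈ v, v.erase b ∈ cutOne i j S φ → v.erase b ∈ S := by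
          intro b hb hbA
          unfold cutOne at hbA
          rw [mem_union, mem_filter] at hbA
          rcases hbA with h4 | h4
          · exact h4
          · exact absurd ((erase_subset _ _).trans hvs') (h4.2 s' hs')
        have haS := hlc a ha haA
        have hvc : v.card = i + 1 := by
          have := h.mat.cS _ haS
          omega
        have hvM : v ∈ Mid i j := by rw [mem_Mid]; omega
        have hnot2 : ¬ ((v ∈ Mid (i + 1) j ∨ v ∈ (nb T0).image g) ∧
            v ∉ A.filter (fun v => ∃ w ∈ nb T0, w ⊆ v)) := by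
          rintro ⟨h4 | h4, _⟩
          · rw [mem_Mid] at h4; omega
          · rw [mem_image] at h4
            obtain ⟨w, hw, rfl⟩ := h4
            have := hmat2.cT w hw
            omega
        rw [if_neg hnot2, add_zero]
        by_cases hvA : v ∈ A
        · have hvN : v ∈ nb T0 := by
            simp only [nb, mem_filter]
            refine ⟨?_, φ s', ?_, hvs'⟩
            · rw [hW, mem_filter]; exact ⟨hvA, hvc⟩
            · rw [hT]; exact mem_image_of_mem _ hs'
          rw [if_pos hvN]
          omega
        · rw [if_pos ⟨Or.inl hvM, hvA⟩]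
          have : dg (cutOne i j S φ) v ≤ dg A v :=
            dg_mono (fun b hb hbA => h.SA (hlc b hb hbA))
          omega
      · have hz : (if (v ∈ Mid i j ∨ v ∈ T0) ∧ v ∉ cutOne i j S φ then
            min q (dg (cutOne i j S φ) v) else 0) = 0 := by
          by_cases hc2 : (v ∈ Mid i j ∨ v ∈ T0) ∧ v ∉ cutOne i j S φ
          · rw [if_pos hc2]
            have : dg (cutOne i j S φ) v = 0 := by
              by_contra hcon
              exact hc1 ⟨hc2, hcon⟩
            rw [this]; simp
          · rw [if_neg hc2]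
        rw [hz, zero_add]
        by_cases hc3 : ((v ∈ Mid (i + 1) j ∨ v ∈ (nb T0).image g) ∧
            v ∉ A.filter (fun v => ∃ w ∈ nb T0, w ⊆ v)) ∧
            dg (A.filter (fun v => ∃ w ∈ nb T0, w ⊆ v)) v ≠ 0
        · obtain ⟨hc3, hd⟩ := hc3
          rw [if_pos hc3]
          obtain ⟨a, ha, haA⟩ := exists_of_dg_ne_zero hd
          rw [mem_filter] at haA
          obtain ⟨haA, w, hw, hwa⟩ := haA
          have hvD : v ∈ Mid i j ∨ v ∈ T0 := by
            rcases hc3.1 with h4 | h4
            · left; rw [mem_Mid] at h4 ⊢; omega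
            · right
              rw [mem_image] at h4
              obtain ⟨w, hw, rfl⟩ := h4
              exact (hgn' w hw).1
          have hvA : v ∉ A := by
            intro hh
            exact hc3.2 (mem_filter.2 ⟨hh, w, hw, hwa.trans (erase_subset _ _)⟩)
          rw [if_pos ⟨hvD, hvA⟩]
          have : dg (A.filter (fun v => ∃ w ∈ nb T0, w ⊆ v)) v ≤ dg A v :=
            dg_mono (fun b _ hbA => (mem_filter.1 hbA).1)
          omega
        · have hz : (if (v ∈ Mid (i + 1) j ∨ v ∈ (nb T0).image g) ∧
            v ∉ A.filter (fun v => ∃ w ∈ nb T0, w ⊆ v) then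
              min q (dg (A.filter (fun v => ∃ w ∈ nb T0, w ⊆ v)) v) else 0) = 0 := by
            by_cases hc2 : (v ∈ Mid (i + 1) j ∨ v ∈ (nb T0).image g) ∧
                v ∉ A.filter (fun v => ∃ w ∈ nb T0, w ⊆ v)
            · rw [if_pos hc2]
              have : dg (A.filter (fun v => ∃ w ∈ nb T0, w ⊆ v)) v = 0 := by
                by_contra hcon
                exact hc3 ⟨hc2, hcon⟩
              rw [this]; simp
            · rw [if_neg hc2]
          rw [hz]
          exact Nat.zero_le _
    have hle : cost q i j (S.image φ) (cutOne i j S φ) ≤ cost q i j (S.image φ) A := by omega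
    refine ⟨h.mat, subset_union_left, ?_, lt_of_le_of_lt hle h.viol, h.minS, ?_⟩
    · intro u hu
      unfold cutOne at hu
      rw [mem_union, mem_filter] at hu
      rcases hu with hu | hu
      · exact Or.inl hu
      · exact Or.inr hu.1
    · intro A' h4 h5
      exact hle.trans (h.minA A' h4 h5)
  · -- the other case is contradictory
    exfalso
    obtain ⟨T1, hT1d⟩ : ∃ T1, T1 = T \ T0 := ⟨_, rfl⟩
    rw [← hT1d] at hT1
    have hall : ∀ T' ⊆ T1, T'.card ≤
        (T'.biUnion (fun t => (W.filter (fun w => w ⊆ t)) \ nb T0)).card := by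
      intro T' hT'
      have hT'T : T' ⊆ T := hT'.trans (by rw [hT1d]; exact sdiff_subset)
      have hdisj : Disjoint T' T0 := by
        rw [Finset.disjoint_left]
        intro t ht ht0
        have := hT' ht
        rw [hT1d, mem_sdiff] at this
        exact this.2 ht0
      have h3 := hmin' (T0 ∪ T') (union_subset hT0 hT'T)
      have h4 : nb (T0 ∪ T') ⊆ nb T0 ∪
          T'.biUnion (fun t => (W.filter (fun w => w ⊆ t)) \ nb T0) := by
        intro w hw
        by_cases hw0 : w ∈ nb T0
        · exact mem_union_left _ hw0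
        · apply mem_union_right
          have hw' := hw
          simp only [nb, mem_filter, mem_union] at hw'
          obtain ⟨hwW, t, ht, hwt⟩ := hw'
          rcases ht with ht | ht
          · exfalso
            apply hw0
            simp only [nb, mem_filter]
            exact ⟨hwW, t, ht, hwt⟩
          · rw [mem_biUnion]
            exact ⟨t, ht, mem_sdiff.2 ⟨mem_filter.2 ⟨hwW, hwt⟩, hw0⟩⟩
      have h5 := (card_le_card h4).trans (card_union_le _ _)
      have h6 : (T \ T0).card = (T \ (T0 ∪ T')).card + T'.card := by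
        rw [← card_union_of_disjoint]
        · congr 1
          ext t
          simp only [mem_sdiff, mem_union]
          constructor
          · rintro ⟨a1, a2⟩
            by_cases a3 : t ∈ T'
            · exact Or.inr a3
            · left; refine ⟨a1, ?_⟩; rintro (a4 | a4); exacts [a2 a4, a3 a4]
          · rintro (⟨a1, a2⟩ | a1)
            · exact ⟨a1, fun a3 => a2 (Or.inl a3)⟩
            · exact ⟨hT'T a1, fun a3 => Finset.disjoint_left.1 hdisj a1 a3⟩
        · rw [Finset.disjoint_left]
          intro t ht ht'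
          rw [mem_sdiff, mem_union] at ht
          exact ht.2 (Or.inr ht')
      omega
    obtain ⟨F, hF, hFn⟩ := hall_on T1 (fun t => (W.filter (fun w => w ⊆ t)) \ nb T0) hall
    have hFn' : ∀ t ∈ T1, F t ∈ W ∧ F t ⊆ t ∧ F t ∉ nb T0 := by
      intro t ht
      have := hFn t ht
      rw [mem_sdiff, mem_filter] at this
      exact ⟨this.1.1, this.1.2, this.2⟩
    obtain ⟨W', hW'⟩ : ∃ W', W' = T1.image F := ⟨_, rfl⟩
    have hW'c : W'.card = T1.card := by rw [hW', card_image_of_injOn hF]
    obtain ⟨g, hg⟩ : ∃ g, g = Function.invFunOn F (T1 : Set (Finset α)) := ⟨_, rfl⟩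
    have hgF : ∀ t ∈ T1, g (F t) = t := by
      intro t ht
      rw [hg]
      exact hF.leftInvOn_invFunOn (mem_coe.2 ht)
    have hW'mem : ∀ w ∈ W', g w ∈ T1 ∧ F (g w) = w := by
      intro w hw
      rw [hW', mem_image] at hw
      obtain ⟨t, ht, rfl⟩ := hw
      rw [hgF t ht]
      exact ⟨ht, rfl⟩
    have hmat2 : Mat (i + 1) j W' g := by
      refine ⟨?_, ?_, ?_, ?_⟩
      · intro w hw
        obtain ⟨h3, h4⟩ := hW'mem w hw
        rw [← h4]
        exact (hWc _ (hFn' _ h3).1).2
      · intro w hw
        obtain ⟨h3, h4⟩ := hW'mem w hw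
        rw [hT1d] at h3
        exact hTc _ (mem_sdiff.1 h3).1
      · intro w hw w' hw' he
        obtain ⟨h3, h4⟩ := hW'mem w (mem_coe.1 hw)
        obtain ⟨h3', h4'⟩ := hW'mem w' (mem_coe.1 hw')
        rw [← h4, ← h4', he]
      · intro w hw
        obtain ⟨h3, h4⟩ := hW'mem w hw
        have := (hFn' _ h3).2.1
        rwa [h4] at this
    have himg : W'.image g = T1 := by
      ext t
      rw [mem_image]
      constructor
      · rintro ⟨w, hw, rfl⟩
        exact (hW'mem w hw).1
      · intro ht
        exact ⟨F t, by rw [hW']; exact mem_image_of_mem _ ht, hgF t ht⟩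
    have h3 := hP W' g hmat2 (A.filter (fun v => ∃ w ∈ W', w ⊆ v))
      (by
        intro w hw
        rw [mem_filter]
        obtain ⟨h3, h4⟩ := hW'mem w hw
        have := (hWc _ (hFn' _ h3).1).1
        rw [h4] at this
        exact ⟨this, w, hw, Subset.refl _⟩)
      (by
        intro v hv
        rw [mem_filter] at hv
        obtain ⟨hvA, w, hw, hwv⟩ := hv
        have h4 := card_le_card hwv
        have h5 := hmat2.cS w hw
        by_cases h6 : v.card = i + 1
        · left
          have : w = v := eq_of_subset_of_card_le hwv (by omega)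
          rw [← this]; exact hw
        · right
          rw [mem_Mid]
          have := hAc v hvA
          omega)
    rw [himg] at h3
    -- the sub-instance on `T0`
    obtain ⟨S0, hS0⟩ : ∃ S0, S0 = S.filter (fun s => φ s ∈ T0) := ⟨_, rfl⟩
    have hS0i : S0.image φ = T0 := by
      ext t
      rw [mem_image]
      constructor
      · rintro ⟨s, hs, rfl⟩
        rw [hS0, mem_filter] at hs
        exact hs.2
      · intro ht
        have := hT0 ht
        rw [hT, mem_image] at this
        obtain ⟨s, hs, rfl⟩ := this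
        exact ⟨s, by rw [hS0, mem_filter]; exact ⟨hs, ht⟩, rfl⟩
    have hS0sub : S0 ⊆ S := by rw [hS0]; exact filter_subset _ _
    have hS0c : S0.card = T0.card := by
      rw [← hS0i, card_image_of_injOn (h.mat.mono hS0sub).inj]
    have hSc : S.card = T.card := by rw [hT, card_image_of_injOn h.mat.inj]
    have hTcard : T.card = T0.card + T1.card := by
      rw [hT1d]
      have := card_sdiff_add_card_eq_card hT0
      omega
    have hT1pos : 0 < T1.card := card_pos.2 (nonempty_iff_ne_empty.2 hT1)
    have hS0ss : S0 ⊂ S := by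
      rw [ssubset_iff_subset_ne]
      refine ⟨hS0sub, ?_⟩
      rintro he
      rw [he] at hS0c
      omega
    have h4 := h.minS S0 hS0ss (S0 ∪ (Mid i j).filter (fun v => v ∈ A ∨ ∀ t ∈ T0, ¬ v ⊆ t))
      subset_union_left (by
        intro u hu
        rw [mem_union, mem_filter] at hu
        rcases hu with hu | hu
        · exact Or.inl hu
        · exact Or.inr hu.1)
    rw [hS0i] at h4
    have hkey : cost q i j T0 (S0 ∪ (Mid i j).filter (fun v => v ∈ A ∨ ∀ t ∈ T0, ¬ v ⊆ t)) +
        cost q (i + 1) j T1 (A.filter (fun v => ∃ w ∈ W', w ⊆ v)) ≤ cost q i j (S.image φ) A := by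
      rw [← hT]
      unfold cost
      rw [← sum_add_distrib]
      refine sum_le_sum (fun v _ => ?_)
      obtain ⟨A0, hA0⟩ : ∃ A0, A0 = S0 ∪ (Mid i j).filter (fun v => v ∈ A ∨ ∀ t ∈ T0, ¬ v ⊆ t) :=
        ⟨_, rfl⟩
      obtain ⟨A1, hA1⟩ : ∃ A1, A1 = A.filter (fun v => ∃ w ∈ W', w ⊆ v) := ⟨_, rfl⟩
      rw [← hA0, ← hA1]
      by_cases hc3 : ((v ∈ Mid (i + 1) j ∨ v ∈ T1) ∧ v ∉ A1) ∧ dg A1 v ≠ 0
      · obtain ⟨hc3, hd⟩ := hc3
        obtain ⟨a, ha, haA⟩ := exists_of_dg_ne_zero hd
        rw [hA1, mem_filter] at haA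
        obtain ⟨haA, w, hw, hwa⟩ := haA
        have hwv : w ⊆ v := hwa.trans (erase_subset _ _)
        have hvD : v ∈ Mid i j ∨ v ∈ T := by
          rcases hc3.1 with h5 | h5
          · left; rw [mem_Mid] at h5 ⊢; omega
          · right
            rw [hT1d] at h5
            exact (mem_sdiff.1 h5).1
        have hvA : v ∉ A := by
          intro hh
          exact hc3.2 (by rw [hA1]; exact mem_filter.2 ⟨hh, w, hw, hwv⟩)
        have hvn : ∀ t ∈ T0, ¬ v ⊆ t := by
          intro t ht hvt
          obtain ⟨h5, h6⟩ := hW'mem w hw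
          have h7 := (hFn' _ h5).2.2
          rw [h6] at h7
          apply h7
          simp only [nb, mem_filter]
          have h8 := (hFn' _ h5).1
          rw [h6] at h8
          exact ⟨h8, t, ht, hwv.trans hvt⟩
        have hn1 : ¬ ((v ∈ Mid i j ∨ v ∈ T0) ∧ v ∉ A0) := by
          rintro ⟨h5 | h5, h6⟩
          · apply h6
            rw [hA0]
            exact mem_union_right _ (mem_filter.2 ⟨h5, Or.inr hvn⟩)
          · exact hvn v h5 (Subset.refl _)
        rw [if_neg hn1, zero_add, if_pos hc3, if_pos ⟨hvD, hvA⟩]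
        have : dg A1 v ≤ dg A v := dg_mono (fun b _ hbA => by
          rw [hA1] at hbA; exact (mem_filter.1 hbA).1)
        omega
      · have hz : (if (v ∈ Mid (i + 1) j ∨ v ∈ T1) ∧ v ∉ A1 then min q (dg A1 v) else 0) = 0 := by
          by_cases hc2 : (v ∈ Mid (i + 1) j ∨ v ∈ T1) ∧ v ∉ A1
          · rw [if_pos hc2]
            have : dg A1 v = 0 := by
              by_contra hcon
              exact hc3 ⟨hc2, hcon⟩
            rw [this]; simp
          · rw [if_neg hc2]
        rw [hz, add_zero]
        by_cases hc1 : (v ∈ Mid i j ∨ v ∈ T0) ∧ v ∉ A0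
        · rw [if_pos hc1]
          have hvA : v ∉ A := by
            intro hh
            rcases hc1.1 with h5 | h5
            · apply hc1.2
              rw [hA0]
              exact mem_union_right _ (mem_filter.2 ⟨h5, Or.inl hh⟩)
            · exact hAT v hh (hT0 h5)
          have hvD : v ∈ Mid i j ∨ v ∈ T := hc1.1.imp id (fun h5 => hT0 h5)
          rw [if_pos ⟨hvD, hvA⟩]
          have hvT0 : ∃ t ∈ T0, v ⊆ t := by
            rcases hc1.1 with h5 | h5
            · by_contra hcon
              push Not at hcon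
              apply hc1.2
              rw [hA0]
              exact mem_union_right _ (mem_filter.2 ⟨h5, Or.inr hcon⟩)
            · exact ⟨v, h5, Subset.refl _⟩
          obtain ⟨t, ht, hvt⟩ := hvT0
          have : dg A0 v ≤ dg A v := by
            apply dg_mono
            intro b _ hbA
            rw [hA0, mem_union, mem_filter] at hbA
            rcases hbA with h5 | ⟨_, h5 | h5⟩
            · exact h.SA (hS0sub h5)
            · exact h5
            · exact absurd ((erase_subset _ _).trans hvt) (h5 t ht)
          omega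
        · rw [if_neg hc1]
          exact Nat.zero_le _
    have h5 := h.viol
    have h6 : q * S.card = q * S0.card + q * W'.card := by
      rw [← mul_add]
      congr 1
      omega
    omega

/-- The cut condition for `q = 3` and all `j ≥ i + 3`. -/
theorem PP_three : ∀ (l i : ℕ), PP α 3 i (i + 3 + l) := by
  intro l
  induction l with
  | zero => exact fun i => PP_three_base i
  | succ l ih =>
    intro i
    by_contra hc
    obtain ⟨S, φ, A, h⟩ := exists_minCex hc
    have hP : PP α 3 (i + 1) (i + 3 + (l + 1)) := by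
      have := ih (i + 1)
      have e : i + 1 + 3 + l = i + 3 + (l + 1) := by ring
      rwa [e] at this
    have h1 := h.first (by omega) hP
    obtain ⟨hδ, h3⟩ := h1.three (by omega)
    obtain ⟨s, hs⟩ := h1.nonempty
    obtain ⟨h4, h5, _⟩ := h3 s hs
    -- all upper covers of `s` below `φ s` are cut
    have h6 : (φ s \ s).card ≤ ub (Bset 3 i (i + 3 + (l + 1)) (S.image φ) (cutOne i (i + 3 + (l + 1)) S φ)) s
        + ub (Xset 3 i (i + 3 + (l + 1)) (S.image φ) (cutOne i (i + 3 + (l + 1)) S φ)) s := by
      unfold ub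
      refine le_trans (card_le_card ?_) (card_union_le _ _)
      intro a ha
      rw [mem_sdiff] at ha
      have hsub : insert a s ⊆ φ s := insert_subset ha.1 (h1.mat.sub s hs)
      have hM : insert a s ∈ Mid i (i + 3 + (l + 1)) := by
        rw [mem_Mid, card_insert_of_notMem ha.2, h1.mat.cS s hs]
        omega
      have hnA : insert a s ∉ cutOne i (i + 3 + (l + 1)) S φ := by
        intro hh
        unfold cutOne at hh
        rw [mem_union, mem_filter] at hh
        rcases hh with hh | hh
        · have := h1.mat.cS _ hh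
          rw [mem_Mid] at hM
          omega
        · exact hh.2 s hs hsub
      rw [mem_union, mem_filter, mem_filter]
      by_cases hd : dg (cutOne i (i + 3 + (l + 1)) S φ) (insert a s) ≤ 3
      · left
        exact ⟨mem_univ _, ha.2, mem_B.2 ⟨Or.inl hM, hnA, hd⟩⟩
      · right
        exact ⟨mem_univ _, ha.2, mem_X.2 ⟨Or.inl hM, hnA, by omega⟩⟩
    rw [card_sdiff_of_subset (h1.mat.sub s hs), h1.mat.cS s hs, h1.mat.cT s hs] at h6
    omega

end MP_8b6acb_co
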