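import Mathlib
import Pool.Agent.Work.MP_8b6acb_co.Step

/-! From the cut condition to edge-disjoint families of path systems. -/

set_option linter.unusedSectionVars false

namespace MP_8b6acb_co

open Finset

variable {α : Type*} [Fintype α] [DecidableEq α]

/-- If the cut condition holds, there are `q` successor functions. -/
theorem exists_successors {q i j : ℕ} (hP : PP α q i j) (hij : i < j) {S : Finset (Finset α)}
    {φ : Finset α → Finset α} (hm : Mat i j S φ) :
    ∃ G : Fin q → Finset α → Finset α,
      (∀ c, ∀ u, u ∈ S ∨ u ∈ Mid i j → (G c u ∈ Mid i j ∨ G c u ∈ S.image φ) ∧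
        (G c u = u ∨ Cov u (G c u))) ∧
      (∀ c, ∀ u v, (u ∈ S ∨ u ∈ Mid i j) → (v ∈ S ∨ v ∈ Mid i j) → G c u = G c v → u = v) ∧
      (∀ c c', ∀ u, (u ∈ S ∨ u ∈ Mid i j) → Cov u (G c u) → G c u = G c' u → c = c') := by
  classical
  obtain ⟨T, hTd⟩ : ∃ T, T = S.image φ := ⟨_, rfl⟩
  have hTc : ∀ t ∈ T, t.card = j := by
    intro t ht
    rw [hTd, mem_image] at ht
    obtain ⟨s, hs, rfl⟩ := ht
    exact hm.cT s hs
  have hflow : ∃ M, IsFlow q i j S T (fun _ => q) (fun _ => q) M := by
    apply exists_flow q i j S T hm.cS hTc hij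
    · rw [sum_const, sum_const, hTd, card_image_of_injOn hm.inj]
    · intro A hA
      have hAc : ∀ u ∈ A, u.card < j := by
        intro u hu
        rcases hA u hu with h1 | h1
        · rw [hm.cS u h1]; exact hij
        · rw [mem_Mid] at h1; exact h1.2
      have h1 := hP (S.filter (fun s => s ∈ A)) φ (hm.mono (filter_subset _ _)) A
        (fun s hs => (mem_filter.1 hs).2) (by
          intro u hu
          rcases hA u hu with h4 | h4
          · exact Or.inl (mem_filter.2 ⟨h4, hu⟩)
          · exact Or.inr h4)
      have hsub : (S.filter (fun s => s ∈ A)).image φ ⊆ T := by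
        rw [hTd]
        exact image_subset_image (filter_subset _ _)
      rw [cost_eq (fun t ht => hTc t (hsub ht)) hAc] at h1
      have h2 : ∑ t ∈ (S.filter (fun s => s ∈ A)).image φ, min q (dg A t) ≤
          ∑ t ∈ T, min q (dg A t) := sum_le_sum_of_subset hsub
      have h3 : ∑ s ∈ S, (if s ∈ A then q else 0) = q * (S.filter (fun s => s ∈ A)).card := by
        rw [← sum_filter, sum_const, smul_eq_mul, mul_comm]
      rw [h3]
      omega
  obtain ⟨M, hM⟩ := hflow
  have hSM : ∀ s ∈ S, s ∉ Mid i j := by
    intro s hs h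
    rw [mem_Mid, hm.cS s hs] at h
    omega
  have hTM : ∀ t ∈ T, t ∉ Mid i j := by
    intro t ht h
    rw [mem_Mid, hTc t ht] at h
    omega
  have hST : ∀ s ∈ S, s ∉ T := by
    intro s hs h
    have h1 := hm.cS s hs
    have h2 := hTc s h
    omega
  -- edge multiplicities
  let F : Finset α → Finset α → ℕ := fun u v => ∑ x, if x ∉ u ∧ insert x u = v then M u x else 0
  have hF1 : ∀ u v, F u v ≤ 1 := by
    intro u v
    by_cases hc : ∃ x, x ∉ u ∧ insert x u = v
    · obtain ⟨x, hx, he⟩ := hc
      have : F u v = M u x := by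
        simp only [F]
        rw [sum_eq_single x]
        · rw [if_pos ⟨hx, he⟩]
        · intro y _ hy
          rw [if_neg]
          rintro ⟨h1, h2⟩
          apply hy
          have : y ∈ insert x u := by rw [he, ← h2]; exact mem_insert_self _ _
          rw [mem_insert] at this
          exact this.resolve_right h1
        · intro h; exact absurd (mem_univ _) h
      rw [this]
      exact hM.le_one u x
    · have : F u v = 0 := by
        simp only [F]
        apply sum_eq_zero
        intro x _
        rw [if_neg]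
        exact fun h => hc ⟨x, h⟩
      omega
  have hFcov : ∀ u v, F u v ≠ 0 → Cov u v := by
    intro u v h
    by_contra hc
    apply h
    simp only [F]
    apply sum_eq_zero
    intro x _
    rw [if_neg]
    exact fun h => hc ⟨x, h⟩
  have hFself : ∀ u, F u u = 0 := by
    intro u
    by_contra h
    exact (hFcov u u h).ne rfl
  have hFrow : ∀ u, ∑ v, F u v = ∑ x, M u x := by
    intro u
    simp only [F]
    rw [sum_comm]
    refine sum_congr rfl (fun x _ => ?_)
    by_cases hx : x ∈ u
    · simp [hx, hM.val u x hx]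
    · simp [hx]
  have hFcol : ∀ v, ∑ u, F u v = inf M v := by
    intro v
    simp only [F, inf]
    rw [sum_comm]
    refine sum_congr rfl (fun x _ => ?_)
    by_cases hx : x ∈ v
    · rw [if_pos hx, sum_eq_single (v.erase x)]
      · rw [if_pos ⟨by simp, insert_erase hx⟩]
      · intro u _ hu
        rw [if_neg]
        rintro ⟨h1, h2⟩
        apply hu
        rw [← h2, erase_insert h1]
      · intro h; exact absurd (mem_univ _) h
    · rw [if_neg hx]
      apply sum_eq_zero
      intro u _
      rw [if_neg]
      rintro ⟨h1, h2⟩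
      apply hx
      rw [← h2]
      exact mem_insert_self _ _
  let L := {u : Finset α // u ∈ S ∪ Mid i j}
  let R := {v : Finset α // v ∈ Mid i j ∪ T}
  let f : L → R → ℕ := fun u v =>
    (if u.1 = v.1 then q - ∑ x, M u.1 x else 0) + F u.1 v.1
  have hcard : Fintype.card L = Fintype.card R := by
    simp only [L, R, Fintype.card_coe]
    rw [card_union_of_disjoint, card_union_of_disjoint, hTd, card_image_of_injOn hm.inj]
    · ring
    · rw [Finset.disjoint_left]; exact fun v h1 h2 => hTM v h2 h1
    · rw [Finset.disjoint_left]; exact fun v h1 h2 => hSM v h1 h2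
  have hFR : ∀ u v, F u v ≠ 0 → v ∈ Mid i j ∪ T := by
    intro u v h
    simp only [F] at h
    obtain ⟨x, _, hx⟩ := Finset.exists_ne_zero_of_sum_ne_zero h
    by_cases hc : x ∉ u ∧ insert x u = v
    · rw [if_pos hc] at hx
      have := hM.head u x hx
      rw [hc.2] at this
      exact mem_union.2 this
    · rw [if_neg hc] at hx
      exact absurd rfl hx
  have hFL : ∀ u v, F u v ≠ 0 → u ∈ S ∪ Mid i j := by
    intro u v h
    simp only [F] at h
    obtain ⟨x, _, hx⟩ := Finset.exists_ne_zero_of_sum_ne_zero h
    by_cases hc : x ∉ u ∧ insert x u = v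
    · rw [if_pos hc] at hx
      exact mem_union.2 (hM.tail u x hx)
    · rw [if_neg hc] at hx
      exact absurd rfl hx
  have hrow : ∀ u : L, ∑ v : R, f u v = q := by
    intro u
    simp only [f]
    rw [sum_add_distrib]
    have e1 : ∑ v : R, F u.1 v.1 = ∑ v, F u.1 v := by
      refine (Finset.sum_subtype (Mid i j ∪ T) (fun _ => Iff.rfl) (fun v => F u.1 v)).symm.trans ?_
      apply sum_subset (subset_univ _)
      intro v _ hv
      by_contra hne
      exact hv (hFR _ _ hne)
    rw [e1, hFrow]
    have hu := u.2
    rw [mem_union] at hu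
    rcases hu with hu | hu
    · have e2 : ∑ v : R, (if u.1 = v.1 then q - ∑ x, M u.1 x else 0) = 0 := by
        apply sum_eq_zero
        intro v _
        rw [if_neg]
        intro he
        have hv := v.2
        rw [← he, mem_union] at hv
        rcases hv with h1 | h1
        · exact hSM _ hu h1
        · exact hST _ hu h1
      rw [e2, hM.src _ hu]
      simp
    · have e2 : ∑ v : R, (if u.1 = v.1 then q - ∑ x, M u.1 x else 0) = q - ∑ x, M u.1 x := by
        rw [sum_eq_single ⟨u.1, mem_union_left _ hu⟩]
        · simp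
        · intro v _ hv
          rw [if_neg]
          intro he
          apply hv
          exact Subtype.ext he.symm
        · intro h; exact absurd (mem_univ _) h
      rw [e2]
      have := hM.mid_le _ hu
      omega
  have hcol : ∀ v : R, ∑ u : L, f u v ≤ q := by
    intro v
    simp only [f]
    rw [sum_add_distrib]
    have e1 : ∑ u : L, F u.1 v.1 = ∑ u, F u v.1 := by
      refine (Finset.sum_subtype (S ∪ Mid i j) (fun _ => Iff.rfl) (fun u => F u v.1)).symm.trans ?_
      apply sum_subset (subset_univ _)
      intro u _ hu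
      by_contra hne
      exact hu (hFL _ _ hne)
    rw [e1, hFcol]
    have hv := v.2
    rw [mem_union] at hv
    rcases hv with hv | hv
    · have e2 : ∑ u : L, (if u.1 = v.1 then q - ∑ x, M u.1 x else 0) = q - ∑ x, M v.1 x := by
        rw [sum_eq_single ⟨v.1, mem_union_right _ hv⟩]
        · simp
        · intro u _ hu
          rw [if_neg]
          intro he
          apply hu
          exact Subtype.ext he
        · intro h; exact absurd (mem_univ _) h
      rw [e2, ← hM.mid _ hv]
      have := hM.mid_le _ hv
      omega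
    · have e2 : ∑ u : L, (if u.1 = v.1 then q - ∑ x, M u.1 x else 0) = 0 := by
        apply sum_eq_zero
        intro u _
        rw [if_neg]
        intro he
        have hu := u.2
        rw [he, mem_union] at hu
        rcases hu with h1 | h1
        · exact hST _ h1 hv
        · exact hTM _ hv h1
      rw [e2, hM.snk _ hv]
      simp
  obtain ⟨g, hg, hgf⟩ := decompose q hcard f hrow hcol
  refine ⟨fun c u => if h : u ∈ S ∪ Mid i j then (g c ⟨u, h⟩).1 else u, ?_, ?_, ?_⟩
  · intro c u hu
    have hu' : u ∈ S ∪ Mid i j := mem_union.2 hu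
    simp only [hu', dif_pos]
    constructor
    · rw [← hTd]
      exact mem_union.1 (g c ⟨u, hu'⟩).2
    · by_cases he : (g c ⟨u, hu'⟩).1 = u
      · exact Or.inl he
      · right
        have h1 := hgf ⟨u, hu'⟩ (g c ⟨u, hu'⟩)
        have h2 : f ⟨u, hu'⟩ (g c ⟨u, hu'⟩) ≠ 0 := by
          rw [← h1, card_ne_zero]
          exact ⟨c, by simp⟩
        simp only [f] at h2
        rw [if_neg (fun h => he h.symm), zero_add] at h2
        exact hFcov _ _ h2
  · intro c u v hu hv he
    have hu' : u ∈ S ∪ Mid i j := mem_union.2 hu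
    have hv' : v ∈ S ∪ Mid i j := mem_union.2 hv
    simp only [hu', hv', dif_pos] at he
    have := (hg c).1 (Subtype.ext he)
    exact congrArg Subtype.val this
  · intro c c' u hu hcov he
    have hu' : u ∈ S ∪ Mid i j := mem_union.2 hu
    simp only [hu', dif_pos] at hcov he
    by_contra hne
    have h1 := hgf ⟨u, hu'⟩ (g c ⟨u, hu'⟩)
    have h2 : f ⟨u, hu'⟩ (g c ⟨u, hu'⟩) ≤ 1 := by
      simp only [f]
      rw [if_neg hcov.ne, zero_add]
      exact hF1 _ _
    have h3 : ({c, c'} : Finset (Fin q)) ⊆
        univ.filter (fun d => g d ⟨u, hu'⟩ = g c ⟨u, hu'⟩) := by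
      intro d hd
      rw [mem_insert, mem_singleton] at hd
      rw [mem_filter]
      refine ⟨mem_univ _, ?_⟩
      rcases hd with rfl | rfl
      · rfl
      · exact (Subtype.ext he).symm
    have h4 := card_le_card h3
    rw [card_pair hne] at h4
    omega

/-- Iterating the successor functions gives the paths. -/
theorem exists_paths {q i j : ℕ} (hP : PP α q i j) (hij : i < j) {S : Finset (Finset α)}
    {φ : Finset α → Finset α} (hm : Mat i j S φ) :
    ∃ p : Fin q → Finset α → ℕ → Finset α,
      (∀ c, ∀ s ∈ S, p c s 0 = s) ∧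
      (∀ c, ∀ s ∈ S, ∀ k < j - i, Cov (p c s k) (p c s (k + 1))) ∧
      (∀ c, ∀ s ∈ S, p c s (j - i) ∈ S.image φ) ∧
      (∀ c, ∀ s ∈ S, ∀ s' ∈ S, ∀ k ≤ j - i, ∀ k' ≤ j - i, p c s k = p c s' k' → s = s') ∧
      (∀ c c', ∀ s ∈ S, ∀ s' ∈ S, ∀ k < j - i, ∀ k' < j - i, p c s k = p c' s' k' →
        p c s (k + 1) = p c' s' (k' + 1) → c = c') := by
  obtain ⟨G, hG1, hG2, hG3⟩ := exists_successors hP hij hm
  have hcardT : ∀ t ∈ S.image φ, t.card = j := by
    intro t ht
    rw [mem_image] at ht
    obtain ⟨s, hs, rfl⟩ := ht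
    exact hm.cT s hs
  have hnS : ∀ v, (v ∈ Mid i j ∨ v ∈ S.image φ) → i < v.card := by
    intro v hv
    rcases hv with h | h
    · rw [mem_Mid] at h; exact h.1
    · rw [hcardT v h]; exact hij
  -- the main induction
  have hmain : ∀ c, ∀ s ∈ S, ∀ k < j - i, ((G c)^[k] s ∈ S ∨ (G c)^[k] s ∈ Mid i j) ∧
      ((G c)^[k] s).card = i + k ∧ Cov ((G c)^[k] s) ((G c)^[k + 1] s) := by
    intro c s hs k
    induction k with
    | zero =>
      intro hk
      simp only [Function.iterate_zero, id, zero_add, Function.iterate_one]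
      refine ⟨Or.inl hs, hm.cS s hs, ?_⟩
      have h1 := hG1 c s (Or.inl hs)
      rcases h1.2 with h2 | h2
      · exfalso
        have h3 := hnS _ h1.1
        rw [h2, hm.cS s hs] at h3
        omega
      · exact h2
    | succ k ih =>
      intro hk
      obtain ⟨h1, h2, h3⟩ := ih (by omega)
      have h4 := hG1 c _ h1
      have h5 : (G c)^[k + 1] s = G c ((G c)^[k] s) := Function.iterate_succ_apply' _ _ _
      have h6 : ((G c)^[k + 1] s).card = i + (k + 1) := by
        obtain ⟨a, ha, he⟩ := h3
        rw [← he, card_insert_of_notMem ha, h2]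
        ring
      have h7 : (G c)^[k + 1] s ∈ Mid i j := by
        rw [mem_Mid, h6]
        omega
      have h8 := hG1 c _ (Or.inr h7)
      have h9 : (G c)^[k + 1 + 1] s = G c ((G c)^[k + 1] s) := Function.iterate_succ_apply' _ _ _
      refine ⟨Or.inr h7, h6, ?_⟩
      rw [h9]
      rcases h8.2 with h10 | h10
      · exfalso
        have h11 : G c ((G c)^[k + 1] s) = G c ((G c)^[k] s) := by rw [h10, h5]
        have h12 := hG2 c _ _ (Or.inr h7) h1 h11
        exact h3.ne h12.symm
      · exact h10
  have hcard : ∀ c, ∀ s ∈ S, ∀ k ≤ j - i, ((G c)^[k] s).card = i + k := by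
    intro c s hs k hk
    rcases Nat.lt_or_ge k (j - i) with h | h
    · exact (hmain c s hs k h).2.1
    · have hk' : k = (j - i - 1) + 1 := by omega
      obtain ⟨h1, h2, h3⟩ := hmain c s hs (j - i - 1) (by omega)
      obtain ⟨a, ha, he⟩ := h3
      rw [hk', ← he, card_insert_of_notMem ha, h2]
      ring
  refine ⟨fun c s k => (G c)^[k] s, ?_, ?_, ?_, ?_, ?_⟩
  · intro c s hs; rfl
  · intro c s hs k hk; exact (hmain c s hs k hk).2.2
  · intro c s hs
    obtain ⟨h1, h2, h3⟩ := hmain c s hs (j - i - 1) (by omega)
    have h4 := (hG1 c _ h1).1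
    have h5 : (G c)^[j - i - 1 + 1] s = G c ((G c)^[j - i - 1] s) := Function.iterate_succ_apply' _ _ _
    rw [← h5] at h4
    have h6 : j - i - 1 + 1 = j - i := by omega
    rw [h6] at h4
    rcases h4 with h7 | h7
    · exfalso
      have h8 := hcard c s hs (j - i) (le_refl _)
      rw [mem_Mid, h8] at h7
      omega
    · exact h7
  · intro c s hs s' hs' k hk k' hk' he
    have hkk : k = k' := by
      have h1 := hcard c s hs k hk
      have h2 := hcard c s' hs' k' hk'
      simp only at he
      rw [he] at h1
      omega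
    subst hkk
    clear hk'
    induction k with
    | zero => exact he
    | succ k ih =>
      simp only [Function.iterate_succ_apply'] at he
      exact ih (by omega) (hG2 c _ _ (hmain c s hs k (by omega)).1 (hmain c s' hs' k (by omega)).1 he)
  · intro c c' s hs s' hs' k hk k' hk' he1 he2
    simp only [Function.iterate_succ_apply'] at he1 he2
    obtain ⟨h1, h2, h3⟩ := hmain c s hs k hk
    rw [Function.iterate_succ_apply'] at h3
    rw [← he1] at he2
    exact hG3 c c' _ h1 h3 he2

end MP_8b6acb_co
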