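import Mathlib
import Pool.Agent.Work.MP_8b6acb_co.Defs
import Pool.Agent.Work.MP_8b6acb_co.Paths

/-! From the cut condition to LR solutions. -/

namespace MP_8b6acb_co

open Finset

variable {d : ℕ}

/-- The support of a vertex. -/
def toS (x : Vtx d) : Finset (Fin d) := univ.filter (fun k => x k = true)

/-- The vertex with a given support. -/
def ofS (u : Finset (Fin d)) : Vtx d := fun k => decide (k ∈ u)

theorem ofS_toS (x : Vtx d) : ofS (toS x) = x := by
  funext k
  unfold ofS toS
  cases h : x k <;> simp [h]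

theorem toS_ofS (u : Finset (Fin d)) : toS (ofS u) = u := by
  ext k
  simp [toS, ofS]

theorem ofS_inj {u v : Finset (Fin d)} (h : ofS u = ofS v) : u = v := by
  rw [← toS_ofS u, ← toS_ofS v, h]

theorem toS_inj {x y : Vtx d} (h : toS x = toS y) : x = y := by
  rw [← ofS_toS x, ← ofS_toS y, h]

theorem card_toS (x : Vtx d) : (toS x).card = wt x := rfl

theorem wt_ofS (u : Finset (Fin d)) : wt (ofS u) = u.card := by
  rw [← card_toS, toS_ofS]

theorem dedge_of_cov {u v : Finset (Fin d)} (h : Cov u v) : DEdge (ofS u) (ofS v) := by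
  obtain ⟨a, ha, rfl⟩ := h
  constructor
  · refine ⟨a, ?_, ?_⟩
    · simp [ofS, ha]
    · intro k hk
      by_contra hne
      apply hk
      simp only [ofS, mem_insert, hne, false_or]
  · rw [wt_ofS, wt_ofS, card_insert_of_notMem ha]

theorem mem_edges (n : ℕ) (f : ℕ → Vtx d) (e : Vtx d × Vtx d)
    (h : e ∈ edgesOf ((List.range (n + 1)).map f)) : ∃ k < n, e = (f k, f (k + 1)) := by
  unfold edgesOf at h
  rw [List.mem_iff_getElem] at h
  obtain ⟨k, hk, he⟩ := h
  have hk' : k < n := by
    simp at hk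
    exact hk
  refine ⟨k, hk', ?_⟩
  rw [← he]
  simp

/-- The cut condition gives edge-disjoint LR solutions. -/
theorem hasEdgeDisjointLR {q i j : ℕ} (hP : PP (Fin d) q i j) (hij : i < j)
    (S T : Finset (Vtx d)) (hS : ∀ s ∈ S, wt s = i) (hT : ∀ t ∈ T, wt t = j)
    (hST : Matched S T) : HasEdgeDisjointLR q S T := by
  classical
  obtain ⟨φ, hφ⟩ := hST
  obtain ⟨S', hS'⟩ : ∃ S', S' = S.image toS := ⟨_, rfl⟩
  let φ' : Finset (Fin d) → Finset (Fin d) := fun u =>
    if h : ofS u ∈ S then toS (φ ⟨ofS u, h⟩).1 else ∅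
  have hmem : ∀ u, u ∈ S' ↔ ofS u ∈ S := by
    intro u
    rw [hS', mem_image]
    constructor
    · rintro ⟨x, hx, rfl⟩
      rw [ofS_toS]; exact hx
    · intro h
      exact ⟨ofS u, h, toS_ofS u⟩
  have hm : Mat i j S' φ' := by
    refine ⟨?_, ?_, ?_, ?_⟩
    · intro u hu
      rw [← hS _ ((hmem u).1 hu), wt_ofS]
    · intro u hu
      have h := (hmem u).1 hu
      simp only [φ', h, dif_pos]
      rw [card_toS]
      exact hT _ (φ ⟨ofS u, h⟩).2
    · intro u hu v hv he
      have h := (hmem u).1 (mem_coe.1 hu)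
      have h' := (hmem v).1 (mem_coe.1 hv)
      simp only [φ', h, h', dif_pos] at he
      have h1 := φ.injective (Subtype.ext (toS_inj he))
      exact ofS_inj (congrArg Subtype.val h1)
    · intro u hu k hk
      have h := (hmem u).1 hu
      simp only [φ', h, dif_pos]
      have h1 := (hφ ⟨ofS u, h⟩).1 k
      simp only [toS, mem_filter, mem_univ, true_and]
      have h2 : ofS u k = true := by simp [ofS, hk]
      simp only [h2] at h1
      exact top_le_iff.1 h1
  have himg : S'.image φ' ⊆ T.image toS := by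
    intro v hv
    rw [mem_image] at hv
    obtain ⟨u, hu, rfl⟩ := hv
    have h := (hmem u).1 hu
    simp only [φ', h, dif_pos]
    exact mem_image_of_mem _ (φ ⟨ofS u, h⟩).2
  obtain ⟨p, hp0, hp1, hp2, hp3, hp4⟩ := exists_paths hP hij hm
  let lst : Fin q → Finset (Fin d) → List (Vtx d) := fun c s =>
    (List.range (j - i + 1)).map (fun k => ofS (p c s k))
  have hmemlst : ∀ c s v, v ∈ lst c s → ∃ k ≤ j - i, v = ofS (p c s k) := by
    intro c s v hv
    simp only [lst, List.mem_map, List.mem_range] at hv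
    obtain ⟨k, hk, rfl⟩ := hv
    exact ⟨k, by omega, rfl⟩
  have hhead : ∀ c s, (lst c s).head? = some (ofS (p c s 0)) := by
    intro c s
    simp [lst, List.head?_range]
  have hlast : ∀ c s, (lst c s).getLast? = some (ofS (p c s (j - i))) := by
    intro c s
    simp [lst, List.getLast?_range]
  have hinj : ∀ c, ∀ s ∈ S', ∀ s' ∈ S', lst c s = lst c s' → s = s' := by
    intro c s hs s' hs' he
    have h1 := hhead c s
    rw [he, hhead c s', hp0 c s hs, hp0 c s' hs'] at h1
    exact (ofS_inj (Option.some_injective _ h1)).symm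
  refine ⟨fun c => S'.image (lst c), ?_, ?_⟩
  · intro c
    refine ⟨?_, ?_, ?_, ?_, ?_⟩
    · rw [card_image_of_injOn, hS', card_image_of_injective]
      · intro x y h; exact toS_inj h
      · intro s hs s' hs' he
        exact hinj c s (mem_coe.1 hs) s' (mem_coe.1 hs') he
    · intro l hl
      rw [mem_image] at hl
      obtain ⟨s, hs, rfl⟩ := hl
      constructor
      · simp [lst]
      · simp only [lst]
        rw [List.isChain_map]
        exact (List.isChain_range_succ _ _).2 (fun m hm => dedge_of_cov (hp1 c s hs m hm))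
    · intro l hl
      rw [mem_image] at hl
      obtain ⟨s, hs, rfl⟩ := hl
      refine ⟨ofS s, (hmem s).1 hs, ?_⟩
      rw [hhead, hp0 c s hs]
    · intro l hl
      rw [mem_image] at hl
      obtain ⟨s, hs, rfl⟩ := hl
      have h1 := himg (hp2 c s hs)
      rw [mem_image] at h1
      obtain ⟨t, ht, he⟩ := h1
      refine ⟨t, ht, ?_⟩
      rw [hlast, ← he, ofS_toS]
    · intro l hl l' hl' hne v hv hv'
      rw [mem_image] at hl hl'
      obtain ⟨s, hs, rfl⟩ := hl
      obtain ⟨s', hs', rfl⟩ := hl'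
      obtain ⟨k, hk, he⟩ := hmemlst _ _ _ hv
      obtain ⟨k', hk', he'⟩ := hmemlst _ _ _ hv'
      apply hne
      rw [he] at he'
      rw [hp3 c s hs s' hs' k hk k' hk' (ofS_inj he')]
  · intro c c' hcc l hl l' hl' e he he'
    rw [mem_image] at hl hl'
    obtain ⟨s, hs, rfl⟩ := hl
    obtain ⟨s', hs', rfl⟩ := hl'
    obtain ⟨k, hk, h1⟩ := mem_edges _ _ _ he
    obtain ⟨k', hk', h2⟩ := mem_edges _ _ _ he'
    rw [h1, Prod.mk.injEq] at h2
    exact hcc (hp4 c c' s hs s' hs' k hk k' hk' (ofS_inj h2.1) (ofS_inj h2.2))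

end MP_8b6acb_co
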