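import Mathlib

/-! Two abstract entropy inequalities. -/

set_option linter.unusedSectionVars false

namespace MP_8b6acb_co

open Finset

variable {V Z G : Type*} [Fintype V] [Fintype Z] [Fintype G] [DecidableEq V]

/-- Conditioning reduces entropy. -/
theorem entropy_forward (X : V → Z → G → ℝ) (f : Z → G → ℝ) (F : Z → ℝ) (f0 : V → G → ℝ)
    (J : V → Z → ℝ) (hX : ∀ s w g, 0 ≤ X s w g) (h1 : ∀ w g, ∑ s, X s w g = f w g)
    (h2 : ∀ s g, ∑ w, X s w g = f0 s g) (h3 : ∀ s w g, X s w g * F w = J s w * f w g)
    (hJ : ∀ s w, 0 ≤ J s w) (h4 : ∀ s, ∑ w, J s w ≤ 1) (h5 : ∀ w, ∑ g, f w g = F w) :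
    ∑ w, (∑ g, Real.negMulLog (f w g) - Real.negMulLog (F w)) ≤
      ∑ s, ∑ g, Real.negMulLog (f0 s g) := by
  have hf : ∀ w g, 0 ≤ f w g := fun w g => by rw [← h1]; exact sum_nonneg (fun s _ => hX s w g)
  have hf0 : ∀ s g, 0 ≤ f0 s g := fun s g => by rw [← h2]; exact sum_nonneg (fun w _ => hX s w g)
  have hXf : ∀ s w g, X s w g ≤ f w g := fun s w g => by
    rw [← h1]
    exact single_le_sum (f := fun s => X s w g) (fun s _ => hX s w g) (mem_univ s)
  have hXf0 : ∀ s w g, X s w g ≤ f0 s g := fun s w g => by
    rw [← h2]
    exact single_le_sum (f := fun w => X s w g) (fun w _ => hX s w g) (mem_univ w)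
  have hfF : ∀ w g, f w g ≤ F w := fun w g => by
    rw [← h5]
    exact single_le_sum (f := fun g => f w g) (fun g _ => hf w g) (mem_univ g)
  have e1 : ∑ w, (∑ g, Real.negMulLog (f w g) - Real.negMulLog (F w)) =
      ∑ s, ∑ w, ∑ g, X s w g * (Real.log (F w) - Real.log (f w g)) := by
    have : ∀ w, ∑ g, Real.negMulLog (f w g) - Real.negMulLog (F w) =
        ∑ g, ∑ s, X s w g * (Real.log (F w) - Real.log (f w g)) := by
      intro w
      have e2 : ∀ g, ∑ s, X s w g * (Real.log (F w) - Real.log (f w g)) =
          f w g * Real.log (F w) + Real.negMulLog (f w g) := by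
        intro g
        rw [← sum_mul, h1, Real.negMulLog]
        ring
      simp_rw [e2]
      rw [sum_add_distrib, ← sum_mul, h5, Real.negMulLog]
      ring
    simp_rw [this]
    rw [sum_comm' (s := univ) (t := fun _ => univ) (t' := univ) (s' := fun _ => univ) (by simp)]
    have e3 : ∀ g, ∑ w, ∑ s, X s w g * (Real.log (F w) - Real.log (f w g)) =
        ∑ s, ∑ w, X s w g * (Real.log (F w) - Real.log (f w g)) := fun g => sum_comm
    simp_rw [e3]
    rw [sum_comm]
    refine sum_congr rfl (fun s _ => ?_)
    exact sum_comm
  have e4 : ∑ s, ∑ g, Real.negMulLog (f0 s g) =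
      ∑ s, ∑ w, ∑ g, X s w g * (- Real.log (f0 s g)) := by
    refine sum_congr rfl (fun s _ => ?_)
    rw [sum_comm]
    refine sum_congr rfl (fun g _ => ?_)
    rw [← sum_mul, h2, Real.negMulLog]
    ring
  rw [e1, e4, ← sub_nonpos, ← sum_sub_distrib]
  have e5 : ∀ s, ∑ w, ∑ g, X s w g * (Real.log (F w) - Real.log (f w g)) -
      ∑ w, ∑ g, X s w g * (- Real.log (f0 s g)) ≤ 0 := by
    intro s
    have e6 : ∑ w, ∑ g, X s w g * (Real.log (F w) - Real.log (f w g)) -
      ∑ w, ∑ g, X s w g * (- Real.log (f0 s g)) ≤ ∑ w, ∑ g, (f0 s g * J s w - X s w g) := by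
      rw [← sum_sub_distrib]
      refine sum_le_sum (fun w _ => ?_)
      rw [← sum_sub_distrib]
      refine sum_le_sum (fun g _ => ?_)
      rcases eq_or_lt_of_le (hX s w g) with h0 | h0
      · rw [← h0]
        have := mul_nonneg (hf0 s g) (hJ s w)
        linarith
      · have p1 : 0 < f w g := lt_of_lt_of_le h0 (hXf s w g)
        have p2 : 0 < f0 s g := lt_of_lt_of_le h0 (hXf0 s w g)
        have p3 : 0 < F w := lt_of_lt_of_le p1 (hfF w g)
        have p4 : J s w = X s w g * F w / f w g := by
          rw [h3]
          field_simp
        have p5 := Real.log_le_sub_one_of_pos (x := F w * f0 s g / f w g) (by positivity)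
        rw [Real.log_div (by positivity) (by positivity), Real.log_mul (by positivity)
          (by positivity)] at p5
        have p6 := mul_le_mul_of_nonneg_left p5 h0.le
        have p7 : X s w g * (F w * f0 s g / f w g - 1) = f0 s g * J s w - X s w g := by
          rw [p4]
          field_simp
        linarith
    refine e6.trans ?_
    rw [sum_comm]
    have e7 : ∀ g, ∑ w, (f0 s g * J s w - X s w g) ≤ 0 := by
      intro g
      rw [sum_sub_distrib, ← mul_sum, h2]
      have := mul_le_mul_of_nonneg_left (h4 s) (hf0 s g)
      linarith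
    exact sum_nonpos (fun g _ => e7 g)
  exact sum_nonpos (fun s _ => e5 s)

/-- The gain of entropy for the backward steps. -/
theorem entropy_backward (Y : V → G → Z → ℝ) (f0 : V → G → ℝ) (f : Z → G → ℝ) (F1 : V → ℝ)
    (F : Z → ℝ) (N : V → Z → ℝ) (K : ℝ) (n : V → ℕ) (U : Finset V)
    (hY : ∀ v g z, 0 ≤ Y v g z) (h1 : ∀ v g, ∑ z, Y v g z = f0 v g)
    (h2 : ∀ z g, ∑ v, Y v g z = f z g) (h3 : ∀ v, ∑ g, f0 v g = F1 v)
    (h4 : ∀ z, ∑ g, f z g = F z) (h5 : ∀ v z, ∑ g, Y v g z = N v z)
    (h6 : ∀ v g z, Y v g z * F1 v = f0 v g * N v z) (hK : 0 < K)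
    (hβ : ∀ z g, f z g * K ≤ F z)
    (hn : ∀ v ∈ U, (univ.filter (fun g => f0 v g ≠ 0)).card ≤ n v) :
    ∑ v, (∑ g, Real.negMulLog (f0 v g) - Real.negMulLog (F1 v)) +
      ∑ v ∈ U, F1 v * (Real.log K - Real.log (n v)) ≤
    ∑ z, (∑ g, Real.negMulLog (f z g) - Real.negMulLog (F z)) := by
  have hf : ∀ z g, 0 ≤ f z g := fun z g => by rw [← h2]; exact sum_nonneg (fun v _ => hY v g z)
  have hf0 : ∀ v g, 0 ≤ f0 v g := fun v g => by rw [← h1]; exact sum_nonneg (fun z _ => hY v g z)
  have hYf : ∀ v g z, Y v g z ≤ f z g := fun v g z => by
    rw [← h2]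
    exact single_le_sum (f := fun v => Y v g z) (fun v _ => hY v g z) (mem_univ v)
  have hYf0 : ∀ v g z, Y v g z ≤ f0 v g := fun v g z => by
    rw [← h1]
    exact single_le_sum (f := fun z => Y v g z) (fun z _ => hY v g z) (mem_univ z)
  have hfF : ∀ z g, f z g ≤ F z := fun z g => by
    rw [← h4]
    exact single_le_sum (f := fun g => f z g) (fun g _ => hf z g) (mem_univ g)
  have hfF1 : ∀ v g, f0 v g ≤ F1 v := fun v g => by
    rw [← h3]
    exact single_le_sum (f := fun g => f0 v g) (fun g _ => hf0 v g) (mem_univ g)
  have hF1 : ∀ v, 0 ≤ F1 v := fun v => by rw [← h3]; exact sum_nonneg (fun g _ => hf0 v g)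
  have hN : ∀ v z, 0 ≤ N v z := fun v z => by rw [← h5]; exact sum_nonneg (fun g _ => hY v g z)
  have hNF : ∀ v, ∑ z, N v z = F1 v := by
    intro v
    simp_rw [← h5]
    rw [sum_comm]
    simp_rw [h1]
    exact h3 v
  -- expand both sides
  have e1 : ∑ z, (∑ g, Real.negMulLog (f z g) - Real.negMulLog (F z)) =
      ∑ v, ∑ z, ∑ g, Y v g z * (Real.log (F z) - Real.log (f z g)) := by
    have : ∀ z, ∑ g, Real.negMulLog (f z g) - Real.negMulLog (F z) =
        ∑ v, ∑ g, Y v g z * (Real.log (F z) - Real.log (f z g)) := by
      intro z
      rw [sum_comm]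
      have e2 : ∀ g, ∑ v, Y v g z * (Real.log (F z) - Real.log (f z g)) =
          f z g * Real.log (F z) + Real.negMulLog (f z g) := by
        intro g
        rw [← sum_mul, h2, Real.negMulLog]
        ring
      simp_rw [e2]
      rw [sum_add_distrib, ← sum_mul, h4, Real.negMulLog]
      ring
    simp_rw [this]
    rw [sum_comm]
  have e4 : ∀ v, ∑ g, Real.negMulLog (f0 v g) - Real.negMulLog (F1 v) =
      ∑ z, ∑ g, Y v g z * (Real.log (F1 v) - Real.log (f0 v g)) := by
    intro v
    rw [sum_comm]
    have e2 : ∀ g, ∑ z, Y v g z * (Real.log (F1 v) - Real.log (f0 v g)) =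
        f0 v g * Real.log (F1 v) + Real.negMulLog (f0 v g) := by
      intro g
      rw [← sum_mul, h1, Real.negMulLog]
      ring
    simp_rw [e2]
    rw [sum_add_distrib, ← sum_mul, h3, Real.negMulLog]
    ring
  have key : ∀ v, (∑ g, Real.negMulLog (f0 v g) - Real.negMulLog (F1 v)) +
      (if v ∈ U then F1 v * (Real.log K - Real.log (n v)) else 0) ≤
      ∑ z, ∑ g, Y v g z * (Real.log (F z) - Real.log (f z g)) := by
    intro v
    rw [e4 v]
    rcases eq_or_lt_of_le (hF1 v) with hz | hpos
    · -- everything vanishes
      have z1 : ∀ g, f0 v g = 0 := fun g => le_antisymm (by rw [hz]; exact hfF1 v g) (hf0 v g)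
      have z2 : ∀ g z, Y v g z = 0 := fun g z => le_antisymm (by rw [← z1 g]; exact hYf0 v g z)
        (hY v g z)
      simp [z2, ← hz]
    · -- pointwise bound
      have hYe : ∀ g z, Y v g z = N v z * (f0 v g / F1 v) := by
        intro g z
        have := h6 v g z
        field_simp
        linarith
      have hαsum : ∑ g, f0 v g / F1 v = 1 := by
        rw [← sum_div, h3, div_self hpos.ne']
      -- first bound
      have hb1 : ∀ z, 0 ≤ ∑ g, Y v g z * ((Real.log (F z) - Real.log (f z g)) -
          (Real.log (F1 v) - Real.log (f0 v g))) := by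
        intro z
        rcases eq_or_lt_of_le (hN v z) with hz0 | hNp
        · apply le_of_eq
          symm
          apply sum_eq_zero
          intro g _
          rw [hYe g z, ← hz0]
          ring
        · have hFp : 0 < F z := by
            obtain ⟨g, _, hg⟩ := exists_ne_zero_of_sum_ne_zero (s := univ) (f := fun g => Y v g z)
              (by rw [h5]; exact hNp.ne')
            have : 0 < Y v g z := lt_of_le_of_ne (hY v g z) (Ne.symm hg)
            exact lt_of_lt_of_le this ((hYf v g z).trans (hfF z g))
          have hp : ∀ g, N v z * (f0 v g / F1 v - f z g / F z) ≤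
              Y v g z * ((Real.log (F z) - Real.log (f z g)) -
              (Real.log (F1 v) - Real.log (f0 v g))) := by
            intro g
            rcases eq_or_lt_of_le (hY v g z) with h0 | h0
            · have a1 : f0 v g / F1 v = 0 := by
                have := hYe g z
                rw [← h0] at this
                rcases mul_eq_zero.1 this.symm with h | h
                · exact absurd h hNp.ne'
                · exact h
              rw [← h0, a1]
              have : 0 ≤ f z g / F z := div_nonneg (hf z g) hFp.le
              nlinarith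
            · have p1 : 0 < f z g := lt_of_lt_of_le h0 (hYf v g z)
              have p2 : 0 < f0 v g := lt_of_lt_of_le h0 (hYf0 v g z)
              have p5 := Real.log_le_sub_one_of_pos (x := (f z g * F1 v) / (F z * f0 v g))
                (by positivity)
              rw [Real.log_div (by positivity) (by positivity), Real.log_mul (by positivity)
                (by positivity), Real.log_mul (by positivity) (by positivity)] at p5
              have p6 := mul_le_mul_of_nonneg_left p5 h0.le
              have p7 : Y v g z * ((f z g * F1 v) / (F z * f0 v g) - 1) =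
                  - (N v z * (f0 v g / F1 v - f z g / F z)) := by
                rw [hYe g z]
                field_simp
                ring
              linarith
          have : ∑ g, N v z * (f0 v g / F1 v - f z g / F z) = 0 := by
            rw [← mul_sum, sum_sub_distrib, hαsum, ← sum_div, h4, div_self hFp.ne']
            ring
          rw [← this]
          exact sum_le_sum (fun g _ => hp g)
      by_cases hU : v ∈ U
      · rw [if_pos hU]
        have hn1 : 0 < n v := by
          have hne : ∃ g, f0 v g ≠ 0 := by
            by_contra hc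
            push Not at hc
            have : F1 v = 0 := by rw [← h3]; simp [hc]
            exact hpos.ne' this
          obtain ⟨g, hg⟩ := hne
          have : 0 < (univ.filter (fun g => f0 v g ≠ 0)).card :=
            card_pos.2 ⟨g, by simp [hg]⟩
          exact lt_of_lt_of_le this (hn v hU)
        have hnR : (0 : ℝ) < n v := by exact_mod_cast hn1
        have hb2 : ∀ z, N v z * (Real.log K - Real.log (n v)) ≤
            ∑ g, Y v g z * ((Real.log (F z) - Real.log (f z g)) -
            (Real.log (F1 v) - Real.log (f0 v g))) := by
          intro z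
          have hp : ∀ g, N v z * (f0 v g / F1 v * (Real.log K - Real.log (n v)) + f0 v g / F1 v -
              (if f0 v g ≠ 0 then 1 / (n v : ℝ) else 0)) ≤
              Y v g z * ((Real.log (F z) - Real.log (f z g)) -
              (Real.log (F1 v) - Real.log (f0 v g))) := by
            intro g
            rcases eq_or_lt_of_le (hY v g z) with h0 | h0
            · have a1 := hYe g z
              rw [← h0] at a1
              rw [← h0, zero_mul]
              rcases mul_eq_zero.1 a1.symm with h | h
              · rw [h]; simp
              · rw [h]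
                have : 0 ≤ (if f0 v g ≠ 0 then 1 / (n v : ℝ) else 0) := by
                  split_ifs
                  · positivity
                  · exact le_refl _
                nlinarith [hN v z]
            · have p1 : 0 < f z g := lt_of_lt_of_le h0 (hYf v g z)
              have p2 : 0 < f0 v g := lt_of_lt_of_le h0 (hYf0 v g z)
              have p3 : 0 < F z := lt_of_lt_of_le p1 (hfF z g)
              have p4 : Real.log K ≤ Real.log (F z) - Real.log (f z g) := by
                have := hβ z g
                have h7 : K ≤ F z / f z g := by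
                  rw [le_div_iff₀ p1]
                  linarith
                have := Real.log_le_log hK h7
                rwa [Real.log_div (by positivity) (by positivity)] at this
              have p5 := Real.log_le_sub_one_of_pos (x := F1 v / (n v * f0 v g)) (by positivity)
              rw [Real.log_div (by positivity) (by positivity), Real.log_mul (by positivity)
                (by positivity)] at p5
              have p6 := mul_le_mul_of_nonneg_left p5 h0.le
              have p7 : Y v g z * (F1 v / (n v * f0 v g) - 1) =
                  N v z * (1 / n v - f0 v g / F1 v) := by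
                rw [hYe g z]
                field_simp
              have p8 : Y v g z * Real.log K ≤ Y v g z * (Real.log (F z) - Real.log (f z g)) :=
                mul_le_mul_of_nonneg_left p4 h0.le
              rw [if_pos p2.ne']
              have p9 : N v z * (f0 v g / F1 v * (Real.log K - Real.log (n v)) + f0 v g / F1 v -
                  1 / (n v : ℝ)) = Y v g z * (Real.log K - Real.log (n v)) -
                    N v z * (1 / n v - f0 v g / F1 v) := by
                rw [hYe g z]
                ring
              rw [p9]
              nlinarith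
          refine le_trans ?_ (sum_le_sum (fun g _ => hp g))
          rw [← mul_sum, sum_sub_distrib, sum_add_distrib, ← sum_mul, hαsum]
          have : ∑ g, (if f0 v g ≠ 0 then 1 / (n v : ℝ) else 0) ≤ 1 := by
            rw [← sum_filter, sum_const, nsmul_eq_mul]
            rw [mul_one_div, div_le_one hnR]
            exact_mod_cast hn v hU
          have := mul_le_mul_of_nonneg_left this (hN v z)
          nlinarith
        have := sum_le_sum (fun z (_ : z ∈ (univ : Finset Z)) => hb2 z)
        rw [← sum_mul, hNF] at this
        have hexp : ∑ z, ∑ g, Y v g z * ((Real.log (F z) - Real.log (f z g)) -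
            (Real.log (F1 v) - Real.log (f0 v g))) =
            ∑ z, ∑ g, Y v g z * (Real.log (F z) - Real.log (f z g)) -
            ∑ z, ∑ g, Y v g z * (Real.log (F1 v) - Real.log (f0 v g)) := by
          rw [← sum_sub_distrib]
          refine sum_congr rfl (fun z _ => ?_)
          rw [← sum_sub_distrib]
          refine sum_congr rfl (fun g _ => ?_)
          ring
        rw [hexp] at this
        linarith
      · rw [if_neg hU]
        have := sum_nonneg (fun z (_ : z ∈ (univ : Finset Z)) => hb1 z)
        have hexp : ∑ z, ∑ g, Y v g z * ((Real.log (F z) - Real.log (f z g)) -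
            (Real.log (F1 v) - Real.log (f0 v g))) =
            ∑ z, ∑ g, Y v g z * (Real.log (F z) - Real.log (f z g)) -
            ∑ z, ∑ g, Y v g z * (Real.log (F1 v) - Real.log (f0 v g)) := by
          rw [← sum_sub_distrib]
          refine sum_congr rfl (fun z _ => ?_)
          rw [← sum_sub_distrib]
          refine sum_congr rfl (fun g _ => ?_)
          ring
        rw [hexp] at this
        linarith
  rw [e1]
  refine le_trans (le_of_eq ?_) (sum_le_sum (fun v _ => key v))
  rw [sum_add_distrib]
  congr 1
  rw [← sum_filter]
  refine sum_congr ?_ (fun _ _ => rfl)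
  ext v
  simp

end MP_8b6acb_co
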