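import Mathlib

/-! A coupling of maximal entropy satisfies the exchange (rank one) property. -/

namespace MP_8b6acb_co

open Finset

theorem negMulLog_tangent {x y : ℝ} (hx : 0 ≤ x) (hy : 0 ≤ y) (h : y = 0 → x = 0) :
    Real.negMulLog x ≤ Real.negMulLog y + (x - y) * (-Real.log y - 1) := by
  rcases eq_or_lt_of_le hy with hy0 | hy0
  · have := h hy0.symm
    subst this
    rw [← hy0]
    simp
  · rcases eq_or_lt_of_le hx with hx0 | hx0
    · rw [← hx0]
      simp only [Real.negMulLog, neg_zero, zero_mul, zero_sub]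
      nlinarith
    · have h1 := Real.log_le_sub_one_of_pos (div_pos hy0 hx0)
      rw [Real.log_div hy0.ne' hx0.ne'] at h1
      have h2 : x * (Real.log y - Real.log x) ≤ x * (y / x - 1) := mul_le_mul_of_nonneg_left h1 hx
      have h3 : x * (y / x - 1) = y - x := by field_simp
      simp only [Real.negMulLog]
      nlinarith

variable {ι κ : Type*} [Fintype ι] [Fintype κ]

/-- Nonnegative matrices with given support and given marginals. -/
structure IsCoup (R : ι → κ → Prop) (r : ι → ℝ) (c : κ → ℝ) (p : ι → κ → ℝ) : Prop where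
  nonneg : ∀ i j, 0 ≤ p i j
  supp : ∀ i j, ¬ R i j → p i j = 0
  row : ∀ i, ∑ j, p i j = r i
  col : ∀ j, ∑ i, p i j = c j

theorem isCompact_coup (R : ι → κ → Prop) (r : ι → ℝ) (c : κ → ℝ) :
    IsCompact {p : ι → κ → ℝ | IsCoup R r c p} := by
  have hbox : IsCompact (Set.univ.pi (fun i : ι => Set.univ.pi (fun _ : κ => Set.Icc (0 : ℝ) (r i)))) :=
    isCompact_univ_pi (fun i => isCompact_univ_pi (fun _ => isCompact_Icc))
  refine hbox.of_isClosed_subset ?_ ?_
  · have h1 : {p : ι → κ → ℝ | IsCoup R r c p} =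
        (⋂ i, ⋂ j, {p : ι → κ → ℝ | 0 ≤ p i j}) ∩ (⋂ i, ⋂ j, {p : ι → κ → ℝ | ¬ R i j → p i j = 0}) ∩
        (⋂ i, {p : ι → κ → ℝ | ∑ j, p i j = r i}) ∩ (⋂ j, {p : ι → κ → ℝ | ∑ i, p i j = c j}) := by
      ext p
      simp only [Set.mem_inter_iff, Set.mem_iInter, Set.mem_setOf_eq]
      exact ⟨fun h => ⟨⟨⟨h.nonneg, h.supp⟩, h.row⟩, h.col⟩, fun h => ⟨h.1.1.1, h.1.1.2, h.1.2, h.2⟩⟩
    rw [h1]
    refine IsClosed.inter (IsClosed.inter (IsClosed.inter ?_ ?_) ?_) ?_
    · exact isClosed_iInter (fun i => isClosed_iInter (fun j =>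
        isClosed_le continuous_const (by fun_prop)))
    · refine isClosed_iInter (fun i => isClosed_iInter (fun j => ?_))
      by_cases hR : R i j
      · have : {p : ι → κ → ℝ | ¬ R i j → p i j = 0} = Set.univ := by
          ext p; simp [hR]
        rw [this]; exact isClosed_univ
      · have : {p : ι → κ → ℝ | ¬ R i j → p i j = 0} = {p | p i j = 0} := by
          ext p; simp [hR]
        rw [this]; exact isClosed_eq (by fun_prop) continuous_const
    · exact isClosed_iInter (fun i => isClosed_eq (by fun_prop) continuous_const)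
    · exact isClosed_iInter (fun j => isClosed_eq (by fun_prop) continuous_const)
  · intro p hp
    simp only [Set.mem_pi, Set.mem_univ, forall_const, Set.mem_Icc]
    intro i j
    refine ⟨hp.nonneg i j, ?_⟩
    rw [← hp.row i]
    exact single_le_sum (f := fun j => p i j) (fun j _ => hp.nonneg i j) (mem_univ j)

variable [DecidableEq ι] [DecidableEq κ]

theorem exists_exchange (R : ι → κ → Prop) (r : ι → ℝ) (c : κ → ℝ) (p0 : ι → κ → ℝ)
    (hp0 : IsCoup R r c p0) :
    ∃ p, IsCoup R r c p ∧ ∀ i i' j j', R i j' → R i' j → p i j * p i' j' ≤ p i j' * p i' j := by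
  have hcont : Continuous (fun p : ι → κ → ℝ => ∑ i, ∑ j, Real.negMulLog (p i j)) := by
    refine continuous_finset_sum _ (fun i _ => continuous_finset_sum _ (fun j _ => ?_))
    exact Real.continuous_negMulLog.comp (by fun_prop)
  obtain ⟨p, hp, hmax⟩ := (isCompact_coup R r c).exists_isMaxOn ⟨p0, hp0⟩ hcont.continuousOn
  refine ⟨p, hp, ?_⟩
  intro i i' j j' hij' hi'j
  by_contra hlt
  push Not at hlt
  have hc0 := hp.nonneg i j'
  have hd0 := hp.nonneg i' j
  have ha0 : 0 < p i j := by
    rcases eq_or_lt_of_le (hp.nonneg i j) with h | h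
    · rw [← h, zero_mul] at hlt
      exact absurd hlt (not_lt.2 (mul_nonneg hc0 hd0))
    · exact h
  have hb0 : 0 < p i' j' := by
    rcases eq_or_lt_of_le (hp.nonneg i' j') with h | h
    · rw [← h, mul_zero] at hlt
      exact absurd hlt (not_lt.2 (mul_nonneg hc0 hd0))
    · exact h
  have hii : i ≠ i' := by
    rintro rfl
    linarith [mul_comm (p i j) (p i j')]
  have hjj : j ≠ j' := by
    rintro rfl
    linarith
  obtain ⟨ε, hε, hεa, hεb, hεg⟩ : ∃ ε : ℝ, 0 < ε ∧ ε < p i j ∧ ε < p i' j' ∧
      (p i j' + ε) * (p i' j + ε) < (p i j - ε) * (p i' j' - ε) := by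
    have hs : 0 < p i j + p i' j' + p i j' + p i' j := by linarith
    refine ⟨min (min (p i j / 2) (p i' j' / 2)) ((p i j * p i' j' - p i j' * p i' j) /
      (2 * (p i j + p i' j' + p i j' + p i' j))), ?_, ?_, ?_, ?_⟩
    · refine lt_min (lt_min (by linarith) (by linarith)) (div_pos (by linarith) (by linarith))
    · exact lt_of_le_of_lt ((min_le_left _ _).trans (min_le_left _ _)) (by linarith)
    · exact lt_of_le_of_lt ((min_le_left _ _).trans (min_le_right _ _)) (by linarith)
    · set ε := min (min (p i j / 2) (p i' j' / 2)) ((p i j * p i' j' - p i j' * p i' j) /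
        (2 * (p i j + p i' j' + p i j' + p i' j))) with hε
      have h1 : ε ≤ (p i j * p i' j' - p i j' * p i' j) /
        (2 * (p i j + p i' j' + p i j' + p i' j)) := min_le_right _ _
      rw [le_div_iff₀ (by linarith)] at h1
      nlinarith
  let u : ι → ℝ := fun x => (if x = i then 1 else 0) - (if x = i' then 1 else 0)
  let v : κ → ℝ := fun y => (if y = j' then 1 else 0) - (if y = j then 1 else 0)
  let p' : ι → κ → ℝ := fun x y => p x y + ε * (u x * v y)
  have hu : ∑ x, u x = 0 := by simp [u]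
  have hv : ∑ y, v y = 0 := by simp [v]
  have hRij : R i j := by
    by_contra h
    rw [hp.supp i j h] at ha0
    exact lt_irrefl _ ha0
  have hRi'j' : R i' j' := by
    by_contra h
    rw [hp.supp i' j' h] at hb0
    exact lt_irrefl _ hb0
  have hp'eq : ∀ x y, (u x * v y = 0) ∨ (x = i ∧ y = j) ∨ (x = i' ∧ y = j') ∨ (x = i ∧ y = j') ∨
      (x = i' ∧ y = j) := by
    intro x y
    by_cases h1 : x = i
    · by_cases h2 : y = j
      · exact Or.inr (Or.inl ⟨h1, h2⟩)
      · by_cases h3 : y = j'
        · exact Or.inr (Or.inr (Or.inr (Or.inl ⟨h1, h3⟩)))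
        · left; simp [v, h2, h3]
    · by_cases h1' : x = i'
      · by_cases h2 : y = j
        · exact Or.inr (Or.inr (Or.inr (Or.inr ⟨h1', h2⟩)))
        · by_cases h3 : y = j'
          · exact Or.inr (Or.inr (Or.inl ⟨h1', h3⟩))
          · left; simp [v, h2, h3]
      · left; simp [u, h1, h1']
  have e1 : p' i j = p i j - ε := by simp [p', u, v, hii, hjj]; ring
  have e2 : p' i' j' = p i' j' - ε := by simp [p', u, v, hii.symm, hjj.symm]; ring
  have e3 : p' i j' = p i j' + ε := by simp [p', u, v, hii, hjj.symm]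
  have e4 : p' i' j = p i' j + ε := by simp [p', u, v, hii.symm, hjj]
  have hp' : IsCoup R r c p' := by
    refine ⟨?_, ?_, ?_, ?_⟩
    · intro x y
      rcases hp'eq x y with h | ⟨rfl, rfl⟩ | ⟨rfl, rfl⟩ | ⟨rfl, rfl⟩ | ⟨rfl, rfl⟩
      · simp only [p', h, mul_zero, add_zero]; exact hp.nonneg x y
      · rw [e1]; linarith
      · rw [e2]; linarith
      · rw [e3]; linarith
      · rw [e4]; linarith
    · intro x y hxy
      rcases hp'eq x y with h | ⟨rfl, rfl⟩ | ⟨rfl, rfl⟩ | ⟨rfl, rfl⟩ | ⟨rfl, rfl⟩
      · simp only [p', h, mul_zero, add_zero]; exact hp.supp x y hxy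
      · exact absurd hRij hxy
      · exact absurd hRi'j' hxy
      · exact absurd hij' hxy
      · exact absurd hi'j hxy
    · intro x
      simp only [p']
      rw [sum_add_distrib, hp.row x, ← mul_sum, ← mul_sum, hv]
      ring
    · intro y
      simp only [p']
      rw [sum_add_distrib, hp.col y, ← mul_sum, ← sum_mul, hu]
      ring
  have hle := hmax hp'
  simp only [Set.mem_setOf_eq] at hle
  have htan : ∑ x, ∑ y, Real.negMulLog (p x y) ≤ ∑ x, ∑ y, (Real.negMulLog (p' x y) +
      (p x y - p' x y) * (-Real.log (p' x y) - 1)) := by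
    refine sum_le_sum (fun x _ => sum_le_sum (fun y _ => ?_))
    apply negMulLog_tangent (hp.nonneg x y) (hp'.nonneg x y)
    intro h0
    rcases hp'eq x y with h | ⟨rfl, rfl⟩ | ⟨rfl, rfl⟩ | ⟨rfl, rfl⟩ | ⟨rfl, rfl⟩
    · simpa only [p', h, mul_zero, add_zero] using h0
    · rw [e1] at h0; linarith
    · rw [e2] at h0; linarith
    · rw [e3] at h0; linarith
    · rw [e4] at h0; linarith
  have hsum : ∑ x, ∑ y, (p x y - p' x y) * (-Real.log (p' x y) - 1) =
      ε * ((Real.log (p' i j') + Real.log (p' i' j)) - (Real.log (p' i j) + Real.log (p' i' j'))) := by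
    have h1 : ∀ x y, (p x y - p' x y) * (-Real.log (p' x y) - 1) =
        ε * (u x * (v y * (Real.log (p' x y) + 1))) := by
      intro x y
      simp only [p']
      ring
    simp_rw [h1]
    simp only [← mul_sum]
    have h2 : ∀ x, ∑ y, v y * (Real.log (p' x y) + 1) = Real.log (p' x j') - Real.log (p' x j) := by
      intro x
      simp only [v, sub_mul, ite_mul, one_mul, zero_mul, sum_sub_distrib, sum_ite_eq', mem_univ,
        if_true]
      ring
    simp_rw [h2]
    simp only [u, sub_mul, ite_mul, one_mul, zero_mul, sum_sub_distrib, sum_ite_eq', mem_univ,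
        if_true]
    ring
  simp_rw [sum_add_distrib] at htan
  rw [hsum] at htan
  have hlog : Real.log (p' i j') + Real.log (p' i' j) < Real.log (p' i j) + Real.log (p' i' j') := by
    rw [e1, e2, e3, e4]
    rw [← Real.log_mul (by linarith) (by linarith), ← Real.log_mul (by linarith) (by linarith)]
    apply Real.log_lt_log
    · apply mul_pos <;> linarith
    · exact hεg
  have : ε * ((Real.log (p' i j') + Real.log (p' i' j)) - (Real.log (p' i j) + Real.log (p' i' j'))) < 0 :=
    mul_neg_of_pos_of_neg hε (by linarith)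
  linarith

end MP_8b6acb_co
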