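import Mathlib
import Pool.Agent.Work.MP_8b6acb_co.Coupling
import Pool.Agent.Work.MP_8b6acb_co.MinCex

/-! Marginals of the coupling of maximal entropy. -/

set_option linter.unusedSectionVars false

namespace MP_8b6acb_co

open Finset

variable {α : Type*} [Fintype α] [DecidableEq α]

/-- The coupling used in the first layer theorem. -/
structure Coup (a b : ℕ) (S T : Finset (Finset α)) (p : Finset α → Finset α → ℝ) : Prop where
  nonneg : ∀ s t, 0 ≤ p s t
  supp : ∀ s t, p s t ≠ 0 → s ∈ S ∧ t ∈ T ∧ s ⊆ t ∧ s.card = a ∧ t.card = b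
  row : ∀ s ∈ S, ∑ t, p s t = 1
  col : ∀ t ∈ T, ∑ s, p s t = 1
  exch : ∀ x s s' t t' : Finset α, s ⊆ x → s' ⊆ x → x ⊆ t → x ⊆ t' →
    p s t * p s' t' = p s t' * p s' t

theorem exists_coup {a b : ℕ} {S : Finset (Finset α)} {φ : Finset α → Finset α}
    (hm : Mat a b S φ) : ∃ p, Coup a b S (S.image φ) p := by
  classical
  let R : Finset α → Finset α → Prop := fun s t => s ∈ S ∧ t ∈ S.image φ ∧ s ⊆ t
  let r : Finset α → ℝ := fun s => if s ∈ S then 1 else 0
  let c : Finset α → ℝ := fun t => if t ∈ S.image φ then 1 else 0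
  let p0 : Finset α → Finset α → ℝ := fun s t => if s ∈ S ∧ t = φ s then 1 else 0
  have hp0 : IsCoup R r c p0 := by
    refine ⟨?_, ?_, ?_, ?_⟩
    · intro s t
      simp only [p0]
      split_ifs <;> norm_num
    · intro s t hst
      simp only [p0]
      rw [if_neg]
      rintro ⟨h1, rfl⟩
      exact hst ⟨h1, mem_image_of_mem _ h1, hm.sub s h1⟩
    · intro s
      simp only [p0, r]
      by_cases hs : s ∈ S
      · simp [hs]
      · simp [hs]
    · intro t
      simp only [p0, c]
      by_cases ht : t ∈ S.image φ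
      · rw [if_pos ht]
        obtain ⟨s0, hs0, rfl⟩ := mem_image.1 ht
        rw [sum_eq_single s0]
        · rw [if_pos ⟨hs0, rfl⟩]
        · intro s _ hne
          rw [if_neg]
          rintro ⟨h1, h2⟩
          exact hne (hm.inj (mem_coe.2 h1) (mem_coe.2 hs0) h2.symm)
        · intro h
          exact absurd (mem_univ _) h
      · rw [if_neg ht]
        apply sum_eq_zero
        intro s _
        rw [if_neg]
        rintro ⟨h1, rfl⟩
        exact ht (mem_image_of_mem _ h1)
  obtain ⟨p, hp, hex⟩ := exists_exchange R r c p0 hp0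
  have hsupp : ∀ s t, p s t ≠ 0 → R s t := by
    intro s t h
    by_contra hR
    exact h (hp.supp s t hR)
  refine ⟨p, hp.nonneg, ?_, ?_, ?_, ?_⟩
  · intro s t h
    obtain ⟨h1, h2, h3⟩ := hsupp s t h
    refine ⟨h1, h2, h3, hm.cS s h1, ?_⟩
    obtain ⟨s0, hs0, rfl⟩ := mem_image.1 h2
    exact hm.cT s0 hs0
  · intro s hs
    rw [hp.row s]
    simp [r, hs]
  · intro t ht
    rw [hp.col t]
    simp only [c]
    rw [if_pos ht]
  · intro x s s' t t' h1 h2 h3 h4
    by_cases hs : s ∈ S
    · by_cases hs' : s' ∈ S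
      · by_cases ht : t ∈ S.image φ
        · by_cases ht' : t' ∈ S.image φ
          · apply le_antisymm
            · exact hex s s' t t' ⟨hs, ht', h1.trans h4⟩ ⟨hs', ht, h2.trans h3⟩
            · exact hex s s' t' t ⟨hs, ht, h1.trans h3⟩ ⟨hs', ht', h2.trans h4⟩
          · have e1 : p s' t' = 0 := by by_contra h; exact ht' (hsupp _ _ h).2.1
            have e2 : p s t' = 0 := by by_contra h; exact ht' (hsupp _ _ h).2.1
            rw [e1, e2]; ring
        · have e1 : p s t = 0 := by by_contra h; exact ht (hsupp _ _ h).2.1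
          have e2 : p s' t = 0 := by by_contra h; exact ht (hsupp _ _ h).2.1
          rw [e1, e2]; ring
      · have e1 : p s' t' = 0 := by by_contra h; exact hs' (hsupp _ _ h).1
        have e2 : p s' t = 0 := by by_contra h; exact hs' (hsupp _ _ h).1
        rw [e1, e2]; ring
    · have e1 : p s t = 0 := by by_contra h; exact hs (hsupp _ _ h).1
      have e2 : p s t' = 0 := by by_contra h; exact hs (hsupp _ _ h).1
      rw [e1, e2]; ring

/-- Sum of `p s t` over `t ⊇ v`. -/
def up (p : Finset α → Finset α → ℝ) (s v : Finset α) : ℝ := ∑ t, if v ⊆ t then p s t else 0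

/-- Sum of `p s t` over `s ⊆ u`, `t ⊇ v`. -/
def pw (p : Finset α → Finset α → ℝ) (u v : Finset α) : ℝ := ∑ s, if s ⊆ u then up p s v else 0

variable {a b : ℕ} {S T : Finset (Finset α)} {p : Finset α → Finset α → ℝ}

theorem Coup.up_nonneg (h : Coup a b S T p) (s v : Finset α) : 0 ≤ up p s v := by
  unfold up
  refine sum_nonneg (fun t _ => ?_)
  split_ifs
  · exact h.nonneg s t
  · exact le_refl _

theorem Coup.pw_nonneg (h : Coup a b S T p) (u v : Finset α) : 0 ≤ pw p u v := by
  unfold pw
  refine sum_nonneg (fun s _ => ?_)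
  split_ifs
  · exact h.up_nonneg s v
  · exact le_refl _

theorem Coup.up_supp (h : Coup a b S T p) {s v : Finset α} (hne : up p s v ≠ 0) :
    s ∈ S ∧ s.card = a ∧ ∃ t ∈ T, v ⊆ t ∧ t.card = b ∧ s ⊆ t := by
  unfold up at hne
  obtain ⟨t, _, ht⟩ := exists_ne_zero_of_sum_ne_zero hne
  have h1 : v ⊆ t := by
    by_contra hc
    simp [hc] at ht
  rw [if_pos h1] at ht
  obtain ⟨a1, a2, a3, a4, a5⟩ := h.supp s t ht
  exact ⟨a1, a4, t, a2, h1, a5, a3⟩

/-- Rank one property, summed over the upper ends. -/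
theorem Coup.exch_up2 (h : Coup a b S T p) {s s' x z : Finset α} (hs : s ⊆ x) (hs' : s' ⊆ x)
    (hz : x ⊆ z) : up p s z * up p s' x = up p s x * up p s' z := by
  rw [mul_comm (up p s x)]
  unfold up
  rw [sum_mul_sum, sum_mul_sum]
  refine sum_congr rfl (fun t _ => sum_congr rfl (fun t' _ => ?_))
  by_cases h1 : z ⊆ t
  · by_cases h2 : x ⊆ t'
    · rw [if_pos h1, if_pos h2, if_pos h1, if_pos h2, h.exch x s s' t t' hs hs' (hz.trans h1) h2,
        mul_comm]
    · simp [h2]
  · simp [h1]

/-- Rank one property, summed. -/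
theorem Coup.exch_up (h : Coup a b S T p) {s x z : Finset α} (hs : s ⊆ x) (hz : x ⊆ z) :
    up p s z * pw p x x = up p s x * pw p x z := by
  unfold pw
  rw [mul_sum, mul_sum]
  refine sum_congr rfl (fun s' _ => ?_)
  by_cases h1 : s' ⊆ x
  · rw [if_pos h1, if_pos h1]
    exact h.exch_up2 hs h1 hz
  · simp [h1]

theorem card_between (x t : Finset α) (k : ℕ) (hxt : x ⊆ t) :
    (univ.filter (fun w : Finset α => x ⊆ w ∧ w ⊆ t ∧ w.card = x.card + k)).card =
      (t.card - x.card).choose k := by
  rw [← card_sdiff_of_subset hxt, ← card_powersetCard]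
  symm
  refine card_bij (fun d _ => x ∪ d) ?_ ?_ ?_
  · intro d hd
    rw [mem_powersetCard] at hd
    have hdis : Disjoint x d := by
      rw [Finset.disjoint_left]
      intro y hy hyd
      exact (mem_sdiff.1 (hd.1 hyd)).2 hy
    simp only [mem_filter, mem_univ, true_and]
    refine ⟨subset_union_left, union_subset hxt (hd.1.trans sdiff_subset), ?_⟩
    rw [card_union_of_disjoint hdis, hd.2]
  · intro d hd d' hd' he
    rw [mem_powersetCard] at hd hd'
    have h1 : ∀ e : Finset α, e ⊆ t \ x → (x ∪ e) \ x = e := by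
      intro e hee
      ext y
      simp only [mem_sdiff, mem_union]
      constructor
      · rintro ⟨h1 | h1, h2⟩
        · exact absurd h1 h2
        · exact h1
      · intro hy
        exact ⟨Or.inr hy, (mem_sdiff.1 (hee hy)).2⟩
    rw [← h1 d hd.1, ← h1 d' hd'.1, he]
  · intro w hw
    simp only [mem_filter, mem_univ, true_and] at hw
    refine ⟨w \ x, ?_, ?_⟩
    · rw [mem_powersetCard]
      refine ⟨sdiff_subset_sdiff hw.2.1 (le_refl _), ?_⟩
      rw [card_sdiff_of_subset hw.1, hw.2.2]
      omega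
    · exact union_sdiff_of_subset hw.1

/-- Summation of `up` over the vertices between `x` and the targets. -/
theorem Coup.sum_up (h : Coup a b S T p) (s x : Finset α) (k : ℕ) :
    ∑ w, (if x ⊆ w ∧ w.card = x.card + k then up p s w else 0) =
      ((b - x.card).choose k : ℝ) * up p s x := by
  unfold up
  have h1 : ∀ w : Finset α, (if x ⊆ w ∧ w.card = x.card + k then
      ∑ t, (if w ⊆ t then p s t else 0) else 0) =
      ∑ t, (if x ⊆ w ∧ w ⊆ t ∧ w.card = x.card + k then p s t else 0) := by
    intro w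
    by_cases hc : x ⊆ w ∧ w.card = x.card + k
    · rw [if_pos hc]
      refine sum_congr rfl (fun t _ => ?_)
      by_cases h2 : w ⊆ t
      · rw [if_pos h2, if_pos ⟨hc.1, h2, hc.2⟩]
      · rw [if_neg h2, if_neg (fun hh => h2 hh.2.1)]
    · rw [if_neg hc]
      symm
      apply sum_eq_zero
      intro t _
      rw [if_neg (fun hh => hc ⟨hh.1, hh.2.2⟩)]
  simp_rw [h1]
  rw [sum_comm, mul_sum]
  refine sum_congr rfl (fun t _ => ?_)
  rw [← sum_filter, sum_const, nsmul_eq_mul]
  by_cases h2 : x ⊆ t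
  · rw [if_pos h2, card_between x t k h2]
    by_cases h3 : p s t = 0
    · rw [h3]; ring
    · rw [(h.supp s t h3).2.2.2.2]
  · rw [if_neg h2]
    have : (univ.filter (fun w : Finset α => x ⊆ w ∧ w ⊆ t ∧ w.card = x.card + k)) = ∅ := by
      rw [filter_eq_empty_iff]
      rintro w _ ⟨h3, h4, _⟩
      exact h2 (h3.trans h4)
    rw [this]
    simp

/-- Summation of `up` over the upper covers. -/
theorem Coup.sum_cov_up (h : Coup a b S T p) (s w : Finset α) :
    ∑ g, (if g ∉ w then up p s (insert g w) else 0) = ((b : ℝ) - w.card) * up p s w := by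
  unfold up
  have h1 : ∀ g : α, (if g ∉ w then ∑ t, (if insert g w ⊆ t then p s t else 0) else 0) =
      ∑ t, (if g ∈ t \ w ∧ w ⊆ t then p s t else 0) := by
    intro g
    by_cases hg : g ∉ w
    · rw [if_pos hg]
      refine sum_congr rfl (fun t _ => ?_)
      by_cases h2 : insert g w ⊆ t
      · rw [if_pos h2, if_pos]
        rw [insert_subset_iff] at h2
        exact ⟨mem_sdiff.2 ⟨h2.1, hg⟩, h2.2⟩
      · rw [if_neg h2, if_neg]
        rintro ⟨h3, h4⟩
        exact h2 (insert_subset (mem_sdiff.1 h3).1 h4)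
    · rw [if_neg hg]
      symm
      apply sum_eq_zero
      intro t _
      rw [if_neg]
      rintro ⟨h3, h4⟩
      exact hg (mem_sdiff.1 h3).2
  simp_rw [h1]
  rw [sum_comm, mul_sum]
  refine sum_congr rfl (fun t _ => ?_)
  by_cases h2 : w ⊆ t
  · rw [if_pos h2]
    simp only [h2, and_true]
    rw [← sum_filter, sum_const, nsmul_eq_mul]
    have h3 : (univ.filter (fun g => g ∈ t \ w)).card = t.card - w.card := by
      rw [← card_sdiff_of_subset h2]
      congr 1
      ext; simp
    rw [h3]
    by_cases h4 : p s t = 0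
    · rw [h4]; ring
    · have h5 := (h.supp s t h4).2.2.2.2
      have h6 := card_le_card h2
      rw [h5] at h6 ⊢
      rw [Nat.cast_sub h6]
  · simp [h2]

theorem Coup.sum_pw_up (h : Coup a b S T p) (u w : Finset α) :
    ∑ g, (if g ∉ w then pw p u (insert g w) else 0) = ((b : ℝ) - w.card) * pw p u w := by
  unfold pw
  have h1 : ∀ g : α, (if g ∉ w then ∑ s, (if s ⊆ u then up p s (insert g w) else 0) else 0) =
      ∑ s, (if s ⊆ u then (if g ∉ w then up p s (insert g w) else 0) else 0) := by
    intro g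
    by_cases hg : g ∉ w <;> simp [hg]
  simp_rw [h1]
  rw [sum_comm, mul_sum]
  refine sum_congr rfl (fun s _ => ?_)
  by_cases h2 : s ⊆ u
  · simp only [h2, if_true]
    exact h.sum_cov_up s w
  · simp [h2]

theorem Coup.sum_pw_down (h : Coup a b S T p) (z v : Finset α) :
    ∑ g, (if g ∈ z then pw p (z.erase g) v else 0) = ((z.card : ℝ) - a) * pw p z v := by
  unfold pw
  have h1 : ∀ g : α, (if g ∈ z then ∑ s, (if s ⊆ z.erase g then up p s v else 0) else 0) =
      ∑ s, (if g ∈ z \ s ∧ s ⊆ z then up p s v else 0) := by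
    intro g
    by_cases hg : g ∈ z
    · rw [if_pos hg]
      refine sum_congr rfl (fun s _ => ?_)
      by_cases h2 : s ⊆ z.erase g
      · rw [if_pos h2, if_pos]
        exact ⟨mem_sdiff.2 ⟨hg, fun hh => (mem_erase.1 (h2 hh)).1 rfl⟩, h2.trans (erase_subset _ _)⟩
      · rw [if_neg h2, if_neg]
        rintro ⟨h3, h4⟩
        apply h2
        intro y hy
        rw [mem_erase]
        refine ⟨?_, h4 hy⟩
        rintro rfl
        exact (mem_sdiff.1 h3).2 hy
    · rw [if_neg hg]
      symm
      apply sum_eq_zero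
      intro s _
      rw [if_neg]
      rintro ⟨h3, h4⟩
      exact hg (mem_sdiff.1 h3).1
  simp_rw [h1]
  rw [sum_comm, mul_sum]
  refine sum_congr rfl (fun s _ => ?_)
  by_cases h2 : s ⊆ z
  · rw [if_pos h2]
    simp only [h2, and_true]
    rw [← sum_filter, sum_const, nsmul_eq_mul]
    have h3 : (univ.filter (fun g => g ∈ z \ s)).card = z.card - s.card := by
      rw [← card_sdiff_of_subset h2]
      congr 1
      ext; simp
    rw [h3]
    by_cases h4 : up p s v = 0
    · rw [h4]; ring
    · have h5 := (h.up_supp h4).2.1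
      have h6 := card_le_card h2
      rw [h5] at h6 ⊢
      rw [Nat.cast_sub h6]
  · simp [h2]

end MP_8b6acb_co
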