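import Mathlib
import Pool.Agent.Work.MP_8b6acb_co.Entropy
import Pool.Agent.Work.MP_8b6acb_co.Marg

/-! The first layer theorem. -/

set_option linter.unusedSectionVars false

namespace MP_8b6acb_co

open Finset

variable {α : Type*} [Fintype α] [DecidableEq α]

/-- `1 / (l * C(l-1,k))`. -/
noncomputable def cc (l k : ℕ) : ℝ := 1 / (l * (l - 1).choose k)

/-- `1 / C(l,k)`. -/
noncomputable def kc (l k : ℕ) : ℝ := 1 / l.choose k

theorem cc_nonneg (l k : ℕ) : 0 ≤ cc l k := by unfold cc; positivity

theorem kc_nonneg (l k : ℕ) : 0 ≤ kc l k := by unfold kc; positivity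

theorem cc_up {l k : ℕ} (hk : k < l) : ((l : ℝ) - k) * cc l k = kc l k := by
  unfold cc kc
  obtain ⟨m, rfl⟩ : ∃ m, l = m + 1 := ⟨l - 1, by omega⟩
  have h1 := Nat.choose_mul_succ_eq m k
  have hkm : k ≤ m := by omega
  have h2 : ((m + 1 : ℕ) : ℝ) - k = ((m + 1 - k : ℕ) : ℝ) := by
    rw [Nat.cast_sub (by omega)]
  have h3 : (0 : ℝ) < (m.choose k : ℝ) := by exact_mod_cast Nat.choose_pos hkm
  have h4 : (0 : ℝ) < ((m + 1).choose k : ℝ) := by exact_mod_cast Nat.choose_pos (by omega)
  have h5 : ((m.choose k : ℕ) : ℝ) * ((m + 1 : ℕ) : ℝ) =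
      ((m + 1).choose k : ℝ) * ((m + 1 - k : ℕ) : ℝ) := by exact_mod_cast h1
  rw [h2]
  simp only [Nat.add_sub_cancel]
  have h6 : (0 : ℝ) < ((m + 1 : ℕ) : ℝ) := by positivity
  field_simp
  linarith

theorem cc_down {l k : ℕ} (hk : k < l) : ((k : ℝ) + 1) * cc l k = kc l (k + 1) := by
  unfold cc kc
  obtain ⟨m, rfl⟩ : ∃ m, l = m + 1 := ⟨l - 1, by omega⟩
  have h1 := Nat.add_one_mul_choose_eq m k
  have hkm : k ≤ m := by omega
  have h3 : (0 : ℝ) < (m.choose k : ℝ) := by exact_mod_cast Nat.choose_pos hkm
  have h4 : (0 : ℝ) < ((m + 1).choose (k + 1) : ℝ) := by exact_mod_cast Nat.choose_pos (by omega)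
  have h5 : ((m + 1 : ℕ) : ℝ) * (m.choose k : ℝ) = ((m + 1).choose (k + 1) : ℝ) * ((k : ℝ) + 1) := by
    exact_mod_cast h1
  simp only [Nat.add_sub_cancel]
  have h6 : (0 : ℝ) < ((m + 1 : ℕ) : ℝ) := by positivity
  field_simp
  linarith

theorem cc_choose {l k : ℕ} (hk : k < l) : cc l k * ((l - 1).choose k : ℝ) = 1 / l := by
  unfold cc
  have h3 : (0 : ℝ) < ((l - 1).choose k : ℝ) := by exact_mod_cast Nat.choose_pos (by omega)
  have h4 : (0 : ℝ) < (l : ℝ) := by exact_mod_cast (by omega : 0 < l)
  field_simp

theorem cc_zero (l : ℕ) : cc l 0 = 1 / l := by simp [cc]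

theorem kc_choose {l k : ℕ} (hk : k ≤ l) : kc l k * (l.choose k : ℝ) = 1 := by
  unfold kc
  have h3 : (0 : ℝ) < (l.choose k : ℝ) := by exact_mod_cast Nat.choose_pos hk
  field_simp

theorem kc_one (l : ℕ) : kc l 1 = 1 / l := by simp [kc]

variable {a l : ℕ} {S T : Finset (Finset α)} {p : Finset α → Finset α → ℝ}

/-- Vertex masses. -/
noncomputable def Fv (p : Finset α → Finset α → ℝ) (a l k : ℕ) (v : Finset α) : ℝ :=
  if v.card = a + k then kc l k * pw p v v else 0

/-- Edge masses, indexed by tails. -/
noncomputable def fu (p : Finset α → Finset α → ℝ) (a l k : ℕ) (w : Finset α) (g : α) : ℝ :=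
  if w.card = a + k ∧ g ∉ w then cc l k * pw p w (insert g w) else 0

/-- Edge masses, indexed by heads. -/
noncomputable def fd (p : Finset α → Finset α → ℝ) (a l k : ℕ) (z : Finset α) (g : α) : ℝ :=
  if z.card = a + k + 1 ∧ g ∈ z then cc l k * pw p (z.erase g) z else 0

theorem sum_fu (h : Coup a (a + l) S T p) {k : ℕ} (hk : k < l) (w : Finset α) :
    ∑ g, fu p a l k w g = Fv p a l k w := by
  unfold fu Fv
  by_cases hc : w.card = a + k
  · simp only [hc, true_and, if_true]
    have h1 : ∀ g, (if g ∉ w then cc l k * pw p w (insert g w) else 0) =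
        cc l k * (if g ∉ w then pw p w (insert g w) else 0) := by
      intro g; split_ifs <;> ring
    simp_rw [h1]
    rw [← mul_sum, h.sum_pw_up w w, ← cc_up hk, hc]
    push_cast
    ring
  · simp [hc]

theorem sum_fd (h : Coup a (a + l) S T p) {k : ℕ} (hk : k < l) (z : Finset α) :
    ∑ g, fd p a l k z g = Fv p a l (k + 1) z := by
  unfold fd Fv
  by_cases hc : z.card = a + k + 1
  · have hc' : z.card = a + (k + 1) := by omega
    simp only [hc, true_and]
    rw [if_pos (by omega)]
    have h1 : ∀ g, (if g ∈ z then cc l k * pw p (z.erase g) z else 0) =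
        cc l k * (if g ∈ z then pw p (z.erase g) z else 0) := by
      intro g; split_ifs <;> ring
    simp_rw [h1]
    rw [← mul_sum, h.sum_pw_down z z, ← cc_down hk, hc]
    push_cast
    ring
  · have hc' : ¬ z.card = a + (k + 1) := by omega
    simp [hc, hc']

theorem Coup.pw_eq_up (h : Coup a (a + l) S T p) {s : Finset α} (hs : s.card = a) (z : Finset α) :
    pw p s z = up p s z := by
  unfold pw
  rw [sum_eq_single s]
  · simp
  · intro s' _ hne
    by_cases hsub : s' ⊆ s
    · rw [if_pos hsub]
      by_contra hc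
      have h1 := (h.up_supp hc).2.1
      exact hne (eq_of_subset_of_card_le hsub (by omega))
    · rw [if_neg hsub]
  · intro hh; exact absurd (mem_univ _) hh

theorem Coup.up_le_one (h : Coup a (a + l) S T p) (s z : Finset α) : up p s z ≤ 1 := by
  by_cases hs : s ∈ S
  · rw [← h.row s hs]
    unfold up
    refine sum_le_sum (fun t _ => ?_)
    split_ifs
    · exact le_refl _
    · exact h.nonneg s t
  · have : up p s z = 0 := by
      by_contra hc
      exact hs (h.up_supp hc).1
    rw [this]
    norm_num

theorem Coup.pw_mono (h : Coup a (a + l) S T p) {u u' : Finset α} (hu : u ⊆ u') (z : Finset α) :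
    pw p u z ≤ pw p u' z := by
  unfold pw
  refine sum_le_sum (fun s _ => ?_)
  by_cases h1 : s ⊆ u
  · rw [if_pos h1, if_pos (h1.trans hu)]
  · rw [if_neg h1]
    split_ifs
    · exact h.up_nonneg s z
    · exact le_refl _

/-- Sums over an edge layer, computed from both sides. -/
theorem layer_reindex (p : Finset α → Finset α → ℝ) (a l k : ℕ) (H : ℝ → ℝ) (hH : H 0 = 0) :
    ∑ w, ∑ g, H (fu p a l k w g) = ∑ z, ∑ g, H (fd p a l k z g) := by
  rw [sum_comm, sum_comm (s := univ) (t := univ) (f := fun z g => H (fd p a l k z g))]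
  refine sum_congr rfl (fun g _ => ?_)
  have h1 : ∀ z : Finset α, H (fd p a l k z g) =
      (if g ∈ z then H (fd p a l k z g) else 0) := by
    intro z
    by_cases hg : g ∈ z
    · rw [if_pos hg]
    · simp [fd, hg, hH]
  rw [sum_congr rfl (fun z _ => h1 z), reindexN]
  refine sum_congr rfl (fun w _ => ?_)
  by_cases hg : g ∉ w
  · rw [if_pos hg]
    unfold fu fd
    rw [card_insert_of_notMem hg, erase_insert hg]
    by_cases hc : w.card = a + k
    · simp [hc, hg]
    · simp [hc]
  · rw [if_neg hg]
    simp [fu, hg, hH]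

/-- The vertex entropy of a layer. -/
noncomputable def La (p : Finset α → Finset α → ℝ) (a l k : ℕ) : ℝ :=
  ∑ v, Real.negMulLog (Fv p a l k v)

/-- The entropy of an edge layer. -/
noncomputable def En (p : Finset α → Finset α → ℝ) (a l k : ℕ) : ℝ :=
  ∑ w, ∑ g, Real.negMulLog (fu p a l k w g)

theorem forward (h : Coup a (a + l) S T p) {k : ℕ} (hk : k < l) :
    En p a l k - La p a l k ≤ En p a l 0 := by
  unfold En La
  rw [← sum_sub_distrib]
  refine entropy_forward (fun s w g => if s ⊆ w ∧ w.card = a + k ∧ g ∉ w then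
      cc l k * up p s (insert g w) else 0) (fu p a l k) (Fv p a l k) (fu p a l 0)
      (fun s w => if s ⊆ w ∧ w.card = a + k then kc l k * up p s w else 0) ?_ ?_ ?_ ?_ ?_ ?_
      (sum_fu h hk)
  · intro s w g
    split_ifs
    · exact mul_nonneg (cc_nonneg _ _) (h.up_nonneg _ _)
    · exact le_refl _
  · intro w g
    unfold fu pw
    by_cases hc : w.card = a + k ∧ g ∉ w
    · rw [if_pos hc, mul_sum]
      refine sum_congr rfl (fun s _ => ?_)
      by_cases hs : s ⊆ w
      · rw [if_pos ⟨hs, hc⟩, if_pos hs]
      · simp [hs]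
    · rw [if_neg hc]
      apply sum_eq_zero
      intro s _
      rw [if_neg]
      rintro ⟨_, h2⟩
      exact hc h2
  · intro s g
    by_cases hsa : s.card = a
    · by_cases hg : g ∈ s
      · unfold fu
        rw [if_neg (by simp [hg])]
        apply sum_eq_zero
        intro w _
        rw [if_neg]
        rintro ⟨h1, _, h3⟩
        exact h3 (h1 hg)
      · unfold fu
        rw [if_pos ⟨by omega, hg⟩, h.pw_eq_up hsa, cc_zero]
        have h1 : ∀ w : Finset α, (if s ⊆ w ∧ w.card = a + k ∧ g ∉ w then
            cc l k * up p s (insert g w) else 0) =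
            (if g ∉ w then (if insert g s ⊆ insert g w ∧
              (insert g w).card = (insert g s).card + k then
              cc l k * up p s (insert g w) else 0) else 0) := by
          intro w
          by_cases hgw : g ∉ w
          · rw [if_pos hgw]
            have e1 : (insert g s ⊆ insert g w ∧ (insert g w).card = (insert g s).card + k) ↔
                (s ⊆ w ∧ w.card = a + k ∧ g ∉ w) := by
              rw [card_insert_of_notMem hgw, card_insert_of_notMem hg, hsa,
                insert_subset_insert_iff hg]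
              constructor
              · rintro ⟨h2, h3⟩; exact ⟨h2, by omega, hgw⟩
              · rintro ⟨h2, h3, _⟩; exact ⟨h2, by omega⟩
            by_cases hh : s ⊆ w ∧ w.card = a + k ∧ g ∉ w
            · rw [if_pos hh, if_pos (e1.2 hh)]
            · rw [if_neg hh, if_neg (fun hx => hh (e1.1 hx))]
          · rw [if_neg hgw, if_neg (fun hx => hgw hx.2.2)]
        simp_rw [h1]
        rw [← reindexN g (fun z => if insert g s ⊆ z ∧ z.card = (insert g s).card + k then
          cc l k * up p s z else 0)]
        have h2 : ∀ z : Finset α, (if g ∈ z then (if insert g s ⊆ z ∧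
            z.card = (insert g s).card + k then cc l k * up p s z else 0) else 0) =
            cc l k * (if insert g s ⊆ z ∧ z.card = (insert g s).card + k then up p s z else 0) := by
          intro z
          by_cases hh : insert g s ⊆ z ∧ z.card = (insert g s).card + k
          · rw [if_pos hh, if_pos hh, if_pos (hh.1 (mem_insert_self _ _))]
          · rw [if_neg hh, if_neg hh]; simp
        simp_rw [h2]
        rw [← mul_sum, h.sum_up, card_insert_of_notMem hg, hsa]
        have h3 : a + l - (a + 1) = l - 1 := by omega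
        rw [h3, ← mul_assoc, cc_choose hk]
    · have h0 : ∀ z, up p s z = 0 := by
        intro z
        by_contra hc
        exact hsa (h.up_supp hc).2.1
      unfold fu
      rw [if_neg (by rintro ⟨h1, _⟩; exact hsa (by omega))]
      apply sum_eq_zero
      intro w _
      rw [h0]
      simp
  · intro s w g
    unfold Fv fu
    by_cases hc : w.card = a + k
    · by_cases hs : s ⊆ w
      · by_cases hg : g ∉ w
        · rw [if_pos ⟨hs, hc, hg⟩, if_pos hc, if_pos ⟨hs, hc⟩, if_pos ⟨hc, hg⟩]
          have := h.exch_up hs (subset_insert g w)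
          calc cc l k * up p s (insert g w) * (kc l k * pw p w w)
              = cc l k * kc l k * (up p s (insert g w) * pw p w w) := by ring
            _ = cc l k * kc l k * (up p s w * pw p w (insert g w)) := by rw [this]
            _ = _ := by ring
        · simp [hg]
      · simp [hs]
    · simp [hc]
  · intro s w
    split_ifs
    · exact mul_nonneg (kc_nonneg _ _) (h.up_nonneg _ _)
    · exact le_refl _
  · intro s
    by_cases hsa : s.card = a
    · have h1 : ∀ w : Finset α, (if s ⊆ w ∧ w.card = a + k then kc l k * up p s w else 0) =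
          kc l k * (if s ⊆ w ∧ w.card = s.card + k then up p s w else 0) := by
        intro w
        rw [hsa]
        split_ifs <;> ring
      simp_rw [h1]
      rw [← mul_sum, h.sum_up, hsa, Nat.add_sub_cancel_left, ← mul_assoc, kc_choose hk.le, one_mul]
      exact h.up_le_one s s
    · have h0 : ∀ z, up p s z = 0 := by
        intro z
        by_contra hc
        exact hsa (h.up_supp hc).2.1
      have : ∑ w : Finset α, (if s ⊆ w ∧ w.card = a + k then kc l k * up p s w else 0) = 0 := by
        apply sum_eq_zero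
        intro w _
        rw [h0]
        simp
      rw [this]
      norm_num

theorem backward (h : Coup a (a + l) S T p) {k : ℕ} (hk : k < l) (U : Finset (Finset α)) :
    En p a l 0 - La p a l 1 +
      ∑ v ∈ U, Fv p a l 1 v * (Real.log ((k : ℝ) + 1) - Real.log (dg S v)) ≤
      En p a l k - La p a l (k + 1) := by
  have hl : 0 < l := by omega
  unfold En La
  rw [layer_reindex _ _ _ _ _ Real.negMulLog_zero, layer_reindex _ _ _ _ _ Real.negMulLog_zero,
    ← sum_sub_distrib, ← sum_sub_distrib]
  refine entropy_backward (fun v g z => if g ∈ v ∧ v ⊆ z ∧ v.card = a + 1 ∧ z.card = a + k + 1 then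
      cc l k * up p (v.erase g) z else 0) (fd p a l 0) (fd p a l k) (Fv p a l 1)
      (Fv p a l (k + 1)) (fun v z => if v ⊆ z ∧ v.card = a + 1 ∧ z.card = a + k + 1 then
      cc l k * pw p v z else 0) ((k : ℝ) + 1) (fun v => dg S v) U ?_ ?_ ?_ (sum_fd h hl)
      (sum_fd h hk) ?_ ?_ (by positivity) ?_ ?_
  · intro v g z
    split_ifs
    · exact mul_nonneg (cc_nonneg _ _) (h.up_nonneg _ _)
    · exact le_refl _
  · intro v g
    unfold fd
    by_cases hc : v.card = a + 0 + 1 ∧ g ∈ v
    · have hva : v.card = a + 1 := by omega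
      have hea : (v.erase g).card = a := by rw [card_erase_of_mem hc.2]; omega
      rw [if_pos hc, h.pw_eq_up hea, cc_zero]
      have h1 : ∀ z : Finset α, (if g ∈ v ∧ v ⊆ z ∧ v.card = a + 1 ∧ z.card = a + k + 1 then
          cc l k * up p (v.erase g) z else 0) =
          cc l k * (if v ⊆ z ∧ z.card = v.card + k then up p (v.erase g) z else 0) := by
        intro z
        by_cases hh : v ⊆ z ∧ z.card = v.card + k
        · rw [if_pos hh, if_pos ⟨hc.2, hh.1, hva, by omega⟩]
        · rw [if_neg hh, if_neg (fun hx => hh ⟨hx.2.1, by omega⟩)]; ring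
      simp_rw [h1]
      rw [← mul_sum, h.sum_up, hva]
      have h3 : a + l - (a + 1) = l - 1 := by omega
      rw [h3, ← mul_assoc, cc_choose hk]
    · rw [if_neg hc]
      apply sum_eq_zero
      intro z _
      rw [if_neg]
      rintro ⟨h1, _, h3, _⟩
      exact hc ⟨by omega, h1⟩
  · intro z g
    have h1 : ∀ v : Finset α, (if g ∈ v ∧ v ⊆ z ∧ v.card = a + 1 ∧ z.card = a + k + 1 then
        cc l k * up p (v.erase g) z else 0) =
        (if g ∈ v then (if v ⊆ z ∧ v.card = a + 1 ∧ z.card = a + k + 1 then
        cc l k * up p (v.erase g) z else 0) else 0) := by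
      intro v
      by_cases hg : g ∈ v
      · simp [hg]
      · simp [hg]
    simp_rw [h1]
    rw [reindexN g (fun v => if v ⊆ z ∧ v.card = a + 1 ∧ z.card = a + k + 1 then
        cc l k * up p (v.erase g) z else 0)]
    unfold fd pw
    by_cases hc : z.card = a + k + 1 ∧ g ∈ z
    · rw [if_pos hc, mul_sum]
      refine sum_congr rfl (fun s _ => ?_)
      by_cases hg : g ∉ s
      · rw [if_pos hg, erase_insert hg, card_insert_of_notMem hg]
        by_cases hs : s ⊆ z.erase g
        · rw [if_pos hs]
          by_cases hu : up p s z = 0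
          · rw [hu]; simp
          · have hsa := (h.up_supp hu).2.1
            rw [if_pos ⟨insert_subset hc.2 (hs.trans (erase_subset _ _)), by omega, hc.1⟩]
        · rw [if_neg hs, if_neg, mul_zero]
          rintro ⟨h2, _⟩
          apply hs
          intro y hy
          rw [mem_erase]
          refine ⟨?_, h2 (mem_insert_of_mem hy)⟩
          rintro rfl
          exact hg hy
      · rw [if_neg hg, if_neg, mul_zero]
        intro hs
        push Not at hg
        exact (mem_erase.1 (hs hg)).1 rfl
    · rw [if_neg hc]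
      apply sum_eq_zero
      intro s _
      by_cases hg : g ∉ s
      · rw [if_pos hg, if_neg]
        rintro ⟨h2, _, h3⟩
        exact hc ⟨h3, h2 (mem_insert_self _ _)⟩
      · rw [if_neg hg]
  · intro v z
    by_cases hc : v ⊆ z ∧ v.card = a + 1 ∧ z.card = a + k + 1
    · rw [if_pos hc]
      have h1 : ∀ g, (if g ∈ v ∧ v ⊆ z ∧ v.card = a + 1 ∧ z.card = a + k + 1 then
          cc l k * up p (v.erase g) z else 0) =
          cc l k * (if g ∈ v then pw p (v.erase g) z else 0) := by
        intro g
        by_cases hg : g ∈ v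
        · have hea : (v.erase g).card = a := by rw [card_erase_of_mem hg]; omega
          rw [if_pos ⟨hg, hc⟩, if_pos hg, h.pw_eq_up hea]
        · simp [hg]
      simp_rw [h1]
      rw [← mul_sum, h.sum_pw_down, hc.2.1]
      push_cast
      ring
    · rw [if_neg hc]
      apply sum_eq_zero
      intro g _
      rw [if_neg (fun hx => hc hx.2)]
  · intro v g z
    unfold Fv fd
    by_cases hg : g ∈ v
    · by_cases hc : v ⊆ z ∧ v.card = a + 1 ∧ z.card = a + k + 1
      · have hea : (v.erase g).card = a := by rw [card_erase_of_mem hg]; omega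
        rw [if_pos ⟨hg, hc⟩, if_pos hc.2.1, if_pos ⟨by omega, hg⟩, if_pos hc, h.pw_eq_up hea,
          cc_zero, kc_one]
        have := h.exch_up (erase_subset g v) hc.1
        calc cc l k * up p (v.erase g) z * (1 / ↑l * pw p v v)
            = cc l k * (1 / ↑l) * (up p (v.erase g) z * pw p v v) := by ring
          _ = cc l k * (1 / ↑l) * (up p (v.erase g) v * pw p v z) := by rw [this]
          _ = _ := by ring
      · simp [hc]
    · simp [hg]
  · intro z g
    unfold Fv fd
    by_cases hc : z.card = a + k + 1 ∧ g ∈ z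
    · rw [if_pos hc, if_pos (by omega), ← cc_down hk]
      have := h.pw_mono (erase_subset g z) z
      have h2 := cc_nonneg l k
      have h3 : (0 : ℝ) ≤ (k : ℝ) + 1 := by positivity
      nlinarith [mul_le_mul_of_nonneg_left this (mul_nonneg h3 h2)]
    · rw [if_neg hc, zero_mul]
      split_ifs
      · exact mul_nonneg (kc_nonneg _ _) (h.pw_nonneg _ _)
      · exact le_refl _
  · intro v _
    unfold dg
    apply card_le_card
    intro g hg
    simp only [mem_filter, mem_univ, true_and] at hg ⊢
    unfold fd at hg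
    by_cases hc : v.card = a + 0 + 1 ∧ g ∈ v
    · rw [if_pos hc] at hg
      have hea : (v.erase g).card = a := by rw [card_erase_of_mem hc.2]; omega
      rw [h.pw_eq_up hea] at hg
      exact ⟨hc.2, (h.up_supp (right_ne_zero_of_mul hg)).1⟩
    · rw [if_neg hc] at hg
      exact absurd rfl hg

theorem Fv_zero (h : Coup a (a + l) S T p) (v : Finset α) :
    Fv p a l 0 v = if v ∈ S then 1 else 0 := by
  unfold Fv
  by_cases hv : v ∈ S
  · rw [if_pos hv]
    have hc : v.card = a := by
      have h1 := h.row v hv
      obtain ⟨t, _, ht⟩ := exists_ne_zero_of_sum_ne_zero (s := univ) (f := fun t => p v t)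
        (by rw [h1]; norm_num)
      exact (h.supp v t ht).2.2.2.1
    rw [if_pos (by omega), h.pw_eq_up hc]
    have : up p v v = 1 := by
      rw [← h.row v hv]
      unfold up
      refine sum_congr rfl (fun t _ => ?_)
      by_cases ht : v ⊆ t
      · rw [if_pos ht]
      · rw [if_neg ht]
        by_contra hne
        exact ht (h.supp v t (Ne.symm hne)).2.2.1
    rw [this]
    simp [kc]
  · rw [if_neg hv]
    split_ifs with hc
    · rw [h.pw_eq_up (by omega)]
      have : up p v v = 0 := by
        by_contra hne
        exact hv (h.up_supp hne).1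
      rw [this, mul_zero]
    · rfl

theorem Fv_last (h : Coup a (a + l) S T p) (v : Finset α) :
    Fv p a l l v = if v ∈ T then 1 else 0 := by
  unfold Fv
  have hpw : v.card = a + l → pw p v v = ∑ s, p s v := by
    intro hc
    unfold pw
    refine sum_congr rfl (fun s _ => ?_)
    have h1 : up p s v = p s v := by
      unfold up
      rw [sum_eq_single v]
      · simp
      · intro t _ hne
        by_cases ht : v ⊆ t
        · rw [if_pos ht]
          by_contra h0
          have := (h.supp s t h0).2.2.2.2
          exact hne (eq_of_subset_of_card_le ht (by omega)).symm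
        · rw [if_neg ht]
      · intro hh; exact absurd (mem_univ _) hh
    rw [h1]
    by_cases hs : s ⊆ v
    · rw [if_pos hs]
    · rw [if_neg hs]
      by_contra h0
      exact hs (h.supp s v (Ne.symm h0)).2.2.1
  by_cases hv : v ∈ T
  · rw [if_pos hv]
    have hc : v.card = a + l := by
      have h1 := h.col v hv
      obtain ⟨s, _, hs⟩ := exists_ne_zero_of_sum_ne_zero (s := univ) (f := fun s => p s v)
        (by rw [h1]; norm_num)
      exact (h.supp s v hs).2.2.2.2
    rw [if_pos hc, hpw hc, h.col v hv]
    simp [kc]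
  · rw [if_neg hv]
    split_ifs with hc
    · rw [hpw hc]
      have : ∑ s, p s v = 0 := by
        apply sum_eq_zero
        intro s _
        by_contra hne
        exact hv (h.supp s v hne).2.1
      rw [this, mul_zero]
    · rfl

theorem La_zero (h : Coup a (a + l) S T p) : La p a l 0 = 0 := by
  unfold La
  apply sum_eq_zero
  intro v _
  rw [Fv_zero h]
  split_ifs <;> simp

theorem La_last (h : Coup a (a + l) S T p) : La p a l l = 0 := by
  unfold La
  apply sum_eq_zero
  intro v _
  rw [Fv_last h]
  split_ifs <;> simp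

theorem Fv_nonneg (h : Coup a (a + l) S T p) (k : ℕ) (v : Finset α) : 0 ≤ Fv p a l k v := by
  unfold Fv
  split_ifs
  · exact mul_nonneg (kc_nonneg _ _) (h.pw_nonneg _ _)
  · exact le_refl _

theorem log_factorial_ge (l : ℕ) (hl : 0 < l) :
    (l : ℝ) * Real.log l - l ≤ ∑ k ∈ range l, Real.log ((k : ℝ) + 1) := by
  have h1 : ∑ k ∈ range l, Real.log ((k : ℝ) + 1) = Real.log (l.factorial : ℝ) := by
    rw [← Real.log_prod (by intro k _; positivity)]
    congr 1
    rw [← prod_range_add_one_eq_factorial]
    push_cast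
    rfl
  have h2 := Real.pow_div_factorial_le_exp (l : ℝ) (by positivity) l
  have hl' : (0 : ℝ) < l := by exact_mod_cast hl
  have h3 := Real.log_le_log (by positivity) h2
  rw [Real.log_exp, Real.log_div (by positivity) (by positivity), Real.log_pow] at h3
  rw [h1]
  linarith

theorem La_one_ge (h : Coup a (a + l) S T p) (hl : 0 < l) (U : Finset (Finset α)) :
    ∑ v ∈ U, Fv p a l 1 v * (Real.log l - 1 - Real.log (dg S v)) ≤ La p a l 1 := by
  have h1 : ∀ k ∈ range l, La p a l (k + 1) - La p a l k ≤
      La p a l 1 - ∑ v ∈ U, Fv p a l 1 v * (Real.log ((k : ℝ) + 1) - Real.log (dg S v)) := by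
    intro k hk
    have hk' := mem_range.1 hk
    have a1 := forward h hk'
    have a2 := backward h hk' U
    linarith
  have h2 := sum_le_sum h1
  rw [sum_range_sub, La_zero h, La_last h, sum_sub_distrib, sum_const, card_range, nsmul_eq_mul,
    sum_comm] at h2
  have h3 : ∀ v ∈ U, Fv p a l 1 v * ((l : ℝ) * (Real.log l - 1 - Real.log (dg S v))) ≤
      ∑ k ∈ range l, Fv p a l 1 v * (Real.log ((k : ℝ) + 1) - Real.log (dg S v)) := by
    intro v _
    rw [← mul_sum, sum_sub_distrib, sum_const, card_range, nsmul_eq_mul]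
    apply mul_le_mul_of_nonneg_left _ (Fv_nonneg h 1 v)
    have := log_factorial_ge l hl
    linarith
  have h4 := sum_le_sum h3
  have h5 : ∑ v ∈ U, Fv p a l 1 v * ((l : ℝ) * (Real.log l - 1 - Real.log (dg S v))) =
      l * ∑ v ∈ U, Fv p a l 1 v * (Real.log l - 1 - Real.log (dg S v)) := by
    rw [mul_sum]
    refine sum_congr rfl (fun v _ => ?_)
    ring
  rw [h5] at h4
  have hl' : (0 : ℝ) < l := by exact_mod_cast hl
  have h6 : (l : ℝ) * ∑ v ∈ U, Fv p a l 1 v * (Real.log l - 1 - Real.log (dg S v)) ≤
      l * La p a l 1 := by linarith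
  exact le_of_mul_le_mul_left h6 hl'

theorem sum_Fv_one (h : Coup a (a + l) S T p) (hl : 0 < l) :
    ∑ v, Fv p a l 1 v = S.card := by
  have h1 : ∑ v, Fv p a l 1 v = ∑ v, ∑ g, fd p a l 0 v g :=
    sum_congr rfl (fun v _ => (sum_fd h hl v).symm)
  rw [h1]
  have h2 := layer_reindex p a l 0 (fun x => x) rfl
  rw [← h2]
  have h3 : ∑ w, ∑ g, fu p a l 0 w g = ∑ w, Fv p a l 0 w :=
    sum_congr rfl (fun w _ => sum_fu h hl w)
  rw [h3]
  simp_rw [Fv_zero h]
  simp

theorem Fv_one_le (h : Coup a (a + l) S T p) (hl : 0 < l) (v : Finset α) :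
    Fv p a l 1 v ≤ dg S v / l := by
  have hl' : (0 : ℝ) < l := by exact_mod_cast hl
  rw [← sum_fd h hl v]
  have h1 : ∀ g, fd p a l 0 v g ≤ if g ∈ v ∧ v.erase g ∈ S then 1 / (l : ℝ) else 0 := by
    intro g
    unfold fd
    by_cases hc : v.card = a + 0 + 1 ∧ g ∈ v
    · have hea : (v.erase g).card = a := by rw [card_erase_of_mem hc.2]; omega
      rw [if_pos hc, h.pw_eq_up hea, cc_zero]
      by_cases hS : v.erase g ∈ S
      · rw [if_pos ⟨hc.2, hS⟩]
        have := h.up_le_one (v.erase g) v
        have h2 : (0 : ℝ) ≤ 1 / l := by positivity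
        nlinarith
      · rw [if_neg (fun hx => hS hx.2)]
        have : up p (v.erase g) v = 0 := by
          by_contra hne
          exact hS (h.up_supp hne).1
        rw [this, mul_zero]
    · rw [if_neg hc]
      split_ifs
      · positivity
      · exact le_refl _
  refine (sum_le_sum (fun g _ => h1 g)).trans (le_of_eq ?_)
  rw [← sum_filter, sum_const, nsmul_eq_mul]
  have : (univ.filter (fun g => g ∈ v ∧ v.erase g ∈ S)).card = dg S v := by
    unfold dg
    congr 1
    ext g
    simp
  rw [this]
  ring

/-- **First layer theorem.** -/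
theorem first_layer {q : ℕ} {φ : Finset α → Finset α} (hq : 1 ≤ q) (hl : 2 * q ≤ l)
    (hm : Mat a (a + l) S φ) (L : Finset (Finset α))
    (hL : ∀ v : Finset α, v.card = a + 1 → (∃ s ∈ S, v ⊆ φ s) → v ∈ L) :
    q * S.card ≤ ∑ v ∈ L, min q (dg S v) := by
  have hl0 : 0 < l := by omega
  have hlR : (0 : ℝ) < l := by exact_mod_cast hl0
  have hqR : (0 : ℝ) < q := by exact_mod_cast (by omega : 0 < q)
  have hlq : 2 * (q : ℝ) ≤ l := by exact_mod_cast hl
  obtain ⟨p, h⟩ := exists_coup hm
  have hU := La_one_ge h hl0 (univ.filter (fun v => dg S v < q))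
  have hsum := sum_Fv_one h hl0
  have key : ∀ v, Fv p a l 1 v + Real.negMulLog (Fv p a l 1 v) -
      (if dg S v < q then Fv p a l 1 v * (Real.log l - 1 - Real.log (dg S v)) else 0) ≤
      if v ∈ L then (min q (dg S v) : ℕ) / (q : ℝ) else 0 := by
    intro v
    have hnn : (0 : ℝ) ≤ if v ∈ L then (min q (dg S v) : ℕ) / (q : ℝ) else 0 := by
      split_ifs <;> positivity
    rcases eq_or_lt_of_le (Fv_nonneg h 1 v) with h0 | h0
    · rw [← h0]
      simpa using hnn
    · have hle := Fv_one_le h hl0 v
      have hn : 0 < dg S v := by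
        by_contra hc
        have : dg S v = 0 := by omega
        rw [this] at hle
        simp at hle
        linarith
      have hnR : (0 : ℝ) < dg S v := by exact_mod_cast hn
      have hvL : v ∈ L := by
        have hne := h0.ne'
        unfold Fv at hne
        by_cases hc : v.card = a + 1
        · apply hL v hc
          rw [if_pos hc] at hne
          have h1 := right_ne_zero_of_mul hne
          unfold pw at h1
          obtain ⟨s, _, hs⟩ := exists_ne_zero_of_sum_ne_zero h1
          have h2 : up p s v ≠ 0 := by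
            intro hx
            rw [hx] at hs
            simp at hs
          obtain ⟨_, _, t, ht, hvt, _⟩ := h.up_supp h2
          obtain ⟨s', hs', rfl⟩ := mem_image.1 ht
          exact ⟨s', hs', hvt⟩
        · rw [if_neg hc] at hne
          exact absurd rfl hne
      rw [if_pos hvL]
      set F := Fv p a l 1 v with hF
      by_cases hU' : dg S v < q
      · rw [if_pos hU', min_eq_right hU'.le]
        have p1 := Real.log_le_sub_one_of_pos (x := dg S v / (l * F)) (by positivity)
        rw [Real.log_div (by positivity) (by positivity), Real.log_mul (by positivity)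
          (by positivity)] at p1
        have p2 := mul_le_mul_of_nonneg_left p1 h0.le
        have p3 : F * (dg S v / (l * F) - 1) = dg S v / l - F := by
          field_simp
        have p4 : F + Real.negMulLog F - F * (Real.log l - 1 - Real.log (dg S v)) ≤
            2 * (dg S v / l) := by
          rw [Real.negMulLog]
          nlinarith
        refine p4.trans ?_
        rw [mul_div_assoc', div_le_div_iff₀ hlR hqR]
        nlinarith
      · rw [if_neg hU', min_eq_left (by omega), div_self hqR.ne']
        have p1 := Real.log_le_sub_one_of_pos (x := 1 / F) (by positivity)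
        rw [Real.log_div (by norm_num) (by positivity), Real.log_one] at p1
        have p2 := mul_le_mul_of_nonneg_left p1 h0.le
        have p3 : F * (1 / F - 1) = 1 - F := by field_simp
        rw [Real.negMulLog]
        nlinarith
  have hfin := sum_le_sum (fun v (_ : v ∈ (univ : Finset (Finset α))) => key v)
  rw [sum_sub_distrib, sum_add_distrib, hsum, ← sum_filter] at hfin
  have hLa : ∑ v, Real.negMulLog (Fv p a l 1 v) = La p a l 1 := rfl
  rw [hLa] at hfin
  have h1 : ∑ v, (if v ∈ L then (min q (dg S v) : ℕ) / (q : ℝ) else 0) =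
      (∑ v ∈ L, ((min q (dg S v) : ℕ) : ℝ)) / q := by
    rw [sum_div, ← sum_filter]
    refine sum_congr ?_ (fun _ _ => rfl)
    ext v; simp
  rw [h1] at hfin
  have h2 : (S.card : ℝ) ≤ (∑ v ∈ L, ((min q (dg S v) : ℕ) : ℝ)) / q := by linarith
  rw [le_div_iff₀ hqR] at h2
  have h3 : ((q * S.card : ℕ) : ℝ) ≤ ((∑ v ∈ L, min q (dg S v) : ℕ) : ℝ) := by
    push_cast
    push_cast at h2
    linarith
  exact_mod_cast h3

end MP_8b6acb_co
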