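import Mathlib
import Pool.Agent.Work.MP_8b6acb_co.Layer
import Pool.Agent.Work.MP_8b6acb_co.Step

/-! Weighted cuts below the targets, and the push lemma. -/

set_option linter.unusedSectionVars false

namespace MP_8b6acb_co

open Finset

variable {α : Type*} [Fintype α] [DecidableEq α]

/-- The weighted cost of the cut `A` below `T`. -/
def tc (K : ℕ) (R : ℕ → ℕ) (a b : ℕ) (T A : Finset (Finset α)) : ℕ :=
  ∑ v : Finset α, if (a < v.card ∧ v.card ≤ b) ∧ v ∉ A ∧ (∃ t ∈ T, v ⊆ t) then
    min K (R v.card * dg A v) else 0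

variable (α) in
/-- The weighted cut condition. -/
def TClaim (K : ℕ) (R : ℕ → ℕ) (a b : ℕ) : Prop :=
  ∀ (S : Finset (Finset α)) (φ : Finset α → Finset α), Mat a b S φ →
    ∀ A : Finset (Finset α), S ⊆ A → (∀ u ∈ A, u.card < b) →
      K * S.card ≤ tc K R a b (S.image φ) A

/-- A set of maximal deficiency splits the targets. -/
theorem deficiency (T Y : Finset (Finset α)) : ∃ T0 ⊆ T,
    (∃ ψ : Finset α → Finset α, Set.InjOn ψ (Y.filter (fun y => ∃ t ∈ T0, y ⊆ t)) ∧
      ∀ y ∈ Y.filter (fun y => ∃ t ∈ T0, y ⊆ t), ψ y ∈ T0 ∧ y ⊆ ψ y) ∧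
    (∃ η : Finset α → Finset α, Set.InjOn η ((T \ T0 : Finset (Finset α)) : Set (Finset α)) ∧
      ∀ t ∈ T \ T0, η t ∈ Y \ Y.filter (fun y => ∃ t ∈ T0, y ⊆ t) ∧ η t ⊆ t) := by
  classical
  let nb : Finset (Finset α) → Finset (Finset α) := fun T0 => Y.filter (fun y => ∃ t ∈ T0, y ⊆ t)
  obtain ⟨T0, hT0, hmin⟩ := Finset.exists_min_image T.powerset
    (fun T0 => (nb T0).card + (T \ T0).card) ⟨∅, by simp⟩
  rw [mem_powerset] at hT0
  have hmin' : ∀ T' ⊆ T, (nb T0).card + (T \ T0).card ≤ (nb T').card + (T \ T').card :=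
    fun T' hT' => hmin T' (mem_powerset.2 hT')
  refine ⟨T0, hT0, ?_, ?_⟩
  · obtain ⟨F, hF1, hF2⟩ := hall_on (nb T0) (fun y => T0.filter (fun t => y ⊆ t)) (by
      intro Y' hY'
      have h1 := hmin' (T0 \ Y'.biUnion (fun y => T0.filter (fun t => y ⊆ t)))
        (sdiff_subset.trans hT0)
      have h2 : nb (T0 \ Y'.biUnion (fun y => T0.filter (fun t => y ⊆ t))) ⊆ nb T0 \ Y' := by
        intro y hy
        simp only [nb, mem_filter, mem_sdiff, mem_biUnion] at hy ⊢
        obtain ⟨hyY, t, ⟨htT, hn⟩, hyt⟩ := hy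
        refine ⟨⟨hyY, t, htT, hyt⟩, fun hyY' => hn ⟨y, hyY', htT, hyt⟩⟩
      have h3 := card_le_card h2
      rw [card_sdiff_of_subset hY'] at h3
      have h4 := card_le_card hY'
      set N := Y'.biUnion (fun y => T0.filter (fun t => y ⊆ t)) with hN
      have hNT : N ⊆ T0 := by
        intro t ht
        rw [hN, mem_biUnion] at ht
        obtain ⟨y, _, hy⟩ := ht
        exact (mem_filter.1 hy).1
      have h5 : (T \ (T0 \ N)).card = (T \ T0).card + N.card := by
        have h6 : (T0 \ N).card = T0.card - N.card := card_sdiff_of_subset hNT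
        have h7 := card_le_card hNT
        have h8 := card_le_card hT0
        rw [card_sdiff_of_subset (sdiff_subset.trans hT0), card_sdiff_of_subset hT0]
        omega
      omega)
    refine ⟨F, hF1, ?_⟩
    intro y hy
    have := hF2 y hy
    exact mem_filter.1 this
  · obtain ⟨F, hF1, hF2⟩ := hall_on (T \ T0) (fun t => (Y \ nb T0).filter (fun y => y ⊆ t)) (by
      intro T' hT'
      have h1 := hmin' (T0 ∪ T') (union_subset hT0 (hT'.trans sdiff_subset))
      have hdis : Disjoint T0 T' := by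
        rw [Finset.disjoint_left]
        intro t ht ht'
        exact (mem_sdiff.1 (hT' ht')).2 ht
      have h2 : nb (T0 ∪ T') ⊆ nb T0 ∪ T'.biUnion (fun t => (Y \ nb T0).filter (fun y => y ⊆ t)) := by
        intro y hy
        by_cases hy0 : y ∈ nb T0
        · exact mem_union_left _ hy0
        · apply mem_union_right
          simp only [nb, mem_filter, mem_union] at hy
          obtain ⟨hyY, t, ht, hyt⟩ := hy
          rw [mem_biUnion]
          refine ⟨t, ?_, ?_⟩
          · rcases ht with h | h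
            · exact absurd (by simp only [nb, mem_filter]; exact ⟨hyY, t, h, hyt⟩) hy0
            · exact h
          · rw [mem_filter, mem_sdiff]
            exact ⟨⟨hyY, hy0⟩, hyt⟩
      have h3 := (card_le_card h2).trans (card_union_le _ _)
      have h4 : (T \ (T0 ∪ T')).card + T'.card = (T \ T0).card := by
        have h6 := card_le_card hT'
        have h7 : T \ (T0 ∪ T') = (T \ T0) \ T' := by
          rw [sdiff_sdiff_left]
          rfl
        rw [h7, card_sdiff_of_subset hT']
        omega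
      omega)
    refine ⟨F, hF1, ?_⟩
    intro t ht
    have := hF2 t ht
    exact mem_filter.1 this

/-- The push lemma. -/
theorem push {K : ℕ} {R : ℕ → ℕ} {a b h : ℕ} {S A : Finset (Finset α)} {φ : Finset α → Finset α}
    (hah : a < h) (hhb : h < b) (hm : Mat a b S φ)
    (h1 : ∀ S0 ⊆ S, K * S0.card ≤ tc K R a b (S0.image φ) (A.filter (fun u => u.card < h)))
    (h2 : ∀ (Y : Finset (Finset α)) (ψ : Finset α → Finset α), Mat h b Y ψ → Y ⊆ A →
      K * Y.card ≤ tc K R h b (Y.image ψ) A) :
    K * S.card ≤ tc K R a b (S.image φ) A := by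
  classical
  set T := S.image φ with hT
  set Y := A.filter (fun u => u.card = h) with hY
  obtain ⟨T0, hT0, ⟨ψ, hψ1, hψ2⟩, ⟨η, hη1, hη2⟩⟩ := deficiency T Y
  set Y0 := Y.filter (fun y => ∃ t ∈ T0, y ⊆ t) with hY0
  have hTcard : ∀ t ∈ T, t.card = b := by
    intro t ht
    rw [hT, mem_image] at ht
    obtain ⟨s, hs, rfl⟩ := ht
    exact hm.cT s hs
  -- sources of `T0`
  obtain ⟨S0, hS0S, hS0im⟩ : ∃ S0 ⊆ S, S0.image φ = T0 := by
    refine ⟨S.filter (fun s => φ s ∈ T0), filter_subset _ _, ?_⟩
    ext t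
    simp only [mem_image, mem_filter]
    constructor
    · rintro ⟨s, ⟨_, h3⟩, rfl⟩; exact h3
    · intro ht
      have := hT0 ht
      rw [hT, mem_image] at this
      obtain ⟨s, hs, rfl⟩ := this
      exact ⟨s, ⟨hs, ht⟩, rfl⟩
  have hS0card : S0.card = T0.card := by
    rw [← hS0im, card_image_of_injOn (hm.inj.mono (by exact_mod_cast hS0S))]
  have hScard : S.card = T.card := by
    rw [hT, card_image_of_injOn hm.inj]
  have c1 := h1 S0 hS0S
  rw [hS0im, hS0card] at c1
  -- low part
  have low : K * T0.card ≤ (∑ v : Finset α, if (a < v.card ∧ v.card ≤ h) ∧ v ∉ A ∧ (∃ t ∈ T, v ⊆ t)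
      then min K (R v.card * dg A v) else 0) + K * Y0.card := by
    refine c1.trans ?_
    unfold tc
    have hY0s : K * Y0.card = ∑ v : Finset α, if v ∈ Y0 then K else 0 := by
      rw [sum_ite_mem, univ_inter, sum_const, smul_eq_mul, mul_comm]
    rw [hY0s, ← sum_add_distrib]
    refine sum_le_sum (fun v _ => ?_)
    by_cases hc : (a < v.card ∧ v.card ≤ b) ∧ v ∉ A.filter (fun u => u.card < h) ∧ ∃ t ∈ T0, v ⊆ t
    · rw [if_pos hc]
      obtain ⟨⟨hc1, hc2⟩, hc3, t, ht, hvt⟩ := hc
      by_cases hvh : v.card ≤ h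
      · by_cases hvA : v ∈ A
        · have hvc : v.card = h := by
            by_contra hne
            exact hc3 (mem_filter.2 ⟨hvA, by omega⟩)
          have : v ∈ Y0 := by
            rw [hY0, mem_filter, hY, mem_filter]
            exact ⟨⟨hvA, hvc⟩, t, ht, hvt⟩
          rw [if_pos this]
          exact (min_le_left _ _).trans (Nat.le_add_left _ _)
        · rw [if_pos ⟨⟨hc1, hvh⟩, hvA, t, hT0 ht, hvt⟩]
          refine le_trans ?_ (Nat.le_add_right _ _)
          apply min_le_min_left
          apply Nat.mul_le_mul_left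
          unfold dg
          apply card_le_card
          intro x hx
          rw [mem_filter] at hx ⊢
          exact ⟨hx.1, (mem_filter.1 hx.2).1⟩
      · have hz : dg (A.filter (fun u => u.card < h)) v = 0 := by
          apply dg_eq_zero
          intro x hx hmem
          have := (mem_filter.1 hmem).2
          rw [card_erase_of_mem hx] at this
          omega
        rw [hz]
        simp
    · rw [if_neg hc]
      exact Nat.zero_le _
  -- high part
  have high : K * (Y0.card + (T \ T0).card) ≤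
      ∑ v : Finset α, if (h < v.card ∧ v.card ≤ b) ∧ v ∉ A ∧ (∃ t ∈ T, v ⊆ t)
      then min K (R v.card * dg A v) else 0 := by
    -- the combined matching
    set T1 := T \ T0 with hT1
    set Y1 := T1.image η with hY1
    have hY1sub : ∀ y ∈ Y1, y ∈ Y \ Y0 := by
      intro y hy
      rw [hY1, mem_image] at hy
      obtain ⟨t, ht, rfl⟩ := hy
      exact (hη2 t ht).1
    have hdis : Disjoint Y0 Y1 := by
      rw [Finset.disjoint_left]
      intro y hy hy1
      exact (mem_sdiff.1 (hY1sub y hy1)).2 hy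
    obtain ⟨inv, hinv⟩ : ∃ inv : Finset α → Finset α, ∀ y ∈ Y1, inv y ∈ T1 ∧ η (inv y) = y := by
      have : ∀ y ∈ Y1, ∃ t ∈ T1, η t = y := by
        intro y hy
        rw [hY1, mem_image] at hy
        exact hy
      choose! f hf using this
      exact ⟨f, hf⟩
    let χ : Finset α → Finset α := fun y => if y ∈ Y0 then ψ y else inv y
    have hχ0 : ∀ y ∈ Y0, χ y = ψ y := fun y hy => if_pos hy
    have hχ1 : ∀ y ∈ Y1, χ y = inv y := fun y hy =>
      if_neg (fun hy0 => Finset.disjoint_left.1 hdis hy0 hy)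
    have hmat : Mat h b (Y0 ∪ Y1) χ := by
      refine ⟨?_, ?_, ?_, ?_⟩
      · intro y hy
        rcases mem_union.1 hy with h3 | h3
        · exact (mem_filter.1 (mem_filter.1 h3).1).2
        · exact (mem_filter.1 (mem_sdiff.1 (hY1sub y h3)).1).2
      · intro y hy
        rcases mem_union.1 hy with h3 | h3
        · rw [hχ0 y h3]
          exact hTcard _ (hT0 (hψ2 y h3).1)
        · rw [hχ1 y h3]
          exact hTcard _ (mem_sdiff.1 (hinv y h3).1).1
      · intro y hy y' hy' he
        rcases mem_union.1 (mem_coe.1 hy) with h3 | h3 <;>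
        rcases mem_union.1 (mem_coe.1 hy') with h4 | h4
        · rw [hχ0 y h3, hχ0 y' h4] at he
          exact hψ1 (mem_coe.2 h3) (mem_coe.2 h4) he
        · rw [hχ0 y h3, hχ1 y' h4] at he
          have e1 := (hψ2 y h3).1
          have e2 := (hinv y' h4).1
          rw [he] at e1
          exact absurd e1 (mem_sdiff.1 e2).2
        · rw [hχ1 y h3, hχ0 y' h4] at he
          have e1 := (hψ2 y' h4).1
          have e2 := (hinv y h3).1
          rw [← he] at e1
          exact absurd e1 (mem_sdiff.1 e2).2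
        · rw [hχ1 y h3, hχ1 y' h4] at he
          have e1 := (hinv y h3).2
          have e2 := (hinv y' h4).2
          rw [← e1, ← e2, he]
      · intro y hy
        rcases mem_union.1 hy with h3 | h3
        · rw [hχ0 y h3]
          exact (hψ2 y h3).2
        · rw [hχ1 y h3]
          have e1 := (hinv y h3).2
          have e2 := (hη2 _ (hinv y h3).1).2
          rwa [e1] at e2
    have hYA : Y0 ∪ Y1 ⊆ A := by
      intro y hy
      rcases mem_union.1 hy with h3 | h3
      · exact (mem_filter.1 (mem_filter.1 h3).1).1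
      · exact (mem_filter.1 (mem_sdiff.1 (hY1sub y h3)).1).1
    have hcard : (Y0 ∪ Y1).card = Y0.card + T1.card := by
      rw [card_union_of_disjoint hdis, hY1, card_image_of_injOn (by exact_mod_cast hη1)]
    have c2 := h2 _ χ hmat hYA
    rw [hcard] at c2
    refine c2.trans ?_
    unfold tc
    refine sum_le_sum (fun v _ => ?_)
    by_cases hc : (h < v.card ∧ v.card ≤ b) ∧ v ∉ A ∧ ∃ t ∈ (Y0 ∪ Y1).image χ, v ⊆ t
    · rw [if_pos hc]
      obtain ⟨hc1, hc2, t, ht, hvt⟩ := hc
      have htT : t ∈ T := by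
        rw [mem_image] at ht
        obtain ⟨y, hy, rfl⟩ := ht
        rcases mem_union.1 hy with h3 | h3
        · rw [hχ0 y h3]; exact hT0 (hψ2 y h3).1
        · rw [hχ1 y h3]; exact (mem_sdiff.1 (hinv y h3).1).1
      rw [if_pos ⟨hc1, hc2, t, htT, hvt⟩]
    · rw [if_neg hc]
      exact Nat.zero_le _
  -- conclusion
  have hsplit : tc K R a b T A =
      (∑ v : Finset α, if (a < v.card ∧ v.card ≤ h) ∧ v ∉ A ∧ (∃ t ∈ T, v ⊆ t)
      then min K (R v.card * dg A v) else 0) +
      ∑ v : Finset α, if (h < v.card ∧ v.card ≤ b) ∧ v ∉ A ∧ (∃ t ∈ T, v ⊆ t)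
      then min K (R v.card * dg A v) else 0 := by
    unfold tc
    rw [← sum_add_distrib]
    refine sum_congr rfl (fun v _ => ?_)
    by_cases hr : v ∉ A ∧ ∃ t ∈ T, v ⊆ t
    · by_cases q1 : a < v.card ∧ v.card ≤ h
      · rw [if_pos ⟨⟨q1.1, by omega⟩, hr⟩, if_pos ⟨q1, hr⟩, if_neg (by rintro ⟨h3, _⟩; omega)]
        ring
      · by_cases q2 : h < v.card ∧ v.card ≤ b
        · rw [if_pos ⟨⟨by omega, q2.2⟩, hr⟩, if_neg (by rintro ⟨h3, _⟩; omega), if_pos ⟨q2, hr⟩]
          ring
        · rw [if_neg (by rintro ⟨h3, _⟩; omega), if_neg (fun hx => q1 hx.1),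
            if_neg (fun hx => q2 hx.1)]
    · rw [if_neg (fun hx => hr hx.2), if_neg (fun hx => hr hx.2), if_neg (fun hx => hr hx.2)]
  have hTT : T.card = T0.card + (T \ T0).card := by
    have := card_sdiff_add_card_eq_card hT0
    omega
  rw [hsplit, hScard, hTT]
  have : K * (T0.card + (T \ T0).card) + K * Y0.card =
      K * T0.card + K * (Y0.card + (T \ T0).card) := by ring
  omega

end MP_8b6acb_co
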