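import Mathlib
import Pool.Agent.Work.MP_8b6acb_co.Push

/-! Weighted cut conditions from the first layer theorem and a cut condition near the targets. -/

set_option linter.unusedSectionVars false

namespace MP_8b6acb_co

open Finset

variable {α : Type*} [Fintype α] [DecidableEq α]

theorem TClaim_near {p c a b : ℕ} {R : ℕ → ℕ} (hab : a < b) (hP : PP α p a b)
    (hR : ∀ k, a < k → k ≤ b → R k = c) : TClaim α (p * c) R a b := by
  classical
  intro S φ hm A hSA hA
  set T := S.image φ with hT
  have hTcard : ∀ t ∈ T, t.card = b := by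
    intro t ht
    rw [hT, mem_image] at ht
    obtain ⟨s, hs, rfl⟩ := ht
    exact hm.cT s hs
  set A' := S ∪ A.filter (fun u => u ∈ Mid a b) ∪ (Mid a b).filter (fun v => ¬ ∃ t ∈ T, v ⊆ t)
    with hA'
  have hSA' : S ⊆ A' := fun s hs => mem_union_left _ (mem_union_left _ hs)
  have hmem : ∀ u ∈ A', u ∈ S ∨ u ∈ Mid a b := by
    intro u hu
    rw [hA', mem_union, mem_union, mem_filter, mem_filter] at hu
    rcases hu with (h | h) | h
    · exact Or.inl h
    · exact Or.inr h.2
    · exact Or.inr h.1
  have h1 := hP S φ hm A' hSA' hmem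
  have h2 : c * cost p a b T A' ≤ tc (p * c) R a b T A := by
    unfold cost tc
    rw [mul_sum]
    refine sum_le_sum (fun v _ => ?_)
    by_cases hc : (v ∈ Mid a b ∨ v ∈ T) ∧ v ∉ A'
    · rw [if_pos hc]
      obtain ⟨hc1, hc2⟩ := hc
      have hcard : a < v.card ∧ v.card ≤ b := by
        rcases hc1 with h | h
        · rw [mem_Mid] at h; omega
        · rw [hTcard v h]; omega
      have hvA : v ∉ A := by
        intro hv
        rcases hc1 with h | h
        · exact hc2 (mem_union_left _ (mem_union_right _ (mem_filter.2 ⟨hv, h⟩)))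
        · have := hA v hv
          rw [hTcard v h] at this
          omega
      have hbel : ∃ t ∈ T, v ⊆ t := by
        rcases hc1 with h | h
        · by_contra hn
          exact hc2 (mem_union_right _ (mem_filter.2 ⟨h, hn⟩))
        · exact ⟨v, h, subset_refl _⟩
      rw [if_pos ⟨hcard, hvA, hbel⟩, hR _ hcard.1 hcard.2]
      have hdg : dg A' v ≤ dg A v := by
        unfold dg
        apply card_le_card
        intro x hx
        rw [mem_filter] at hx ⊢
        refine ⟨hx.1, ?_⟩
        have h3 := hx.2
        rw [hA', mem_union, mem_union, mem_filter, mem_filter] at h3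
        rcases h3 with (h | h) | h
        · exact hSA h
        · exact h.1
        · exfalso
          obtain ⟨t, ht, hvt⟩ := hbel
          exact h.2 ⟨t, ht, (erase_subset _ _).trans hvt⟩
      rw [mul_comm p c, ← Nat.mul_min_mul_left]
      apply min_le_min_left
      exact Nat.mul_le_mul_left _ hdg
    · rw [if_neg hc, mul_zero]
      exact Nat.zero_le _
  calc p * c * S.card = c * (p * S.card) := by ring
    _ ≤ c * cost p a b T A' := Nat.mul_le_mul_left _ h1
    _ ≤ _ := h2

theorem TClaim_first {p c a b : ℕ} {R : ℕ → ℕ} (hc : 1 ≤ c) (hab : a + 2 * c ≤ b)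
    (hR : R (a + 1) = p) {S : Finset (Finset α)} {φ : Finset α → Finset α} (hm : Mat a b S φ)
    (A : Finset (Finset α)) (hSA : S ⊆ A) (hA : ∀ u ∈ A, u.card < a + 1) :
    p * c * S.card ≤ tc (p * c) R a b (S.image φ) A := by
  classical
  obtain ⟨l, rfl⟩ : ∃ l, b = a + l := ⟨b - a, by omega⟩
  set L := univ.filter (fun v : Finset α => v.card = a + 1 ∧ ∃ s ∈ S, v ⊆ φ s) with hL
  have h1 := first_layer (q := c) (l := l) hc (by omega) hm L (by
    intro v h1 h2
    rw [hL, mem_filter]
    exact ⟨mem_univ _, h1, h2⟩)
  have h2 : p * ∑ v ∈ L, min c (dg S v) ≤ tc (p * c) R a (a + l) (S.image φ) A := by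
    unfold tc
    rw [mul_sum, ← sum_mem L]
    refine sum_le_sum (fun v _ => ?_)
    by_cases hv : v ∈ L
    · rw [if_pos hv]
      rw [hL, mem_filter] at hv
      obtain ⟨_, hv1, s, hs, hvs⟩ := hv
      have hvA : v ∉ A := by
        intro h
        have := hA v h
        omega
      rw [if_pos ⟨⟨by omega, by omega⟩, hvA, φ s, mem_image_of_mem _ hs, hvs⟩, hv1, hR,
        ← Nat.mul_min_mul_left]
      apply min_le_min_left
      apply Nat.mul_le_mul_left
      unfold dg
      apply card_le_card
      intro x hx
      rw [mem_filter] at hx ⊢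
      exact ⟨hx.1, hSA hx.2⟩
    · rw [if_neg hv]
      exact Nat.zero_le _
  calc p * c * S.card = p * (c * S.card) := by ring
    _ ≤ p * ∑ v ∈ L, min c (dg S v) := Nat.mul_le_mul_left _ h1
    _ ≤ _ := h2

/-- The weights of `TClaim_all`. -/
def Rw (p c b w : ℕ) (k : ℕ) : ℕ := if k + w ≤ b then p else c

theorem TClaim_all {p c b w : ℕ} (hc : 1 ≤ c) (hw : 2 * c ≤ w + 1) (hw1 : 1 ≤ w)
    (hP : PP α p (b - w) b) : ∀ n a, a + w + n = b → TClaim α (p * c) (Rw p c b w) a b := by
  intro n
  induction n using Nat.strong_induction_on with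
  | _ n ih =>
    intro a han
    rcases Nat.eq_zero_or_pos n with h0 | hpos
    · subst h0
      have : b - w = a := by omega
      rw [this] at hP
      apply TClaim_near (by omega) hP
      intro k hk1 hk2
      unfold Rw
      rw [if_neg (by omega)]
    · -- the inner induction
      have hinner : ∀ h, a + 1 ≤ h → h + w ≤ b → ∀ (S : Finset (Finset α))
          (φ : Finset α → Finset α), Mat a b S φ → ∀ A : Finset (Finset α), S ⊆ A →
          (∀ u ∈ A, u.card < h) → p * c * S.card ≤ tc (p * c) (Rw p c b w) a b (S.image φ) A := by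
        intro h hah
        induction h, hah using Nat.le_induction with
        | base =>
          intro _ S φ hm A hSA hA
          apply TClaim_first hc (by omega) _ hm A hSA hA
          unfold Rw
          rw [if_pos (by omega)]
        | succ h hah ih2 =>
          intro hhb S φ hm A hSA hA
          apply push (h := h) (by omega) (by omega) hm
          · intro S0 hS0
            apply ih2 (by omega) S0 φ (hm.mono hS0)
            · intro s hs
              rw [mem_filter]
              exact ⟨hSA (hS0 hs), by rw [hm.cS s (hS0 hs)]; omega⟩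
            · intro u hu
              exact (mem_filter.1 hu).2
          · intro Y ψ hY hYA
            have := ih (b - w - h) (by omega) h (by omega) Y ψ hY A hYA
              (fun u hu => by have := hA u hu; omega)
            exact this
      intro S φ hm A hSA hA
      apply push (h := b - w) (by omega) (by omega) hm
      · intro S0 hS0
        apply hinner (b - w) (by omega) (by omega) S0 φ (hm.mono hS0)
        · intro s hs
          rw [mem_filter]
          exact ⟨hSA (hS0 hs), by rw [hm.cS s (hS0 hs)]; omega⟩
        · intro u hu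
          exact (mem_filter.1 hu).2
      · intro Y ψ hY hYA
        exact ih 0 hpos (b - w) (by omega) Y ψ hY A hYA hA

end MP_8b6acb_co
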