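import Mathlib
import Pool.Agent.Work.MP_8b6acb_co.Tw

/-! The dual weighted cut condition. -/

set_option linter.unusedSectionVars false

namespace MP_8b6acb_co

open Finset

variable {α : Type*} [Fintype α] [DecidableEq α]

/-- The weighted cost of the cut with far side `D` above `S`. -/
def sc (K : ℕ) (R : ℕ → ℕ) (a b : ℕ) (S D : Finset (Finset α)) : ℕ :=
  ∑ u : Finset α, if (a ≤ u.card ∧ u.card < b) ∧ u ∉ D ∧ (∃ s ∈ S, s ⊆ u) then
    min K (R u.card * ub D u) else 0

/-- The weights of the dual claim. -/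
def Ru (p c a w : ℕ) (k : ℕ) : ℕ := if a + w ≤ k then p else c

theorem dg_compl (D : Finset (Finset α)) (u : Finset α) :
    dg (D.image compl) uᶜ = ub D u := by
  unfold dg ub
  congr 1
  ext x
  simp only [mem_filter, mem_compl, mem_univ, true_and, mem_image]
  refine and_congr_right (fun hx => ?_)
  have h1 : uᶜ.erase x = (insert x u)ᶜ := by
    ext y
    simp only [mem_erase, mem_compl, mem_insert, not_or]
  rw [h1]
  constructor
  · rintro ⟨d, hd, he⟩
    rw [compl_inj_iff] at he
    rwa [← he]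
  · intro h
    exact ⟨_, h, rfl⟩

theorem dual_claim {p c a b w : ℕ} (hc : 1 ≤ c) (hw : 2 * c ≤ w + 1) (hw1 : 1 ≤ w)
    (hP : ∀ i, PP α p i (i + w)) (haw : a + w ≤ b) {S : Finset (Finset α)}
    {φ : Finset α → Finset α} (hm : Mat a b S φ) (D : Finset (Finset α))
    (hTD : S.image φ ⊆ D) (hD : ∀ u ∈ D, a < u.card) :
    p * c * S.card ≤ sc (p * c) (Ru p c a w) a b S D := by
  classical
  rcases S.eq_empty_or_nonempty with hS | ⟨s0, hs0⟩
  · rw [hS]; simp
  set n := Fintype.card α with hn
  have hbn : b ≤ n := by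
    rw [← hm.cT s0 hs0]
    exact card_le_univ _
  have hcompl : ∀ u : Finset α, uᶜ.card = n - u.card := fun u => by rw [card_compl]
  have hle : ∀ u : Finset α, u.card ≤ n := fun u => card_le_univ u
  obtain ⟨g, hg⟩ : ∃ g : Finset α → Finset α, ∀ t ∈ S.image φ, g t ∈ S ∧ φ (g t) = t := by
    have : ∀ t ∈ S.image φ, ∃ s ∈ S, φ s = t := fun t ht => mem_image.1 ht
    choose! f hf using this
    exact ⟨f, hf⟩
  set S' := (S.image φ).image compl with hS'
  let φ' : Finset α → Finset α := fun x => (g xᶜ)ᶜ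
  have hS'mem : ∀ x ∈ S', xᶜ ∈ S.image φ := by
    intro x hx
    rw [hS', mem_image] at hx
    obtain ⟨t, ht, rfl⟩ := hx
    rwa [compl_compl]
  have hm' : Mat (n - b) (n - a) S' φ' := by
    refine ⟨?_, ?_, ?_, ?_⟩
    · intro x hx
      have h1 := hS'mem x hx
      rw [mem_image] at h1
      obtain ⟨s, hs, he⟩ := h1
      have h2 := hm.cT s hs
      rw [he, hcompl] at h2
      have := hle x
      omega
    · intro x hx
      have h1 := (hg _ (hS'mem x hx)).1
      simp only [φ']
      rw [hcompl, hm.cS _ h1]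
    · intro x hx y hy he
      simp only [φ'] at he
      rw [compl_inj_iff] at he
      have h1 := (hg _ (hS'mem x (mem_coe.1 hx))).2
      have h2 := (hg _ (hS'mem y (mem_coe.1 hy))).2
      rw [he, h2] at h1
      exact (compl_inj_iff.1 h1).symm
    · intro x hx
      have h1 := hg _ (hS'mem x hx)
      have h2 := hm.sub _ h1.1
      rw [h1.2] at h2
      simp only [φ']
      intro y hy
      rw [mem_compl]
      intro hy2
      have := h2 hy2
      rw [mem_compl] at this
      exact this hy
  have hcard : S'.card = S.card := by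
    rw [hS', card_image_of_injective _ compl_injective, card_image_of_injOn hm.inj]
  have himg : S'.image φ' = S.image compl := by
    ext y
    simp only [mem_image]
    constructor
    · rintro ⟨x, hx, rfl⟩
      exact ⟨_, (hg _ (hS'mem x hx)).1, rfl⟩
    · rintro ⟨s, hs, rfl⟩
      refine ⟨(φ s)ᶜ, ?_, ?_⟩
      · rw [hS', mem_image]
        exact ⟨φ s, mem_image_of_mem _ hs, rfl⟩
      · simp only [φ', compl_compl]
        congr 1
        have h1 := hg _ (mem_image_of_mem φ hs)
        exact hm.inj (mem_coe.2 h1.1) (mem_coe.2 hs) h1.2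
  have hPb : PP α p (n - a - w) (n - a) := by
    have := hP (n - a - w)
    have h1 : n - a - w + w = n - a := by omega
    rwa [h1] at this
  have hT := TClaim_all hc hw hw1 hPb (b - a - w) (n - b) (by omega) S' φ' hm' (D.image compl)
    (by
      rw [hS']
      exact image_subset_image hTD)
    (by
      intro u hu
      rw [mem_image] at hu
      obtain ⟨d, hd, rfl⟩ := hu
      rw [hcompl]
      have := hD d hd
      have := hle d
      omega)
  rw [hcard, himg] at hT
  refine hT.trans (le_of_eq ?_)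
  unfold tc sc
  refine sum_bij' (fun v _ => vᶜ) (fun u _ => uᶜ) (by simp) (by simp) (by simp) (by simp) ?_
  intro v _
  have hv : vᶜ.card = n - v.card := hcompl v
  have hvn := hle v
  have e1 : (n - b < v.card ∧ v.card ≤ n - a) ↔ (a ≤ vᶜ.card ∧ vᶜ.card < b) := by
    rw [hv]; omega
  have e2 : v ∉ D.image compl ↔ vᶜ ∉ D := by
    rw [not_iff_not, mem_image]
    constructor
    · rintro ⟨d, hd, rfl⟩; rwa [compl_compl]
    · intro h; exact ⟨vᶜ, h, compl_compl v⟩
  have e3 : (∃ t ∈ S.image compl, v ⊆ t) ↔ (∃ s ∈ S, s ⊆ vᶜ) := by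
    constructor
    · rintro ⟨t, ht, hvt⟩
      rw [mem_image] at ht
      obtain ⟨s, hs, rfl⟩ := ht
      refine ⟨s, hs, ?_⟩
      intro y hy
      rw [mem_compl]
      intro hyv
      have := hvt hyv
      rw [mem_compl] at this
      exact this hy
    · rintro ⟨s, hs, hsv⟩
      refine ⟨sᶜ, mem_image_of_mem _ hs, ?_⟩
      intro y hy
      rw [mem_compl]
      intro hys
      have := hsv hys
      rw [mem_compl] at this
      exact this hy
  have e4 : dg (D.image compl) v = ub D vᶜ := by
    have := dg_compl D vᶜ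
    rwa [compl_compl] at this
  have e5 : (n - b < v.card ∧ v.card ≤ n - a) → Rw p c (n - a) w v.card = Ru p c a w vᶜ.card := by
    intro hh
    unfold Rw Ru
    rw [hv]
    by_cases h1 : v.card + w ≤ n - a
    · rw [if_pos h1, if_pos (by omega)]
    · rw [if_neg h1, if_neg (by omega)]
  by_cases hc1 : (n - b < v.card ∧ v.card ≤ n - a) ∧ v ∉ D.image compl ∧ ∃ t ∈ S.image compl, v ⊆ t
  · rw [if_pos hc1, if_pos ⟨e1.1 hc1.1, e2.1 hc1.2.1, e3.1 hc1.2.2⟩, e4, e5 hc1.1]
  · rw [if_neg hc1, if_neg]
    rintro ⟨h1, h2, h3⟩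
    exact hc1 ⟨e1.2 h1, e2.2 h2, e3.2 h3⟩

end MP_8b6acb_co
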