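import Mathlib
import Pool.Agent.Work.MP_8b6acb_co.Dual
import Pool.Agent.Work.MP_8b6acb_co.Paths
import Pool.Agent.Work.MP_8b6acb_co.StarCex

/-! Splitting a cut at a middle layer. -/

set_option linter.unusedSectionVars false

namespace MP_8b6acb_co

open Finset

variable {α : Type*} [Fintype α] [DecidableEq α]

/-- Double counting of the cut edges. -/
theorem sum_ub_eq (A D : Finset (Finset α)) (R : ℕ → ℕ) :
    ∑ u ∈ A, R u.card * ub D u = ∑ v ∈ D, R (v.card - 1) * dg A v := by
  rw [← sum_mem A, ← sum_mem D]
  have h1 : ∀ u : Finset α, (if u ∈ A then R u.card * ub D u else 0) =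
      ∑ b, (if b ∉ u then (if u ∈ A ∧ insert b u ∈ D then R u.card else 0) else 0) := by
    intro u
    unfold ub
    rw [card_filter, mul_sum]
    by_cases hu : u ∈ A
    · rw [if_pos hu]
      refine sum_congr rfl (fun b _ => ?_)
      by_cases hb : b ∈ u <;> by_cases hD : insert b u ∈ D <;> simp [hu, hb, hD]
    · rw [if_neg hu]
      symm
      apply sum_eq_zero
      intro b _
      simp [hu]
  have h2 : ∀ v : Finset α, (if v ∈ D then R (v.card - 1) * dg A v else 0) =
      ∑ b, (if b ∈ v then (if v.erase b ∈ A ∧ v ∈ D then R (v.card - 1) else 0) else 0) := by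
    intro v
    rw [dg_eq_sum, mul_sum]
    by_cases hv : v ∈ D
    · rw [if_pos hv]
      refine sum_congr rfl (fun b _ => ?_)
      by_cases hb : b ∈ v <;> by_cases hA : v.erase b ∈ A <;> simp [hv, hb, hA]
    · rw [if_neg hv]
      symm
      apply sum_eq_zero
      intro b _
      simp [hv]
  rw [sum_congr rfl (fun u _ => h1 u), sum_congr rfl (fun v _ => h2 v), sum_comm,
    sum_comm (s := univ) (t := univ) (f := fun (v : Finset α) (b : α) =>
      (if b ∈ v then (if v.erase b ∈ A ∧ v ∈ D then R (v.card - 1) else 0) else 0))]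
  refine sum_congr rfl (fun b _ => ?_)
  rw [reindexN b (fun v => if v.erase b ∈ A ∧ v ∈ D then R (v.card - 1) else 0)]
  refine sum_congr rfl (fun u _ => ?_)
  by_cases hb : b ∉ u
  · rw [if_pos hb, if_pos hb, erase_insert hb, card_insert_of_notMem hb, Nat.add_sub_cancel]
  · rw [if_neg hb, if_neg hb]

/-- One vertex disjoint path system, read at an intermediate layer. -/
theorem exists_crossing {i j k : ℕ} {S : Finset (Finset α)} {φ : Finset α → Finset α}
    (hm : Mat i j S φ) (h2 : i + 2 ≤ j) (hik : i ≤ k) (hkj : k ≤ j) :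
    ∃ z τ : Finset α → Finset α, Mat i k S z ∧ Mat k j (S.image z) τ ∧
      ∀ s ∈ S, τ (z s) ∈ S.image φ := by
  classical
  obtain ⟨p, hp0, hp1, hp2, hp3, -⟩ := exists_paths (q := 1) (PP_le_two (by norm_num) h2)
    (by omega) hm
  let P : Finset α → ℕ → Finset α := p 0
  have hstep : ∀ s ∈ S, ∀ n m, n + m ≤ j - i → P s n ⊆ P s (n + m) ∧
      (P s (n + m)).card = (P s n).card + m := by
    intro s hs n m
    induction m with
    | zero => intro _; exact ⟨subset_refl _, rfl⟩
    | succ m ih =>
      intro hle
      obtain ⟨h3, h4⟩ := ih (by omega)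
      obtain ⟨x, hx, he⟩ := hp1 0 s hs (n + m) (by omega)
      have he' : insert x (P s (n + m)) = P s (n + (m + 1)) := he
      rw [← he']
      refine ⟨h3.trans (subset_insert _ _), ?_⟩
      rw [card_insert_of_notMem hx, h4]
      ring
  have hcard : ∀ s ∈ S, ∀ n ≤ j - i, (P s n).card = i + n := by
    intro s hs n hn
    have := (hstep s hs 0 n (by omega)).2
    rw [zero_add] at this
    rw [this]
    have h0 : P s 0 = s := hp0 0 s hs
    rw [h0, hm.cS s hs]
  have hinj : ∀ s ∈ S, ∀ s' ∈ S, ∀ n ≤ j - i, P s n = P s' n → s = s' :=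
    fun s hs s' hs' n hn he => hp3 0 s hs s' hs' n hn n hn he
  let z : Finset α → Finset α := fun s => P s (k - i)
  obtain ⟨g, hg⟩ : ∃ g : Finset α → Finset α, ∀ y ∈ S.image z, g y ∈ S ∧ z (g y) = y := by
    have : ∀ y ∈ S.image z, ∃ s ∈ S, z s = y := fun t ht => mem_image.1 ht
    choose! f hf using this
    exact ⟨f, hf⟩
  have hgz : ∀ s ∈ S, g (z s) = s := by
    intro s hs
    have h3 := hg (z s) (mem_image_of_mem z hs)
    exact hinj _ h3.1 _ hs (k - i) (by omega) h3.2
  refine ⟨z, fun y => P (g y) (j - i), ⟨hm.cS, ?_, ?_, ?_⟩, ⟨?_, ?_, ?_, ?_⟩, ?_⟩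
  · intro s hs
    have := hcard s hs (k - i) (by omega)
    simp only [z]
    rw [this]
    omega
  · intro s hs s' hs' he
    exact hinj s (mem_coe.1 hs) s' (mem_coe.1 hs') (k - i) (by omega) he
  · intro s hs
    have := (hstep s hs 0 (k - i) (by omega)).1
    rw [zero_add] at this
    have h0 : P s 0 = s := hp0 0 s hs
    rwa [h0] at this
  · intro y hy
    rw [mem_image] at hy
    obtain ⟨s, hs, rfl⟩ := hy
    have := hcard s hs (k - i) (by omega)
    simp only [z]
    rw [this]
    omega
  · intro y hy
    have := hcard _ (hg y hy).1 (j - i) (le_refl _)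
    rw [this]
    omega
  · intro y hy y' hy' he
    have h3 := hg y (mem_coe.1 hy)
    have h4 := hg y' (mem_coe.1 hy')
    have := hinj _ h3.1 _ h4.1 (j - i) (le_refl _) he
    rw [← h3.2, ← h4.2, this]
  · intro y hy
    have h3 := hg y hy
    have := (hstep (g y) h3.1 (k - i) (j - k) (by omega)).1
    have h5 : k - i + (j - k) = j - i := by omega
    rw [h5] at this
    have h6 : P (g y) (k - i) = y := h3.2
    rwa [h6] at this
  · intro s hs
    have h3 : g (z s) = s := hgz s hs
    show P (g (z s)) (j - i) ∈ S.image φ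
    rw [h3]
    exact hp2 0 s hs

theorem MinCex.split {q p c w i j k : ℕ} {S A : Finset (Finset α)} {φ : Finset α → Finset α}
    (h : MinCex q i j S φ A) (hc : 1 ≤ c) (hw : 2 * c ≤ w + 1) (hw1 : 1 ≤ w)
    (hP : ∀ i, PP α p i (i + w)) (hik : i + w ≤ k) (hkj : k + w ≤ j) :
    p * c * S.card ≤ p * c * (Xset q i j (S.image φ) A).card +
      ∑ v ∈ Bset q i j (S.image φ) A,
        (if k < v.card + w ∧ v.card ≤ k + w then c else p) * dg A v := by
  classical
  have h2 : i + 2 ≤ j := by omega
  obtain ⟨z, τ, hz, hτ, hτT⟩ := exists_crossing h.mat h2 (by omega : i ≤ k) (by omega : k ≤ j)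
  have hTB := h.T_sub_B h2
  have hAc := h.cardA (by omega)
  set T := S.image φ with hT
  set B := Bset q i j T A with hB
  set X := Xset q i j T A with hX
  have hBXA : ∀ v, v ∈ Mid i j → v ∉ A → v ∉ X → v ∈ B := by
    intro v hv hvA hvX
    rw [hB, mem_B]
    refine ⟨Or.inl hv, hvA, ?_⟩
    by_contra hc
    exact hvX (by rw [hX, mem_X]; exact ⟨Or.inl hv, hvA, by omega⟩)
  have hBc : ∀ v ∈ B, i < v.card ∧ v.card ≤ j := by
    intro v hv
    rw [hB, mem_B] at hv
    rcases hv.1 with h3 | h3
    · rw [mem_Mid] at h3; omega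
    · rw [h.cardT v h3]; omega
  have hBA : ∀ v ∈ B, v ∉ A := fun v hv => by
    rw [hB, mem_B] at hv; exact hv.2.1
  -- the lower part
  set S1 := S.filter (fun s => z s ∉ A ∧ z s ∉ X) with hS1
  set S1X := S.filter (fun s => z s ∈ X) with hS1X
  set S2 := S.filter (fun s => z s ∈ A) with hS2
  have hcardS : S.card ≤ S1.card + S1X.card + S2.card := by
    have : S ⊆ S1 ∪ S1X ∪ S2 := by
      intro s hs
      rw [mem_union, mem_union, hS1, hS1X, hS2, mem_filter, mem_filter, mem_filter]
      by_cases h3 : z s ∈ A
      · exact Or.inr ⟨hs, h3⟩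
      · by_cases h4 : z s ∈ X
        · exact Or.inl (Or.inr ⟨hs, h4⟩)
        · exact Or.inl (Or.inl ⟨hs, h3, h4⟩)
    exact (card_le_card this).trans ((card_union_le _ _).trans
      (Nat.add_le_add_right (card_union_le _ _) _))
  have hXk : S1X.card ≤ (X.filter (fun v => v.card = k)).card := by
    apply card_le_card_of_injOn z
    · intro s hs
      have hs := mem_filter.1 (mem_coe.1 hs)
      exact mem_coe.2 (mem_filter.2 ⟨hs.2, hz.cT s hs.1⟩)
    · exact hz.inj.mono (by
        intro s hs
        exact mem_coe.2 (mem_filter.1 (mem_coe.1 hs)).1)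
  have hPk : PP α p (k - w) k := by
    have := hP (k - w)
    have h1 : k - w + w = k := by omega
    rwa [h1] at this
  have low : p * c * S1.card ≤ p * c * (X.filter (fun v => v.card < k)).card +
      ∑ v ∈ B.filter (fun v => v.card ≤ k), Rw p c k w v.card * dg A v := by
    have h3 := TClaim_all hc hw hw1 hPk (k - w - i) i (by omega) S1 z (hz.mono (filter_subset _ _))
      (A.filter (fun u => u.card < k))
      (by
        intro s hs
        have hs' := (mem_filter.1 hs).1
        rw [mem_filter]
        exact ⟨h.SA hs', by rw [h.mat.cS s hs']; omega⟩)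
      (fun u hu => (mem_filter.1 hu).2)
    refine h3.trans ?_
    have h4 : p * c * (X.filter (fun v => v.card < k)).card =
        ∑ v ∈ X.filter (fun v => v.card < k), p * c := by
      rw [sum_const, smul_eq_mul, mul_comm]
    rw [h4, ← sum_mem (X.filter (fun v => v.card < k)), ← sum_mem (B.filter (fun v => v.card ≤ k)),
      ← sum_add_distrib]
    unfold tc
    refine sum_le_sum (fun v _ => ?_)
    by_cases hcond : (i < v.card ∧ v.card ≤ k) ∧ v ∉ A.filter (fun u => u.card < k) ∧
        ∃ t ∈ S1.image z, v ⊆ t
    · rw [if_pos hcond]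
      obtain ⟨⟨c1, c2⟩, c3, t, ht, hvt⟩ := hcond
      rw [mem_image] at ht
      obtain ⟨s, hs, rfl⟩ := ht
      have hs' := mem_filter.1 hs
      have hdg : dg (A.filter (fun u => u.card < k)) v ≤ dg A v := by
        unfold dg
        apply card_le_card
        intro x hx
        rw [mem_filter] at hx ⊢
        exact ⟨hx.1, (mem_filter.1 hx.2).1⟩
      by_cases hvk : v.card < k
      · have hvA : v ∉ A := fun hv => c3 (mem_filter.2 ⟨hv, hvk⟩)
        by_cases hvX : v ∈ X
        · rw [if_pos (mem_filter.2 ⟨hvX, hvk⟩)]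
          exact (min_le_left _ _).trans (Nat.le_add_right _ _)
        · have hvB := hBXA v (mem_Mid.2 ⟨c1, by omega⟩) hvA hvX
          have hn : v ∉ X.filter (fun v => v.card < k) := fun hx => hvX (mem_filter.1 hx).1
          rw [if_neg hn, if_pos (mem_filter.2 ⟨hvB, c2⟩), zero_add]
          exact (min_le_right _ _).trans (Nat.mul_le_mul_left _ hdg)
      · have hvz : v = z s := eq_of_subset_of_card_le hvt (by rw [hz.cT s hs'.1]; omega)
        have hvB := hBXA v (by
          rw [mem_Mid]
          omega) (by rw [hvz]; exact hs'.2.1) (by rw [hvz]; exact hs'.2.2)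
        have hn : v ∉ X.filter (fun v => v.card < k) := fun hx => hvk (mem_filter.1 hx).2
        rw [if_neg hn, if_pos (mem_filter.2 ⟨hvB, c2⟩), zero_add]
        exact (min_le_right _ _).trans (Nat.mul_le_mul_left _ hdg)
    · rw [if_neg hcond]
      exact Nat.zero_le _
  -- the upper part
  have high : p * c * S2.card ≤ p * c * (X.filter (fun v => k < v.card)).card +
      ∑ v ∈ B.filter (fun v => k < v.card), Ru p c k w (v.card - 1) * dg A v := by
    have hsubI : S2.image z ⊆ S.image z := image_subset_image (filter_subset _ _)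
    have hcardI : (S2.image z).card = S2.card :=
      card_image_of_injOn (hz.inj.mono (by exact_mod_cast filter_subset _ _))
    have h3 := dual_claim hc hw hw1 hP hkj (hτ.mono hsubI) (B.filter (fun v => k < v.card))
      (by
        intro t ht
        rw [mem_image] at ht
        obtain ⟨y, hy, rfl⟩ := ht
        rw [mem_image] at hy
        obtain ⟨s, hs, rfl⟩ := hy
        have hs' := (mem_filter.1 hs).1
        rw [mem_filter]
        refine ⟨hTB (hτT s hs'), ?_⟩
        rw [h.cardT _ (hτT s hs')]
        omega)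
      (fun u hu => (mem_filter.1 hu).2)
    rw [hcardI] at h3
    refine h3.trans ?_
    have h4 : p * c * (X.filter (fun v => k < v.card)).card =
        ∑ v ∈ X.filter (fun v => k < v.card), p * c := by
      rw [sum_const, smul_eq_mul, mul_comm]
    have h5 := sum_ub_eq A (B.filter (fun v => k < v.card)) (Ru p c k w)
    rw [← h5, h4, ← sum_mem (X.filter (fun v => k < v.card)), ← sum_mem A, ← sum_add_distrib]
    unfold sc
    refine sum_le_sum (fun u _ => ?_)
    by_cases hcond : (k ≤ u.card ∧ u.card < j) ∧ u ∉ B.filter (fun v => k < v.card) ∧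
        ∃ s ∈ S2.image z, s ⊆ u
    · rw [if_pos hcond]
      obtain ⟨⟨c1, c2⟩, c3, y, hy, hyu⟩ := hcond
      rw [mem_image] at hy
      obtain ⟨s, hs, rfl⟩ := hy
      have hs' := mem_filter.1 hs
      by_cases huk : k < u.card
      · have huB : u ∉ B := fun hu => c3 (mem_filter.2 ⟨hu, huk⟩)
        by_cases huX : u ∈ X
        · rw [if_pos (mem_filter.2 ⟨huX, huk⟩)]
          exact (min_le_left _ _).trans (Nat.le_add_right _ _)
        · have huA : u ∈ A := by
            by_contra huA
            exact huB (hBXA u (mem_Mid.2 ⟨by omega, c2⟩) huA huX)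
          rw [if_pos huA]
          exact (min_le_right _ _).trans (Nat.le_add_left _ _)
      · have huz : z s = u := eq_of_subset_of_card_le hyu (by rw [hz.cT s hs'.1]; omega)
        have huA : u ∈ A := by rw [← huz]; exact hs'.2
        simp only [huA, if_true]
        exact (min_le_right _ _).trans (Nat.le_add_left _ _)
    · rw [if_neg hcond]
      exact Nat.zero_le _
  -- conclusion
  have hXsum : (X.filter (fun v => v.card < k)).card + (X.filter (fun v => v.card = k)).card +
      (X.filter (fun v => k < v.card)).card = X.card := by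
    rw [card_filter, card_filter, card_filter, ← sum_add_distrib, ← sum_add_distrib, card_eq_sum_ones]
    refine sum_congr rfl (fun v _ => ?_)
    rcases lt_trichotomy v.card k with h3 | h3 | h3
    · rw [if_pos h3, if_neg (by omega), if_neg (by omega)]
    · rw [if_neg (by omega), if_pos h3, if_neg (by omega)]
    · rw [if_neg (by omega), if_neg (by omega), if_pos h3]
  have hBsum : ∑ v ∈ B, (if k < v.card + w ∧ v.card ≤ k + w then c else p) * dg A v =
      ∑ v ∈ B.filter (fun v => v.card ≤ k), Rw p c k w v.card * dg A v +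
      ∑ v ∈ B.filter (fun v => k < v.card), Ru p c k w (v.card - 1) * dg A v := by
    rw [sum_filter, sum_filter, ← sum_add_distrib]
    refine sum_congr rfl (fun v _ => ?_)
    unfold Rw Ru
    by_cases h3 : v.card ≤ k
    · rw [if_pos h3, if_neg (by omega : ¬ k < v.card), add_zero]
      by_cases h4 : v.card + w ≤ k
      · rw [if_neg (by omega), if_pos h4]
      · rw [if_pos (by omega), if_neg h4]
    · rw [if_neg h3, if_pos (by omega : k < v.card), zero_add]
      by_cases h4 : k + w ≤ v.card - 1
      · rw [if_neg (by omega), if_pos h4]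
      · rw [if_pos (by omega), if_neg h4]
  rw [hBsum, ← hXsum]
  have e1 : p * c * S.card ≤ p * c * (S1.card + (X.filter (fun v => v.card = k)).card + S2.card) :=
    Nat.mul_le_mul_left _ (by omega)
  have e2 : p * c * (S1.card + (X.filter (fun v => v.card = k)).card + S2.card) =
      p * c * S1.card + p * c * (X.filter (fun v => v.card = k)).card + p * c * S2.card := by ring
  have e3 : p * c * ((X.filter (fun v => v.card < k)).card + (X.filter (fun v => v.card = k)).card +
      (X.filter (fun v => k < v.card)).card) = p * c * (X.filter (fun v => v.card < k)).card +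
      p * c * (X.filter (fun v => v.card = k)).card +
      p * c * (X.filter (fun v => k < v.card)).card := by ring
  rw [e3]
  omega

end MP_8b6acb_co
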