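import Mathlib

/-! Calculus for the sharp first layer theorem. -/

set_option linter.unusedSectionVars false

namespace MP_8b6acb_co

open Finset Real

/-- `x log x` lies above its tangents. -/
theorem mul_log_ge {x y : ℝ} (hx : 0 ≤ x) (hy : 0 < y) : x * log y + x - y ≤ x * log x := by
  rcases eq_or_lt_of_le hx with h0 | h0
  · rw [← h0]; simp; exact hy.le
  · have h1 := Real.log_le_sub_one_of_pos (div_pos hy h0)
    rw [Real.log_div hy.ne' h0.ne'] at h1
    have h2 := mul_le_mul_of_nonneg_left h1 hx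
    have h3 : x * (y / x - 1) = y - x := by field_simp
    nlinarith

theorem mul_log_ge_sub_one {x : ℝ} (hx : 0 ≤ x) : x - 1 ≤ x * log x := by
  have := mul_log_ge hx one_pos
  simpa using this

/-- Gibbs for two terms. -/
theorem gibbs_two {a b p q : ℝ} (ha : 0 ≤ a) (hb : 0 ≤ b) (hp : 0 < p) (hq : 0 < q)
    (hpq : p + q = 1) :
    a * log p + b * log q ≤ a * log a + b * log b - (a + b) * log (a + b) := by
  rcases eq_or_lt_of_le (add_nonneg ha hb) with h0 | h0
  · have ha0 : a = 0 := by linarith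
    have hb0 : b = 0 := by linarith
    simp [ha0, hb0]
  · have h1 := mul_log_ge ha (mul_pos h0 hp)
    have h2 := mul_log_ge hb (mul_pos h0 hq)
    rw [Real.log_mul h0.ne' hp.ne'] at h1
    rw [Real.log_mul h0.ne' hq.ne'] at h2
    have h3 : (a + b) * p + (a + b) * q = a + b := by rw [← mul_add, hpq, mul_one]
    nlinarith

/-- The main inequality of one variable, multiplied out. -/
theorem calc_core {β c r : ℝ} (hβ : 0 ≤ β) (hc : 0 ≤ c) (hr : 0 ≤ r) (hr2 : r ^ 2 = 1 - (β + c)) :
    0 ≤ c - (1 - β) * log (1 - β) + β * log β + c * log c - (β + c) * log (β + c) := by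
  rcases eq_or_lt_of_le hr with h0 | h0
  · -- `r = 0`
    have hc1 : c = 1 - β := by rw [← h0] at hr2; linarith
    have h1 : β + c = 1 := by linarith
    rw [h1, hc1]
    simp only [Real.log_one, mul_zero, sub_zero]
    have := mul_log_ge_sub_one hβ
    linarith
  · have hr1 : r ≤ 1 := by nlinarith
    rcases eq_or_lt_of_le hr1 with h1 | h1
    · have hβ0 : β = 0 := by rw [h1] at hr2; linarith
      have hc0 : c = 0 := by rw [h1] at hr2; linarith
      simp [hβ0, hc0]
    · have hr1' : 0 < 1 - r := by linarith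
      have hν : β + c = (1 - r) * (1 + r) := by nlinarith
      have h2 := mul_log_ge hβ hr1'
      have h3 := gibbs_two hc (sq_nonneg r) hr1' h0 (by ring)
      have h4 : c + r ^ 2 = 1 - β := by linarith
      rw [h4] at h3
      have h5 : log (r ^ 2) = 2 * log r := by rw [Real.log_pow]; norm_num
      rw [h5] at h3
      have h6 : log (β + c) = log (1 - r) + log (1 + r) := by
        rw [hν, Real.log_mul hr1'.ne' (by linarith)]
      rw [h6]
      have h7 : log (1 + r) ≤ r := by
        have := Real.log_le_sub_one_of_pos (x := 1 + r) (by linarith)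
        linarith
      have h8 : log r ≤ r - 1 := Real.log_le_sub_one_of_pos h0
      have h9 : (β + c) * log (1 + r) ≤ (β + c) * r :=
        mul_le_mul_of_nonneg_left h7 (add_nonneg hβ hc)
      have h10 : r ^ 2 * log r ≤ r ^ 2 * (r - 1) := mul_le_mul_of_nonneg_left h8 (sq_nonneg r)
      have h11 : (β + c) * r = r - r ^ 3 := by rw [hν]; ring
      nlinarith

theorem mul_binEntropy_div {β ν : ℝ} (hβ : 0 ≤ β) (hβν : β ≤ ν) :
    ν * binEntropy (β / ν) = ν * log ν - β * log β - (ν - β) * log (ν - β) := by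
  rcases eq_or_lt_of_le (hβ.trans hβν) with h0 | h0
  · have : β = 0 := by linarith
    rw [← h0, this]; simp
  · rw [binEntropy_eq_negMulLog_add_negMulLog_one_sub]
    have h1 : 1 - β / ν = (ν - β) / ν := by field_simp
    rw [h1]
    have key : ∀ x : ℝ, 0 ≤ x → ν * negMulLog (x / ν) = x * log ν - x * log x := by
      intro x hx
      rcases eq_or_lt_of_le hx with h2 | h2
      · rw [← h2]; simp
      · rw [negMulLog, Real.log_div h2.ne' h0.ne']
        field_simp
        ring
    rw [mul_add, key β hβ, key (ν - β) (by linarith)]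
    ring

/-- The inequality of one variable. -/
theorem calc_one {β ν : ℝ} (hβ : 0 ≤ β) (hβν : β ≤ ν) (hν : ν ≤ 1) :
    1 - ν ≤ (1 - β) + negMulLog (1 - β) - ν * binEntropy (β / ν) := by
  have h := calc_core (β := β) (c := ν - β) (r := √(1 - ν)) hβ (by linarith) (Real.sqrt_nonneg _)
    (by rw [Real.sq_sqrt (by linarith)]; ring)
  rw [mul_binEntropy_div hβ hβν, negMulLog]
  have h1 : β + (ν - β) = ν := by ring
  rw [h1] at h
  linarith

variable {G : Type*} [Fintype G] [DecidableEq G]

/-- Jensen for the binary entropy. -/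
theorem sum_binEntropy_le (L : Finset G) (x : G → ℝ) (h0 : ∀ g ∈ L, 0 ≤ x g)
    (h1 : ∀ g ∈ L, x g ≤ 1) :
    ∑ g ∈ L, binEntropy (x g) ≤ L.card * binEntropy ((∑ g ∈ L, x g) / L.card) := by
  rcases L.eq_empty_or_nonempty with rfl | hL
  · simp
  · have hc : (0 : ℝ) < L.card := by exact_mod_cast card_pos.2 hL
    have h2 := strictConcave_binEntropy.concaveOn.le_map_sum (t := L)
      (w := fun _ => 1 / (L.card : ℝ)) (p := x) (fun _ _ => by positivity)
      (by rw [sum_const, nsmul_eq_mul]; field_simp) (fun g hg => ⟨h0 g hg, h1 g hg⟩)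
    simp only [smul_eq_mul, ← mul_sum] at h2
    have h3 := mul_le_mul_of_nonneg_left h2 hc.le
    have h4 : (L.card : ℝ) * (1 / L.card * ∑ i ∈ L, binEntropy (x i)) =
        ∑ i ∈ L, binEntropy (x i) := by field_simp
    rw [h4] at h3
    rwa [one_div, inv_mul_eq_div] at h3

/-- The calculus of the light directions at a source. -/
theorem light_calc (L : Finset G) (x : G → ℝ) (h0 : ∀ g ∈ L, 0 ≤ x g) (h1 : ∀ g ∈ L, x g ≤ 1)
    {l w : ℝ} (hl : 0 < l) (hL : (L.card : ℝ) ≤ l)
    (hw : l * w + ∑ g ∈ L, x g = l) :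
    l - L.card ≤ l * (w + negMulLog w) - ∑ g ∈ L, binEntropy (x g) := by
  have hs0 : 0 ≤ ∑ g ∈ L, x g := sum_nonneg h0
  have hs1 : ∑ g ∈ L, x g ≤ L.card := by
    have := sum_le_sum h1
    simpa using this
  have hJ := sum_binEntropy_le L x h0 h1
  have hc := calc_one (β := (∑ g ∈ L, x g) / l) (ν := L.card / l) (by positivity)
    (by gcongr) (by rw [div_le_one hl]; exact hL)
  have hb : (∑ g ∈ L, x g) / l / (L.card / l) = (∑ g ∈ L, x g) / L.card := by
    rw [div_div_div_cancel_right₀ hl.ne']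
  rw [hb] at hc
  have hw1 : 1 - (∑ g ∈ L, x g) / l = w := by
    field_simp
    linarith
  rw [hw1] at hc
  have h3 := mul_le_mul_of_nonneg_left hc hl.le
  have h4 : l * (1 - L.card / l) = l - L.card := by field_simp
  have h5 : l * (w + negMulLog w - L.card / l * binEntropy ((∑ g ∈ L, x g) / L.card)) =
      l * (w + negMulLog w) - L.card * binEntropy ((∑ g ∈ L, x g) / L.card) := by
    field_simp
  rw [h4, h5] at h3
  linarith

/-- Gibbs' inequality. -/
theorem gibbs {ι : Type*} (A : Finset ι) (P Q : ι → ℝ) (hP : ∀ i ∈ A, 0 ≤ P i)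
    (hQ : ∀ i ∈ A, 0 ≤ Q i) (hPQ : ∀ i ∈ A, 0 < P i → 0 < Q i)
    (hsum : ∑ i ∈ A, Q i ≤ ∑ i ∈ A, P i) :
    ∑ i ∈ A, negMulLog (P i) ≤ ∑ i ∈ A, P i * (-log (Q i)) := by
  have key : ∀ i ∈ A, negMulLog (P i) ≤ P i * (-log (Q i)) + (Q i - P i) := by
    intro i hi
    rcases eq_or_lt_of_le (hP i hi) with h0 | h0
    · rw [← h0]
      simpa using hQ i hi
    · have := mul_log_ge h0.le (hPQ i hi h0)
      rw [negMulLog]
      linarith
  have h1 := sum_le_sum key
  rw [sum_add_distrib, sum_sub_distrib] at h1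
  linarith

theorem pow_succ_add_ge {s a : ℝ} (hs : 0 ≤ s) (ha : 0 ≤ a) (n : ℕ) :
    s ^ (n + 1) + (n + 1) * a * s ^ n ≤ (s + a) ^ (n + 1) := by
  induction n with
  | zero => simp
  | succ n ih =>
    have h1 := mul_le_mul_of_nonneg_right ih (add_nonneg hs ha)
    have h2 : (s + a) ^ (n + 1 + 1) = (s + a) ^ (n + 1) * (s + a) := pow_succ _ _
    rw [h2]
    refine le_trans ?_ h1
    push_cast
    have h3 : 0 ≤ s ^ n := pow_nonneg hs n
    have h4 : 0 ≤ (n + 1 : ℝ) * a * a * s ^ n := by positivity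
    have h5 : (s ^ (n + 1) + (↑n + 1) * a * s ^ n) * (s + a) =
      s ^ (n + 1 + 1) + (↑n + 1 + 1) * a * s ^ (n + 1) + (n + 1 : ℝ) * a * a * s ^ n := by ring
    rw [h5]
    linarith

/-- Elementary symmetric polynomials against powers. -/
theorem esymm_le (X : Finset G) (a : G → ℝ) (ha : ∀ g ∈ X, 0 ≤ a g) (j : ℕ) :
    (j.factorial : ℝ) * ∑ D ∈ X.powersetCard j, ∏ g ∈ D, a g ≤ (∑ g ∈ X, a g) ^ j := by
  induction X using Finset.induction_on generalizing j with
  | empty =>
    cases j with
    | zero => simp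
    | succ j =>
      have : powersetCard (j + 1) (∅ : Finset G) = ∅ := powersetCard_eq_empty.2 (by simp)
      rw [this]
      simp
  | insert g X hg ih =>
    cases j with
    | zero => simp
    | succ j =>
      have haX : ∀ g ∈ X, 0 ≤ a g := fun h hh => ha h (mem_insert_of_mem hh)
      have hag : 0 ≤ a g := ha g (mem_insert_self _ _)
      rw [powersetCard_succ_insert hg, sum_union, sum_image, sum_insert hg]
      · have h1 : ∑ D ∈ X.powersetCard j, ∏ h ∈ insert g D, a h =
            a g * ∑ D ∈ X.powersetCard j, ∏ h ∈ D, a h := by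
          rw [mul_sum]
          refine sum_congr rfl (fun D hD => ?_)
          rw [prod_insert (fun h => hg ((mem_powersetCard.1 hD).1 h))]
        rw [h1, add_comm (a g)]
        have hS : 0 ≤ ∑ g ∈ X, a g := sum_nonneg haX
        refine le_trans ?_ (pow_succ_add_ge hS hag j)
        have i1 := ih haX (j + 1)
        have i2 := mul_le_mul_of_nonneg_left (ih haX j) (mul_nonneg (by positivity : (0:ℝ) ≤ j + 1) hag)
        have h2 : ((j + 1).factorial : ℝ) = (j + 1) * j.factorial := by
          rw [Nat.factorial_succ]; push_cast; ring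
        rw [h2] at i1 ⊢
        nlinarith
      · intro D hD D' hD' he
        have hgD : g ∉ D := fun h => hg ((mem_powersetCard.1 (mem_coe.1 hD)).1 h)
        have hgD' : g ∉ D' := fun h => hg ((mem_powersetCard.1 (mem_coe.1 hD')).1 h)
        rw [← erase_insert hgD, ← erase_insert hgD', he]
      · rw [Finset.disjoint_left]
        intro D hD hD2
        obtain ⟨D', _, rfl⟩ := mem_image.1 hD2
        exact hg ((mem_powersetCard.1 hD).1 (mem_insert_self _ _))

/-- The reference measure of the upper bound. -/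
noncomputable def refQ (X : Finset G) (y a : G → ℝ) (D : Finset G) : ℝ :=
  ((∏ g ∈ D ∩ Xᶜ, y g) * ∏ g ∈ Xᶜ \ (D ∩ Xᶜ), (1 - y g)) *
    (((D ∩ X).card.factorial : ℝ) * ∏ g ∈ D ∩ X, a g)

theorem sum_refQ_le (l : ℕ) (X : Finset G) (y a : G → ℝ) (hy0 : ∀ g, 0 ≤ y g)
    (hy1 : ∀ g, y g ≤ 1) (ha : ∀ g, 0 ≤ a g) (hsum : ∑ g ∈ X, a g ≤ 1) :
    ∑ D ∈ univ.filter (fun D : Finset G => D.card = l), refQ X y a D ≤ 1 := by
  have hB : ∀ D1 : Finset G, 0 ≤ (∏ g ∈ D1, y g) * ∏ g ∈ Xᶜ \ D1, (1 - y g) := fun D1 =>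
    mul_nonneg (prod_nonneg (fun g _ => hy0 g)) (prod_nonneg (fun g _ => by linarith [hy1 g]))
  have h1 : ∑ D ∈ univ.filter (fun D : Finset G => D.card = l), refQ X y a D =
      ∑ D1 ∈ (Xᶜ).powerset, ∑ D ∈ univ.filter (fun D : Finset G => D.card = l) with D ∩ Xᶜ = D1,
        refQ X y a D := by
    rw [sum_fiberwise_of_maps_to]
    intro D _
    exact mem_powerset.2 inter_subset_right
  have h2 : ∀ D1 ∈ (Xᶜ).powerset,
      ∑ D ∈ univ.filter (fun D : Finset G => D.card = l) with D ∩ Xᶜ = D1, refQ X y a D ≤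
      (∏ g ∈ D1, y g) * ∏ g ∈ Xᶜ \ D1, (1 - y g) := by
    intro D1 _
    have h3 : ∑ D ∈ univ.filter (fun D : Finset G => D.card = l) with D ∩ Xᶜ = D1,
        refQ X y a D = ((∏ g ∈ D1, y g) * ∏ g ∈ Xᶜ \ D1, (1 - y g)) *
        ∑ D ∈ univ.filter (fun D : Finset G => D.card = l) with D ∩ Xᶜ = D1,
          (((l - D1.card).factorial : ℝ) * ∏ g ∈ D ∩ X, a g) := by
      rw [mul_sum]
      refine sum_congr rfl (fun D hD => ?_)
      rw [mem_filter, mem_filter] at hD
      obtain ⟨⟨_, hDl⟩, hD1⟩ := hD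
      unfold refQ
      rw [hD1]
      have : (D ∩ X).card = l - D1.card := by
        have h4 : (D ∩ X).card + (D ∩ Xᶜ).card = D.card := by
          have : D ∩ Xᶜ = D \ X := by ext g; simp
          rw [this]
          exact card_inter_add_card_sdiff D X
        rw [hD1, hDl] at h4
        omega
      rw [this]
    rw [h3]
    have h5 : ∑ D ∈ univ.filter (fun D : Finset G => D.card = l) with D ∩ Xᶜ = D1,
          (((l - D1.card).factorial : ℝ) * ∏ g ∈ D ∩ X, a g) ≤ 1 := by
      rw [← mul_sum]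
      have h6 : ∑ D ∈ univ.filter (fun D : Finset G => D.card = l) with D ∩ Xᶜ = D1,
          ∏ g ∈ D ∩ X, a g ≤ ∑ D2 ∈ X.powersetCard (l - D1.card), ∏ g ∈ D2, a g := by
        rw [← sum_image (s := (univ.filter (fun D : Finset G => D.card = l)).filter
          (fun D => D ∩ Xᶜ = D1)) (g := fun D => D ∩ X) (f := fun D2 => ∏ g ∈ D2, a g)]
        · apply sum_le_sum_of_subset_of_nonneg
          · intro D2 hD2
            obtain ⟨D, hD, rfl⟩ := mem_image.1 hD2
            rw [mem_filter, mem_filter] at hD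
            obtain ⟨⟨_, hDl⟩, hD1⟩ := hD
            rw [mem_powersetCard]
            refine ⟨inter_subset_right, ?_⟩
            have h4 : (D ∩ X).card + (D ∩ Xᶜ).card = D.card := by
              have : D ∩ Xᶜ = D \ X := by ext g; simp
              rw [this]
              exact card_inter_add_card_sdiff D X
            rw [hD1, hDl] at h4
            omega
          · intro D2 _ _
            exact prod_nonneg (fun g _ => ha g)
        · intro D hD D' hD' he
          simp only [coe_filter, mem_filter, Set.mem_ofPred_eq] at hD hD'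
          have he' : D ∩ X = D' ∩ X := he
          have e1 : D = (D ∩ X) ∪ (D ∩ Xᶜ) := by
            ext g; simp only [mem_union, mem_inter, mem_compl]; tauto
          have e2 : D' = (D' ∩ X) ∪ (D' ∩ Xᶜ) := by
            ext g; simp only [mem_union, mem_inter, mem_compl]; tauto
          rw [e1, e2, he', hD.2, hD'.2]
      have h7 := esymm_le X a (fun g _ => ha g) (l - D1.card)
      have h8 : (∑ g ∈ X, a g) ^ (l - D1.card) ≤ 1 :=
        pow_le_one₀ (sum_nonneg (fun g _ => ha g)) hsum
      have h9 := mul_le_mul_of_nonneg_left h6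
        (by positivity : (0 : ℝ) ≤ ((l - D1.card).factorial : ℝ))
      linarith
    have := mul_le_mul_of_nonneg_left h5 (hB D1)
    rwa [mul_one] at this
  rw [h1]
  refine (sum_le_sum h2).trans ?_
  rw [← prod_add]
  simp

/-- **Upper bound for the entropy of a random set of fixed size.** -/
theorem upper_entropy (l : ℕ) (hl : 0 < l) (P : Finset G → ℝ) (hP : ∀ D, 0 ≤ P D)
    (hs : ∀ D, P D ≠ 0 → D.card = l) (h1 : ∑ D, P D = 1) (X : Finset G) (y : G → ℝ)
    (hy : ∀ g, y g = ∑ D, if g ∈ D then P D else 0) (w : ℝ) (hw : l * w = ∑ g ∈ X, y g) :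
    ∑ D, negMulLog (P D) ≤ ∑ g ∈ Xᶜ, binEntropy (y g) + l * ∑ g ∈ X, negMulLog (y g / l) -
      l * negMulLog w - ∑ D, P D * log ((D ∩ X).card.factorial : ℝ) := by
  have hlR : (0 : ℝ) < l := by exact_mod_cast hl
  have hy0 : ∀ g, 0 ≤ y g := fun g => by
    rw [hy]
    refine sum_nonneg (fun D _ => ?_)
    split_ifs
    · exact hP D
    · exact le_refl _
  have hy1 : ∀ g, y g ≤ 1 := fun g => by
    rw [hy, ← h1]
    refine sum_le_sum (fun D _ => ?_)
    split_ifs
    · exact le_refl _
    · exact hP D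
  have hyc : ∀ g, 1 - y g = ∑ D, if g ∈ D then 0 else P D := fun g => by
    rw [hy, ← h1, ← sum_sub_distrib]
    refine sum_congr rfl (fun D _ => ?_)
    split_ifs <;> ring
  have hypos : ∀ D, 0 < P D → ∀ g ∈ D, 0 < y g := by
    intro D hD g hg
    rw [hy]
    refine lt_of_lt_of_le hD ?_
    have := single_le_sum (f := fun D => if g ∈ D then P D else 0) (s := univ)
      (fun D _ => by split_ifs; exacts [hP D, le_refl _]) (mem_univ D)
    simpa [hg] using this
  have hynpos : ∀ D, 0 < P D → ∀ g, g ∉ D → 0 < 1 - y g := by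
    intro D hD g hg
    rw [hyc]
    refine lt_of_lt_of_le hD ?_
    have := single_le_sum (f := fun D => if g ∈ D then 0 else P D) (s := univ)
      (fun D _ => by split_ifs; exacts [le_refl _, hP D]) (mem_univ D)
    simpa [hg] using this
  set a : G → ℝ := fun g => y g / (l * w) with ha
  have hw0 : 0 ≤ l * w := by rw [hw]; exact sum_nonneg (fun g _ => hy0 g)
  have ha0 : ∀ g, 0 ≤ a g := fun g => div_nonneg (hy0 g) hw0
  have hasum : ∑ g ∈ X, a g ≤ 1 := by
    simp only [ha]
    rw [← sum_div, ← hw]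
    exact div_self_le_one _
  have hapos : ∀ D, 0 < P D → ∀ g ∈ D ∩ X, 0 < a g := by
    intro D hD g hg
    have h2 := hypos D hD g (mem_inter.1 hg).1
    refine div_pos h2 ?_
    rw [hw]
    exact lt_of_lt_of_le h2 (single_le_sum (f := y) (fun g _ => hy0 g) (mem_inter.1 hg).2)
  -- restriction to sets of size `l`
  have hrestr : ∀ f : Finset G → ℝ, (∀ D, P D = 0 → f D = 0) →
      ∑ D, f D = ∑ D ∈ univ.filter (fun D : Finset G => D.card = l), f D := by
    intro f hf
    rw [sum_filter]
    refine sum_congr rfl (fun D _ => ?_)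
    split_ifs with hc
    · rfl
    · exact hf D (by by_contra h; exact hc (hs D h))
  have hgibbs := gibbs (univ.filter (fun D : Finset G => D.card = l)) P (refQ X y a)
    (fun D _ => hP D)
    (fun D _ => by
      unfold refQ
      refine mul_nonneg (mul_nonneg (prod_nonneg (fun g _ => hy0 g))
        (prod_nonneg (fun g _ => by linarith [hy1 g]))) (mul_nonneg (by positivity)
        (prod_nonneg (fun g _ => ha0 g))))
    (fun D _ hD => by
      unfold refQ
      refine mul_pos (mul_pos (prod_pos (fun g hg => hypos D hD g (mem_inter.1 hg).1))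
        (prod_pos (fun g hg => hynpos D hD g (fun hgD => ?_)))) (mul_pos (by positivity)
        (prod_pos (fun g hg => hapos D hD g hg)))
      rw [mem_sdiff] at hg
      exact hg.2 (mem_inter.2 ⟨hgD, hg.1⟩))
    (by rw [← hrestr P (fun D h => h), h1]; exact sum_refQ_le l X y a hy0 hy1 ha0 hasum)
  rw [← hrestr (fun D => negMulLog (P D)) (fun D h => by simp [h]),
    ← hrestr (fun D => P D * (-log (refQ X y a D))) (fun D h => by simp [h])] at hgibbs
  refine hgibbs.trans (le_of_eq ?_)
  -- evaluate the cross entropy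
  have hlogQ : ∀ D, P D * (-log (refQ X y a D)) =
      (∑ g ∈ Xᶜ, ((if g ∈ D then P D else 0) * (-log (y g)) +
        (if g ∈ D then 0 else P D) * (-log (1 - y g)))) +
      (∑ g ∈ X, (if g ∈ D then P D else 0) * (-log (a g))) -
      P D * log ((D ∩ X).card.factorial : ℝ) := by
    intro D
    rcases eq_or_lt_of_le (hP D) with h0 | h0
    · rw [← h0]; simp
    · have e1 : log (refQ X y a D) = (∑ g ∈ D ∩ Xᶜ, log (y g) + ∑ g ∈ Xᶜ \ (D ∩ Xᶜ),
          log (1 - y g)) + (log ((D ∩ X).card.factorial : ℝ) + ∑ g ∈ D ∩ X, log (a g)) := by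
        unfold refQ
        have q1 : ∀ g ∈ D ∩ Xᶜ, y g ≠ 0 := fun g hg => (hypos D h0 g (mem_inter.1 hg).1).ne'
        have q2 : ∀ g ∈ Xᶜ \ (D ∩ Xᶜ), 1 - y g ≠ 0 := fun g hg => by
          refine (hynpos D h0 g (fun hgD => ?_)).ne'
          rw [mem_sdiff] at hg
          exact hg.2 (mem_inter.2 ⟨hgD, hg.1⟩)
        have q3 : ∀ g ∈ D ∩ X, a g ≠ 0 := fun g hg => (hapos D h0 g hg).ne'
        have q4 : ((D ∩ X).card.factorial : ℝ) ≠ 0 := by positivity
        rw [Real.log_mul (mul_ne_zero (prod_ne_zero_iff.2 q1) (prod_ne_zero_iff.2 q2))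
          (mul_ne_zero q4 (prod_ne_zero_iff.2 q3)), Real.log_mul (prod_ne_zero_iff.2 q1)
          (prod_ne_zero_iff.2 q2), Real.log_mul q4 (prod_ne_zero_iff.2 q3), Real.log_prod q1,
          Real.log_prod q2, Real.log_prod q3]
      rw [e1]
      have e2 : ∑ g ∈ Xᶜ, ((if g ∈ D then P D else 0) * (-log (y g)) +
          (if g ∈ D then 0 else P D) * (-log (1 - y g))) =
          P D * (-∑ g ∈ D ∩ Xᶜ, log (y g)) + P D * (-∑ g ∈ Xᶜ \ (D ∩ Xᶜ), log (1 - y g)) := by
        rw [sum_add_distrib]
        congr 1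
        · have hf : D ∩ Xᶜ = (Xᶜ).filter (fun g => g ∈ D) := by
            ext g
            simp only [mem_inter, mem_filter]
            tauto
          rw [← sum_neg_distrib, mul_sum, hf, sum_filter]
          refine sum_congr rfl (fun g _ => ?_)
          split_ifs <;> ring
        · rw [← sum_neg_distrib, mul_sum]
          have : Xᶜ \ (D ∩ Xᶜ) = (Xᶜ).filter (fun g => g ∉ D) := by
            ext g
            simp only [mem_sdiff, mem_inter, mem_filter]
            tauto
          rw [this, sum_filter]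
          refine sum_congr rfl (fun g _ => ?_)
          by_cases hg : g ∈ D <;> simp [hg]
      have e3 : ∑ g ∈ X, (if g ∈ D then P D else 0) * (-log (a g)) =
          P D * (-∑ g ∈ D ∩ X, log (a g)) := by
        have hf : D ∩ X = X.filter (fun g => g ∈ D) := by
          ext g
          simp only [mem_inter, mem_filter]
          tauto
        rw [← sum_neg_distrib, mul_sum, hf, sum_filter]
        refine sum_congr rfl (fun g _ => ?_)
        split_ifs <;> ring
      rw [e2, e3]
      ring
  simp_rw [hlogQ]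
  rw [sum_sub_distrib, sum_add_distrib]
  congr 1
  rw [sum_comm (s := univ) (t := Xᶜ), sum_comm (s := univ) (t := X)]
  have f1 : ∀ g, ∑ D, ((if g ∈ D then P D else 0) * (-log (y g)) +
      (if g ∈ D then 0 else P D) * (-log (1 - y g))) = binEntropy (y g) := by
    intro g
    rw [sum_add_distrib, ← sum_mul, ← sum_mul, ← hy, ← hyc,
      binEntropy_eq_negMulLog_add_negMulLog_one_sub, negMulLog, negMulLog]
    ring
  have f2 : ∀ g, ∑ D, (if g ∈ D then P D else 0) * (-log (a g)) = y g * (-log (a g)) := by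
    intro g
    rw [← sum_mul, ← hy]
  simp_rw [f1, f2]
  rw [add_sub_assoc]
  congr 1
  rcases eq_or_lt_of_le hw0 with hz | hz
  · have hw' : w = 0 := by
      rcases mul_eq_zero.1 hz.symm with h | h
      · exact absurd h hlR.ne'
      · exact h
    have hyz : ∀ g ∈ X, y g = 0 := by
      rw [← hz] at hw
      exact (sum_eq_zero_iff_of_nonneg (fun g _ => hy0 g)).1 hw.symm
    rw [sum_eq_zero (fun g hg => by rw [hyz g hg, zero_mul]),
      sum_eq_zero (fun g hg => by rw [hyz g hg]; simp), hw']
    simp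
  · have hwp : 0 < w := (mul_pos_iff_of_pos_left hlR).1 hz
    have f3 : ∀ g ∈ X, y g * (-log (a g)) = l * negMulLog (y g / l) + y g * log w := by
      intro g _
      rcases eq_or_lt_of_le (hy0 g) with h0 | h0
      · rw [← h0]; simp
      · rw [ha, negMulLog]
        simp only
        rw [Real.log_div h0.ne' hz.ne', Real.log_mul hlR.ne' hwp.ne', Real.log_div h0.ne' hlR.ne']
        field_simp
        ring
    rw [sum_congr rfl f3, sum_add_distrib, ← mul_sum, ← sum_mul, ← hw, negMulLog]
    ring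

end MP_8b6acb_co
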