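import Mathlib
import Pool.Agent.Work.MP_8b6acb_co.Split

/-! Decay of the number of cut edges towards the middle layers. -/

set_option linter.unusedSectionVars false

namespace MP_8b6acb_co

open Finset

variable {α : Type*} [Fintype α] [DecidableEq α]

/-- Truncation of a cut and a flow to the layers `a, …, b`. -/
theorem CutFlow.trunc {A B X : Finset (Finset α)} {M : Finset α → α → ℤ} {q : ℤ}
    (h : CutFlow A B X M q) (a b : ℕ) :
    CutFlow (A.filter (fun u => a ≤ u.card ∧ u.card < b)) (B.filter (fun u => a < u.card ∧ u.card ≤ b))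
      (X.filter (fun u => a < u.card ∧ u.card < b))
      (fun u x => if a ≤ u.card ∧ u.card < b then M u x else 0) q := by
  refine ⟨?_, ?_, ?_, ?_, ?_, ?_, ?_, ?_, ?_, ?_, ?_, ?_, ?_⟩
  · intro u x
    split_ifs
    · exact h.M0 u x
    · exact le_refl _
  · intro u x
    split_ifs
    · exact h.M1 u x
    · norm_num
  · intro u x hx
    rw [h.Mval u x hx]
    simp
  · exact h.AB.mono (filter_subset _ _) (filter_subset _ _)
  · exact h.AX.mono (filter_subset _ _) (filter_subset _ _)
  · exact h.BX.mono (filter_subset _ _) (filter_subset _ _)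
  · intro u x hu hx hB
    rw [mem_filter] at hu hB
    rw [if_pos hu.2]
    exact h.cut u x hu.1 hx hB.1
  · intro u x hx hA hu
    rw [mem_filter, card_insert_of_notMem hx] at hA
    split_ifs with hc
    · apply h.toA u x hx hA.1
      intro huA
      exact hu (mem_filter.2 ⟨huA, hc⟩)
    · rfl
  · intro u x hx hA hu
    rw [mem_filter, card_insert_of_notMem hx] at hA
    split_ifs with hc
    · apply h.toX u x hx hA.1
      intro huA
      exact hu (mem_filter.2 ⟨huA, hc⟩)
    · rfl
  · intro u x hx hu hB
    split_ifs with hc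
    · apply h.toB u x hx
      · rcases hu with h1 | h1
        · exact Or.inl (mem_filter.1 h1).1
        · exact Or.inr (mem_filter.1 h1).1
      · intro hB'
        apply hB
        rw [mem_filter, card_insert_of_notMem hx]
        exact ⟨hB', by omega, by omega⟩
    · rfl
  · intro x hx
    rw [mem_filter] at hx
    rw [← h.inX x hx.1]
    unfold fin
    refine sum_congr rfl (fun y _ => ?_)
    dsimp only
    by_cases hy : y ∈ x
    · rw [if_pos hy, if_pos hy, if_pos]
      rw [card_erase_of_mem hy]
      omega
    · rw [if_neg hy, if_neg hy]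
  · intro x hx
    rw [mem_filter] at hx
    rw [← h.outX x hx.1]
    unfold fout
    refine sum_congr rfl (fun y _ => ?_)
    dsimp only
    rw [if_pos ⟨by omega, hx.2.2⟩]
  · intro w x y hw hx hy hxy hB
    rw [mem_filter] at hw hB
    have hyx : y ∉ insert x w := by
      rw [mem_insert]
      rintro (h1 | h1)
      · exact hxy h1.symm
      · exact hy h1
    rw [card_insert_of_notMem hyx, card_insert_of_notMem hx] at hB
    have h1 := h.conv w x y hw.1 hx hy hxy hB.1
    rw [mem_filter, mem_filter, mem_filter, card_insert_of_notMem hx]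
    rcases h1 with h2 | h2 | h2
    · exact Or.inl ⟨h2, by omega, by omega⟩
    · exact Or.inr (Or.inl ⟨h2, by omega, by omega⟩)
    · exact Or.inr (Or.inr ⟨h2, by omega, by omega⟩)

theorem MinCex.window {q i j : ℕ} {S A : Finset (Finset α)} {φ : Finset α → Finset α}
    (h : MinCex q i j S φ A) (h2 : i + 2 ≤ j) {a b : ℕ} (hia : i ≤ a) (hab : a < b) (hbj : b ≤ j) :
    2 * ∑ v ∈ (Bset q i j (S.image φ) A).filter (fun v => a < v.card ∧ v.card ≤ b), dg A v ≤
      q * (∑ v ∈ (Bset q i j (S.image φ) A).filter (fun v => v.card = a + 1), dg A v +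
        ∑ v ∈ (Bset q i j (S.image φ) A).filter (fun v => v.card = b), dg A v) := by
  classical
  have hne : S.Nonempty := by
    by_contra hc
    rw [not_nonempty_iff_eq_empty] at hc
    have := h.viol
    rw [hc] at this
    simp at this
  obtain ⟨s0, hs0⟩ := hne
  obtain ⟨M, hCF, hsrc, hsnk, hmid, _⟩ := h.cutFlow h2 hs0
  set B := Bset q i j (S.image φ) A with hB
  set X := Xset q i j (S.image φ) A with hX
  have hAc := h.cardA (by omega)
  have hst := (hCF.trunc a b).star
  set A' := A.filter (fun u => a ≤ u.card ∧ u.card < b) with hA'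
  set B' := B.filter (fun u => a < u.card ∧ u.card ≤ b) with hB'
  set X' := X.filter (fun u => a < u.card ∧ u.card < b) with hX'
  set M' : Finset α → α → ℤ := fun u x => if a ≤ u.card ∧ u.card < b then M u x else 0 with hM'
  have hM'0 : ∀ u x, 0 ≤ M' u x := (hCF.trunc a b).M0
  have hfin0 : ∀ v, 0 ≤ fin M' v := fun v => sum_nonneg (fun x _ => by
    split_ifs
    · exact hM'0 _ _
    · exact le_refl _)
  have hfout0 : ∀ v, 0 ≤ fout M' v := fun v => sum_nonneg (fun x _ => hM'0 _ _)
  have hfout : ∀ u : Finset α, a ≤ u.card → u.card < b → fout M' u = fout M u := by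
    intro u h3 h4
    unfold fout
    refine sum_congr rfl (fun x _ => ?_)
    simp only [hM']
    rw [if_pos ⟨h3, h4⟩]
  have hfin : ∀ u : Finset α, a < u.card → u.card ≤ b → fin M' u = fin M u := by
    intro u h3 h4
    unfold fin
    refine sum_congr rfl (fun x _ => ?_)
    simp only [hM']
    by_cases hx : x ∈ u
    · rw [if_pos hx, if_pos hx, if_pos]
      rw [card_erase_of_mem hx]
      omega
    · rw [if_neg hx, if_neg hx]
  have hA_S : ∀ u ∈ A, fout M u ≤ q := by
    intro u hu
    rcases h.Amem u hu with h3 | h3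
    · rw [(hsrc u h3).2]
      split_ifs <;> simp
    · exact (hmid u h3).2
  have hB_T : ∀ v ∈ B, fin M v ≤ q := by
    intro v hv
    rw [hB, mem_B] at hv
    rcases hv.1 with h3 | h3
    · rw [← (hmid v h3).1]; exact (hmid v h3).2
    · rw [(hsnk v h3).2]
      split_ifs <;> simp
  have hdgB : ∀ v ∈ B', dg A' v = dg A v := by
    intro v hv
    rw [hB', mem_filter] at hv
    unfold dg
    congr 1
    ext x
    rw [mem_filter (s := v), mem_filter (s := v)]
    refine and_congr_right (fun hx => ?_)
    rw [hA', mem_filter, card_erase_of_mem hx]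
    constructor
    · exact fun h3 => h3.1
    · exact fun h3 => ⟨h3, by omega, by omega⟩
  -- the left hand side
  have e0 : ∑ u, ∑ x, kk A' B' u x = ((∑ v ∈ B', dg A v : ℕ) : ℤ) := by
    have h3 := kk_col A' B' (fun _ => 1)
    simp only [mul_one] at h3
    rw [h3, ← sum_mem B']
    push_cast
    refine sum_congr rfl (fun v _ => ?_)
    unfold ind
    by_cases hv : v ∈ B'
    · rw [if_pos hv, if_pos hv, hdgB v hv]
      ring
    · rw [if_neg hv, if_neg hv]
      ring
  have e1 : 0 ≤ ∑ u, ∑ x, kk A' X' u x * ((q : ℤ) - fout M' u) := by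
    refine sum_nonneg (fun u _ => ?_)
    rw [← sum_mul, kk_row]
    by_cases hu : u ∈ A'
    · have hu' := hu
      rw [hA', mem_filter] at hu'
      have h3 := hA_S u hu'.1
      rw [hfout u hu'.2.1 hu'.2.2]
      unfold ind
      rw [if_pos hu]
      exact mul_nonneg (by positivity) (by linarith)
    · simp [ind, hu]
  have e2 : 0 ≤ ∑ u, ∑ x, kk X' B' u x * ((q : ℤ) - fin M' (insert x u)) := by
    rw [kk_col X' B' (fun v => (q : ℤ) - fin M' v)]
    refine sum_nonneg (fun v _ => ?_)
    by_cases hv : v ∈ B'
    · have hv' := hv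
      rw [hB', mem_filter] at hv'
      have h3 := hB_T v hv'.1
      rw [hfin v hv'.2.1 hv'.2.2]
      unfold ind
      rw [if_pos hv]
      exact mul_nonneg (by positivity) (by linarith)
    · simp [ind, hv]
  have e3 : ∑ u, ∑ x, kk A' B' u x * (fout M' u - fin M' u) ≤
      ((q * ∑ v ∈ B.filter (fun v => v.card = a + 1), dg A v : ℕ) : ℤ) := by
    have h3 : ∀ u, ∑ x, kk A' B' u x * (fout M' u - fin M' u) ≤
        if u ∈ A' then (q : ℤ) * ((if u.card = a then 1 else 0) * ub B' u : ℕ) else 0 := by
      intro u
      rw [← sum_mul, kk_row]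
      by_cases hu : u ∈ A'
      · rw [if_pos hu]
        have hu' := hu
        rw [hA', mem_filter] at hu'
        unfold ind
        rw [if_pos hu]
        by_cases hua : u.card = a
        · rw [if_pos hua]
          have h4 := hA_S u hu'.1
          rw [← hfout u hu'.2.1 hu'.2.2] at h4
          have h5 := hfin0 u
          push_cast
          have h6 : (0 : ℤ) ≤ (ub B' u : ℤ) := by positivity
          nlinarith
        · have h4 := hfout u hu'.2.1 hu'.2.2
          have h5 := hfin u (by omega) hu'.2.2.le
          have h6 : u ∈ Mid i j := by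
            rcases h.Amem u hu'.1 with h7 | h7
            · have := h.mat.cS u h7
              omega
            · exact h7
          rw [h4, h5, (hmid u h6).1]
          simp [hua]
      · rw [if_neg hu]
        simp [ind, hu]
    refine (sum_le_sum (fun u _ => h3 u)).trans ?_
    rw [sum_mem A', ← mul_sum, ← Nat.cast_sum, ← Nat.cast_mul, Nat.cast_le]
    apply Nat.mul_le_mul_left
    rw [sum_ub_eq A' B' (fun n => if n = a then 1 else 0), ← sum_mem B',
      ← sum_mem (B.filter (fun v => v.card = a + 1))]
    refine sum_le_sum (fun v _ => ?_)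
    by_cases hv : v ∈ B'
    · rw [if_pos hv, hdgB v hv]
      rw [hB', mem_filter] at hv
      by_cases hva : v.card = a + 1
      · rw [if_pos (by omega : v.card - 1 = a), if_pos (mem_filter.2 ⟨hv.1, hva⟩), one_mul]
      · rw [if_neg (by omega : ¬ v.card - 1 = a), zero_mul]
        exact Nat.zero_le _
    · rw [if_neg hv]
      exact Nat.zero_le _
  have e4 : ∑ u, ∑ x, kk A' B' u x * (fin M' (insert x u) - fout M' (insert x u)) ≤
      ((q * ∑ v ∈ B.filter (fun v => v.card = b), dg A v : ℕ) : ℤ) := by
    rw [kk_col A' B' (fun v => fin M' v - fout M' v)]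
    push_cast
    rw [mul_sum, ← sum_mem (B.filter (fun v => v.card = b))]
    refine sum_le_sum (fun v _ => ?_)
    by_cases hv : v ∈ B'
    · rw [hdgB v hv]
      have hv' := hv
      rw [hB', mem_filter] at hv'
      unfold ind
      rw [if_pos hv]
      by_cases hvb : v.card = b
      · rw [if_pos (mem_filter.2 ⟨hv'.1, hvb⟩)]
        have h4 := hB_T v hv'.1
        rw [← hfin v hv'.2.1 hv'.2.2] at h4
        have h5 := hfout0 v
        have h6 : (0 : ℤ) ≤ (dg A v : ℤ) := by positivity
        nlinarith
      · have hnv : v ∉ B.filter (fun v => v.card = b) := fun hh => hvb (mem_filter.1 hh).2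
        rw [if_neg hnv]
        have h4 := hfout v (by omega) (by omega)
        have h5 := hfin v hv'.2.1 hv'.2.2
        have h6 : v ∈ Mid i j := by
          have h7 := hv'.1
          rw [hB, mem_B] at h7
          rcases h7.1 with h8 | h8
          · exact h8
          · have := h.cardT v h8
            omega
        rw [h4, h5, (hmid v h6).1]
        simp
    · have : (0 : ℤ) ≤ if v ∈ B.filter (fun v => v.card = b) then (q : ℤ) * (dg A v : ℤ) else 0 := by
        split_ifs <;> positivity
      simpa [ind, hv] using this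
  rw [e0] at hst
  have e5 : (0 : ℤ) ≤ 2 * ((q : ℤ) * X'.card) := by positivity
  rw [← Nat.cast_le (α := ℤ), mul_add]
  push_cast
  push_cast at hst e3 e4
  linarith

/-- Cut edges between the layers `i + x` and `j - x`. -/
def Win (q i j : ℕ) (T A : Finset (Finset α)) (x : ℕ) : ℕ :=
  ∑ v ∈ (Bset q i j T A).filter (fun v => i + x < v.card ∧ v.card + x ≤ j), dg A v

theorem MinCex.win_step {q i j : ℕ} {S A : Finset (Finset α)} {φ : Finset α → Finset α}
    (h : MinCex q i j S φ A) {x : ℕ} (hx : i + 2 * x + 2 ≤ j) :
    q * Win q i j (S.image φ) A (x + 1) + 2 * Win q i j (S.image φ) A x ≤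
      q * Win q i j (S.image φ) A x := by
  have h1 := h.window (by omega) (a := i + x) (b := j - x) (by omega) (by omega) (by omega)
  set B := Bset q i j (S.image φ) A with hB
  have e1 : B.filter (fun v => i + x < v.card ∧ v.card ≤ j - x) =
      B.filter (fun v => i + x < v.card ∧ v.card + x ≤ j) := by
    apply filter_congr
    intro v _
    omega
  have e2 : ∑ v ∈ B.filter (fun v => i + x < v.card ∧ v.card + x ≤ j), dg A v =
      ∑ v ∈ B.filter (fun v => i + (x + 1) < v.card ∧ v.card + (x + 1) ≤ j), dg A v +
      (∑ v ∈ B.filter (fun v => v.card = i + x + 1), dg A v +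
        ∑ v ∈ B.filter (fun v => v.card = j - x), dg A v) := by
    rw [sum_filter, sum_filter, sum_filter, sum_filter, ← sum_add_distrib, ← sum_add_distrib]
    refine sum_congr rfl (fun v _ => ?_)
    by_cases c1 : i + x < v.card ∧ v.card + x ≤ j
    · rw [if_pos c1]
      by_cases c2 : v.card = i + x + 1
      · rw [if_neg (by omega), if_pos c2, if_neg (by omega)]
        ring
      · by_cases c3 : v.card = j - x
        · rw [if_neg (by omega), if_neg c2, if_pos c3]
          ring
        · rw [if_pos (by omega), if_neg c2, if_neg c3]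
          ring
    · rw [if_neg c1, if_neg (by omega), if_neg (by omega), if_neg (by omega)]
      rfl
  unfold Win
  rw [e1] at h1
  rw [← hB]
  have h3 := congrArg (fun n => q * n) e2
  simp only [mul_add] at h3 h1 ⊢
  omega

theorem MinCex.win_decay {q i j : ℕ} {S A : Finset (Finset α)} {φ : Finset α → Finset α}
    (h : MinCex q i j S φ A) (hq : 2 ≤ q) (n : ℕ) (hn : i + 2 * n ≤ j) :
    (Win q i j (S.image φ) A n : ℝ) ≤ Real.exp (-(2 * n / q)) * Win q i j (S.image φ) A 0 := by
  have hqR : (0 : ℝ) < q := by positivity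
  induction n with
  | zero => simp
  | succ n ih =>
    have h1 := h.win_step (x := n) (by omega)
    have h2 : (q : ℝ) * Win q i j (S.image φ) A (n + 1) + 2 * Win q i j (S.image φ) A n ≤
        q * Win q i j (S.image φ) A n := by exact_mod_cast h1
    have h3 : (Win q i j (S.image φ) A (n + 1) : ℝ) ≤ (1 - 2 / q) * Win q i j (S.image φ) A n := by
      have h4 : (q : ℝ) * Win q i j (S.image φ) A (n + 1) ≤
          q * ((1 - 2 / q) * Win q i j (S.image φ) A n) := by
        have : (q : ℝ) * ((1 - 2 / q) * Win q i j (S.image φ) A n) =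
            q * Win q i j (S.image φ) A n - 2 * Win q i j (S.image φ) A n := by
          field_simp
        linarith
      exact le_of_mul_le_mul_left h4 hqR
    have h5 : (1 : ℝ) - 2 / q ≤ Real.exp (-(2 / q)) := by
      have := Real.add_one_le_exp (-(2 / q : ℝ))
      linarith
    have h6 : (0 : ℝ) ≤ Win q i j (S.image φ) A n := by positivity
    calc (Win q i j (S.image φ) A (n + 1) : ℝ) ≤ (1 - 2 / q) * Win q i j (S.image φ) A n := h3
      _ ≤ Real.exp (-(2 / q)) * Win q i j (S.image φ) A n := mul_le_mul_of_nonneg_right h5 h6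
      _ ≤ Real.exp (-(2 / q)) * (Real.exp (-(2 * n / q)) * Win q i j (S.image φ) A 0) :=
          mul_le_mul_of_nonneg_left (ih (by omega)) (Real.exp_pos _).le
      _ = _ := by
          rw [← mul_assoc, ← Real.exp_add]
          congr 2
          push_cast
          ring

end MP_8b6acb_co
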