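import Mathlib
import Pool.Agent.Work.MP_8b6acb_co.Window

/-! The recursion step, and a linear number of edge-disjoint systems. -/

set_option linter.unusedSectionVars false

namespace MP_8b6acb_co

open Finset

variable {α : Type*} [Fintype α] [DecidableEq α]

theorem MinCex.win_zero {q i j : ℕ} {S A : Finset (Finset α)} {φ : Finset α → Finset α}
    (h : MinCex q i j S φ A) (hij : i < j) :
    Win q i j (S.image φ) A 0 = ∑ v ∈ Bset q i j (S.image φ) A, dg A v := by
  unfold Win
  congr 1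
  rw [filter_eq_self]
  intro v hv
  rw [mem_B] at hv
  rcases hv.1 with h3 | h3
  · rw [mem_Mid] at h3; omega
  · rw [h.cardT v h3]; omega

theorem PP_step {q p c w x i j : ℕ} (hq : 2 ≤ q) (hp : 1 ≤ p) (hc : 1 ≤ c) (hw : 2 * c ≤ w + 1)
    (hw1 : 1 ≤ w) (hP : ∀ i, PP α p i (i + w)) (hij : i + 2 * (x + w) ≤ j)
    (hqc : q ≤ c) (hpc : p ≤ c)
    (hnum : ((c : ℝ) - p) * q * Real.exp (-(2 * x / q)) ≤ p * ((c : ℝ) - q)) : PP α q i j := by
  classical
  by_contra hcon
  obtain ⟨S, φ, A, h⟩ := exists_minCex hcon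
  have hsplit := h.split hc hw hw1 hP (k := i + x + w) (by omega) (by omega)
  have hdecay := h.win_decay hq x (by omega)
  have hzero := h.win_zero (by omega)
  have hdel := h.del_add
  have hdp := h.del_pos
  have hcost := cost_B q i j S A φ
  set T := S.image φ with hT
  set B := Bset q i j T A with hB
  set X := Xset q i j T A with hX
  set δ := del q i j S φ A with hδ
  set e := ∑ v ∈ B, dg A v with he
  have hcost' : cost q i j T A = e + q * X.card := by
    have h1 : ∑ v, ind B v * (dg A v : ℤ) = (e : ℤ) := by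
      rw [he, ← sum_mem B]
      push_cast
      refine sum_congr rfl (fun v _ => ?_)
      unfold ind
      split_ifs <;> ring
    rw [h1] at hcost
    exact_mod_cast hcost
  -- the near edges
  have hnear : ∑ v ∈ B, (if i + x + w < v.card + w ∧ v.card ≤ i + x + w + w then c else p) * dg A v ≤
      p * e + (c - p) * Win q i j T A x := by
    unfold Win
    rw [he, mul_sum, mul_sum, sum_filter, ← sum_add_distrib]
    refine sum_le_sum (fun v _ => ?_)
    by_cases h1 : i + x + w < v.card + w ∧ v.card ≤ i + x + w + w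
    · rw [if_pos h1, if_pos (by omega), ← add_mul]
      apply Nat.mul_le_mul_right
      omega
    · rw [if_neg h1]
      exact Nat.le_add_right _ _
  have h1 : (p : ℝ) * c * S.card ≤ p * c * X.card + (p * e + ((c : ℝ) - p) * Win q i j T A x) := by
    have h2 : p * c * S.card ≤ p * c * X.card + (p * e + (c - p) * Win q i j T A x) := by
      omega
    have h3 : ((p * c * S.card : ℕ) : ℝ) ≤
        ((p * c * X.card + (p * e + (c - p) * Win q i j T A x) : ℕ) : ℝ) := by exact_mod_cast h2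
    push_cast [Nat.cast_sub hpc] at h3
    exact h3
  rw [hzero] at hdecay
  rw [hcost'] at hdel
  have h4 : (δ : ℝ) + (e + q * X.card) = q * S.card := by exact_mod_cast hdel
  have h5 : (1 : ℝ) ≤ δ := by exact_mod_cast hdp
  have hpR : (1 : ℝ) ≤ p := by exact_mod_cast hp
  have hcR : (1 : ℝ) ≤ c := by exact_mod_cast hc
  have hqR : (0 : ℝ) < q := by positivity
  have hpcR : (p : ℝ) ≤ c := by exact_mod_cast hpc
  have he0 : (0 : ℝ) ≤ e := by positivity
  -- multiply by q
  have h6 : (p : ℝ) * c * (q * S.card) ≤ p * c * (q * X.card) + p * q * e +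
      ((c : ℝ) - p) * q * Win q i j T A x := by
    have := mul_le_mul_of_nonneg_left h1 hqR.le
    linarith
  rw [← h4] at h6
  have h7 : ((c : ℝ) - p) * q * Win q i j T A x ≤
      ((c : ℝ) - p) * q * (Real.exp (-(2 * x / q)) * e) :=
    mul_le_mul_of_nonneg_left hdecay (mul_nonneg (by linarith) hqR.le)
  have h8 : ((c : ℝ) - p) * q * Real.exp (-(2 * x / q)) * e ≤ p * ((c : ℝ) - q) * e :=
    mul_le_mul_of_nonneg_right hnum he0
  have h9 : 0 < (p : ℝ) * c * δ := by positivity
  nlinarith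

theorem exp_bound {q x : ℕ} (hq : 0 < q) (hx : 6 * q ≤ 5 * x) :
    Real.exp (-(2 * x / q)) ≤ 1 / 11 := by
  have hqR : (0 : ℝ) < q := by exact_mod_cast hq
  have h1 : (12 / 5 : ℝ) ≤ 2 * x / q := by
    rw [div_le_div_iff₀ (by norm_num) hqR]
    have : (6 : ℝ) * q ≤ 5 * x := by exact_mod_cast hx
    linarith
  have h2 : Real.exp (-(2 * x / q)) ≤ Real.exp (-(12 / 5)) := Real.exp_le_exp.2 (by linarith)
  refine h2.trans ?_
  rw [Real.exp_neg, ← one_div]
  apply one_div_le_one_div_of_le (by norm_num)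
  by_contra hc
  push Not at hc
  have h3 : Real.exp (12 / 5) ^ 5 < 11 ^ 5 := by
    apply pow_lt_pow_left₀ hc (Real.exp_pos _).le (by norm_num)
  rw [← Real.exp_nat_mul] at h3
  have h4 : ((5 : ℕ) : ℝ) * (12 / 5) = ((12 : ℕ) : ℝ) * 1 := by norm_num
  rw [h4, Real.exp_nat_mul] at h3
  have h5 := Real.exp_one_gt_d9
  have h6 : (2.7182818283 : ℝ) ^ 12 < Real.exp 1 ^ 12 := by
    apply pow_lt_pow_left₀ h5 (by norm_num) (by norm_num)
  norm_num at h6 h3
  linarith

theorem num_check {q : ℕ} (hq : 4 ≤ q) :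
    ((4 * q - (6 * q + 4) / 5 + 1) / 2 - max 3 ((4 * q - (6 * q + 4) / 5) / 8)) * q ≤
      11 * (max 3 ((4 * q - (6 * q + 4) / 5) / 8) * ((4 * q - (6 * q + 4) / 5 + 1) / 2 - q)) := by
  by_cases h : q < 40
  · interval_cases q <;> norm_num
  · push Not at h
    obtain ⟨w, hw⟩ : ∃ w, w = 4 * q - (6 * q + 4) / 5 := ⟨_, rfl⟩
    rw [← hw]
    have h1 : 14 * q ≤ 5 * w + 4 := by omega
    have h2 : 5 * w ≤ 14 * q := by omega
    obtain ⟨c, hc⟩ : ∃ c, c = (w + 1) / 2 := ⟨_, rfl⟩
    obtain ⟨p, hp⟩ : ∃ p, p = w / 8 := ⟨_, rfl⟩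
    rw [← hc, ← hp, max_eq_right (by omega)]
    have h3 : w ≤ 2 * c := by omega
    have h4 : 2 * c ≤ w + 1 := by omega
    have h5 : w ≤ 8 * p + 7 := by omega
    have h6 : 8 * p ≤ w := by omega
    have h7 : q ≤ c := by omega
    have h8 : p ≤ c := by omega
    zify [h7, h8]
    have a1 : (14 : ℤ) * q ≤ 5 * w + 4 := by exact_mod_cast h1
    have a2 : (5 : ℤ) * w ≤ 14 * q := by exact_mod_cast h2
    have a3 : (w : ℤ) ≤ 2 * c := by exact_mod_cast h3
    have a4 : (2 : ℤ) * c ≤ w + 1 := by exact_mod_cast h4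
    have a5 : (w : ℤ) ≤ 8 * p + 7 := by exact_mod_cast h5
    have a6 : (8 : ℤ) * p ≤ w := by exact_mod_cast h6
    have a7 : (40 : ℤ) ≤ q := by exact_mod_cast h
    -- c - p ≤ 1.05 q + 1.5, p ≥ 0.35 q - 1, c - q ≥ 0.4 q - 0.4
    have b1 : (20 : ℤ) * (c - p) ≤ 21 * q + 30 := by linarith
    have b2 : (7 : ℤ) * q - 20 ≤ 20 * p := by linarith
    have b3 : (2 : ℤ) * q - 2 ≤ 5 * (c - q) := by linarith
    have b4 : (20 : ℤ) * ((c - p) * q) ≤ (21 * q + 30) * q := by nlinarith
    have b5 : ((7 : ℤ) * q - 20) * (2 * q - 2) ≤ 20 * p * (5 * (c - q)) := by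
      apply mul_le_mul b2 b3 (by linarith) (by linarith)
    nlinarith

theorem PP_eight : ∀ q i j : ℕ, i + 8 * q ≤ j → i + 2 ≤ j → PP α q i j := by
  intro q
  induction q using Nat.strong_induction_on with
  | _ q ih =>
    intro i j hij h2
    rcases Nat.lt_or_ge q 4 with hq | hq
    · rcases Nat.lt_or_ge q 3 with hq3 | hq3
      · exact PP_le_two (by omega) h2
      · have : q = 3 := by omega
        subst this
        obtain ⟨l, rfl⟩ : ∃ l, j = i + 3 + l := ⟨j - (i + 3), by omega⟩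
        exact PP_three l i
    · obtain ⟨x, hx⟩ : ∃ x, x = (6 * q + 4) / 5 := ⟨_, rfl⟩
      obtain ⟨w, hw⟩ : ∃ w, w = 4 * q - x := ⟨_, rfl⟩
      obtain ⟨c, hc⟩ : ∃ c, c = (w + 1) / 2 := ⟨_, rfl⟩
      obtain ⟨p, hp⟩ : ∃ p, p = max 3 (w / 8) := ⟨_, rfl⟩
      have hP : ∀ i, PP α p i (i + w) := by
        intro i
        rcases le_total 3 (w / 8) with h3 | h3
        · rw [max_eq_right h3] at hp
          rw [hp]
          exact ih (w / 8) (by omega) i (i + w) (by omega) (by omega)
        · rw [max_eq_left h3] at hp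
          rw [hp]
          obtain ⟨l, hl⟩ : ∃ l, i + w = i + 3 + l := ⟨w - 3, by omega⟩
          rw [hl]
          exact PP_three l i
      have hp3 : 3 ≤ p := by rw [hp]; exact le_max_left _ _
      have hpw : p ≤ w / 8 + 3 := by rw [hp]; exact max_le (by omega) (by omega)
      have hpc : p ≤ c := by
        rw [hp]
        exact max_le (by omega) (by omega)
      have hqc : q ≤ c := by omega
      apply PP_step (p := p) (c := c) (w := w) (x := x) (by omega) (by omega) (by omega) (by omega)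
        (by omega) hP (by omega) hqc hpc
      have h1 := num_check hq
      rw [← hx, ← hw, ← hc, ← hp] at h1
      have h3 : ((c : ℝ) - p) * q ≤ 11 * (p * ((c : ℝ) - q)) := by
        have h4 : (((c - p) * q : ℕ) : ℝ) ≤ ((11 * (p * (c - q)) : ℕ) : ℝ) := by exact_mod_cast h1
        push_cast [Nat.cast_sub hpc, Nat.cast_sub hqc] at h4
        exact h4
      have h5 := exp_bound (q := q) (x := x) (by omega) (by omega)
      have h6 : (0 : ℝ) ≤ ((c : ℝ) - p) * q := by
        have : (p : ℝ) ≤ c := by exact_mod_cast hpc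
        exact mul_nonneg (by linarith) (by positivity)
      calc ((c : ℝ) - p) * q * Real.exp (-(2 * x / q)) ≤ ((c : ℝ) - p) * q * (1 / 11) :=
            mul_le_mul_of_nonneg_left h5 h6
        _ ≤ _ := by linarith

end MP_8b6acb_co
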