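import Mathlib
import Pool.Agent.Work.MP_8b6acb_co.Calc
import Pool.Agent.Work.MP_8b6acb_co.Layer

/-! The backward step with heavy vertices of the first layer. -/

set_option linter.unusedSectionVars false

namespace MP_8b6acb_co

open Finset Real

variable {α : Type*} [Fintype α] [DecidableEq α]

/-- The directions `g` of `z \ s` for which `s + g` is heavy. -/
def hv (X : Finset (Finset α)) (s z : Finset α) : Finset α :=
  (z \ s).filter (fun g => insert g s ∈ X)

/-- The directions `g` of `z \ s` for which `s + g` is light. -/
def lt' (X : Finset (Finset α)) (s z : Finset α) : Finset α :=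
  (z \ s).filter (fun g => insert g s ∉ X)

theorem hv_lt_card (X : Finset (Finset α)) (s z : Finset α) :
    (hv X s z).card + (lt' X s z).card = (z \ s).card := by
  unfold hv lt'
  exact card_filter_add_card_filter_not _

/-- The local backward inequality. -/
theorem local_back (z : Finset α) (n : ℕ) (hn : 0 < n) (U : Finset α → ℝ) (hU : ∀ s, 0 ≤ U s)
    (hs : ∀ s, U s ≠ 0 → s ⊆ z ∧ (z \ s).card = n) (X : Finset (Finset α)) (f : α → ℝ)
    (hf : ∀ g ∈ z, f g = ∑ s, if g ∈ s then 0 else U s) (F : ℝ) (hF : F = n * ∑ s, U s)
    (hfF : ∑ g ∈ z, f g = F) :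
    ∑ v ∈ X with v ⊆ z, (∑ g ∈ v, negMulLog (U (v.erase g)) -
        negMulLog (∑ g ∈ v, U (v.erase g))) +
      ∑ s, n * U s * ((1 - (hv X s z).card / n) * log n + negMulLog ((hv X s z).card / n)) ≤
    ∑ g ∈ z, negMulLog (f g) - negMulLog F := by
  have hnR : (0 : ℝ) < n := by exact_mod_cast hn
  rcases eq_or_lt_of_le (sum_nonneg (fun s (_ : s ∈ (univ : Finset (Finset α))) => hU s)) with
    hz | hpos
  · have hU0 : ∀ s, U s = 0 := fun s =>
      (sum_eq_zero_iff_of_nonneg (fun s _ => hU s)).1 hz.symm s (mem_univ s)
    have hF0 : F = 0 := by rw [hF, ← hz, mul_zero]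
    have hf0 : ∀ g ∈ z, f g = 0 := by
      intro g hg
      rw [hf g hg]
      apply sum_eq_zero
      intro s _
      rw [hU0]
      simp
    have e0 : ∑ g ∈ z, negMulLog (f g) = 0 :=
      sum_eq_zero (fun g hg => by rw [hf0 g hg, negMulLog_zero])
    rw [hF0, e0]
    simp [hU0]
  · have hFp : 0 < F := by rw [hF]; exact mul_pos hnR hpos
    set P : α → ℝ := fun g => f g / F with hP
    have hfn : ∀ g ∈ z, 0 ≤ f g := by
      intro g hg
      rw [hf g hg]
      refine sum_nonneg (fun s _ => ?_)
      split_ifs
      · exact le_refl _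
      · exact hU s
    have hPn : ∀ g ∈ z, 0 ≤ P g := fun g hg => div_nonneg (hfn g hg) hFp.le
    have hPsum : ∑ g ∈ z, P g = 1 := by
      simp only [hP]
      rw [← sum_div, hfF, div_self hFp.ne']
    have hPpos : ∀ s, 0 < U s → ∀ g ∈ z, g ∉ s → 0 < P g := by
      intro s hUs g hg hgs
      refine div_pos ?_ hFp
      rw [hf g hg]
      refine lt_of_lt_of_le hUs ?_
      have := single_le_sum (f := fun s => if g ∈ s then 0 else U s) (s := univ)
        (fun s _ => by split_ifs; exacts [le_refl _, hU s]) (mem_univ s)
      simpa [hgs] using this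
    -- the right side
    have hR : ∑ g ∈ z, negMulLog (f g) - negMulLog F =
        ∑ s, ∑ g ∈ z \ s, U s * (-log (P g)) := by
      have e1 : ∑ g ∈ z, negMulLog (f g) - negMulLog F = ∑ g ∈ z, f g * (-log (P g)) := by
        have e2 : ∀ g ∈ z, f g * (-log (P g)) = negMulLog (f g) + f g * log F := by
          intro g hg
          rcases eq_or_lt_of_le (hfn g hg) with h0 | h0
          · rw [← h0]; simp
          · simp only [hP]
            rw [Real.log_div h0.ne' hFp.ne', negMulLog]
            ring
        rw [sum_congr rfl e2, sum_add_distrib, ← sum_mul, hfF, negMulLog]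
        ring
      rw [e1]
      have e3 : ∀ g ∈ z, f g * (-log (P g)) = ∑ s, (if g ∈ s then 0 else U s * (-log (P g))) := by
        intro g hg
        rw [hf g hg, sum_mul]
        refine sum_congr rfl (fun s _ => ?_)
        split_ifs
        · rw [zero_mul]
        · rfl
      rw [sum_congr rfl e3, sum_comm]
      refine sum_congr rfl (fun s _ => ?_)
      have : z \ s = z.filter (fun g => g ∉ s) := by ext g; simp
      rw [this, sum_filter]
      refine sum_congr rfl (fun g _ => ?_)
      by_cases hg : g ∈ s <;> simp [hg]
    -- heavy and light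
    have hsplit : ∀ s, ∑ g ∈ z \ s, U s * (-log (P g)) =
        ∑ g ∈ hv X s z, U s * (-log (P g)) + ∑ g ∈ lt' X s z, U s * (-log (P g)) := by
      intro s
      unfold hv lt'
      exact (sum_filter_add_sum_filter_not _ _ _).symm
    -- reindexing of the heavy pairs
    have hre : ∀ H : Finset α → α → ℝ, (∀ s g, U s = 0 → H s g = 0) →
        ∑ s, ∑ g ∈ hv X s z, H s g =
        ∑ v ∈ X with v ⊆ z, ∑ g ∈ v, H (v.erase g) g := by
      intro H hH
      have hl : ∑ s, ∑ g ∈ hv X s z, H s g =
          ∑ s ∈ univ.filter (fun s => U s ≠ 0), ∑ g ∈ hv X s z, H s g := by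
        rw [sum_filter]
        refine sum_congr rfl (fun s _ => ?_)
        by_cases h0 : U s = 0
        · simp only [h0, ne_eq, not_true_eq_false, if_false]
          exact sum_eq_zero (fun g _ => hH s g h0)
        · simp [h0]
      have hr : ∑ v ∈ X with v ⊆ z, ∑ g ∈ v, H (v.erase g) g =
          ∑ v ∈ X with v ⊆ z, ∑ g ∈ v with U (v.erase g) ≠ 0, H (v.erase g) g := by
        refine sum_congr rfl (fun v _ => ?_)
        rw [sum_filter]
        refine sum_congr rfl (fun g _ => ?_)
        by_cases h0 : U (v.erase g) = 0
        · simp [h0, hH _ _ h0]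
        · simp [h0]
      rw [hl, hr, sum_sigma', sum_sigma']
      refine sum_bij' (fun x _ => ⟨insert x.2 x.1, x.2⟩) (fun x _ => ⟨x.1.erase x.2, x.2⟩)
        ?_ ?_ ?_ ?_ ?_
      · rintro ⟨s, g⟩ hx
        simp only [mem_sigma, mem_filter, mem_univ, true_and, hv, mem_sdiff] at hx ⊢
        obtain ⟨h0, ⟨hgz, hgs⟩, hX⟩ := hx
        refine ⟨⟨hX, insert_subset hgz (hs s h0).1⟩, mem_insert_self _ _, ?_⟩
        rwa [erase_insert hgs]
      · rintro ⟨v, g⟩ hx
        simp only [mem_sigma, mem_filter, mem_univ, true_and, hv, mem_sdiff] at hx ⊢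
        obtain ⟨⟨hX, hvz⟩, hgv, h0⟩ := hx
        refine ⟨h0, ⟨hvz hgv, by simp⟩, ?_⟩
        rwa [insert_erase hgv]
      · rintro ⟨s, g⟩ hx
        simp only [mem_sigma, mem_filter, mem_univ, true_and, hv, mem_sdiff] at hx ⊢
        rw [erase_insert hx.2.1.2]
      · rintro ⟨v, g⟩ hx
        simp only [mem_sigma, mem_filter] at hx ⊢
        rw [insert_erase hx.2.1]
      · rintro ⟨s, g⟩ hx
        simp only [mem_sigma, mem_filter, mem_univ, true_and, hv, mem_sdiff] at hx ⊢
        rw [erase_insert hx.2.1.2]
    set Rv : Finset α → ℝ := fun v => ∑ g ∈ v, P g with hRv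
    set Rs : Finset α → ℝ := fun s => 1 - ∑ g ∈ lt' X s z, P g with hRs
    have hRsn : ∀ s, 0 ≤ Rs s := by
      intro s
      simp only [hRs]
      rw [← hPsum]
      have h1 : lt' X s z ⊆ z := (filter_subset _ _).trans sdiff_subset
      have := sum_le_sum_of_subset_of_nonneg (f := P) h1 (fun g hg _ => hPn g hg)
      linarith
    have hRle : ∀ v ⊆ z, ∀ g ∈ v, v ∈ X → Rv v ≤ Rs (v.erase g) := by
      intro v hvz g hg hvX
      simp only [hRv, hRs]
      rw [← hPsum, ← sum_sdiff hvz]
      have : ∑ h ∈ lt' X (v.erase g) z, P h ≤ ∑ h ∈ z \ v, P h := by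
        apply sum_le_sum_of_subset_of_nonneg
        · intro h hh
          simp only [lt', mem_filter, mem_sdiff, mem_erase, not_and] at hh
          rw [mem_sdiff]
          refine ⟨hh.1.1, fun hhv => ?_⟩
          by_cases he : h = g
          · subst he
            exact hh.2 (by rwa [insert_erase hg])
          · exact hh.1.2 he hhv
        · intro h hh _
          exact hPn h (mem_sdiff.1 hh).1
      linarith
    -- heavy vertices
    have hheavy : ∀ v ∈ X.filter (fun v => v ⊆ z), (∑ g ∈ v, negMulLog (U (v.erase g)) -
        negMulLog (∑ g ∈ v, U (v.erase g))) + ∑ g ∈ v, U (v.erase g) * (-log (Rs (v.erase g))) ≤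
        ∑ g ∈ v, U (v.erase g) * (-log (P g)) := by
      intro v hv
      obtain ⟨hvX, hvz⟩ := mem_filter.1 hv
      set N := ∑ g ∈ v, U (v.erase g) with hN
      have hNn : 0 ≤ N := sum_nonneg (fun g _ => hU _)
      rcases eq_or_lt_of_le hNn with h0 | h0
      · have hz0 : ∀ g ∈ v, U (v.erase g) = 0 :=
          (sum_eq_zero_iff_of_nonneg (fun g _ => hU _)).1 (hN.symm.trans h0.symm)
        have z1 : ∑ g ∈ v, negMulLog (U (v.erase g)) = 0 :=
          sum_eq_zero (fun g hg => by rw [hz0 g hg, negMulLog_zero])
        have z2 : ∑ g ∈ v, U (v.erase g) * (-log (Rs (v.erase g))) = 0 :=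
          sum_eq_zero (fun g hg => by rw [hz0 g hg, zero_mul])
        have z3 : ∑ g ∈ v, U (v.erase g) * (-log (P g)) = 0 :=
          sum_eq_zero (fun g hg => by rw [hz0 g hg, zero_mul])
        rw [← h0, z1, z2, z3]
        simp
      · have hRvp : 0 < Rv v := by
          obtain ⟨g, hg, hne⟩ := exists_ne_zero_of_sum_ne_zero (hN ▸ h0.ne')
          have h1 : 0 < U (v.erase g) := lt_of_le_of_ne (hU _) (Ne.symm hne)
          refine lt_of_lt_of_le (hPpos _ h1 g (hvz hg) (by simp)) ?_
          exact single_le_sum (f := P) (fun h hh => hPn h (hvz hh)) hg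
        have hG := gibbs v (fun g => U (v.erase g)) (fun g => P g * (N / Rv v))
          (fun g _ => hU _) (fun g hg => mul_nonneg (hPn g (hvz hg)) (div_nonneg hNn hRvp.le))
          (fun g hg hp => mul_pos (hPpos _ hp g (hvz hg) (by simp)) (div_pos h0 hRvp))
          (by
            rw [← sum_mul]
            change Rv v * (N / Rv v) ≤ N
            rw [mul_div_cancel₀ _ hRvp.ne'])
        have e1 : ∀ g ∈ v, U (v.erase g) * (-log (P g * (N / Rv v))) =
            U (v.erase g) * (-log (P g)) + U (v.erase g) * (log (Rv v) - log N) := by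
          intro g hg
          rcases eq_or_lt_of_le (hU (v.erase g)) with h2 | h2
          · rw [← h2]; ring
          · rw [Real.log_mul (hPpos _ h2 g (hvz hg) (by simp)).ne' (div_pos h0 hRvp).ne',
              Real.log_div h0.ne' hRvp.ne']
            ring
        rw [sum_congr rfl e1, sum_add_distrib, ← sum_mul, ← hN] at hG
        have e2 : ∑ g ∈ v, U (v.erase g) * (-log (Rs (v.erase g))) ≤
            ∑ g ∈ v, U (v.erase g) * (-log (Rv v)) := by
          refine sum_le_sum (fun g hg => ?_)
          have := Real.log_le_log hRvp (hRle v hvz g hg hvX)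
          exact mul_le_mul_of_nonneg_left (by linarith) (hU _)
        rw [← sum_mul, ← hN] at e2
        rw [negMulLog]
        linarith
    -- light directions
    have hlight : ∀ s, n * U s * ((1 - (hv X s z).card / n) * log n +
        negMulLog ((hv X s z).card / n)) ≤
        ∑ g ∈ hv X s z, U s * (-log (Rs s)) + ∑ g ∈ lt' X s z, U s * (-log (P g)) := by
      intro s
      rcases eq_or_lt_of_le (hU s) with h0 | h0
      · rw [← h0]; simp
      · obtain ⟨hsz, hcard⟩ := hs s h0.ne'
        have hc := hv_lt_card X s z
        rw [hcard] at hc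
        have hcR : ((hv X s z).card : ℝ) + (lt' X s z).card = n := by exact_mod_cast hc
        set W : ℝ := (hv X s z).card / n with hW
        have hWn : 0 ≤ W := by positivity
        have t1 : ∀ g ∈ lt' X s z, (1 / (n : ℝ)) * log (P g) + 1 / n - P g ≤
            (1 / (n : ℝ)) * log (1 / n) := by
          intro g hg
          have hgz : g ∈ z \ s := (mem_filter.1 hg).1
          rw [mem_sdiff] at hgz
          exact mul_log_ge (by positivity) (hPpos s h0 g hgz.1 hgz.2)
        have t2 : W * log (Rs s) + W - Rs s ≤ W * log W := by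
          rcases eq_or_lt_of_le hWn with h1 | h1
          · rw [← h1]
            have := hRsn s
            simpa using this
          · have hne : (hv X s z).Nonempty := by
              rw [← card_pos]
              by_contra hc0
              have : (hv X s z).card = 0 := by omega
              rw [hW, this] at h1
              simp at h1
            obtain ⟨g, hg⟩ := hne
            simp only [hv, mem_filter, mem_sdiff] at hg
            obtain ⟨⟨hgz, hgs⟩, hgX⟩ := hg
            have h2 := hRle (insert g s) (insert_subset hgz hsz) g (mem_insert_self _ _) hgX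
            rw [erase_insert hgs] at h2
            have h3 : 0 < Rv (insert g s) := by
              refine lt_of_lt_of_le (hPpos s h0 g hgz hgs) ?_
              exact single_le_sum (f := P) (fun h hh => hPn h (insert_subset hgz hsz hh))
                (mem_insert_self g s)
            exact mul_log_ge hWn (lt_of_lt_of_le h3 h2)
        have t3 := sum_le_sum t1
        rw [sum_sub_distrib, sum_add_distrib, sum_const, sum_const, nsmul_eq_mul, nsmul_eq_mul,
          ← mul_sum] at t3
        have t4 : (lt' X s z).card * (1 / (n : ℝ)) = 1 - W := by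
          rw [hW]
          field_simp
          linarith
        have t5 : log (1 / (n : ℝ)) = - log n := by
          rw [one_div, Real.log_inv]
        have t6 : ((lt' X s z).card : ℝ) * (1 / n * log (1 / n)) = (1 - W) * (-log n) := by
          rw [← mul_assoc, t4, t5]
        rw [t4, t6] at t3
        have t7 : ∑ g ∈ lt' X s z, P g = 1 - Rs s := by simp only [hRs]; ring
        rw [t7] at t3
        have t8 : (1 - W) * log n + negMulLog W ≤ W * (-log (Rs s)) +
            1 / n * ∑ g ∈ lt' X s z, (-log (P g)) := by
          rw [negMulLog, sum_neg_distrib]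
          linarith
        have t9 := mul_le_mul_of_nonneg_left t8 (mul_nonneg hnR.le h0.le)
        refine t9.trans (le_of_eq ?_)
        rw [sum_const, nsmul_eq_mul, ← mul_sum, hW]
        field_simp
    rw [hR, sum_congr rfl (fun s _ => hsplit s), sum_add_distrib]
    have r1 := hre (fun s g => U s * (-log (P g))) (fun s g h => by simp [h])
    have r2 := hre (fun s g => U s * (-log (Rs s))) (fun s g h => by simp [h])
    have a1 := sum_le_sum hheavy
    rw [sum_add_distrib, ← r1, ← r2] at a1
    have a2 := sum_le_sum (fun s (_ : s ∈ (univ : Finset (Finset α))) => hlight s)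
    rw [sum_add_distrib] at a2
    linarith

variable {a l : ℕ} {S T : Finset (Finset α)} {p : Finset α → Finset α → ℝ}

/-- Mass of a pair `(s, z)` in level `k`. -/
noncomputable def mz (p : Finset α → Finset α → ℝ) (a l k : ℕ) (s z : Finset α) : ℝ :=
  if s ⊆ z ∧ z.card = a + k then kc l k * up p s z else 0

theorem mz_nonneg (h : Coup a (a + l) S T p) (k : ℕ) (s z : Finset α) : 0 ≤ mz p a l k s z := by
  unfold mz
  split_ifs
  · exact mul_nonneg (kc_nonneg _ _) (h.up_nonneg _ _)
  · exact le_refl _

theorem up_mono (h : Coup a (a + l) S T p) (s : Finset α) {v z : Finset α} (hvz : v ⊆ z) :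
    up p s z ≤ up p s v := by
  unfold up
  refine sum_le_sum (fun t _ => ?_)
  by_cases h1 : z ⊆ t
  · rw [if_pos h1, if_pos (hvz.trans h1)]
  · rw [if_neg h1]
    split_ifs
    · exact h.nonneg s t
    · exact le_refl _

/-- The first layer part, summed over the higher vertices. -/
theorem sum_first (h : Coup a (a + l) S T p) {k : ℕ} (hk : k < l) (v : Finset α) :
    ∑ z : Finset α, (if v ⊆ z ∧ z.card = a + k + 1 then
      (∑ g ∈ v, negMulLog (cc l k * up p (v.erase g) z) -
        negMulLog (∑ g ∈ v, cc l k * up p (v.erase g) z)) else 0) =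
    ∑ g, negMulLog (fd p a l 0 v g) - negMulLog (Fv p a l 1 v) := by
  have hl0 : (0 : ℝ) < l := by exact_mod_cast (by omega : 0 < l)
  by_cases hc : v.card = a + 1
  · have hfd : ∀ g ∈ v, fd p a l 0 v g = 1 / l * up p (v.erase g) v := by
      intro g hg
      unfold fd
      rw [if_pos ⟨by omega, hg⟩, cc_zero, h.pw_eq_up (by rw [card_erase_of_mem hg]; omega)]
    have hfd0 : ∀ g, g ∉ v → fd p a l 0 v g = 0 := by
      intro g hg
      unfold fd
      rw [if_neg (fun hx => hg hx.2)]
    have hFv : Fv p a l 1 v = 1 / l * pw p v v := by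
      unfold Fv
      rw [if_pos hc, kc_one]
    have hsum : ∑ g ∈ v, up p (v.erase g) v = pw p v v := by
      have h1 := h.sum_pw_down v v
      rw [← sum_filter, filter_mem_eq_inter, univ_inter, hc] at h1
      push_cast at h1
      have h2 : ∑ g ∈ v, pw p (v.erase g) v = ∑ g ∈ v, up p (v.erase g) v :=
        sum_congr rfl (fun g hg => h.pw_eq_up (by rw [card_erase_of_mem hg]; omega) v)
      rw [h2] at h1
      rw [h1]
      ring
    rcases eq_or_lt_of_le (h.pw_nonneg v v) with h0 | h0
    · have hz : ∀ g ∈ v, ∀ z, v ⊆ z → up p (v.erase g) z = 0 := by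
        intro g hg z hz
        have h1 : up p (v.erase g) v = 0 := by
          rw [← hsum] at h0
          exact (sum_eq_zero_iff_of_nonneg (fun g _ => h.up_nonneg _ _)).1 h0.symm g hg
        have := up_mono h (v.erase g) hz
        have h2 := h.up_nonneg (v.erase g) z
        linarith
      have e1 : ∑ z : Finset α, (if v ⊆ z ∧ z.card = a + k + 1 then
          (∑ g ∈ v, negMulLog (cc l k * up p (v.erase g) z) -
            negMulLog (∑ g ∈ v, cc l k * up p (v.erase g) z)) else 0) = 0 := by
        apply sum_eq_zero
        intro z _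
        by_cases hv : v ⊆ z ∧ z.card = a + k + 1
        · rw [if_pos hv]
          have e2 : ∑ g ∈ v, negMulLog (cc l k * up p (v.erase g) z) = 0 :=
            sum_eq_zero (fun g hg => by rw [hz g hg z hv.1]; simp)
          have e3 : ∑ g ∈ v, cc l k * up p (v.erase g) z = 0 :=
            sum_eq_zero (fun g hg => by rw [hz g hg z hv.1, mul_zero])
          rw [e2, e3]
          simp
        · rw [if_neg hv]
      have e4 : ∑ g, negMulLog (fd p a l 0 v g) = 0 := by
        apply sum_eq_zero
        intro g _
        by_cases hg : g ∈ v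
        · rw [hfd g hg, hz g hg v (le_refl _)]; simp
        · rw [hfd0 g hg]; simp
      rw [e1, e4, hFv, ← h0]
      simp
    · have hlam : ∀ z, v ⊆ z → ∀ g ∈ v, cc l k * up p (v.erase g) z =
          (cc l k * l * pw p v z / pw p v v) * (1 / l * up p (v.erase g) v) := by
        intro z hz g hg
        have := h.exch_up (erase_subset g v) hz
        field_simp
        linear_combination (cc l k) * this
      have hterm : ∀ z, v ⊆ z → (∑ g ∈ v, negMulLog (cc l k * up p (v.erase g) z) -
          negMulLog (∑ g ∈ v, cc l k * up p (v.erase g) z)) =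
          (cc l k * l * pw p v z / pw p v v) *
          (∑ g, negMulLog (fd p a l 0 v g) - negMulLog (Fv p a l 1 v)) := by
        intro z hz
        set lam := cc l k * l * pw p v z / pw p v v with hlamdef
        have e1 : ∑ g, negMulLog (fd p a l 0 v g) =
            ∑ g ∈ v, negMulLog (1 / l * up p (v.erase g) v) := by
          rw [← sum_subset (subset_univ v)]
          · exact sum_congr rfl (fun g hg => by rw [hfd g hg])
          · intro g _ hg
            rw [hfd0 g hg, negMulLog_zero]
        have e2 : ∑ g ∈ v, cc l k * up p (v.erase g) z = lam * Fv p a l 1 v := by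
          rw [sum_congr rfl (hlam z hz), ← mul_sum, ← mul_sum, hsum, hFv]
        have e3 : ∑ g ∈ v, negMulLog (cc l k * up p (v.erase g) z) =
            lam * ∑ g ∈ v, negMulLog (1 / l * up p (v.erase g) v) +
            Fv p a l 1 v * negMulLog lam := by
          rw [sum_congr rfl (fun g hg => by rw [hlam z hz g hg, negMulLog_mul]), sum_add_distrib,
            ← mul_sum, ← sum_mul, ← mul_sum, hsum, ← hFv]
          ring
        rw [e2, e3, e1, negMulLog_mul]
        ring
      have e5 : ∀ z : Finset α, (if v ⊆ z ∧ z.card = a + k + 1 then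
          (∑ g ∈ v, negMulLog (cc l k * up p (v.erase g) z) -
            negMulLog (∑ g ∈ v, cc l k * up p (v.erase g) z)) else 0) =
          (cc l k * l / pw p v v * (if v ⊆ z ∧ z.card = v.card + k then pw p v z else 0)) *
          (∑ g, negMulLog (fd p a l 0 v g) - negMulLog (Fv p a l 1 v)) := by
        intro z
        by_cases hv : v ⊆ z ∧ z.card = a + k + 1
        · rw [if_pos hv, if_pos ⟨hv.1, by omega⟩, hterm z hv.1]
          ring
        · rw [if_neg hv, if_neg (fun hx => hv ⟨hx.1, by omega⟩)]
          ring
      simp_rw [e5]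
      rw [← sum_mul, ← mul_sum]
      have e6 : ∑ z : Finset α, (if v ⊆ z ∧ z.card = v.card + k then pw p v z else 0) =
          ((l - 1).choose k : ℝ) * pw p v v := by
        unfold pw
        have e7 : ∀ z : Finset α, (if v ⊆ z ∧ z.card = v.card + k then
            ∑ s, (if s ⊆ v then up p s z else 0) else 0) =
            ∑ s, (if s ⊆ v then (if v ⊆ z ∧ z.card = v.card + k then up p s z else 0) else 0) := by
          intro z
          by_cases hv : v ⊆ z ∧ z.card = v.card + k
          · simp [hv]
          · simp only [hv, if_false]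
            symm
            apply sum_eq_zero
            intro s _
            split_ifs <;> rfl
        simp_rw [e7]
        rw [sum_comm, mul_sum]
        refine sum_congr rfl (fun s _ => ?_)
        by_cases hs : s ⊆ v
        · simp only [hs, if_true]
          rw [h.sum_up s v k, hc]
          have : a + l - (a + 1) = l - 1 := by omega
          rw [this]
        · simp [hs]
      rw [e6]
      have e8 : cc l k * l / pw p v v * (((l - 1).choose k : ℝ) * pw p v v) = 1 := by
        have := cc_choose hk
        field_simp
        field_simp at this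
        linarith
      rw [e8, one_mul]
  · have hz : ∀ g ∈ v, ∀ z, up p (v.erase g) z = 0 := by
      intro g hg z
      by_contra hne
      have h1 := (h.up_supp hne).2.1
      rw [card_erase_of_mem hg] at h1
      have h2 := card_pos.2 ⟨g, hg⟩
      omega
    have e1 : ∑ z : Finset α, (if v ⊆ z ∧ z.card = a + k + 1 then
        (∑ g ∈ v, negMulLog (cc l k * up p (v.erase g) z) -
          negMulLog (∑ g ∈ v, cc l k * up p (v.erase g) z)) else 0) = 0 := by
      apply sum_eq_zero
      intro z _
      by_cases hv : v ⊆ z ∧ z.card = a + k + 1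
      · rw [if_pos hv]
        have e2 : ∑ g ∈ v, negMulLog (cc l k * up p (v.erase g) z) = 0 :=
          sum_eq_zero (fun g hg => by rw [hz g hg z]; simp)
        have e3 : ∑ g ∈ v, cc l k * up p (v.erase g) z = 0 :=
          sum_eq_zero (fun g hg => by rw [hz g hg z, mul_zero])
        rw [e2, e3]
        simp
      · rw [if_neg hv]
    have e4 : ∑ g, negMulLog (fd p a l 0 v g) = 0 := by
      apply sum_eq_zero
      intro g _
      unfold fd
      rw [if_neg (fun hx => hc (by omega)), negMulLog_zero]
    have e5 : Fv p a l 1 v = 0 := by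
      unfold Fv
      rw [if_neg hc]
    rw [e1, e4, e5]
    simp

/-- **The backward step with heavy vertices.** -/
theorem backward_heavy (h : Coup a (a + l) S T p) {k : ℕ} (hk : k < l)
    (X : Finset (Finset α)) :
    ∑ v ∈ X, (∑ g, negMulLog (fd p a l 0 v g) - negMulLog (Fv p a l 1 v)) +
      ∑ z, ∑ s, mz p a l (k + 1) s z * ((1 - (hv X s z).card / ((k + 1 : ℕ) : ℝ)) *
        log ((k + 1 : ℕ) : ℝ) + negMulLog ((hv X s z).card / ((k + 1 : ℕ) : ℝ))) ≤
    En p a l k - La p a l (k + 1) := by
  unfold En La
  rw [layer_reindex _ _ _ _ _ negMulLog_zero, ← sum_sub_distrib,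
    ← sum_congr rfl (fun v _ => sum_first h hk v), sum_comm, ← sum_add_distrib]
  refine sum_le_sum (fun z _ => ?_)
  by_cases hz : z.card = a + k + 1
  · have hloc := local_back z (k + 1) (by omega)
      (fun s => if s ⊆ z then cc l k * up p s z else 0) ?_ ?_ X (fun g => fd p a l k z g) ?_
      (Fv p a l (k + 1) z) ?_ ?_
    · have e1 : ∑ g ∈ z, negMulLog (fd p a l k z g) = ∑ g, negMulLog (fd p a l k z g) := by
        apply sum_subset (subset_univ z)
        intro g _ hg
        unfold fd
        rw [if_neg (fun hx => hg hx.2), negMulLog_zero]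
      rw [← e1]
      refine le_trans (le_of_eq ?_) hloc
      congr 1
      · rw [sum_filter]
        refine sum_congr rfl (fun v _ => ?_)
        by_cases hv : v ⊆ z
        · rw [if_pos ⟨hv, hz⟩, if_pos hv]
          have e2 : ∀ g, v.erase g ⊆ z := fun g => (erase_subset _ _).trans hv
          simp only [e2, if_true]
        · rw [if_neg (fun hx => hv hx.1), if_neg hv]
      · refine sum_congr rfl (fun s _ => ?_)
        congr 1
        unfold mz
        by_cases hs : s ⊆ z
        · rw [if_pos ⟨hs, by omega⟩, if_pos hs, ← cc_down hk]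
          push_cast
          ring
        · rw [if_neg (fun hx => hs hx.1), if_neg hs, mul_zero]
    · intro s
      split_ifs
      · exact mul_nonneg (cc_nonneg _ _) (h.up_nonneg _ _)
      · exact le_refl _
    · intro s hs
      by_cases hsz : s ⊆ z
      · rw [if_pos hsz] at hs
        have h1 := (h.up_supp (right_ne_zero_of_mul hs)).2.1
        refine ⟨hsz, ?_⟩
        rw [card_sdiff_of_subset hsz]
        omega
      · rw [if_neg hsz] at hs
        exact absurd rfl hs
    · intro g hg
      unfold fd
      rw [if_pos ⟨hz, hg⟩]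
      unfold pw
      rw [mul_sum]
      refine sum_congr rfl (fun s _ => ?_)
      by_cases hgs : g ∈ s
      · rw [if_pos hgs, if_neg, mul_zero]
        intro hx
        exact (mem_erase.1 (hx hgs)).1 rfl
      · rw [if_neg hgs]
        by_cases hsz : s ⊆ z
        · rw [if_pos hsz, if_pos]
          intro y hy
          rw [mem_erase]
          refine ⟨?_, hsz hy⟩
          rintro rfl
          exact hgs hy
        · rw [if_neg hsz, if_neg, mul_zero]
          intro hx
          exact hsz (hx.trans (erase_subset _ _))
    · unfold Fv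
      rw [if_pos (by omega), ← cc_down hk]
      unfold pw
      rw [mul_sum, mul_sum]
      refine sum_congr rfl (fun s _ => ?_)
      push_cast
      split_ifs <;> ring
    · rw [← sum_fd h hk z]
      apply sum_subset (subset_univ z)
      intro g _ hg
      unfold fd
      rw [if_neg (fun hx => hg hx.2)]
  · have e1 : ∑ g, negMulLog (fd p a l k z g) = 0 := by
      apply sum_eq_zero
      intro g _
      unfold fd
      rw [if_neg (fun hx => hz hx.1), negMulLog_zero]
    have e2 : Fv p a l (k + 1) z = 0 := by
      unfold Fv
      rw [if_neg (by omega)]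
    have e3 : ∑ v ∈ X, (if v ⊆ z ∧ z.card = a + k + 1 then
      (∑ g ∈ v, negMulLog (cc l k * up p (v.erase g) z) -
        negMulLog (∑ g ∈ v, cc l k * up p (v.erase g) z)) else 0) = 0 := by
      apply sum_eq_zero
      intro v _
      rw [if_neg (fun hx => hz hx.2)]
    have e4 : ∑ s, mz p a l (k + 1) s z * ((1 - (hv X s z).card / ((k + 1 : ℕ) : ℝ)) *
        log ((k + 1 : ℕ) : ℝ) + negMulLog ((hv X s z).card / ((k + 1 : ℕ) : ℝ))) = 0 := by
      apply sum_eq_zero
      intro s _
      unfold mz
      rw [if_neg (fun hx => hz (by omega)), zero_mul]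
    rw [e1, e2, e3, e4]
    simp

/-- Reindexing of the pairs `(w, g)` as `(w + g, g)` above a fixed source. -/
theorem reidx_pair (p : Finset α → Finset α → ℝ) (a k : ℕ) (s : Finset α)
    (H : Finset α → α → ℝ) :
    ∑ w : Finset α, (if s ⊆ w ∧ w.card = a + k then
      ∑ g, (if g ∉ w then H w g * up p s (insert g w) else 0) else 0) =
    ∑ z : Finset α, (if s ⊆ z ∧ z.card = a + k + 1 then
      (∑ g ∈ z \ s, H (z.erase g) g) * up p s z else 0) := by
  have h1 : ∀ w : Finset α, (if s ⊆ w ∧ w.card = a + k then
      ∑ g, (if g ∉ w then H w g * up p s (insert g w) else 0) else 0) =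
      ∑ g, (if g ∉ w then (if s ⊆ w ∧ w.card = a + k then H w g * up p s (insert g w) else 0)
        else 0) := by
    intro w
    by_cases hw : s ⊆ w ∧ w.card = a + k
    · simp only [hw, and_self, if_true]
    · simp only [hw, if_false]
      symm
      apply sum_eq_zero
      intro g _
      split_ifs <;> rfl
  have h2 : ∀ z : Finset α, (if s ⊆ z ∧ z.card = a + k + 1 then
      (∑ g ∈ z \ s, H (z.erase g) g) * up p s z else 0) =
      ∑ g, (if g ∈ z then (if s ⊆ z.erase g ∧ (z.erase g).card = a + k then
        H (z.erase g) g * up p s z else 0) else 0) := by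
    intro z
    by_cases hz : s ⊆ z ∧ z.card = a + k + 1
    · rw [if_pos hz, sum_mul]
      have : z \ s = univ.filter (fun g => g ∈ z ∧ g ∉ s) := by ext g; simp
      rw [this, sum_filter]
      refine sum_congr rfl (fun g _ => ?_)
      by_cases hg : g ∈ z
      · by_cases hgs : g ∈ s
        · rw [if_neg (fun hx => hx.2 hgs), if_pos hg, if_neg]
          rintro ⟨hx, _⟩
          exact (mem_erase.1 (hx hgs)).1 rfl
        · rw [if_pos ⟨hg, hgs⟩, if_pos hg, if_pos]
          refine ⟨?_, by rw [card_erase_of_mem hg]; omega⟩
          intro y hy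
          rw [mem_erase]
          refine ⟨?_, hz.1 hy⟩
          rintro rfl
          exact hgs hy
      · rw [if_neg (fun hx => hg hx.1), if_neg hg]
    · rw [if_neg hz]
      symm
      apply sum_eq_zero
      intro g _
      by_cases hg : g ∈ z
      · rw [if_pos hg, if_neg]
        rintro ⟨hx1, hx2⟩
        rw [card_erase_of_mem hg] at hx2
        have := card_pos.2 ⟨g, hg⟩
        exact hz ⟨hx1.trans (erase_subset _ _), by omega⟩
      · rw [if_neg hg]
  simp_rw [h1, h2]
  rw [sum_comm, sum_comm (s := univ) (t := univ) (f := fun z g => if g ∈ z then _ else _)]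
  refine sum_congr rfl (fun g _ => ?_)
  rw [reindexN g]
  refine sum_congr rfl (fun w _ => ?_)
  by_cases hg : g ∉ w
  · rw [if_pos hg, if_pos hg, erase_insert hg]
  · rw [if_neg hg, if_neg hg]

/-- Averages over the faces of the upper level. -/
theorem avg_down (h : Coup a (a + l) S T p) {k : ℕ} (hk : k < l) (s : Finset α)
    (Θ : Finset α → ℝ) :
    ∑ w : Finset α, mz p a l k s w * Θ w =
    ∑ z : Finset α, mz p a l (k + 1) s z * ((∑ g ∈ z \ s, Θ (z.erase g)) / (k + 1)) := by
  have h1 := reidx_pair p a k s (fun w _ => cc l k * Θ w)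
  have e1 : ∀ w : Finset α, (if s ⊆ w ∧ w.card = a + k then
      ∑ g, (if g ∉ w then cc l k * Θ w * up p s (insert g w) else 0) else 0) =
      mz p a l k s w * Θ w := by
    intro w
    unfold mz
    by_cases hw : s ⊆ w ∧ w.card = a + k
    · rw [if_pos hw, if_pos hw]
      have e2 : ∀ g, (if g ∉ w then cc l k * Θ w * up p s (insert g w) else 0) =
          cc l k * Θ w * (if g ∉ w then up p s (insert g w) else 0) := by
        intro g; split_ifs <;> ring
      simp_rw [e2]
      rw [← mul_sum, h.sum_cov_up, ← cc_up hk, hw.2]
      push_cast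
      ring
    · rw [if_neg hw, if_neg hw, zero_mul]
  have e3 : ∀ z : Finset α, (if s ⊆ z ∧ z.card = a + k + 1 then
      (∑ g ∈ z \ s, cc l k * Θ (z.erase g)) * up p s z else 0) =
      mz p a l (k + 1) s z * ((∑ g ∈ z \ s, Θ (z.erase g)) / (k + 1)) := by
    intro z
    unfold mz
    by_cases hz : s ⊆ z ∧ z.card = a + k + 1
    · rw [if_pos hz, if_pos ⟨hz.1, by omega⟩, ← cc_down hk, ← mul_sum]
      have : (0 : ℝ) < (k : ℝ) + 1 := by positivity
      field_simp
    · rw [if_neg hz, if_neg (fun hx => hz ⟨hx.1, by omega⟩), zero_mul]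
  simp_rw [e1, e3] at h1
  exact h1

theorem mz_zero (h : Coup a (a + l) S T p) (s : Finset α) (Θ : Finset α → ℝ) :
    ∑ w : Finset α, mz p a l 0 s w * Θ w = (if s ∈ S then 1 else 0) * Θ s := by
  have hs1 : ∀ w, w ≠ s → mz p a l 0 s w = 0 := by
    intro w hw
    unfold mz
    by_cases hc : s ⊆ w ∧ w.card = a + 0
    · rw [if_pos hc]
      by_contra hne
      have h1 := (h.up_supp (right_ne_zero_of_mul hne)).2.1
      exact hw (eq_of_subset_of_card_le hc.1 (by omega)).symm
    · rw [if_neg hc]
  rw [sum_eq_single s]
  · congr 1
    unfold mz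
    by_cases hsS : s ∈ S
    · have h1 : up p s s = 1 := by
        rw [← h.row s hsS]
        unfold up
        refine sum_congr rfl (fun t _ => ?_)
        by_cases ht : s ⊆ t
        · rw [if_pos ht]
        · rw [if_neg ht]
          by_contra hne
          exact ht (h.supp s t (Ne.symm hne)).2.2.1
      have h2 := (h.up_supp (s := s) (v := s) (by rw [h1]; norm_num)).2.1
      rw [if_pos ⟨le_refl _, by omega⟩, if_pos hsS, h1]
      simp [kc]
    · rw [if_neg hsS]
      have : up p s s = 0 := by
        by_contra hne
        exact hsS (h.up_supp hne).1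
      rw [this, mul_zero]
      split_ifs <;> rfl
  · intro w _ hw
    rw [hs1 w hw, zero_mul]
  · intro hh
    exact absurd (mem_univ _) hh

theorem mz_last (h : Coup a (a + l) S T p) (s : Finset α) (Θ : Finset α → ℝ) :
    ∑ w : Finset α, mz p a l l s w * Θ w = ∑ t, p s t * Θ t := by
  refine sum_congr rfl (fun t _ => ?_)
  congr 1
  unfold mz
  by_cases hc : s ⊆ t ∧ t.card = a + l
  · rw [if_pos hc]
    have h1 : up p s t = p s t := by
      unfold up
      rw [sum_eq_single t]
      · simp
      · intro t' _ hne
        by_cases ht : t ⊆ t'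
        · rw [if_pos ht]
          by_contra h0
          have := (h.supp s t' h0).2.2.2.2
          exact hne (eq_of_subset_of_card_le ht (by omega)).symm
        · rw [if_neg ht]
      · intro hh; exact absurd (mem_univ _) hh
    rw [h1]
    simp [kc]
  · rw [if_neg hc]
    by_contra h0
    have := h.supp s t (Ne.symm h0)
    exact hc ⟨this.2.2.1, this.2.2.2.2⟩

theorem hv_erase_card (X : Finset (Finset α)) (s z : Finset α) (g : α) :
    (hv X s (z.erase g)).card = (hv X s z).card - (if g ∈ hv X s z then 1 else 0) := by
  have h1 : hv X s (z.erase g) = (hv X s z).erase g := by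
    unfold hv
    ext y
    simp only [mem_filter, mem_sdiff, mem_erase]
    tauto
  rw [h1]
  split_ifs with h2
  · exact card_erase_of_mem h2
  · rw [erase_eq_of_notMem h2]; simp

/-- Telescoping of the sizes of the heavy part. -/
theorem tele_heavy (h : Coup a (a + l) S T p) (X : Finset (Finset α)) (s : Finset α) :
    ∑ k ∈ range l, ∑ z, mz p a l (k + 1) s z *
      ((hv X s z).card / ((k + 1 : ℕ) : ℝ) * log (hv X s z).card) =
    ∑ t, p s t * log ((hv X s t).card.factorial : ℝ) := by
  set Θ : Finset α → ℝ := fun z => log ((hv X s z).card.factorial : ℝ) with hΘ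
  have key : ∀ k ∈ range l, ∑ z, mz p a l (k + 1) s z *
      ((hv X s z).card / ((k + 1 : ℕ) : ℝ) * log (hv X s z).card) =
      ∑ z, mz p a l (k + 1) s z * Θ z - ∑ w, mz p a l k s w * Θ w := by
    intro k hk
    rw [avg_down h (mem_range.1 hk) s Θ, ← sum_sub_distrib]
    refine sum_congr rfl (fun z _ => ?_)
    rw [← mul_sub]
    by_cases hz : mz p a l (k + 1) s z = 0
    · rw [hz, zero_mul, zero_mul]
    · congr 1
      have hc : s ⊆ z ∧ z.card = a + (k + 1) := by
        by_contra hc
        exact hz (by unfold mz; rw [if_neg hc])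
      have hsa : s.card = a := by
        unfold mz at hz
        rw [if_pos hc] at hz
        exact (h.up_supp (right_ne_zero_of_mul hz)).2.1
      have hcard : (z \ s).card = k + 1 := by
        rw [card_sdiff_of_subset hc.1]; omega
      have hk1 : (0 : ℝ) < (k : ℝ) + 1 := by positivity
      have e1 : ∀ g ∈ z \ s, Θ (z.erase g) = Θ z - (if g ∈ hv X s z then
          log ((hv X s z).card : ℝ) else 0) := by
        intro g _
        simp only [hΘ]
        rw [hv_erase_card X s z g]
        split_ifs with h2
        · have h3 : 0 < (hv X s z).card := card_pos.2 ⟨g, h2⟩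
          obtain ⟨n, hn⟩ : ∃ n, (hv X s z).card = n + 1 := ⟨(hv X s z).card - 1, by omega⟩
          rw [hn, Nat.add_sub_cancel, Nat.factorial_succ]
          push_cast
          rw [Real.log_mul (by positivity) (by positivity)]
          ring
        · simp
      rw [sum_congr rfl e1, sum_sub_distrib, sum_const, hcard, nsmul_eq_mul, ← sum_filter,
        sum_const, nsmul_eq_mul]
      have e2 : ((z \ s).filter (fun g => g ∈ hv X s z)) = hv X s z := by
        unfold hv
        ext y
        simp only [mem_filter, mem_sdiff]
        tauto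
      rw [e2]
      push_cast
      field_simp
      ring
  rw [sum_congr rfl key, sum_range_sub (fun k => ∑ z, mz p a l k s z * Θ z), mz_last h, mz_zero h]
  have : Θ s = 0 := by
    simp only [hΘ]
    have : hv X s s = ∅ := by unfold hv; simp
    rw [this]
    simp
  rw [this]
  ring

/-- The forward entropy of a level. -/
theorem forward_eq (h : Coup a (a + l) S T p) {k : ℕ} (hk : k < l) :
    En p a l k - La p a l k =
      (∑ s, ∑ w, mz p a l k s w) * log ((l : ℝ) - k) +
      ∑ s, ∑ w, mz p a l k s w * log (up p s w) -
      ∑ s, ∑ z, mz p a l (k + 1) s z * log (up p s z) := by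
  have hlk : (0 : ℝ) < (l : ℝ) - k := by
    have : (k : ℝ) < l := by exact_mod_cast hk
    linarith
  have hkcp : 0 < kc l k := by
    unfold kc
    have : (0 : ℝ) < (l.choose k : ℝ) := by exact_mod_cast Nat.choose_pos hk.le
    positivity
  have hccp : 0 < cc l k := by
    have := cc_up hk
    have h1 := cc_nonneg l k
    rcases eq_or_lt_of_le h1 with h2 | h2
    · rw [← h2, mul_zero] at this
      linarith
    · exact h2
  -- local form
  have e1 : En p a l k - La p a l k = ∑ w, ∑ g, ∑ s, (if s ⊆ w ∧ w.card = a + k then
      (if g ∉ w then cc l k * (log ((l : ℝ) - k) + log (up p s w) - log (up p s (insert g w))) *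
        up p s (insert g w) else 0) else 0) := by
    unfold En La
    rw [← sum_sub_distrib]
    refine sum_congr rfl (fun w _ => ?_)
    have e2 : ∀ g, fu p a l k w g * (log (Fv p a l k w) - log (fu p a l k w g)) =
        fu p a l k w g * log (Fv p a l k w) + negMulLog (fu p a l k w g) := by
      intro g; rw [negMulLog]; ring
    have e3 : ∑ g, fu p a l k w g * (log (Fv p a l k w) - log (fu p a l k w g)) =
        ∑ g, negMulLog (fu p a l k w g) - negMulLog (Fv p a l k w) := by
      simp_rw [e2]
      rw [sum_add_distrib, ← sum_mul, sum_fu h hk w, negMulLog]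
      ring
    rw [← e3]
    refine sum_congr rfl (fun g _ => ?_)
    by_cases hc : w.card = a + k
    · by_cases hg : g ∉ w
      · have hfu : fu p a l k w g = ∑ s, (if s ⊆ w then cc l k * up p s (insert g w) else 0) := by
          unfold fu
          rw [if_pos ⟨hc, hg⟩]
          unfold pw
          rw [mul_sum]
          refine sum_congr rfl (fun s _ => ?_)
          split_ifs <;> ring
        have hfu2 : fu p a l k w g = cc l k * pw p w (insert g w) := by
          unfold fu
          rw [if_pos ⟨hc, hg⟩]
        have hFv : Fv p a l k w = kc l k * pw p w w := by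
          unfold Fv
          rw [if_pos hc]
        conv_lhs => rw [show fu p a l k w g * (log (Fv p a l k w) - log (fu p a l k w g)) =
          (∑ s, (if s ⊆ w then cc l k * up p s (insert g w) else 0)) *
            (log (Fv p a l k w) - log (fu p a l k w g)) by rw [← hfu]]
        rw [sum_mul]
        refine sum_congr rfl (fun s _ => ?_)
        by_cases hs : s ⊆ w
        · rw [if_pos hs, if_pos ⟨hs, hc⟩, if_pos hg]
          rcases eq_or_lt_of_le (h.up_nonneg s (insert g w)) with h0 | h0
          · rw [← h0]; ring
          · have p1 : 0 < up p s w := lt_of_lt_of_le h0 (up_mono h s (subset_insert g w))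
            have hex := h.exch_up hs (subset_insert g w)
            have p2 : 0 < pw p w (insert g w) := by
              refine lt_of_lt_of_le h0 ?_
              unfold pw
              have := single_le_sum (f := fun s => if s ⊆ w then up p s (insert g w) else 0)
                (s := univ) (fun s _ => by
                  split_ifs; exacts [h.up_nonneg _ _, le_refl _]) (mem_univ s)
              simpa [hs] using this
            have p3 : 0 < pw p w w := by
              rcases eq_or_lt_of_le (h.pw_nonneg w w) with h1 | h1
              · rw [← h1, mul_zero] at hex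
                have := mul_pos p1 p2
                linarith
              · exact h1
            have hl1 : log (up p s (insert g w)) + log (pw p w w) =
                log (up p s w) + log (pw p w (insert g w)) := by
              rw [← Real.log_mul h0.ne' p3.ne', hex, Real.log_mul p1.ne' p2.ne']
            have hl2 : log (kc l k) = log ((l : ℝ) - k) + log (cc l k) := by
              rw [← cc_up hk, Real.log_mul hlk.ne' hccp.ne']
            rw [hFv, hfu2, Real.log_mul hkcp.ne' p3.ne', Real.log_mul hccp.ne' p2.ne', hl2]
            have : log ((l : ℝ) - k) + log (cc l k) + log (pw p w w) -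
                (log (cc l k) + log (pw p w (insert g w))) =
                log ((l : ℝ) - k) + log (up p s w) - log (up p s (insert g w)) := by linarith
            rw [this]
            ring
        · rw [if_neg hs, if_neg (fun hx => hs hx.1), zero_mul]
      · have : fu p a l k w g = 0 := by
          unfold fu
          rw [if_neg (fun hx => hg hx.2)]
        rw [this, zero_mul]
        symm
        apply sum_eq_zero
        intro s _
        rw [if_neg hg]
        split_ifs <;> rfl
    · have : fu p a l k w g = 0 := by
        unfold fu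
        rw [if_neg (fun hx => hc hx.1)]
      rw [this, zero_mul]
      symm
      apply sum_eq_zero
      intro s _
      rw [if_neg (fun hx => hc hx.2)]
  rw [e1]
  have e4 : ∀ w : Finset α, ∑ g, ∑ s, (if s ⊆ w ∧ w.card = a + k then
      (if g ∉ w then cc l k * (log ((l : ℝ) - k) + log (up p s w) - log (up p s (insert g w))) *
        up p s (insert g w) else 0) else 0) = ∑ s, (if s ⊆ w ∧ w.card = a + k then
      ∑ g, (if g ∉ w then cc l k * (log ((l : ℝ) - k) + log (up p s w) -
        log (up p s (insert g w))) * up p s (insert g w) else 0) else 0) := by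
    intro w
    rw [sum_comm]
    refine sum_congr rfl (fun s _ => ?_)
    by_cases hc : s ⊆ w ∧ w.card = a + k
    · simp only [hc, and_self, if_true]
    · simp only [hc, if_false]
      exact sum_const_zero
  simp_rw [e4]
  rw [sum_comm, sum_mul, ← sum_add_distrib, ← sum_sub_distrib]
  refine sum_congr rfl (fun s _ => ?_)
  -- split the sum for a fixed source
  have r1 := reidx_pair p a k s (fun w g => cc l k * log (up p s (insert g w)))
  have f1 : ∑ w : Finset α, (if s ⊆ w ∧ w.card = a + k then
      ∑ g, (if g ∉ w then cc l k * (log ((l : ℝ) - k) + log (up p s w) -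
        log (up p s (insert g w))) * up p s (insert g w) else 0) else 0) =
      ∑ w : Finset α, (mz p a l k s w * log ((l : ℝ) - k) + mz p a l k s w * log (up p s w)) -
      ∑ w : Finset α, (if s ⊆ w ∧ w.card = a + k then
      ∑ g, (if g ∉ w then cc l k * log (up p s (insert g w)) * up p s (insert g w) else 0)
        else 0) := by
    rw [← sum_sub_distrib]
    refine sum_congr rfl (fun w _ => ?_)
    unfold mz
    by_cases hc : s ⊆ w ∧ w.card = a + k
    · rw [if_pos hc, if_pos hc, if_pos hc]
      have f2 : ∀ g, (if g ∉ w then cc l k * (log ((l : ℝ) - k) + log (up p s w) -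
          log (up p s (insert g w))) * up p s (insert g w) else 0) =
          cc l k * (log ((l : ℝ) - k) + log (up p s w)) *
            (if g ∉ w then up p s (insert g w) else 0) -
          (if g ∉ w then cc l k * log (up p s (insert g w)) * up p s (insert g w) else 0) := by
        intro g; split_ifs <;> ring
      simp_rw [f2]
      rw [sum_sub_distrib, ← mul_sum, h.sum_cov_up, ← cc_up hk, hc.2]
      push_cast
      ring
    · rw [if_neg hc, if_neg hc, if_neg hc]
      ring
  rw [f1, r1, sum_add_distrib, ← sum_mul]
  congr 1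
  refine sum_congr rfl (fun z _ => ?_)
  unfold mz
  by_cases hc : s ⊆ z ∧ z.card = a + k + 1
  · rw [if_pos hc, if_pos ⟨hc.1, by omega⟩, ← cc_down hk]
    rcases eq_or_lt_of_le (h.up_nonneg s z) with h0 | h0
    · rw [← h0]; ring
    · have hsa := (h.up_supp h0.ne').2.1
      have hcard : (z \ s).card = k + 1 := by
        rw [card_sdiff_of_subset hc.1]; omega
      have f3 : ∀ g ∈ z \ s, cc l k * log (up p s (insert g (z.erase g))) =
          cc l k * log (up p s z) := by
        intro g hg
        rw [insert_erase (mem_sdiff.1 hg).1]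
      rw [sum_congr rfl f3, sum_const, hcard, nsmul_eq_mul]
      push_cast
      ring
  · rw [if_neg hc, if_neg (fun hx => hc ⟨hx.1, by omega⟩), zero_mul]

theorem sum_mz (h : Coup a (a + l) S T p) {k : ℕ} (hk : k ≤ l) :
    ∑ s, ∑ w, mz p a l k s w = S.card := by
  have key : ∀ k ≤ l, ∀ s, ∑ w, mz p a l k s w = if s ∈ S then 1 else 0 := by
    intro k
    induction k with
    | zero =>
      intro _ s
      have := mz_zero h s (fun _ => 1)
      simpa using this
    | succ k ih =>
      intro hk s
      rw [← ih (by omega) s]
      have := avg_down h (by omega : k < l) s (fun _ => 1)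
      simp only [mul_one, sum_const, nsmul_eq_mul] at this
      rw [this]
      refine sum_congr rfl (fun z _ => ?_)
      by_cases hz : mz p a l (k + 1) s z = 0
      · rw [hz, zero_mul]
      · have hc : s ⊆ z ∧ z.card = a + (k + 1) := by
          by_contra hc
          exact hz (by unfold mz; rw [if_neg hc])
        have hsa : s.card = a := by
          unfold mz at hz
          rw [if_pos hc] at hz
          exact (h.up_supp (right_ne_zero_of_mul hz)).2.1
        have hcard : (z \ s).card = k + 1 := by
          rw [card_sdiff_of_subset hc.1]; omega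
        rw [hcard]
        push_cast
        have : (k : ℝ) + 1 ≠ 0 := by positivity
        field_simp
  rw [sum_congr rfl (fun s _ => key k hk s)]
  simp

/-- The total forward entropy. -/
theorem sum_forward (h : Coup a (a + l) S T p) :
    ∑ k ∈ range l, (En p a l k - La p a l k) =
      S.card * ∑ k ∈ range l, log ((k : ℝ) + 1) + ∑ s, ∑ t, negMulLog (p s t) := by
  have h1 : ∀ k ∈ range l, En p a l k - La p a l k = S.card * log ((l : ℝ) - k) -
      ((∑ s, ∑ z, mz p a l (k + 1) s z * log (up p s z)) -
       ∑ s, ∑ w, mz p a l k s w * log (up p s w)) := by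
    intro k hk
    have hk' := mem_range.1 hk
    rw [forward_eq h hk', sum_mz h hk'.le]
    ring
  rw [sum_congr rfl h1, sum_sub_distrib,
    sum_range_sub (fun k => ∑ s, ∑ w, mz p a l k s w * log (up p s w)), ← mul_sum]
  have h2 : ∑ k ∈ range l, log ((l : ℝ) - k) = ∑ k ∈ range l, log ((k : ℝ) + 1) := by
    rw [← sum_range_reflect (fun k => log ((k : ℝ) + 1)) l]
    refine sum_congr rfl (fun k hk => ?_)
    have hk' := mem_range.1 hk
    congr 1
    have : ((l - 1 - k : ℕ) : ℝ) = (l : ℝ) - 1 - k := by
      rw [Nat.cast_sub (by omega), Nat.cast_sub (by omega)]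
      simp
    rw [this]
    ring
  have h3 : ∀ s, ∑ w, mz p a l 0 s w * log (up p s w) = 0 := by
    intro s
    rw [mz_zero h s]
    split_ifs with hs
    · have h4 : up p s s = 1 := by
        rw [← h.row s hs]
        unfold up
        refine sum_congr rfl (fun t _ => ?_)
        by_cases ht : s ⊆ t
        · rw [if_pos ht]
        · rw [if_neg ht]
          by_contra hne
          exact ht (h.supp s t (Ne.symm hne)).2.2.1
      rw [h4]
      simp
    · ring
  have h5 : ∀ s, ∑ w, mz p a l l s w * log (up p s w) = - ∑ t, negMulLog (p s t) := by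
    intro s
    rw [mz_last h s, ← sum_neg_distrib]
    refine sum_congr rfl (fun t _ => ?_)
    by_cases h0 : p s t = 0
    · rw [h0]; simp
    · have hc := h.supp s t h0
      have h1 : up p s t = p s t := by
        unfold up
        rw [sum_eq_single t]
        · simp
        · intro t' _ hne
          by_cases ht : t ⊆ t'
          · rw [if_pos ht]
            by_contra h0
            have := (h.supp s t' h0).2.2.2.2
            exact hne (eq_of_subset_of_card_le ht (by omega)).symm
          · rw [if_neg ht]
        · intro hh; exact absurd (mem_univ _) hh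
      rw [h1, negMulLog]
      ring
  rw [h2, sum_congr rfl (fun s _ => h3 s), sum_congr rfl (fun s _ => h5 s), sum_neg_distrib]
  simp

/-- **The lower entropy bound with heavy vertices.** -/
theorem lower_entropy (h : Coup a (a + l) S T p) (X : Finset (Finset α)) :
    l * ∑ v ∈ X, (∑ g, negMulLog (fd p a l 0 v g) - negMulLog (Fv p a l 1 v)) ≤
    ∑ s, ∑ t, negMulLog (p s t) +
      ∑ s, ∑ t, p s t * log ((hv X s t).card.factorial : ℝ) := by
  have h1 : ∀ k ∈ range l,
      ∑ v ∈ X, (∑ g, negMulLog (fd p a l 0 v g) - negMulLog (Fv p a l 1 v)) +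
      (S.card * log ((k : ℝ) + 1) - ∑ s, ∑ z, mz p a l (k + 1) s z *
        ((hv X s z).card / ((k + 1 : ℕ) : ℝ) * log (hv X s z).card)) ≤
      (En p a l k - La p a l k) - (La p a l (k + 1) - La p a l k) := by
    intro k hk
    have hk' := mem_range.1 hk
    have hb := backward_heavy h hk' X
    have e1 : ∑ z, ∑ s, mz p a l (k + 1) s z * ((1 - (hv X s z).card / ((k + 1 : ℕ) : ℝ)) *
        log ((k + 1 : ℕ) : ℝ) + negMulLog ((hv X s z).card / ((k + 1 : ℕ) : ℝ))) =
        S.card * log ((k : ℝ) + 1) - ∑ s, ∑ z, mz p a l (k + 1) s z *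
        ((hv X s z).card / ((k + 1 : ℕ) : ℝ) * log (hv X s z).card) := by
      rw [← sum_mz h (by omega : k + 1 ≤ l), sum_mul, ← sum_sub_distrib, sum_comm]
      refine sum_congr rfl (fun s _ => ?_)
      rw [sum_mul, ← sum_sub_distrib]
      refine sum_congr rfl (fun z _ => ?_)
      rw [← mul_sub]
      congr 1
      have hk1 : ((k + 1 : ℕ) : ℝ) ≠ 0 := by positivity
      rcases Nat.eq_zero_or_pos (hv X s z).card with h0 | h0
      · rw [h0]; simp
      · have h2 : ((hv X s z).card : ℝ) ≠ 0 := by positivity
        rw [negMulLog, Real.log_div h2 hk1]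
        push_cast
        ring
    rw [e1] at hb
    linarith
  have h2 := sum_le_sum h1
  generalize ∑ v ∈ X, (∑ g, negMulLog (fd p a l 0 v g) - negMulLog (Fv p a l 1 v)) = Y at h2 ⊢
  have e2 : ∑ k ∈ range l, (Y + (S.card * log ((k : ℝ) + 1) -
      ∑ s, ∑ z, mz p a l (k + 1) s z *
        ((hv X s z).card / ((k + 1 : ℕ) : ℝ) * log (hv X s z).card))) =
      l * Y + S.card * ∑ k ∈ range l, log ((k : ℝ) + 1) -
      ∑ s, ∑ t, p s t * log ((hv X s t).card.factorial : ℝ) := by
    rw [sum_add_distrib, sum_const, card_range, nsmul_eq_mul, sum_sub_distrib, ← mul_sum,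
      sum_comm (s := range l), sum_congr rfl (fun s _ => tele_heavy h X s)]
    ring
  have e3 : ∑ k ∈ range l, ((En p a l k - La p a l k) - (La p a l (k + 1) - La p a l k)) =
      S.card * ∑ k ∈ range l, log ((k : ℝ) + 1) + ∑ s, ∑ t, negMulLog (p s t) := by
    rw [sum_sub_distrib, sum_forward h, sum_range_sub, La_zero h, La_last h]
    ring
  rw [e2, e3] at h2
  linarith

end MP_8b6acb_co
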