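import Mathlib
import Pool.Agent.Work.MP_8b6acb_co.Lower

/-! The sharp first layer theorem. -/

set_option linter.unusedSectionVars false

namespace MP_8b6acb_co

open Finset Real

variable {α : Type*} [Fintype α] [DecidableEq α]

theorem scale_entropy (X : Finset α) (y : α → ℝ) (hy : ∀ g ∈ X, 0 ≤ y g) {N : ℝ} (hN : 0 < N) :
    N * ∑ g ∈ X, negMulLog (y g / N) - N * negMulLog ((∑ g ∈ X, y g) / N) =
      ∑ g ∈ X, negMulLog (y g) - negMulLog (∑ g ∈ X, y g) := by
  have key : ∀ x : ℝ, 0 ≤ x → N * negMulLog (x / N) = negMulLog x + x * log N := by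
    intro x hx
    rcases eq_or_lt_of_le hx with h0 | h0
    · rw [← h0]; simp
    · rw [negMulLog, Real.log_div h0.ne' hN.ne', negMulLog]
      field_simp
      ring
  rw [mul_sum, sum_congr rfl (fun g hg => key (y g) (hy g hg)), sum_add_distrib, ← sum_mul,
    key _ (sum_nonneg hy)]
  ring

/-- The heavy directions at `s`. -/
def Hd (X : Finset (Finset α)) (s : Finset α) : Finset α :=
  univ.filter (fun g => g ∉ s ∧ insert g s ∈ X)

variable {a l : ℕ} {S T : Finset (Finset α)} {p : Finset α → Finset α → ℝ}

theorem yv_eq (h : Coup a (a + l) S T p) (s : Finset α) (g : α) :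
    ∑ t, (if g ∈ t then p s t else 0) = up p s (insert g s) := by
  unfold up
  refine sum_congr rfl (fun t _ => ?_)
  by_cases h0 : p s t = 0
  · rw [h0]; simp
  · have hst := (h.supp s t h0).2.2.1
    by_cases hg : g ∈ t
    · rw [if_pos hg, if_pos (insert_subset hg hst)]
    · rw [if_neg hg, if_neg (fun hx => hg (hx (mem_insert_self _ _)))]

/-- The upper bound for the conditional entropy of the target. -/
theorem upper_source (h : Coup a (a + l) S T p) (hl : 0 < l) {s : Finset α} (hs : s ∈ S)
    (X : Finset (Finset α)) :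
    ∑ t, negMulLog (p s t) ≤ ∑ g ∈ (Hd X s)ᶜ, binEntropy (up p s (insert g s)) +
      l * ∑ g ∈ Hd X s, negMulLog (up p s (insert g s) / l) -
      l * negMulLog ((∑ g ∈ Hd X s, up p s (insert g s)) / l) -
      ∑ t, p s t * log ((hv X s t).card.factorial : ℝ) := by
  have hlR : (0 : ℝ) < l := by exact_mod_cast hl
  have hN : (0 : ℝ) < ((a + l : ℕ) : ℝ) := by exact_mod_cast (by omega : 0 < a + l)
  have hU := upper_entropy (a + l) (by omega) (fun t => p s t) (fun t => h.nonneg s t)
    (fun t ht => (h.supp s t ht).2.2.2.2) (h.row s hs) (Hd X s)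
    (fun g => up p s (insert g s)) (fun g => (yv_eq h s g).symm)
    ((∑ g ∈ Hd X s, up p s (insert g s)) / ((a + l : ℕ) : ℝ))
    (by rw [mul_div_cancel₀ _ hN.ne'])
  have hsc := scale_entropy (Hd X s) (fun g => up p s (insert g s))
    (fun g _ => h.up_nonneg _ _) hN
  have hsc2 := scale_entropy (Hd X s) (fun g => up p s (insert g s))
    (fun g _ => h.up_nonneg _ _) hlR
  have hJ : ∑ t, p s t * log ((t ∩ Hd X s).card.factorial : ℝ) =
      ∑ t, p s t * log ((hv X s t).card.factorial : ℝ) := by
    refine sum_congr rfl (fun t _ => ?_)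
    have : t ∩ Hd X s = hv X s t := by
      unfold Hd hv
      ext g
      simp only [mem_inter, mem_filter, mem_univ, true_and, mem_sdiff]
      tauto
    rw [this]
  rw [hJ] at hU
  linarith

theorem sum_y (h : Coup a (a + l) S T p) {s : Finset α} (hs : s ∈ S) :
    ∑ g ∈ sᶜ, up p s (insert g s) = l := by
  have h1 := h.sum_cov_up s s
  have h2 : up p s s = 1 := by
    rw [← h.row s hs]
    unfold up
    refine sum_congr rfl (fun t _ => ?_)
    by_cases ht : s ⊆ t
    · rw [if_pos ht]
    · rw [if_neg ht]
      by_contra hne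
      exact ht (h.supp s t (Ne.symm hne)).2.2.1
  have h3 := (h.up_supp (s := s) (v := s) (by rw [h2]; norm_num)).2.1
  rw [h2, h3, ← sum_filter] at h1
  have h4 : univ.filter (fun g => g ∉ s) = sᶜ := by ext g; simp
  rw [h4] at h1
  rw [h1]
  push_cast
  ring

theorem up_self (h : Coup a (a + l) S T p) {s : Finset α} (hs : s ∈ S) : up p s s = 1 := by
  rw [← h.row s hs]
  unfold up
  refine sum_congr rfl (fun t _ => ?_)
  by_cases ht : s ⊆ t
  · rw [if_pos ht]
  · rw [if_neg ht]
    by_contra hne
    exact ht (h.supp s t (Ne.symm hne)).2.2.1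

/-- Reindexing of the first layer by heavy vertices. -/
theorem reidx_first (h : Coup a (a + l) S T p) (X : Finset (Finset α)) (H : ℝ → ℝ)
    (hH : H 0 = 0) :
    ∑ v ∈ X, ∑ g, H (fd p a l 0 v g) =
      ∑ s ∈ S, ∑ g ∈ Hd X s, H (up p s (insert g s) / l) := by
  have e1 : ∑ v ∈ X, ∑ g, H (fd p a l 0 v g) =
      ∑ g, ∑ v, (if g ∈ v then (if v ∈ X then H (fd p a l 0 v g) else 0) else 0) := by
    rw [sum_comm]
    refine sum_congr rfl (fun g _ => ?_)
    rw [← sum_subset (subset_univ X)]
    · refine sum_congr rfl (fun v hv => ?_)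
      by_cases hg : g ∈ v
      · rw [if_pos hg, if_pos hv]
      · rw [if_neg hg]
        unfold fd
        rw [if_neg (fun hx => hg hx.2), hH]
    · intro v _ hv
      rw [if_neg hv]
      split_ifs <;> rfl
  have e2 : ∑ s ∈ S, ∑ g ∈ Hd X s, H (up p s (insert g s) / l) =
      ∑ g, ∑ s, (if g ∉ s then (if insert g s ∈ X then H (fd p a l 0 (insert g s) g) else 0)
        else 0) := by
    rw [sum_comm (s := univ) (t := univ)]
    rw [← sum_subset (subset_univ S)]
    · refine sum_congr rfl (fun s hs => ?_)
      unfold Hd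
      rw [sum_filter]
      refine sum_congr rfl (fun g _ => ?_)
      have hsa := (h.up_supp (s := s) (v := s) (by rw [up_self h hs]; norm_num)).2.1
      by_cases hg : g ∉ s
      · by_cases hX : insert g s ∈ X
        · rw [if_pos ⟨hg, hX⟩, if_pos hg, if_pos hX]
          congr 1
          unfold fd
          rw [if_pos ⟨by rw [card_insert_of_notMem hg]; omega, mem_insert_self _ _⟩,
            erase_insert hg, h.pw_eq_up hsa, cc_zero]
          ring
        · rw [if_neg (fun hx => hX hx.2), if_pos hg, if_neg hX]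
      · rw [if_neg (fun hx => hg hx.1), if_neg hg]
    · intro s _ hs
      apply sum_eq_zero
      intro g _
      by_cases hg : g ∉ s
      · rw [if_pos hg]
        split_ifs
        · have : fd p a l 0 (insert g s) g = 0 := by
            unfold fd
            split_ifs with hc
            · have hsa : s.card = a := by
                have := hc.1
                rw [card_insert_of_notMem hg] at this
                omega
              rw [erase_insert hg, h.pw_eq_up hsa]
              have : up p s (insert g s) = 0 := by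
                by_contra hne
                exact hs (h.up_supp hne).1
              rw [this, mul_zero]
            · rfl
          rw [this, hH]
        · rfl
      · rw [if_neg hg]
  rw [e1, e2]
  refine sum_congr rfl (fun g _ => ?_)
  rw [reindexN g]

/-- The inequality (GI). -/
theorem gi (h : Coup a (a + l) S T p) (hl : 0 < l) (X : Finset (Finset α)) :
    - (l * ∑ v ∈ X, negMulLog (Fv p a l 1 v)) ≤
      ∑ s ∈ S, (∑ g ∈ (Hd X s)ᶜ, binEntropy (up p s (insert g s)) -
        l * negMulLog ((∑ g ∈ Hd X s, up p s (insert g s)) / l)) := by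
  have hL := lower_entropy h X
  have hU := sum_le_sum (fun s (hs : s ∈ S) => upper_source h hl hs X)
  have e0 : ∀ s, s ∉ S → ∀ t, p s t = 0 := by
    intro s hs t
    by_contra hne
    exact hs (h.supp s t hne).1
  have e1 : ∑ s, ∑ t, negMulLog (p s t) = ∑ s ∈ S, ∑ t, negMulLog (p s t) := by
    symm
    apply sum_subset (subset_univ S)
    intro s _ hs
    exact sum_eq_zero (fun t _ => by rw [e0 s hs t, negMulLog_zero])
  have e2 : ∑ s, ∑ t, p s t * log ((hv X s t).card.factorial : ℝ) =
      ∑ s ∈ S, ∑ t, p s t * log ((hv X s t).card.factorial : ℝ) := by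
    symm
    apply sum_subset (subset_univ S)
    intro s _ hs
    exact sum_eq_zero (fun t _ => by rw [e0 s hs t, zero_mul])
  have e3 := reidx_first h X negMulLog negMulLog_zero
  rw [sum_sub_distrib, e3] at hL
  rw [e1, e2] at hL
  simp only [sum_sub_distrib, sum_add_distrib, ← mul_sum] at hU ⊢
  linarith

theorem sum_Fv_heavy (h : Coup a (a + l) S T p) (hl : 0 < l) (X : Finset (Finset α)) :
    ∑ v ∈ X, Fv p a l 1 v = ∑ s ∈ S, (∑ g ∈ Hd X s, up p s (insert g s)) / l := by
  have e3 := reidx_first h X (fun x => x) rfl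
  rw [← sum_congr rfl (fun v _ => sum_fd h hl v), e3]
  refine sum_congr rfl (fun s _ => ?_)
  rw [sum_div]

/-- The sharp inequality when every source has at most `l` light directions. -/
theorem first_layer_aux (h : Coup a (a + l) S T p) (hl : 0 < l) (X : Finset (Finset α))
    (b : Finset α → ℕ) (hb : ∀ s ∈ S, b s ≤ l)
    (hb2 : ∀ s ∈ S, (univ.filter (fun g => g ∉ s ∧ insert g s ∉ X ∧
      up p s (insert g s) ≠ 0)).card ≤ b s) :
    l * S.card ≤ l * X.card + ∑ s ∈ S, b s := by
  have hlR : (0 : ℝ) < l := by exact_mod_cast hl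
  have hgi := gi h hl X
  have hF := sum_Fv_heavy h hl X
  have h1 : ∑ v ∈ X, Fv p a l 1 v - X.card ≤ -∑ v ∈ X, negMulLog (Fv p a l 1 v) := by
    have : ∀ v ∈ X, Fv p a l 1 v - 1 ≤ - negMulLog (Fv p a l 1 v) := by
      intro v _
      have := mul_log_ge_sub_one (Fv_nonneg h 1 v)
      rw [negMulLog]
      linarith
    have := sum_le_sum this
    rw [sum_sub_distrib, sum_neg_distrib, sum_const, nsmul_eq_mul, mul_one] at this
    exact this
  have h2 : ∀ s ∈ S, (l : ℝ) - b s ≤ l * ((∑ g ∈ Hd X s, up p s (insert g s)) / l) -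
      (∑ g ∈ (Hd X s)ᶜ, binEntropy (up p s (insert g s)) -
        l * negMulLog ((∑ g ∈ Hd X s, up p s (insert g s)) / l)) := by
    intro s hs
    set L := univ.filter (fun g => g ∉ s ∧ insert g s ∉ X ∧ up p s (insert g s) ≠ 0) with hLdef
    have hy1 : ∀ g, up p s (insert g s) ≤ 1 := fun g => h.up_le_one _ _
    have hLb : (L.card : ℝ) ≤ b s := by exact_mod_cast hb2 s hs
    have hbl : (b s : ℝ) ≤ l := by exact_mod_cast hb s hs
    have hc := light_calc L (fun g => up p s (insert g s)) (fun g _ => h.up_nonneg _ _)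
      (fun g _ => hy1 g) hlR (hLb.trans hbl)
      (w := (∑ g ∈ Hd X s, up p s (insert g s)) / l) (by
        rw [mul_div_cancel₀ _ hlR.ne']
        have e1 := sum_y h hs
        have e2 : sᶜ = Hd X s ∪ (sᶜ).filter (fun g => insert g s ∉ X) := by
          ext g
          simp only [Hd, mem_union, mem_filter, mem_univ, true_and, mem_compl]
          tauto
        have e3 : Disjoint (Hd X s) ((sᶜ).filter (fun g => insert g s ∉ X)) := by
          rw [Finset.disjoint_left]
          intro g hg hg2
          simp only [Hd, mem_filter, mem_univ, true_and] at hg hg2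
          exact hg2.2 hg.2
        rw [e2, sum_union e3] at e1
        have e4 : ∑ g ∈ (sᶜ).filter (fun g => insert g s ∉ X), up p s (insert g s) =
            ∑ g ∈ L, up p s (insert g s) := by
          symm
          apply sum_subset
          · intro g hg
            simp only [hLdef, mem_filter, mem_univ, true_and, mem_compl] at hg ⊢
            exact ⟨hg.1, hg.2.1⟩
          · intro g hg hg2
            simp only [hLdef, mem_filter, mem_univ, true_and, mem_compl] at hg hg2
            by_contra hne
            exact hg2 ⟨hg.1, hg.2, hne⟩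
        rw [e4] at e1
        exact e1)
    have e5 : ∑ g ∈ (Hd X s)ᶜ, binEntropy (up p s (insert g s)) =
        ∑ g ∈ L, binEntropy (up p s (insert g s)) := by
      symm
      apply sum_subset
      · intro g hg
        simp only [hLdef, mem_filter, mem_univ, true_and] at hg
        simp only [Hd, mem_compl, mem_filter, mem_univ, true_and, not_and]
        exact fun _ => hg.2.1
      · intro g hg hg2
        simp only [hLdef, mem_filter, mem_univ, true_and] at hg2
        simp only [Hd, mem_compl, mem_filter, mem_univ, true_and, not_and] at hg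
        by_cases hgs : g ∈ s
        · rw [insert_eq_self.2 hgs, up_self h hs]
          simp
        · have : up p s (insert g s) = 0 := by
            by_contra hne
            exact hg2 ⟨hgs, hg hgs, hne⟩
          rw [this]
          simp
    rw [e5]
    linarith
  have h3 := sum_le_sum h2
  rw [sum_sub_distrib, sum_sub_distrib, ← mul_sum, ← hF, sum_const, nsmul_eq_mul] at h3
  have h4 : (l : ℝ) * S.card ≤ l * X.card + ∑ s ∈ S, (b s : ℝ) := by
    have h5 := mul_le_mul_of_nonneg_left h1 hlR.le
    linarith
  have h6 : ((l * S.card : ℕ) : ℝ) ≤ ((l * X.card + ∑ s ∈ S, b s : ℕ) : ℝ) := by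
    push_cast
    exact h4
  exact_mod_cast h6

/-- **The sharp first layer theorem**, in terms of heavy vertices. -/
theorem first_layer_heavy {φ : Finset α → Finset α} (hl : 0 < l) (hm : Mat a (a + l) S φ)
    (X : Finset (Finset α)) :
    l * S.card ≤ l * X.card + ∑ s ∈ S, (univ.filter (fun g => g ∉ s ∧ insert g s ∉ X ∧
      ∃ s' ∈ S, insert g s ⊆ φ s')).card := by
  set B : Finset α → ℕ := fun s => (univ.filter (fun g => g ∉ s ∧ insert g s ∉ X ∧
      ∃ s' ∈ S, insert g s ⊆ φ s')).card with hB
  set S' := S.filter (fun s => B s ≤ l) with hS'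
  have hm' : Mat a (a + l) S' φ :=
    ⟨fun s hs => hm.cS s (filter_subset _ _ hs), fun s hs => hm.cT s (filter_subset _ _ hs),
      hm.inj.mono (coe_subset.2 (filter_subset _ _)), fun s hs => hm.sub s (filter_subset _ _ hs)⟩
  obtain ⟨p, h⟩ := exists_coup hm'
  have haux := first_layer_aux h hl X B (fun s hs => (mem_filter.1 hs).2) (fun s _ => by
    apply card_le_card
    intro g hg
    simp only [mem_filter, mem_univ, true_and] at hg ⊢
    refine ⟨hg.1, hg.2.1, ?_⟩
    obtain ⟨_, _, t, ht, hvt, _⟩ := h.up_supp hg.2.2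
    obtain ⟨s', hs', rfl⟩ := mem_image.1 ht
    exact ⟨s', filter_subset _ _ hs', hvt⟩)
  have h1 := card_filter_add_card_filter_not (s := S) (fun s => B s ≤ l)
  have h2 : ∑ s ∈ S, B s = ∑ s ∈ S', B s + ∑ s ∈ S.filter (fun s => ¬ B s ≤ l), B s :=
    (sum_filter_add_sum_filter_not S _ _).symm
  have h3 : (S.filter (fun s => ¬ B s ≤ l)).card * l ≤
      ∑ s ∈ S.filter (fun s => ¬ B s ≤ l), B s := by
    rw [← smul_eq_mul, ← sum_const]
    refine sum_le_sum (fun s hs => ?_)
    have := (mem_filter.1 hs).2
    omega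
  have h4 : l * S.card = l * S'.card + (S.filter (fun s => ¬ B s ≤ l)).card * l := by
    rw [← h1, Nat.mul_add, Nat.mul_comm l (S.filter (fun s => ¬ B s ≤ l)).card]
  rw [h2, h4]
  linarith

/-- **Sharp first layer theorem.** -/
theorem first_layer_sharp {q : ℕ} {φ : Finset α → Finset α} (hl : q ≤ l)
    (hm : Mat a (a + l) S φ) (L : Finset (Finset α))
    (hL : ∀ v : Finset α, v.card = a + 1 → (∃ s ∈ S, v ⊆ φ s) → v ∈ L) :
    q * S.card ≤ ∑ v ∈ L, min q (dg S v) := by
  rcases Nat.eq_zero_or_pos l with h0 | h0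
  · have : q = 0 := by omega
    rw [this]; simp
  · have hh := first_layer_heavy h0 hm (L.filter (fun v => l ≤ dg S v))
    have h1 : ∑ s ∈ S, (univ.filter (fun g => g ∉ s ∧ insert g s ∉ L.filter
        (fun v => l ≤ dg S v) ∧ ∃ s' ∈ S, insert g s ⊆ φ s')).card ≤
        ∑ v ∈ L.filter (fun v => ¬ l ≤ dg S v), dg S v := by
      unfold dg
      rw [← card_sigma, ← card_sigma]
      refine card_le_card_of_injOn (fun x => ⟨insert x.2 x.1, x.2⟩) ?_ ?_
      · rintro ⟨s, g⟩ hx
        simp only [coe_sigma, Set.mem_sigma_iff, mem_coe, mem_filter, mem_univ, true_and] at hx ⊢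
        obtain ⟨hs, hg, hX, hex⟩ := hx
        have hLv : insert g s ∈ L := hL _ (by rw [card_insert_of_notMem hg, hm.cS s hs]) hex
        refine ⟨⟨hLv, fun hle => hX ⟨hLv, hle⟩⟩, mem_insert_self _ _, ?_⟩
        rwa [erase_insert hg]
      · rintro ⟨s, g⟩ hx ⟨s', g'⟩ hx' he
        simp only [coe_sigma, Set.mem_sigma_iff, mem_coe, mem_filter, mem_univ, true_and] at hx hx'
        simp only [Sigma.mk.injEq, heq_eq_eq] at he
        obtain ⟨he1, rfl⟩ := he
        rw [← erase_insert hx.2.1, ← erase_insert hx'.2.1, he1]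
    have h2 : l * S.card ≤ ∑ v ∈ L, min l (dg S v) := by
      rw [← sum_filter_add_sum_filter_not L (fun v => l ≤ dg S v)]
      have e1 : ∑ v ∈ L.filter (fun v => l ≤ dg S v), min l (dg S v) =
          (L.filter (fun v => l ≤ dg S v)).card * l := by
        rw [← smul_eq_mul, ← sum_const]
        exact sum_congr rfl (fun v hv => min_eq_left (mem_filter.1 hv).2)
      have e2 : ∑ v ∈ L.filter (fun v => ¬ l ≤ dg S v), min l (dg S v) =
          ∑ v ∈ L.filter (fun v => ¬ l ≤ dg S v), dg S v :=
        sum_congr rfl (fun v hv => min_eq_right (by have := (mem_filter.1 hv).2; omega))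
      rw [e1, e2]
      nlinarith
    -- from `l` to `q`
    have h3 : ∀ v ∈ L, q * min l (dg S v) ≤ l * min q (dg S v) := by
      intro v _
      rcases le_total q (dg S v) with h4 | h4
      · rw [min_eq_left h4]
        have : min l (dg S v) ≤ l := min_le_left _ _
        nlinarith
      · rw [min_eq_right h4, min_eq_right (h4.trans hl)]
        nlinarith
    have h5 := sum_le_sum h3
    rw [← mul_sum, ← mul_sum] at h5
    have h6 : l * (q * S.card) ≤ l * ∑ v ∈ L, min q (dg S v) := by
      calc l * (q * S.card) = q * (l * S.card) := by ring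
        _ ≤ q * ∑ v ∈ L, min l (dg S v) := Nat.mul_le_mul_left _ h2
        _ ≤ _ := h5
    exact Nat.le_of_mul_le_mul_left h6 h0

end MP_8b6acb_co
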